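import Mathlib

/-!
# Deformations of the identity of `k[x, y]` and what they fix
-/

set_option autoImplicit false

namespace Pool.Agent.Lib.MP_551055_al.JK

open MvPolynomial

/-- `k[x, y]`. -/
abbrev P2 (k : Type) [CommRing k] : Type := MvPolynomial (Fin 2) k

/-- `k[x, y, s]`. -/
abbrev P3 (k : Type) [CommRing k] : Type := MvPolynomial (Fin 3) k

section Basic

variable (k : Type) [CommRing k]

/-- The inclusion of `k[x, y]` in `k[x, y, s]`. -/
noncomputable def inc : P2 k →ₐ[k] P3 k := aeval ![X 0, X 1]

/-- `s = 0`. -/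
noncomputable def ev : P3 k →ₐ[k] P2 k := aeval ![X 0, X 1, 0]

/-- `k[x, y, s]` as polynomials in `s`. -/
noncomputable def tp : P3 k →ₐ[k] Polynomial (P2 k) :=
  aeval ![Polynomial.C (X 0), Polynomial.C (X 1), Polynomial.X]

/-- The inverse of `tp`. -/
noncomputable def bk : Polynomial (P2 k) →+* P3 k := Polynomial.eval₂RingHom (inc k : P2 k →+* P3 k) (X 2)

variable {k}

theorem inc_X0 : inc k (X 0) = X 0 := by simp [inc]

theorem inc_X1 : inc k (X 1) = X 1 := by simp [inc]

theorem ev_inc (A : P2 k) : ev k (inc k A) = A := by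
  have h : (ev k).comp (inc k) = AlgHom.id k (P2 k) := by
    refine MvPolynomial.algHom_ext fun i => ?_
    fin_cases i <;> simp [ev, inc]
  exact DFunLike.congr_fun h A

theorem tp_inc (A : P2 k) : tp k (inc k A) = Polynomial.C A := by
  have h : (tp k).comp (inc k) = (Polynomial.CAlgHom : P2 k →ₐ[k] Polynomial (P2 k)) := by
    refine MvPolynomial.algHom_ext fun i => ?_
    fin_cases i <;> simp [tp, inc, Polynomial.CAlgHom]
  exact DFunLike.congr_fun h A

theorem bk_C (A : P2 k) : bk k (Polynomial.C A) = inc k A := by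
  simp [bk]

theorem bk_tp (A : P3 k) : bk k (tp k A) = A := by
  have h : (bk k).comp ((tp k : P3 k →ₐ[k] Polynomial (P2 k)) : P3 k →+* Polynomial (P2 k)) =
      RingHom.id (P3 k) := by
    refine MvPolynomial.ringHom_ext (fun c => ?_) fun i => ?_
    · have h1 : tp k (C c) = Polynomial.C (C c) := by
        rw [show (C c : P3 k) = algebraMap k (P3 k) c from rfl, AlgHom.commutes]
        rfl
      show bk k (tp k (C c)) = C c
      rw [h1, bk_C, show (C c : P2 k) = algebraMap k (P2 k) c from rfl, AlgHom.commutes]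
      rfl
    · fin_cases i <;> simp [tp, bk, inc]
  exact DFunLike.congr_fun h A

theorem tp_injective : Function.Injective (tp k) := fun A B h => by
  rw [← bk_tp A, ← bk_tp B, h]

end Basic

/-- A deformation of the identity. -/
def IsDef {k : Type} [CommRing k] (t : P2 k →ₐ[k] P3 k) : Prop := ∀ A, ev k (t A) = A

section Def

variable {k : Type} [Field k] {t : P2 k →ₐ[k] P3 k}

/-- The degree in `s`. -/
noncomputable def ds (A : P3 k) : ℕ := (tp k A).natDegree

theorem eq_inc_of_ds (ht : IsDef t) {A : P2 k} (h : ds (t A) = 0) : t A = inc k A := by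
  obtain ⟨b, hb⟩ := Polynomial.natDegree_eq_zero.1 h
  have h1 : t A = inc k b := by rw [← bk_tp (t A), ← hb, bk_C]
  have h2 : b = A := by rw [← ht A, h1, ev_inc]
  rw [h1, h2]

theorem ds_inc (A : P2 k) : ds (inc k A) = 0 := by
  rw [ds, tp_inc, Polynomial.natDegree_C]

theorem ds_mul {A B : P3 k} (hA : A ≠ 0) (hB : B ≠ 0) : ds (A * B) = ds A + ds B := by
  rw [ds, map_mul, Polynomial.natDegree_mul]
  · rfl
  · exact fun h => hA (tp_injective (by rw [h, map_zero]))
  · exact fun h => hB (tp_injective (by rw [h, map_zero]))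

theorem ds_pow (A : P3 k) (n : ℕ) : ds (A ^ n) = n * ds A := by
  rw [ds, map_pow, Polynomial.natDegree_pow]
  rfl

theorem IsDef.ne_zero (ht : IsDef t) {A : P2 k} (hA : A ≠ 0) : t A ≠ 0 := fun h => hA (by
  rw [← ht A, h, map_zero])

/-- Factors of fixed elements are fixed. -/
theorem fixed_of_mul (ht : IsDef t) {A B : P2 k} (h0 : A * B ≠ 0)
    (h : t (A * B) = inc k (A * B)) : t A = inc k A := by
  have hA : A ≠ 0 := left_ne_zero_of_mul h0
  have hB : B ≠ 0 := right_ne_zero_of_mul h0
  refine eq_inc_of_ds ht ?_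
  have h1 : ds (t A) + ds (t B) = 0 := by
    rw [← ds_mul (ht.ne_zero hA) (ht.ne_zero hB), ← map_mul, h, ds_inc]
  omega

theorem fixed_of_dvd (ht : IsDef t) {A B : P2 k} (h0 : B ≠ 0) (hd : A ∣ B)
    (h : t B = inc k B) : t A = inc k A := by
  obtain ⟨D, rfl⟩ := hd
  exact fixed_of_mul ht h0 h

theorem eq_inc_of_X (h0 : t (X 0) = inc k (X 0)) (h1 : t (X 1) = inc k (X 1)) : t = inc k := by
  refine MvPolynomial.algHom_ext fun i => ?_
  fin_cases i
  · exact h0
  · exact h1

end Def

/-- A form of the theorem of Mason and Stothers. -/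
theorem const_of_pow {K : Type} [Field K] (u v : ℕ) (hu : 2 ≤ u) (hv : 2 ≤ v) (hu0 : (u : K) ≠ 0)
    (hv0 : (v : K) ≠ 0) (g c : K) (hg : g ≠ 0) (hc : c ≠ 0) : ∀ (n : ℕ) (p q : Polynomial K),
    p.natDegree = n → p ^ u - Polynomial.C g * q ^ v = Polynomial.C c → p.natDegree = 0 := by
  intro n
  induction n using Nat.strong_induction_on with
  | _ n ih =>
    intro p q hn h
    by_contra hne
    have hpu : (p ^ u).natDegree = u * p.natDegree := Polynomial.natDegree_pow _ _
    have hgq : (Polynomial.C g * q ^ v).natDegree = v * q.natDegree := by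
      rw [Polynomial.natDegree_C_mul hg, Polynomial.natDegree_pow]
    have hdeg : u * p.natDegree = v * q.natDegree := by
      have h1 : p ^ u = Polynomial.C g * q ^ v + Polynomial.C c := by rw [← h]; ring
      rw [← hpu, h1, Polynomial.natDegree_add_C, hgq]
    have hp0 : p ≠ 0 := fun h1 => hne (by rw [h1, Polynomial.natDegree_zero])
    have hqd : q.natDegree ≠ 0 := by
      intro h1
      rw [h1, mul_zero] at hdeg
      rcases Nat.mul_eq_zero.1 hdeg with h2 | h2
      · omega
      · exact hne h2
    have hq0 : q ≠ 0 := fun h1 => hqd (by rw [h1, Polynomial.natDegree_zero])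
    -- coprime
    have hcop : IsCoprime (p ^ u) (q ^ v) := by
      refine ⟨Polynomial.C c⁻¹, - Polynomial.C (c⁻¹ * g), ?_⟩
      have h1 : Polynomial.C c⁻¹ * p ^ u + -Polynomial.C (c⁻¹ * g) * q ^ v =
          Polynomial.C c⁻¹ * (p ^ u - Polynomial.C g * q ^ v) := by
        rw [Polynomial.C_mul]; ring
      rw [h1, h, ← Polynomial.C_mul, inv_mul_cancel₀ hc, Polynomial.C_1]
    have hcop1 : IsCoprime p q := (IsCoprime.pow_iff (by omega) (by omega)).1 hcop
    -- derivative
    have hder : Polynomial.C (u : K) * p ^ (u - 1) * Polynomial.derivative p =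
        Polynomial.C (g * v) * q ^ (v - 1) * Polynomial.derivative q := by
      have h1 := congrArg Polynomial.derivative h
      rw [Polynomial.derivative_sub, Polynomial.derivative_pow, Polynomial.derivative_C_mul,
        Polynomial.derivative_pow, Polynomial.derivative_C] at h1
      have h2 := sub_eq_zero.1 h1
      rw [Polynomial.C_mul]
      linear_combination h2
    have hd1 : p ^ (u - 1) ∣ Polynomial.derivative q := by
      have h1 : p ^ (u - 1) ∣ Polynomial.C (g * v) * (q ^ (v - 1) * Polynomial.derivative q) := by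
        rw [← mul_assoc, ← hder]
        exact ⟨Polynomial.C (u : K) * Polynomial.derivative p, by ring⟩
      have h2 : IsUnit (Polynomial.C (g * (v : K))) :=
        Polynomial.isUnit_C.2 (isUnit_iff_ne_zero.2 (mul_ne_zero hg hv0))
      have h3 := (h2.dvd_mul_left).1 h1
      exact (hcop1.pow_left.pow_right).dvd_of_dvd_mul_left h3
    have hd2 : q ^ (v - 1) ∣ Polynomial.derivative p := by
      have h1 : q ^ (v - 1) ∣ Polynomial.C (u : K) * (p ^ (u - 1) * Polynomial.derivative p) := by
        rw [← mul_assoc, hder]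
        exact ⟨Polynomial.C (g * v) * Polynomial.derivative q, by ring⟩
      have h2 : IsUnit (Polynomial.C (u : K)) :=
        Polynomial.isUnit_C.2 (isUnit_iff_ne_zero.2 hu0)
      have h3 := (h2.dvd_mul_left).1 h1
      exact (hcop1.symm.pow_left.pow_right).dvd_of_dvd_mul_left h3
    have hz : Polynomial.derivative p = 0 ∧ Polynomial.derivative q = 0 := by
      by_cases hp' : Polynomial.derivative p = 0
      · refine ⟨hp', ?_⟩
        rw [hp', mul_zero] at hder
        have h1 : Polynomial.C (g * (v : K)) * q ^ (v - 1) ≠ 0 :=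
          mul_ne_zero (Polynomial.C_ne_zero.2 (mul_ne_zero hg hv0)) (pow_ne_zero _ hq0)
        rcases mul_eq_zero.1 hder.symm with h2 | h2
        · exact absurd h2 h1
        · exact h2
      · exfalso
        have hq' : Polynomial.derivative q ≠ 0 := by
          intro h1
          rw [h1, mul_zero] at hder
          have h2 : Polynomial.C (u : K) * p ^ (u - 1) ≠ 0 :=
            mul_ne_zero (Polynomial.C_ne_zero.2 hu0) (pow_ne_zero _ hp0)
          rcases mul_eq_zero.1 hder with h3 | h3
          · exact h2 h3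
          · exact hp' h3
        have h1 := Polynomial.natDegree_le_of_dvd hd1 hq'
        have h2 := Polynomial.natDegree_le_of_dvd hd2 hp'
        rw [Polynomial.natDegree_pow] at h1 h2
        have h3 := Polynomial.natDegree_derivative_lt hqd
        have h4 := Polynomial.natDegree_derivative_lt hne
        have h5 : p.natDegree ≤ (u - 1) * p.natDegree := Nat.le_mul_of_pos_left _ (by omega)
        have h6 : q.natDegree ≤ (v - 1) * q.natDegree := Nat.le_mul_of_pos_left _ (by omega)
        omega
    -- Frobenius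
    obtain ⟨l, hl⟩ := CharP.exists K
    rcases Nat.eq_zero_or_pos l with h0 | h0
    · subst h0
      have : CharZero K := CharP.charP_to_charZero K
      exact hne (Polynomial.derivative_eq_zero.1 hz.1)
    · have hlp : l.Prime := (CharP.char_is_prime_or_zero K l).resolve_right (by omega)
      have e1 := Polynomial.expand_contract l hz.1 hlp.ne_zero
      have e2 := Polynomial.expand_contract l hz.2 hlp.ne_zero
      have e3 : Polynomial.contract l p ^ u - Polynomial.C g * Polynomial.contract l q ^ v =
          Polynomial.C c := by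
        apply Polynomial.expand_injective hlp.pos
        rw [map_sub, map_mul, map_pow, map_pow, e1, e2, Polynomial.expand_C, Polynomial.expand_C, h]
      have e4 : (Polynomial.contract l p).natDegree * l = p.natDegree := by
        rw [← Polynomial.natDegree_expand, e1]
      have e5 : (Polynomial.contract l p).natDegree < n := by
        rw [← hn, ← e4]
        rcases Nat.eq_zero_or_pos (Polynomial.contract l p).natDegree with h6 | h6
        · exact absurd (by rw [← e4, h6, zero_mul]) hne
        · nlinarith [hlp.one_lt]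
      have e6 := ih _ e5 (Polynomial.contract l p) (Polynomial.contract l q) rfl e3
      exact hne (by rw [← e4, e6, zero_mul])

section Binomial

variable {k : Type} [Field k] {t : P2 k →ₐ[k] P3 k}

theorem cast_ne {A : Type} [CommRing A] [IsDomain A] [Algebra k A] {n : ℕ} (h : (n : k) ≠ 0) :
    (n : A) ≠ 0 := by
  intro h1
  apply h
  apply (algebraMap k A).injective
  rw [map_natCast, h1, map_zero]

theorem cast_eq {A : Type} [CommRing A] [Algebra k A] {n : ℕ} (h : (n : k) = 0) :
    (n : A) = 0 := by
  rw [← map_natCast (algebraMap k A) n, h, map_zero]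

/-- If a nontrivial deformation fixes `x ^ u - g y ^ v`, `u` and `v` coprime, then `u = 1` or
`v = 1`. -/
theorem one_of_fixed (ht : IsDef t) (hne : t ≠ inc k) (u v : ℕ) (hu : 1 ≤ u) (hv : 1 ≤ v)
    (huv : Nat.Coprime u v) (g : k) (hg : g ≠ 0)
    (h : t (X 0 ^ u - C g * X 1 ^ v) = inc k (X 0 ^ u - C g * X 1 ^ v)) : u = 1 ∨ v = 1 := by
  by_contra hcon
  push Not at hcon
  have hu2 : 2 ≤ u := by omega
  have hv2 : 2 ≤ v := by omega
  obtain ⟨Xt, hXt⟩ : ∃ Z, Z = t (X 0) := ⟨_, rfl⟩
  obtain ⟨Yt, hYt⟩ : ∃ Z, Z = t (X 1) := ⟨_, rfl⟩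
  have hCt : t (C g) = C g := t.commutes g
  have hCi : inc k (C g) = C g := (inc k).commutes g
  have hA : (X 0 ^ u - C g * X 1 ^ v : P2 k) ≠ 0 := by
    intro h1
    have h2 := congrArg (coeff (Finsupp.single 0 u)) h1
    rw [coeff_sub, coeff_C_mul, coeff_X_pow, coeff_X_pow, coeff_zero, if_pos rfl, if_neg] at h2
    · simp at h2
    · intro h3
      have := DFunLike.congr_fun h3 0
      simp at this
      omega
  -- the equation in `k[x, y][s]`
  have htp : tp k Xt ^ u - Polynomial.C (C g) * tp k Yt ^ v =
      Polynomial.C (X 0 ^ u - C g * X 1 ^ v) := by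
    have h1 := congrArg (tp k) h
    rw [tp_inc, map_sub, map_mul, map_pow, map_pow, hCt, ← hXt, ← hYt, map_sub, map_mul, map_pow,
      map_pow] at h1
    rw [← h1]
    congr 2
    have h2 : tp k (C g) = Polynomial.C (C g) := by
      rw [← hCi, tp_inc]
    rw [h2]
  have hdeg : u * ds Xt = v * ds Yt := by
    have h1 : tp k Xt ^ u = Polynomial.C (C g) * tp k Yt ^ v +
        Polynomial.C (X 0 ^ u - C g * X 1 ^ v) := by rw [← htp]; ring
    have h2 := congrArg Polynomial.natDegree h1
    rw [Polynomial.natDegree_add_C, Polynomial.natDegree_C_mul (C_ne_zero.2 hg),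
      Polynomial.natDegree_pow, Polynomial.natDegree_pow] at h2
    exact h2
  have hX : ds Xt ≠ 0 := by
    intro h1
    rw [h1, mul_zero] at hdeg
    have h2 : ds Yt = 0 := by
      rcases Nat.mul_eq_zero.1 hdeg.symm with h3 | h3
      · omega
      · exact h3
    exact hne (eq_inc_of_X (eq_inc_of_ds ht (hXt ▸ h1)) (eq_inc_of_ds ht (hYt ▸ h2)))
  have hY : ds Yt ≠ 0 := by
    intro h1
    rw [h1, mul_zero] at hdeg
    rcases Nat.mul_eq_zero.1 hdeg with h3 | h3
    · omega
    · exact hX h3
  have h3 : Xt ^ u - C g * Yt ^ v = X 0 ^ u - C g * X 1 ^ v := by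
    have h1 := h
    rw [map_sub, map_mul, map_pow, map_pow, hCt, ← hXt, ← hYt, map_sub, map_mul, map_pow,
      map_pow, hCi, inc_X0, inc_X1] at h1
    exact h1
  by_cases hu0 : (u : k) = 0
  · have hv0 : (v : k) ≠ 0 := by
      intro h4
      obtain ⟨a, b, hab⟩ := Nat.isCoprime_iff_coprime.2 huv
      have h5 := congrArg (fun z : ℤ => (z : k)) hab
      push_cast at h5
      rw [hu0, h4] at h5
      simp at h5
    have h4 := congrArg (pderiv (1 : Fin 3)) h3
    rw [map_sub, map_sub, Derivation.leibniz_pow, Derivation.leibniz_pow, Derivation.leibniz,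
      Derivation.leibniz, Derivation.leibniz_pow, Derivation.leibniz_pow, pderiv_C, pderiv_X_self] at h4
    simp only [smul_eq_mul, nsmul_eq_mul, cast_eq (A := P3 k) hu0, zero_mul, mul_zero, zero_sub,
      add_zero, mul_one, neg_inj] at h4
    have h5 : (C g * (v : P3 k)) * (Yt ^ (v - 1) * pderiv 1 Yt) = (C g * (v : P3 k)) * X 1 ^ (v - 1) := by
      linear_combination h4
    have h6 := mul_left_cancel₀ (mul_ne_zero (C_ne_zero.2 hg) (cast_ne (A := P3 k) hv0)) h5
    have h7 : Yt ^ (v - 1) * pderiv 1 Yt = inc k (X 1 ^ (v - 1)) := by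
      rw [h6, map_pow, inc_X1]
    have h8 : Yt ^ (v - 1) * pderiv 1 Yt ≠ 0 := by
      rw [h6]
      exact pow_ne_zero _ (X_ne_zero _)
    have h9 := congrArg ds h7
    rw [ds_inc, ds_mul (left_ne_zero_of_mul h8) (right_ne_zero_of_mul h8), ds_pow] at h9
    have h10 : (v - 1) * ds Yt = 0 := by omega
    rcases Nat.mul_eq_zero.1 h10 with h11 | h11
    · omega
    · exact hY h11
  · by_cases hv0 : (v : k) = 0
    · have h4 := congrArg (pderiv (0 : Fin 3)) h3
      rw [map_sub, map_sub, Derivation.leibniz_pow, Derivation.leibniz_pow, Derivation.leibniz,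
        Derivation.leibniz, Derivation.leibniz_pow, Derivation.leibniz_pow, pderiv_C,
        pderiv_X_self] at h4
      simp only [smul_eq_mul, nsmul_eq_mul, cast_eq (A := P3 k) hv0, zero_mul, mul_zero, sub_zero,
        add_zero, mul_one] at h4
      have h5 : (u : P3 k) * (Xt ^ (u - 1) * pderiv 0 Xt) = (u : P3 k) * X 0 ^ (u - 1) := by
        linear_combination h4
      have h6 := mul_left_cancel₀ (cast_ne (A := P3 k) hu0) h5
      have h7 : Xt ^ (u - 1) * pderiv 0 Xt = inc k (X 0 ^ (u - 1)) := by
        rw [h6, map_pow, inc_X0]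
      have h8 : Xt ^ (u - 1) * pderiv 0 Xt ≠ 0 := by
        rw [h6]
        exact pow_ne_zero _ (X_ne_zero _)
      have h9 := congrArg ds h7
      rw [ds_inc, ds_mul (left_ne_zero_of_mul h8) (right_ne_zero_of_mul h8), ds_pow] at h9
      have h10 : (u - 1) * ds Xt = 0 := by omega
      rcases Nat.mul_eq_zero.1 h10 with h11 | h11
      · omega
      · exact hX h11
    · -- both exponents are invertible
      have hinj : Function.Injective (algebraMap (P2 k) (FractionRing (P2 k))) :=
        IsFractionRing.injective _ _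
      have h4 := congrArg (Polynomial.map (algebraMap (P2 k) (FractionRing (P2 k)))) htp
      rw [Polynomial.map_sub, Polynomial.map_mul, Polynomial.map_pow, Polynomial.map_pow,
        Polynomial.map_C, Polynomial.map_C] at h4
      have h5 := const_of_pow u v hu2 hv2 (cast_ne (A := FractionRing (P2 k)) hu0)
        (cast_ne (A := FractionRing (P2 k)) hv0) _ _
        (fun h6 => C_ne_zero.2 hg (hinj (by rw [h6, map_zero])))
        (fun h6 => hA (hinj (by rw [h6, map_zero]))) _ _ _ rfl h4
      rw [Polynomial.natDegree_map_eq_of_injective hinj] at h5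
      exact hX h5

end Binomial

end Pool.Agent.Lib.MP_551055_al.JK
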