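import Mathlib

/-!
# Leading parts for rational weights

`LEw w n A`: all monomials of `A` have weight at most `n`. The leading part is the component of
weight `n`.
-/

set_option autoImplicit false

namespace Pool.Agent.Lib.MP_551055_al.JK

open MvPolynomial

open Finsupp (weight weight_apply)

variable {σ τ : Type} {k : Type} [CommRing k]

/-- All monomials of `A` have weight at most `n`. -/
def LEw (w : σ → ℚ) (n : ℚ) (A : MvPolynomial σ k) : Prop :=
  ∀ d : σ →₀ ℕ, coeff d A ≠ 0 → weight w d ≤ n

/-- The part of weight `n`. -/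
noncomputable def top (w : σ → ℚ) (n : ℚ) (A : MvPolynomial σ k) : MvPolynomial σ k :=
  weightedHomogeneousComponent w n A

theorem coeff_top (w : σ → ℚ) (n : ℚ) (A : MvPolynomial σ k) (d : σ →₀ ℕ) :
    coeff d (top w n A) = if weight w d = n then coeff d A else 0 := by
  classical
  exact coeff_weightedHomogeneousComponent n A d

theorem top_add (w : σ → ℚ) (n : ℚ) (A B : MvPolynomial σ k) :
    top w n (A + B) = top w n A + top w n B := map_add _ _ _

theorem top_sum {ι : Type} (w : σ → ℚ) (n : ℚ) (s : Finset ι) (A : ι → MvPolynomial σ k) :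
    top w n (∑ i ∈ s, A i) = ∑ i ∈ s, top w n (A i) := map_sum _ _ _

theorem LEw.zero (w : σ → ℚ) (n : ℚ) : LEw w n (0 : MvPolynomial σ k) := fun d hd => by
  simp at hd

theorem LEw.mono {w : σ → ℚ} {n m : ℚ} {A : MvPolynomial σ k} (h : LEw w n A) (hnm : n ≤ m) :
    LEw w m A := fun d hd => (h d hd).trans hnm

theorem LEw.add {w : σ → ℚ} {n : ℚ} {A B : MvPolynomial σ k} (hA : LEw w n A) (hB : LEw w n B) :
    LEw w n (A + B) := by
  intro d hd
  by_cases h : coeff d A = 0
  · refine hB d fun h2 => hd ?_
    rw [coeff_add, h, h2, add_zero]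
  · exact hA d h

theorem LEw.sum {ι : Type} {w : σ → ℚ} {n : ℚ} (s : Finset ι) (A : ι → MvPolynomial σ k)
    (h : ∀ i ∈ s, LEw w n (A i)) : LEw w n (∑ i ∈ s, A i) := by
  classical
  induction s using Finset.induction_on with
  | empty => rw [Finset.sum_empty]; exact LEw.zero w n
  | insert a s ha ih =>
    rw [Finset.sum_insert ha]
    exact (h a (Finset.mem_insert_self _ _)).add
      (ih fun i hi => h i (Finset.mem_insert_of_mem hi))

theorem LEw.mul {w : σ → ℚ} {n m : ℚ} {A B : MvPolynomial σ k} (hA : LEw w n A)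
    (hB : LEw w m B) : LEw w (n + m) (A * B) := by
  classical
  intro d hd
  rw [coeff_mul] at hd
  obtain ⟨⟨a, b⟩, hab, h⟩ := Finset.exists_ne_zero_of_sum_ne_zero hd
  have h1 : a + b = d := Finset.HasAntidiagonal.mem_antidiagonal.1 hab
  have h2 : coeff a A ≠ 0 := fun h3 => h (by simp [h3])
  have h3 : coeff b B ≠ 0 := fun h3 => h (by simp [h3])
  rw [← h1, map_add]
  exact add_le_add (hA a h2) (hB b h3)

theorem top_mul {w : σ → ℚ} {n m : ℚ} {A B : MvPolynomial σ k} (hA : LEw w n A)
    (hB : LEw w m B) : top w (n + m) (A * B) = top w n A * top w m B := by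
  classical
  ext d
  rw [coeff_top, coeff_mul, coeff_mul]
  by_cases hd : weight w d = n + m
  · rw [if_pos hd]
    refine Finset.sum_congr rfl fun x hx => ?_
    obtain ⟨a, b⟩ := x
    have h1 : a + b = d := Finset.HasAntidiagonal.mem_antidiagonal.1 hx
    rw [← h1, map_add] at hd
    rw [coeff_top, coeff_top]
    by_cases ha : coeff a A = 0
    · simp [ha]
    · by_cases hb : coeff b B = 0
      · simp [hb]
      · have h2 := hA a ha
        have h3 := hB b hb
        rw [if_pos (by linarith), if_pos (by linarith)]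
  · rw [if_neg hd]
    symm
    refine Finset.sum_eq_zero fun x hx => ?_
    obtain ⟨a, b⟩ := x
    have h1 : a + b = d := Finset.HasAntidiagonal.mem_antidiagonal.1 hx
    rw [coeff_top, coeff_top]
    by_cases ha : weight w a = n
    · by_cases hb : weight w b = m
      · exact absurd (by rw [← h1, map_add, ha, hb]) hd
      · simp [hb]
    · simp [ha]

theorem LEw.one (w : σ → ℚ) : LEw w 0 (1 : MvPolynomial σ k) := by
  classical
  intro d hd
  rw [coeff_one] at hd
  by_cases h : 0 = d
  · rw [← h, map_zero]
  · simp [h] at hd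

theorem LEw.C (w : σ → ℚ) (c : k) : LEw w 0 (C c : MvPolynomial σ k) := by
  classical
  intro d hd
  rw [coeff_C] at hd
  by_cases h : 0 = d
  · rw [← h, map_zero]
  · simp [h] at hd

theorem top_C (w : σ → ℚ) (c : k) : top w 0 (C c : MvPolynomial σ k) = C c := by
  classical
  ext d
  rw [coeff_top, coeff_C]
  by_cases h : 0 = d
  · rw [← h, map_zero, if_pos rfl]
  · simp [h]

theorem top_of_lt {w : σ → ℚ} {n m : ℚ} {A : MvPolynomial σ k} (hA : LEw w n A) (h : n < m) :
    top w m A = 0 := by
  ext d
  rw [coeff_top, coeff_zero]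
  split_ifs with h1
  · by_contra h2
    have := hA d h2
    linarith
  · rfl

theorem LEw.pow {w : σ → ℚ} {n : ℚ} {A : MvPolynomial σ k} (hA : LEw w n A) (j : ℕ) :
    LEw w (j • n) (A ^ j) := by
  induction j with
  | zero => rw [pow_zero, zero_smul]; exact LEw.one w
  | succ j ih => rw [pow_succ, succ_nsmul]; exact ih.mul hA

theorem top_pow {w : σ → ℚ} {n : ℚ} {A : MvPolynomial σ k} (hA : LEw w n A) (j : ℕ) :
    top w (j • n) (A ^ j) = top w n A ^ j := by
  induction j with
  | zero =>
    rw [pow_zero, pow_zero, zero_smul]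
    have := top_C w (1 : k)
    rwa [C_1] at this
  | succ j ih => rw [pow_succ, pow_succ, succ_nsmul, top_mul (hA.pow j) hA, ih]

/-- A monomial has its own weight. -/
theorem LEw_monomial (w : σ → ℚ) (d : σ →₀ ℕ) (c : k) : LEw w (weight w d) (monomial d c) := by
  classical
  intro e he
  rw [coeff_monomial] at he
  by_cases h : d = e
  · rw [h]
  · simp [h] at he

theorem top_monomial (w : σ → ℚ) (d : σ →₀ ℕ) (c : k) :
    top w (weight w d) (monomial d c) = monomial d c := by
  classical
  ext e
  rw [coeff_top, coeff_monomial]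
  by_cases h : d = e
  · rw [h, if_pos rfl]
  · simp [h]

section Hom

variable (w : σ → ℚ) (w' : τ → ℚ) (F : MvPolynomial σ k →ₐ[k] MvPolynomial τ k)

/-- The leading part of a homomorphism which does not raise the weights. -/
noncomputable def topHom : MvPolynomial σ k →ₐ[k] MvPolynomial τ k :=
  aeval fun i => top w' (w i) (F (X i))

theorem hom_monomial (hF : ∀ i, LEw w' (w i) (F (X i))) (d : σ →₀ ℕ) : ∀ c : k,
    LEw w' (weight w d) (F (monomial d c)) ∧
      top w' (weight w d) (F (monomial d c)) = topHom w w' F (monomial d c) := by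
  induction d using Finsupp.induction_linear with
  | zero =>
    intro c
    have h1 : F (monomial 0 c) = C c := by
      rw [show (monomial 0 c : MvPolynomial σ k) = C c from rfl]
      exact F.commutes c
    have h2 : topHom w w' F (monomial 0 c) = C c := by
      rw [show (monomial 0 c : MvPolynomial σ k) = C c from rfl]
      exact (topHom w w' F).commutes c
    rw [h1, h2, map_zero]
    exact ⟨LEw.C w' c, top_C w' c⟩
  | add a b ha hb =>
    intro c
    have h1 : (monomial (a + b) c : MvPolynomial σ k) = monomial a c * monomial b 1 := by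
      rw [monomial_mul, mul_one]
    obtain ⟨h2, h3⟩ := ha c
    obtain ⟨h4, h5⟩ := hb 1
    rw [h1, map_mul, map_mul, map_add, top_mul h2 h4, h3, h5]
    exact ⟨h2.mul h4, rfl⟩
  | single i j =>
    intro c
    have h1 : (monomial (Finsupp.single i j) c : MvPolynomial σ k) = C c * X i ^ j := by
      rw [C_mul_X_pow_eq_monomial]
    have h2 : weight w (Finsupp.single i j) = j • w i := by
      rw [weight_apply, Finsupp.sum_single_index (by simp)]
    have h3 : F (C c * X i ^ j) = C c * F (X i) ^ j := by
      rw [map_mul, map_pow]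
      congr 1
      exact F.commutes c
    have h4 : topHom w w' F (C c * X i ^ j) = C c * top w' (w i) (F (X i)) ^ j := by
      rw [map_mul, map_pow, topHom, aeval_X]
      congr 1
      exact (topHom w w' F).commutes c
    rw [h1, h2, h3, h4]
    have h5 := (LEw.C w' c).mul ((hF i).pow j)
    have h6 := top_mul (LEw.C w' c) ((hF i).pow j)
    rw [zero_add] at h5 h6
    rw [h6, top_C, top_pow (hF i)]
    exact ⟨h5, rfl⟩

theorem hom_le (hF : ∀ i, LEw w' (w i) (F (X i))) {n : ℚ} {A : MvPolynomial σ k}
    (hA : LEw w n A) : LEw w' n (F A) := by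
  rw [A.as_sum, map_sum]
  refine LEw.sum _ _ fun d hd => ?_
  exact (hom_monomial w w' F hF d _).1.mono (hA d (mem_support_iff.1 hd))

theorem hom_top (hF : ∀ i, LEw w' (w i) (F (X i))) {n : ℚ} {A : MvPolynomial σ k}
    (hA : LEw w n A) : top w' n (F A) = topHom w w' F (top w n A) := by
  have h1 : top w n A = ∑ d ∈ A.support, top w n (monomial d (coeff d A)) := by
    conv_lhs => rw [A.as_sum]
    rw [top_sum]
  rw [h1]
  conv_lhs => rw [A.as_sum, map_sum, top_sum]
  rw [map_sum]
  refine Finset.sum_congr rfl fun d hd => ?_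
  have h2 := hA d (mem_support_iff.1 hd)
  rcases eq_or_lt_of_le h2 with h3 | h3
  · rw [← h3, top_monomial]
    exact (hom_monomial w w' F hF d _).2
  · rw [top_of_lt (hom_monomial w w' F hF d _).1 h3, top_of_lt (LEw_monomial w d _) h3, map_zero]

end Hom

end Pool.Agent.Lib.MP_551055_al.JK
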