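import Mathlib
import Pool.Agent.Lib.MP_551055_al.Trim.JK.Inv
import Pool.Agent.Lib.MP_551055_al.Trim.JK.Top

/-!
# Leading parts of deformations
-/

set_option autoImplicit false

namespace Pool.Agent.Lib.MP_551055_al.JK

open MvPolynomial

open Finsupp (weight weight_apply)

section Weights

theorem weight_two (a b : ℚ) (d : Fin 2 →₀ ℕ) : weight ![a, b] d = d 0 * a + d 1 * b := by
  rw [weight_apply, Finsupp.sum_fintype _ _ (by intro i; exact zero_smul _ _)]
  simp [Fin.sum_univ_two]

theorem weight_three (a b c : ℚ) (d : Fin 3 →₀ ℕ) :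
    weight ![a, b, c] d = d 0 * a + d 1 * b + d 2 * c := by
  rw [weight_apply, Finsupp.sum_fintype _ _ (by intro i; exact zero_smul _ _)]
  simp [Fin.sum_univ_three]

theorem coeff_X_ne {σ k : Type} [CommRing k] {i : σ} {d : σ →₀ ℕ}
    (h : coeff d (X i : MvPolynomial σ k) ≠ 0) : d = Finsupp.single i 1 := by
  classical
  rw [coeff_X] at h
  by_contra h2
  exact h (if_neg fun h3 => h2 h3.symm)

theorem LEw_X {σ k : Type} [CommRing k] (w : σ → ℚ) (i : σ) :
    LEw w (w i) (X i : MvPolynomial σ k) := by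
  intro d hd
  rw [coeff_X_ne hd, weight_apply, Finsupp.sum_single_index (by simp)]
  simp

theorem top_X {σ k : Type} [CommRing k] (w : σ → ℚ) (i : σ) :
    top w (w i) (X i : MvPolynomial σ k) = X i := by
  have h1 : (X i : MvPolynomial σ k) = monomial (Finsupp.single i 1) 1 := rfl
  have h2 : weight w (Finsupp.single i 1) = w i := by
    rw [weight_apply, Finsupp.sum_single_index (by simp)]
    simp
  rw [h1]
  have h3 := top_monomial w (Finsupp.single i 1) (1 : k)
  rwa [h2] at h3

/-- A polynomial all of whose monomials contain `X i` is divisible by `X i`. -/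
theorem X_dvd_of {σ k : Type} [CommRing k] {i : σ} {A : MvPolynomial σ k}
    (h : ∀ d, coeff d A ≠ 0 → d i ≠ 0) : X i ∣ A := by
  rw [A.as_sum]
  refine Finset.dvd_sum fun d hd => ?_
  have h1 := h d (mem_support_iff.1 hd)
  have h2 : Finsupp.single i 1 + (d - Finsupp.single i 1) = d := by
    ext j
    by_cases hj : i = j
    · subst hj
      simp only [Finsupp.coe_add, Finsupp.coe_tsub, Pi.add_apply, Pi.sub_apply,
        Finsupp.single_eq_same]
      omega
    · simp [Finsupp.single_apply, hj]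
  refine ⟨monomial (d - Finsupp.single i 1) (coeff d A), ?_⟩
  rw [X, monomial_mul, one_mul, h2]

theorem coeff_of_X_dvd {σ k : Type} [CommRing k] {i : σ} {A : MvPolynomial σ k} (h : X i ∣ A)
    {d : σ →₀ ℕ} (hd : d i = 0) : coeff d A = 0 := by
  classical
  obtain ⟨B, rfl⟩ := h
  rw [coeff_X_mul', if_neg]
  rw [Finsupp.mem_support_iff]
  exact fun h => h hd

end Weights

section Def3

variable {k : Type} [CommRing k]

theorem X2_dvd_sub (A : P3 k) : X 2 ∣ A - inc k (ev k A) := by
  induction A using MvPolynomial.induction_on with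
  | C c =>
    have h1 : ev k (C c) = C c := (ev k).commutes c
    have h2 : inc k (C c) = C c := (inc k).commutes c
    rw [h1, h2, sub_self]
    exact dvd_zero _
  | add A B hA hB =>
    have h1 : A + B - inc k (ev k (A + B)) = (A - inc k (ev k A)) + (B - inc k (ev k B)) := by
      rw [map_add, map_add]; ring
    rw [h1]
    exact dvd_add hA hB
  | mul_X A i hA =>
    fin_cases i
    · have h1 : inc k (ev k (A * X 0)) = inc k (ev k A) * X 0 := by
        rw [map_mul, map_mul]; congr 1; simp [ev, inc]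
      show X 2 ∣ A * X 0 - inc k (ev k (A * X 0))
      rw [h1, ← sub_mul]
      exact Dvd.dvd.mul_right hA _
    · have h1 : inc k (ev k (A * X 1)) = inc k (ev k A) * X 1 := by
        rw [map_mul, map_mul]; congr 1; simp [ev, inc]
      show X 2 ∣ A * X 1 - inc k (ev k (A * X 1))
      rw [h1, ← sub_mul]
      exact Dvd.dvd.mul_right hA _
    · have h1 : inc k (ev k (A * X 2)) = 0 := by
        rw [map_mul, map_mul]
        have : inc k (ev k (X 2)) = 0 := by simp [ev]
        rw [this, mul_zero]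
      show X 2 ∣ A * X 2 - inc k (ev k (A * X 2))
      rw [h1, sub_zero]
      exact Dvd.intro_left A rfl

theorem coeff_eq_of_ev {A : P3 k} {d : Fin 3 →₀ ℕ} (hd : d 2 = 0) :
    coeff d A = coeff d (inc k (ev k A)) := by
  have h := coeff_of_X_dvd (X2_dvd_sub A) hd
  rw [coeff_sub] at h
  exact sub_eq_zero.1 h

theorem ev_eq_zero {A : P3 k} (h : ∀ d, coeff d A ≠ 0 → d 2 ≠ 0) : ev k A = 0 := by
  obtain ⟨B, rfl⟩ := X_dvd_of h
  rw [map_mul]
  have : ev k (X 2) = 0 := by simp [ev]
  rw [this, zero_mul]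

theorem coeff_inc_eq_zero {A : P2 k} {d : Fin 3 →₀ ℕ} (hd : d 2 ≠ 0) : coeff d (inc k A) = 0 := by
  classical
  have h1 : inc k A = rename ![0, 1] A := by
    have h2 : inc k = rename ![0, 1] := by
      refine MvPolynomial.algHom_ext fun i => ?_
      rw [rename_X]
      fin_cases i
      · exact inc_X0
      · exact inc_X1
    rw [h2]
  rw [h1]
  by_contra h2
  obtain ⟨u, hu, -⟩ := coeff_rename_ne_zero _ _ _ h2
  apply hd
  rw [← hu]
  rw [Finsupp.mapDomain_of_notMem_range]
  rintro ⟨i, hi⟩
  fin_cases i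
  · exact absurd hi (by decide)
  · exact absurd hi (by decide)

end Def3

section LeadDef

variable {k : Type} [Field k]

/-- **Leading parts of deformations.** -/
theorem exists_lead {t : P2 k →ₐ[k] P3 k} (ht : IsDef t) (hne : t ≠ inc k) (a b : ℚ) :
    ∃ t' : P2 k →ₐ[k] P3 k, IsDef t' ∧ t' ≠ inc k ∧
      ∀ (n : ℚ) (A : P2 k), LEw ![a, b] n A → t A = inc k A →
        t' (top ![a, b] n A) = inc k (top ![a, b] n A) := by
  classical
  -- monomials without `s`
  have hsm : ∀ (i : Fin 2) (d : Fin 3 →₀ ℕ), coeff d (t (X i)) ≠ 0 → d 2 = 0 →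
      coeff d (inc k (X i)) ≠ 0 := by
    intro i d hd hd2
    rwa [coeff_eq_of_ev hd2, ht (X i)] at hd
  -- the slopes
  let w : Fin 2 → ℚ := ![a, b]
  let E : Finset (Fin 2 × (Fin 3 →₀ ℕ)) :=
    Finset.univ.biUnion fun i : Fin 2 => ((t (X i)).support.filter fun d => d 2 ≠ 0).image
      fun d => (i, d)
  have hE : ∀ i d, (i, d) ∈ E ↔ coeff d (t (X i)) ≠ 0 ∧ d 2 ≠ 0 := by
    intro i d
    simp only [E, Finset.mem_biUnion, Finset.mem_univ, true_and, Finset.mem_image,
      Finset.mem_filter, mem_support_iff, Prod.mk.injEq]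
    constructor
    · rintro ⟨i', d', h, rfl, rfl⟩
      exact h
    · intro h
      exact ⟨i, d, h, rfl, rfl⟩
  have hEne : E.Nonempty := by
    by_contra hemp
    rw [Finset.not_nonempty_iff_eq_empty] at hemp
    have h0 : ∀ i : Fin 2, t (X i) = inc k (X i) := by
      intro i
      ext d
      by_cases hd : d 2 = 0
      · rw [coeff_eq_of_ev hd, ht (X i)]
      · rw [coeff_inc_eq_zero hd]
        by_contra h1
        have := (hE i d).2 ⟨h1, hd⟩
        rw [hemp] at this
        exact absurd this (Finset.notMem_empty _)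
    exact hne (eq_inc_of_X (h0 0) (h0 1))
  let sl : Fin 2 × (Fin 3 →₀ ℕ) → ℚ := fun x => (w x.1 - x.2 0 * a - x.2 1 * b) / x.2 2
  obtain ⟨x0, hx0, hmin⟩ := Finset.exists_min_image E sl hEne
  obtain ⟨c, hc⟩ : ∃ c, c = sl x0 := ⟨_, rfl⟩
  let w' : Fin 3 → ℚ := ![a, b, c]
  have hweq : ∀ (i : Fin 2) (d : Fin 3 →₀ ℕ), coeff d (inc k (X i)) ≠ 0 → weight w' d = w i := by
    intro i d hd
    fin_cases i
    · have h1 : coeff d (inc k (X 0)) ≠ 0 := hd
      rw [inc_X0] at h1
      rw [coeff_X_ne h1, weight_apply, Finsupp.sum_single_index (by simp)]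
      simp [w', w]
    · have h1 : coeff d (inc k (X 1)) ≠ 0 := hd
      rw [inc_X1] at h1
      rw [coeff_X_ne h1, weight_apply, Finsupp.sum_single_index (by simp)]
      simp [w', w]
  have hslope : ∀ (i : Fin 2) (d : Fin 3 →₀ ℕ), d 2 ≠ 0 →
      (weight w' d ≤ w i ↔ c ≤ sl (i, d)) ∧ (weight w' d = w i ↔ c = sl (i, d)) := by
    intro i d hd
    have hpos : (0 : ℚ) < (d 2 : ℚ) := by exact_mod_cast Nat.pos_of_ne_zero hd
    have h1 : weight w' d = d 0 * a + d 1 * b + d 2 * c := weight_three a b c d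
    rw [h1]
    constructor
    · rw [le_div_iff₀ hpos]
      constructor <;> intro h <;> simp only at h ⊢ <;> linarith
    · rw [eq_div_iff hpos.ne']
      constructor <;> intro h <;> simp only at h ⊢ <;> linarith
  have hle : ∀ i, LEw w' (w i) (t (X i)) := by
    intro i d hd
    by_cases hd2 : d 2 = 0
    · exact (hweq i d (hsm i d hd hd2)).le
    · rw [(hslope i d hd2).1, hc]
      exact hmin (i, d) ((hE i d).2 ⟨hd, hd2⟩)
  have hlei : ∀ i, LEw w' (w i) (inc k (X i)) := fun i d hd => (hweq i d hd).le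
  have htopi : topHom w w' (inc k) = inc k := by
    refine MvPolynomial.algHom_ext fun i => ?_
    rw [topHom, aeval_X]
    ext d
    rw [coeff_top]
    split_ifs with h1
    · rfl
    · by_contra h2
      exact h1 (hweq i d (Ne.symm h2))
  have hX' : ∀ i, topHom w w' t (X i) = top w' (w i) (t (X i)) := fun i => by
    rw [topHom, aeval_X]
  refine ⟨topHom w w' t, ?_, ?_, ?_⟩
  · have h1 : (ev k).comp (topHom w w' t) = AlgHom.id k (P2 k) := by
      refine MvPolynomial.algHom_ext fun i => ?_
      rw [AlgHom.comp_apply, hX', AlgHom.id_apply]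
      have h2 : ev k (top w' (w i) (t (X i)) - inc k (X i)) = 0 := by
        refine ev_eq_zero fun d hd hd2 => hd ?_
        rw [coeff_sub, coeff_top]
        split_ifs with h3
        · rw [coeff_eq_of_ev hd2, ht (X i), sub_self]
        · rw [zero_sub, neg_eq_zero]
          by_contra h4
          exact h3 (hweq i d h4)
      rw [map_sub, ev_inc] at h2
      exact sub_eq_zero.1 h2
    exact fun A => DFunLike.congr_fun h1 A
  · intro h1
    obtain ⟨i, d⟩ := x0
    obtain ⟨h2, h3⟩ := (hE i d).1 hx0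
    have h4 : coeff d (topHom w w' t (X i)) = 0 := by rw [h1, coeff_inc_eq_zero h3]
    rw [hX', coeff_top, if_pos ((hslope i d h3).2.2 hc)] at h4
    exact h2 h4
  · intro n A hA hfix
    have h1 := hom_top w w' t hle hA
    have h2 := hom_top w w' (inc k) hlei hA
    rw [← h1, hfix, h2, htopi]

end LeadDef

end Pool.Agent.Lib.MP_551055_al.JK
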