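import Mathlib
import Pool.Agent.Lib.MP_551055_al.Trim.JK.Inv
import Pool.Agent.Lib.MP_551055_al.Trim.JK.Lead
import Pool.Agent.Lib.MP_551055_al.Trim.JK.Top

/-!
# The Newton polygon of a polynomial fixed by a deformation
-/

set_option autoImplicit false

namespace Pool.Agent.Lib.MP_551055_al.JK

open MvPolynomial

open Finsupp (weight weight_apply)

variable {k : Type} [Field k]

theorem le_degreeOf {A : P2 k} {i : Fin 2} {d : Fin 2 →₀ ℕ} (h : coeff d A ≠ 0) :
    d i ≤ degreeOf i A := by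
  rw [degreeOf_eq_sup]
  exact Finset.le_sup (f := fun m : Fin 2 →₀ ℕ => m i) (mem_support_iff.2 h)

theorem exists_degreeOf {A : P2 k} (hA : A ≠ 0) (i : Fin 2) :
    ∃ d, coeff d A ≠ 0 ∧ d i = degreeOf i A := by
  have h1 : A.support.Nonempty := by
    rw [Finset.nonempty_iff_ne_empty]
    exact fun h => hA (support_eq_empty.1 h)
  obtain ⟨d, hd, h2⟩ := Finset.exists_mem_eq_sup A.support h1 (fun m : Fin 2 →₀ ℕ => m i)
  exact ⟨d, mem_support_iff.1 hd, by rw [degreeOf_eq_sup, h2]⟩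

theorem eq_single_zero {d : Fin 2 →₀ ℕ} {m : ℕ} (h0 : d 0 = m) (h1 : d 1 = 0) :
    d = Finsupp.single 0 m := by
  ext i
  fin_cases i
  · simpa using h0
  · simpa using h1

theorem eq_single_one {d : Fin 2 →₀ ℕ} {m : ℕ} (h0 : d 0 = 0) (h1 : d 1 = m) :
    d = Finsupp.single 1 m := by
  ext i
  fin_cases i
  · simpa using h0
  · simpa using h1

/-- The Newton polygon is a triangle. -/
theorem newton {t : P2 k →ₐ[k] P3 k} (ht : IsDef t) (hne : t ≠ inc k) {f : P2 k} (hf0 : f ≠ 0)
    (hf : t f = inc k f) {m n : ℕ} (hm : degreeOf 0 f = m) (hn : degreeOf 1 f = n) (hm1 : 1 ≤ m)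
    (hn1 : 1 ≤ n) :
    LEw ![(n : ℚ), (m : ℚ)] ((m * n : ℕ) : ℚ) f ∧ coeff (Finsupp.single 0 m) f ≠ 0 ∧
      coeff (Finsupp.single 1 n) f ≠ 0 := by
  have hLE : LEw ![(n : ℚ), (m : ℚ)] ((m * n : ℕ) : ℚ) f := by
    by_contra hcon
    have hsn : f.support.Nonempty := by
      rw [Finset.nonempty_iff_ne_empty]
      exact fun h => hf0 (support_eq_empty.1 h)
    obtain ⟨e, he, hmax⟩ := Finset.exists_max_image f.support (weight ![(n : ℚ), (m : ℚ)]) hsn
    obtain ⟨M, hM⟩ : ∃ M, M = weight ![(n : ℚ), (m : ℚ)] e := ⟨_, rfl⟩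
    have hMf : LEw ![(n : ℚ), (m : ℚ)] M f := fun d hd => by
      rw [hM]; exact hmax d (mem_support_iff.2 hd)
    have hMlt : ((m * n : ℕ) : ℚ) < M := by
      by_contra h1
      exact hcon (hMf.mono (not_lt.1 h1))
    obtain ⟨t', ht', hne', hfix⟩ := exists_lead ht hne (n : ℚ) (m : ℚ)
    have h1 := hfix M f hMf hf
    have hmon : ∀ d, coeff d (top ![(n : ℚ), (m : ℚ)] M f) ≠ 0 → d 0 ≠ 0 ∧ d 1 ≠ 0 := by
      intro d hd
      rw [coeff_top] at hd
      by_cases h2 : weight ![(n : ℚ), (m : ℚ)] d = M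
      · rw [if_pos h2] at hd
        have h3 : d 0 ≤ m := hm ▸ le_degreeOf hd
        have h4 : d 1 ≤ n := hn ▸ le_degreeOf hd
        rw [weight_two] at h2
        rw [← h2] at hMlt
        have h5 : m * n < d 0 * n + d 1 * m := by exact_mod_cast hMlt
        constructor
        · intro h6
          rw [h6, zero_mul, zero_add] at h5
          nlinarith
        · intro h6
          rw [h6, zero_mul, add_zero] at h5
          nlinarith
      · rw [if_neg h2] at hd
        exact absurd rfl hd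
    have htop : top ![(n : ℚ), (m : ℚ)] M f ≠ 0 := by
      intro h2
      have h3 := congrArg (coeff e) h2
      rw [coeff_top, if_pos hM.symm, coeff_zero] at h3
      exact (mem_support_iff.1 he) h3
    have h2 := fixed_of_dvd ht' htop (X_dvd_of fun d hd => (hmon d hd).1) h1
    have h3 := fixed_of_dvd ht' htop (X_dvd_of fun d hd => (hmon d hd).2) h1
    exact hne' (eq_inc_of_X h2 h3)
  refine ⟨hLE, ?_, ?_⟩
  · obtain ⟨d, hd, hdm⟩ := exists_degreeOf hf0 0
    have h1 := hLE d hd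
    rw [weight_two] at h1
    have h2 : d 0 * n + d 1 * m ≤ m * n := by exact_mod_cast h1
    rw [hdm, hm] at h2
    have h3 : d 1 = 0 := by
      by_contra h4
      have : 1 ≤ d 1 := Nat.pos_of_ne_zero h4
      nlinarith
    rw [← eq_single_zero (hdm.trans hm) h3]
    exact hd
  · obtain ⟨d, hd, hdm⟩ := exists_degreeOf hf0 1
    have h1 := hLE d hd
    rw [weight_two] at h1
    have h2 : d 0 * n + d 1 * m ≤ m * n := by exact_mod_cast h1
    rw [hdm, hn] at h2
    have h3 : d 0 = 0 := by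
      by_contra h4
      have : 1 ≤ d 0 := Nat.pos_of_ne_zero h4
      nlinarith
    rw [← eq_single_one h3 (hdm.trans hn)]
    exact hd

/-- Over a perfect field a polynomial with only one root in the algebraic closure has a root. -/
theorem root_of_unique [PerfectField k] (p : Polynomial k) (hp : p.natDegree ≠ 0)
    (h : ∀ c c' : AlgebraicClosure k, Polynomial.aeval c p = 0 → Polynomial.aeval c' p = 0 →
      c = c') : ∃ c : k, p.IsRoot c := by
  classical
  obtain ⟨q, hq, hqp⟩ := Polynomial.exists_irreducible_of_natDegree_ne_zero hp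
  have h1 : Fintype.card (q.rootSet (AlgebraicClosure k)) = q.natDegree :=
    Polynomial.card_rootSet_eq_natDegree (PerfectField.separable_of_irreducible hq)
      (IsAlgClosed.splits _)
  have h2 : Subsingleton (q.rootSet (AlgebraicClosure k)) := by
    refine ⟨fun a b => Subtype.ext (h _ _ ?_ ?_)⟩
    · obtain ⟨r, rfl⟩ := hqp
      rw [map_mul, (Polynomial.mem_rootSet.1 a.2).2, zero_mul]
    · obtain ⟨r, rfl⟩ := hqp
      rw [map_mul, (Polynomial.mem_rootSet.1 b.2).2, zero_mul]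
  have h3 : q.natDegree ≤ 1 := by
    rw [← h1]
    exact Fintype.card_le_one_iff_subsingleton.2 h2
  have h4 : q.degree = 1 := by
    have h5 : 0 < q.natDegree := Irreducible.natDegree_pos hq
    rw [Polynomial.degree_eq_natDegree hq.ne_zero]
    have h6 : q.natDegree = 1 := by omega
    rw [h6]
    rfl
  obtain ⟨c, hc⟩ := Polynomial.exists_root_of_degree_eq_one h4
  exact ⟨c, hc.dvd hqp⟩

/-- Divisibility by a binomial. -/
theorem dvd_of_root {F : P2 k} {u v g : ℕ} (hu : 1 ≤ u)
    (hmon : ∀ d, coeff d F ≠ 0 → ∃ l, l ≤ g ∧ d 0 = u * l ∧ d 1 = v * (g - l)) (c : k)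
    (hc : ∑ d ∈ F.support, coeff d F * c ^ (d 0 / u) = 0) :
    (X 0 ^ u - C c * X 1 ^ v : P2 k) ∣ F := by
  have h1 : F = ∑ d ∈ F.support, (monomial d (coeff d F) -
      C (coeff d F * c ^ (d 0 / u)) * X 1 ^ (v * g)) := by
    rw [Finset.sum_sub_distrib, ← Finset.sum_mul, ← map_sum]
    rw [hc, C_0, zero_mul, sub_zero]
    exact F.as_sum
  rw [h1]
  refine Finset.dvd_sum fun d hd => ?_
  obtain ⟨l, hl, h3, h4⟩ := hmon d (mem_support_iff.1 hd)
  have h5 : monomial d (coeff d F) = C (coeff d F) * ((X 0 ^ u) ^ l * (X 1 ^ v) ^ (g - l)) := by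
    rw [← pow_mul, ← pow_mul, ← h3, ← h4, monomial_eq]
    congr 1
    rw [Finsupp.prod_fintype _ _ (by intro i; exact pow_zero _), Fin.prod_univ_two]
  have h6 : C (coeff d F * c ^ (d 0 / u)) * (X 1 : P2 k) ^ (v * g) =
      C (coeff d F) * ((C c * X 1 ^ v) ^ l * (X 1 ^ v) ^ (g - l)) := by
    rw [h3, Nat.mul_div_cancel_left _ hu, C_mul, C_pow, mul_pow]
    have h7 : (X 1 : P2 k) ^ (v * g) = (X 1 ^ v) ^ l * (X 1 ^ v) ^ (g - l) := by
      rw [← pow_add, Nat.add_sub_cancel' hl, pow_mul]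
    rw [h7]
    ring
  rw [h5, h6, ← mul_sub, ← sub_mul]
  exact Dvd.dvd.mul_left (Dvd.dvd.mul_right (sub_dvd_pow_sub_pow _ _ _) _) _

section Extend

variable {K : Type} [Field K] (ι : k →+* K)

/-- The extension of a deformation to a larger field. -/
noncomputable def bct (t : P2 k →ₐ[k] P3 k) : P2 K →ₐ[K] P3 K := aeval fun i => map ι (t (X i))

theorem bct_map (t : P2 k →ₐ[k] P3 k) (A : P2 k) : bct ι t (map ι A) = map ι (t A) := by
  have h : ((bct ι t : P2 K →ₐ[K] P3 K) : P2 K →+* P3 K).comp (map ι) =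
      (map ι).comp ((t : P2 k →ₐ[k] P3 k) : P2 k →+* P3 k) := by
    refine MvPolynomial.ringHom_ext (fun c => ?_) fun i => ?_
    · show bct ι t (map ι (C c)) = map ι (t (C c))
      have h1 : t (C c) = C c := t.commutes c
      rw [h1, map_C, map_C, ← algebraMap_eq, AlgHom.commutes]
      rfl
    · show bct ι t (map ι (X i)) = map ι (t (X i))
      rw [map_X, bct, aeval_X]
  exact DFunLike.congr_fun h A

theorem map_ev (A : P3 k) : ev K (map ι A) = map ι (ev k A) := by
  have h : ((ev K : P3 K →ₐ[K] P2 K) : P3 K →+* P2 K).comp (map ι) =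
      (map ι).comp ((ev k : P3 k →ₐ[k] P2 k) : P3 k →+* P2 k) := by
    refine MvPolynomial.ringHom_ext (fun c => ?_) fun i => ?_
    · show ev K (map ι (C c)) = map ι (ev k (C c))
      have h1 : ev k (C c) = C c := (ev k).commutes c
      rw [h1, map_C, map_C]
      exact (ev K).commutes _
    · show ev K (map ι (X i)) = map ι (ev k (X i))
      rw [map_X]
      fin_cases i <;> simp [ev]
  exact DFunLike.congr_fun h A

theorem map_inc (A : P2 k) : inc K (map ι A) = map ι (inc k A) := by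
  have h : ((inc K : P2 K →ₐ[K] P3 K) : P2 K →+* P3 K).comp (map ι) =
      (map ι).comp ((inc k : P2 k →ₐ[k] P3 k) : P2 k →+* P3 k) := by
    refine MvPolynomial.ringHom_ext (fun c => ?_) fun i => ?_
    · show inc K (map ι (C c)) = map ι (inc k (C c))
      have h1 : inc k (C c) = C c := (inc k).commutes c
      rw [h1, map_C, map_C]
      exact (inc K).commutes _
    · show inc K (map ι (X i)) = map ι (inc k (X i))
      rw [map_X]
      fin_cases i <;> simp [inc]
  exact DFunLike.congr_fun h A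

theorem bct_isDef {t : P2 k →ₐ[k] P3 k} (ht : IsDef t) : IsDef (bct ι t) := by
  have h : (ev K).comp (bct ι t) = AlgHom.id K (P2 K) := by
    refine MvPolynomial.algHom_ext fun i => ?_
    have h1 : bct ι t (X i) = map ι (t (X i)) := by rw [bct, aeval_X]
    rw [AlgHom.comp_apply, h1, map_ev, ht, map_X]
    rfl
  exact fun A => DFunLike.congr_fun h A

theorem bct_ne {t : P2 k →ₐ[k] P3 k} (hne : t ≠ inc k) : bct ι t ≠ inc K := by
  intro h
  refine hne (MvPolynomial.algHom_ext fun i => ?_)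
  refine MvPolynomial.map_injective ι ι.injective ?_
  rw [← bct_map, h, map_inc]

end Extend

/-- A nontrivial deformation fixes at most one binomial `x ^ u - c y ^ v`. -/
theorem root_unique {t : P2 k →ₐ[k] P3 k} (ht : IsDef t) (hne : t ≠ inc k) {u v : ℕ} (hu : 1 ≤ u)
    (hv : 1 ≤ v) {c c' : k} (h : t (X 0 ^ u - C c * X 1 ^ v) = inc k (X 0 ^ u - C c * X 1 ^ v))
    (h' : t (X 0 ^ u - C c' * X 1 ^ v) = inc k (X 0 ^ u - C c' * X 1 ^ v)) : c = c' := by
  by_contra hcc
  have e1 : t (C (c' - c) * X 1 ^ v) = inc k (C (c' - c) * X 1 ^ v) := by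
    have e2 : (C (c' - c) * X 1 ^ v : P2 k) =
        (X 0 ^ u - C c * X 1 ^ v) - (X 0 ^ u - C c' * X 1 ^ v) := by
      rw [C_sub]; ring
    rw [e2]
    exact (map_sub t _ _).trans ((congrArg₂ (· - ·) h h').trans (map_sub (inc k) _ _).symm)
  have e3 : (C (c' - c) * X 1 ^ v : P2 k) ≠ 0 :=
    mul_ne_zero (C_ne_zero.2 (sub_ne_zero.2 fun h => hcc h.symm)) (pow_ne_zero _ (X_ne_zero _))
  have e4 : t (X 1) = inc k (X 1) :=
    fixed_of_dvd ht e3 (Dvd.dvd.mul_left (dvd_pow_self _ (by omega)) _) e1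
  have e5 : t (X 0 ^ u) = inc k (X 0 ^ u) := by
    have e6 : (X 0 ^ u : P2 k) = (X 0 ^ u - C c * X 1 ^ v) + C c * X 1 ^ v := by ring
    have e7 : t (C c) = C c := t.commutes c
    have e8 : inc k (C c) = C c := (inc k).commutes c
    rw [e6, map_add, map_add, h, map_mul, map_mul, map_pow, map_pow, e4, e7, e8]
  have e9 : t (X 0) = inc k (X 0) :=
    fixed_of_dvd ht (pow_ne_zero _ (X_ne_zero _)) (dvd_pow_self _ (by omega)) e5
  exact hne (eq_inc_of_X e9 e4)

/-- The binomial factor of the leading form. -/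
theorem exists_factor [PerfectField k] {t : P2 k →ₐ[k] P3 k} (ht : IsDef t) (hne : t ≠ inc k)
    {f : P2 k} (hf0 : f ≠ 0) (hf : t f = inc k f) {m n : ℕ} (hm : degreeOf 0 f = m)
    (hn : degreeOf 1 f = n) (hm1 : 1 ≤ m) (hn1 : 1 ≤ n) :
    ∃ (u v g : ℕ) (c : k), c ≠ 0 ∧ 1 ≤ u ∧ 1 ≤ v ∧ m = u * g ∧ n = v * g ∧ (u = 1 ∨ v = 1) ∧
      (X 0 ^ u - C c * X 1 ^ v : P2 k) ∣ top ![(n : ℚ), (m : ℚ)] ((m * n : ℕ) : ℚ) f := by
  classical
  obtain ⟨hLE, hc0, hc1⟩ := newton ht hne hf0 hf hm hn hm1 hn1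
  obtain ⟨t', ht', hne', hfix⟩ := exists_lead ht hne (n : ℚ) (m : ℚ)
  obtain ⟨F, hF⟩ : ∃ F, F = top ![(n : ℚ), (m : ℚ)] ((m * n : ℕ) : ℚ) f := ⟨_, rfl⟩
  have hfixF : t' F = inc k F := by rw [hF]; exact hfix _ f hLE hf
  obtain ⟨g, u, v, hg, hcop, hmu, hnv⟩ := Nat.exists_coprime' (m := m) (n := n)
    (Nat.gcd_pos_of_pos_left _ hm1)
  have hu : 1 ≤ u := Nat.pos_of_ne_zero fun h => by rw [h, zero_mul] at hmu; omega
  have hv : 1 ≤ v := Nat.pos_of_ne_zero fun h => by rw [h, zero_mul] at hnv; omega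
  have hFm : coeff (Finsupp.single 0 m) F = coeff (Finsupp.single 0 m) f := by
    rw [hF, coeff_top, if_pos]
    rw [weight_two]
    simp
  have hFn : coeff (Finsupp.single 1 n) F = coeff (Finsupp.single 1 n) f := by
    rw [hF, coeff_top, if_pos]
    rw [weight_two]
    simp [mul_comm]
  have hF0 : F ≠ 0 := fun h => hc0 (by rw [← hFm, h, coeff_zero])
  -- monomials of the leading form
  have hmon : ∀ d, coeff d F ≠ 0 → ∃ l, l ≤ g ∧ d 0 = u * l ∧ d 1 = v * (g - l) := by
    intro d hd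
    rw [hF, coeff_top] at hd
    by_cases h2 : weight ![(n : ℚ), (m : ℚ)] d = ((m * n : ℕ) : ℚ)
    · rw [weight_two] at h2
      have h3 : d 0 * n + d 1 * m = m * n := by exact_mod_cast h2
      have h4 : d 0 * v + d 1 * u = u * v * g := by
        rw [hmu, hnv] at h3
        have h5 : (d 0 * v + d 1 * u) * g = (u * v * g) * g := by linarith
        exact Nat.eq_of_mul_eq_mul_right hg h5
      have h5 : u ∣ d 0 * v := by
        have h6 : u ∣ d 0 * v + d 1 * u := ⟨v * g, by rw [h4]; ring⟩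
        exact (Nat.dvd_add_iff_left ⟨d 1, by ring⟩).2 h6
      obtain ⟨l, hl⟩ := hcop.dvd_of_dvd_mul_right h5
      rw [hl] at h4
      have h6 : l * v + d 1 = v * g := by
        have h7 : u * (l * v + d 1) = u * (v * g) := by linarith
        exact Nat.eq_of_mul_eq_mul_left hu h7
      have h7 : l ≤ g := by
        by_contra h8
        have h9 : g < l := not_le.1 h8
        nlinarith
      refine ⟨l, h7, hl, ?_⟩
      obtain ⟨j, rfl⟩ := Nat.exists_eq_add_of_le h7
      rw [Nat.add_sub_cancel_left]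
      nlinarith
    · rw [if_neg h2] at hd
      exact absurd rfl hd
  -- the polynomial in one variable
  obtain ⟨p, hp⟩ : ∃ p : Polynomial k, p = ∑ d ∈ F.support, Polynomial.monomial (d 0 / u)
    (coeff d F) := ⟨_, rfl⟩
  have hpc : ∀ j, p.coeff j = ∑ d ∈ F.support, if d 0 / u = j then coeff d F else 0 := by
    intro j
    rw [hp, Polynomial.finsetSum_coeff]
    exact Finset.sum_congr rfl fun d _ => Polynomial.coeff_monomial
  have hpg : p.coeff g = coeff (Finsupp.single 0 m) f := by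
    rw [hpc, ← hFm]
    have h1 : (Finsupp.single 0 m : Fin 2 →₀ ℕ) 0 / u = g := by
      rw [Finsupp.single_eq_same, hmu, Nat.mul_div_cancel_left _ hu]
    rw [Finset.sum_eq_single (Finsupp.single 0 m), if_pos h1]
    · intro d hd hd2
      rw [if_neg]
      intro h2
      obtain ⟨l, hl, h3, h4⟩ := hmon d (mem_support_iff.1 hd)
      rw [h3, Nat.mul_div_cancel_left _ hu] at h2
      subst h2
      exact hd2 (eq_single_zero (by rw [h3, hmu]) (by rw [h4, Nat.sub_self, mul_zero]))
    · intro h2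
      rw [if_pos h1]
      exact notMem_support_iff.1 h2
  have hp0 : p.coeff 0 = coeff (Finsupp.single 1 n) f := by
    rw [hpc, ← hFn]
    have h1 : (Finsupp.single 1 n : Fin 2 →₀ ℕ) 0 / u = 0 := by
      rw [Finsupp.single_apply, if_neg (by decide), Nat.zero_div]
    rw [Finset.sum_eq_single (Finsupp.single 1 n), if_pos h1]
    · intro d hd hd2
      rw [if_neg]
      intro h2
      obtain ⟨l, hl, h3, h4⟩ := hmon d (mem_support_iff.1 hd)
      rw [h3, Nat.mul_div_cancel_left _ hu] at h2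
      subst h2
      exact hd2 (eq_single_one (by rw [h3, mul_zero]) (by rw [h4, Nat.sub_zero, hnv]))
    · intro h2
      rw [if_pos h1]
      exact notMem_support_iff.1 h2
  have hpd : p.natDegree ≠ 0 := by
    intro h2
    have h3 : g ≤ p.natDegree := Polynomial.le_natDegree_of_ne_zero (by rw [hpg]; exact hc0)
    omega
  obtain ⟨c, hc⟩ : ∃ c : k, p.IsRoot c := by
    refine root_of_unique p hpd fun c c' hc hc' => ?_
    obtain ⟨ι, hι⟩ : ∃ ι : k →+* AlgebraicClosure k, ι = algebraMap k (AlgebraicClosure k) :=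
      ⟨_, rfl⟩
    have hfixK : bct ι t' (map ι F) = inc (AlgebraicClosure k) (map ι F) := by
      rw [bct_map, hfixF, map_inc]
    have hFK : map ι F ≠ 0 := by
      intro h1
      exact hF0 (MvPolynomial.map_injective ι ι.injective (by rw [h1, map_zero]))
    have hmonK : ∀ d, coeff d (map ι F) ≠ 0 →
        ∃ l, l ≤ g ∧ d 0 = u * l ∧ d 1 = v * (g - l) := by
      intro d hd
      refine hmon d fun h1 => hd ?_
      rw [coeff_map, h1, map_zero]
    have hroot : ∀ c : AlgebraicClosure k, Polynomial.aeval c p = 0 →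
        (X 0 ^ u - C c * X 1 ^ v : P2 (AlgebraicClosure k)) ∣ map ι F := by
      intro c hc
      refine dvd_of_root hu hmonK c ?_
      rw [support_map_of_injective F ι.injective, ← hc, hp, map_sum]
      refine Finset.sum_congr rfl fun d _ => ?_
      rw [Polynomial.aeval_monomial, coeff_map, hι]
    exact root_unique (bct_isDef ι ht') (bct_ne ι hne') hu hv
      (fixed_of_dvd (bct_isDef ι ht') hFK (hroot c hc) hfixK)
      (fixed_of_dvd (bct_isDef ι ht') hFK (hroot c' hc') hfixK)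
  have hcne : c ≠ 0 := by
    intro h1
    rw [Polynomial.IsRoot.def, h1, ← Polynomial.coeff_zero_eq_eval_zero, hp0] at hc
    exact hc1 hc
  -- divisibility
  have hdvd : (X 0 ^ u - C c * X 1 ^ v : P2 k) ∣ F := by
    refine dvd_of_root hu hmon c ?_
    rw [← hc.eq_zero, hp, Polynomial.eval_finsetSum]
    exact Finset.sum_congr rfl fun d _ => (Polynomial.eval_monomial).symm
  have h1 := fixed_of_dvd ht' hF0 hdvd hfixF
  have h2 := one_of_fixed ht' hne' u v hu hv hcop c hcne h1
  exact ⟨u, v, g, c, hcne, hu, hv, hmu, hnv, h2, hF ▸ hdvd⟩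

end Pool.Agent.Lib.MP_551055_al.JK
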