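import Mathlib
import Pool.Agent.Lib.MP_551055_al.Trim.JK.Inv
import Pool.Agent.Lib.MP_551055_al.Trim.JK.Lead
import Pool.Agent.Lib.MP_551055_al.Trim.JK.Newton
import Pool.Agent.Lib.MP_551055_al.Trim.JK.Top

/-!
# The theorem of Jung and van der Kulk over perfect fields
-/

set_option autoImplicit false

namespace Pool.Agent.Lib.MP_551055_al.JK

open MvPolynomial

open Finsupp (weight weight_apply)

/-- The automorphisms of `k[x, y]`. -/
abbrev Aut2 (k : Type) [CommRing k] : Type := P2 k ≃ₐ[k] P2 k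

section Elementary

variable {k : Type} [CommRing k]

theorem algHom2_ext {A : Type} [CommRing A] [Algebra k A] {f g : P2 k →ₐ[k] A}
    (h0 : f (X 0) = g (X 0)) (h1 : f (X 1) = g (X 1)) : f = g := by
  refine MvPolynomial.algHom_ext fun i => ?_
  fin_cases i
  · exact h0
  · exact h1

theorem aut2_ext {f g : Aut2 k} (h0 : f (X 0) = g (X 0)) (h1 : f (X 1) = g (X 1)) : f = g :=
  AlgEquiv.ext fun A => DFunLike.congr_fun
    (algHom2_ext (f := (f : P2 k →ₐ[k] P2 k)) (g := (g : P2 k →ₐ[k] P2 k)) h0 h1) A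

/-- `x ↦ x + p(y)`. -/
noncomputable def el0 (p : Polynomial k) : Aut2 k :=
  AlgEquiv.ofAlgHom (aeval ![X 0 + Polynomial.aeval (X 1) p, X 1])
    (aeval ![X 0 - Polynomial.aeval (X 1) p, X 1])
    (algHom2_ext (by
      rw [AlgHom.comp_apply, aeval_X]
      simp only [Matrix.cons_val_zero, map_sub, aeval_X, AlgHom.id_apply]
      rw [← Polynomial.aeval_algHom_apply, aeval_X]
      simp) (by simp))
    (algHom2_ext (by
      rw [AlgHom.comp_apply, aeval_X]
      simp only [Matrix.cons_val_zero, map_add, aeval_X, AlgHom.id_apply]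
      rw [← Polynomial.aeval_algHom_apply, aeval_X]
      simp) (by simp))

theorem el0_X0 (p : Polynomial k) : el0 p (X 0) = X 0 + Polynomial.aeval (X 1) p := by
  simp [el0]

theorem el0_X1 (p : Polynomial k) : el0 p (X 1) = X 1 := by
  simp [el0]

/-- `y ↦ y + p(x)`. -/
noncomputable def el1 (p : Polynomial k) : Aut2 k :=
  AlgEquiv.ofAlgHom (aeval ![X 0, X 1 + Polynomial.aeval (X 0) p])
    (aeval ![X 0, X 1 - Polynomial.aeval (X 0) p])
    (algHom2_ext (by simp) (by
      rw [AlgHom.comp_apply, aeval_X]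
      simp only [Matrix.cons_val_one, Matrix.cons_val_zero, map_sub, aeval_X, AlgHom.id_apply]
      rw [← Polynomial.aeval_algHom_apply, aeval_X]
      simp))
    (algHom2_ext (by simp) (by
      rw [AlgHom.comp_apply, aeval_X]
      simp only [Matrix.cons_val_one, Matrix.cons_val_zero, map_add, aeval_X, AlgHom.id_apply]
      rw [← Polynomial.aeval_algHom_apply, aeval_X]
      simp))

theorem el1_X0 (p : Polynomial k) : el1 p (X 0) = X 0 := by
  simp [el1]

theorem el1_X1 (p : Polynomial k) : el1 p (X 1) = X 1 + Polynomial.aeval (X 0) p := by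
  simp [el1]

/-- The exchange of the variables. -/
noncomputable def sw : Aut2 k := renameEquiv k (Equiv.swap 0 1)

theorem sw_X0 : (sw : Aut2 k) (X 0) = X 1 := by simp [sw]

theorem sw_X1 : (sw : Aut2 k) (X 1) = X 0 := by simp [sw]

/-- `span (1, x, y)`. -/
noncomputable def W0 (k : Type) [CommRing k] : Submodule k (P2 k) :=
  Submodule.span k {1, X 0, X 1}

/-- `span (1, y)`. -/
noncomputable def L0 (k : Type) [CommRing k] : Submodule k (P2 k) := Submodule.span k {1, X 1}

/-- Affine automorphisms. -/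
def IsAff (φ : Aut2 k) : Prop := (W0 k).map (φ : P2 k →ₐ[k] P2 k).toLinearMap = W0 k

/-- Triangular automorphisms. -/
def IsTri (φ : Aut2 k) : Prop := (L0 k).map (φ : P2 k →ₐ[k] P2 k).toLinearMap = L0 k

/-- The subgroup generated by affine and triangular automorphisms. -/
noncomputable def Tame (k : Type) [CommRing k] : Subgroup (Aut2 k) :=
  Subgroup.closure ({φ | IsAff φ} ∪ {φ | IsTri φ})

theorem isTri_of_fix {φ : Aut2 k} (h : φ (X 1) = X 1) : IsTri φ := by
  rw [IsTri, L0, Submodule.map_span]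
  congr 1
  ext a
  simp only [Set.image_insert_eq, Set.image_singleton]
  have h1 : (φ : P2 k →ₐ[k] P2 k).toLinearMap 1 = 1 := map_one φ
  have h2 : (φ : P2 k →ₐ[k] P2 k).toLinearMap (X 1) = X 1 := h
  rw [h1, h2]

theorem sw_mem : (sw : Aut2 k) ∈ Tame k := by
  refine Subgroup.subset_closure (Or.inl ?_)
  show (W0 k).map ((sw : Aut2 k) : P2 k →ₐ[k] P2 k).toLinearMap = W0 k
  rw [W0, Submodule.map_span]
  congr 1
  simp only [Set.image_insert_eq, Set.image_singleton]
  have h1 : ((sw : Aut2 k) : P2 k →ₐ[k] P2 k).toLinearMap 1 = 1 := map_one (sw : Aut2 k)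
  have h2 : ((sw : Aut2 k) : P2 k →ₐ[k] P2 k).toLinearMap (X 0) = X 1 := sw_X0
  have h3 : ((sw : Aut2 k) : P2 k →ₐ[k] P2 k).toLinearMap (X 1) = X 0 := sw_X1
  rw [h1, h2, h3, Set.pair_comm]

theorem mem_of_fix1 {φ : Aut2 k} (h : φ (X 1) = X 1) : φ ∈ Tame k :=
  Subgroup.subset_closure (Or.inr (isTri_of_fix h))

theorem mem_of_fix0 {φ : Aut2 k} (h : φ (X 0) = X 0) : φ ∈ Tame k := by
  have h1 : sw * φ * sw ∈ Tame k := mem_of_fix1 (by
    show sw (φ (sw (X 1))) = X 1
    rw [sw_X1, h, sw_X0])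
  have h2 : (sw : Aut2 k) * sw = 1 := aut2_ext
    (by show sw (sw (X 0)) = X 0; rw [sw_X0, sw_X1])
    (by show sw (sw (X 1)) = X 1; rw [sw_X1, sw_X0])
  have h3 : φ = sw * (sw * φ * sw) * sw := by
    calc φ = (sw * sw) * φ * (sw * sw) := by rw [h2, one_mul, mul_one]
      _ = sw * (sw * φ * sw) * sw := by simp only [mul_assoc]
  rw [h3]
  exact mul_mem (mul_mem sw_mem h1) sw_mem

end Elementary

section Deform

variable {k : Type} [Field k]

/-- `x ↦ x`, `y ↦ y + s`. -/
noncomputable def shift : P2 k →ₐ[k] P3 k := aeval ![X 0, X 1 + X 2]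

/-- The extension of an automorphism to `k[x, y, s]`. -/
noncomputable def extn (φ : Aut2 k) : P3 k →ₐ[k] P3 k :=
  aeval ![inc k (φ (X 0)), inc k (φ (X 1)), X 2]

theorem ev_extn (φ : Aut2 k) (A : P3 k) : ev k (extn φ A) = φ (ev k A) := by
  have h : (ev k).comp (extn φ) = (φ : P2 k →ₐ[k] P2 k).comp (ev k) := by
    refine MvPolynomial.algHom_ext fun i => ?_
    fin_cases i
    · simp [extn, ev_inc]; simp [ev]
    · simp [extn, ev_inc]; simp [ev]
    · simp [extn]; simp [ev]
  exact DFunLike.congr_fun h A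

theorem ev_shift (A : P2 k) : ev k (shift A) = A := by
  have h : (ev k).comp shift = AlgHom.id k (P2 k) :=
    algHom2_ext (by simp [shift, ev]) (by simp [shift, ev])
  exact DFunLike.congr_fun h A

/-- The deformation given by an automorphism. -/
noncomputable def dfm (φ : Aut2 k) : P2 k →ₐ[k] P3 k :=
  (extn φ).comp (shift.comp (φ.symm : P2 k →ₐ[k] P2 k))

theorem dfm_apply (φ : Aut2 k) (A : P2 k) : dfm φ A = extn φ (shift (φ.symm A)) := rfl

theorem dfm_isDef (φ : Aut2 k) : IsDef (dfm φ) := fun A => by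
  rw [dfm_apply, ev_extn, ev_shift, AlgEquiv.apply_symm_apply]

theorem dfm_fix (φ : Aut2 k) : dfm φ (φ (X 0)) = inc k (φ (X 0)) := by
  rw [dfm_apply, AlgEquiv.symm_apply_apply]
  simp [shift, extn]

theorem dfm_ne (φ : Aut2 k) : dfm φ ≠ inc k := by
  intro h
  have h1 : dfm φ (φ (X 1)) = inc k (φ (X 1)) + X 2 := by
    rw [dfm_apply, AlgEquiv.symm_apply_apply]
    simp [shift, extn]
  rw [h] at h1
  exact X_ne_zero (R := k) (2 : Fin 3) (by linear_combination -h1)

end Deform

section Reduce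

variable {k : Type} [Field k]

theorem degreeOf_le_of {A : P2 k} {i : Fin 2} {m : ℕ} (h : ∀ d, coeff d A ≠ 0 → d i ≤ m) :
    degreeOf i A ≤ m := by
  rw [degreeOf_le_iff]
  exact fun d hd => h d (mem_support_iff.1 hd)

/-- One step of the reduction. -/
theorem reduce [PerfectField k] (φ : Aut2 k) (h0 : 1 ≤ degreeOf 0 (φ (X 0)))
    (h1 : 1 ≤ degreeOf 1 (φ (X 0))) : ∃ ψ ∈ Tame k,
      degreeOf 0 (ψ (φ (X 0))) + degreeOf 1 (ψ (φ (X 0))) <
        degreeOf 0 (φ (X 0)) + degreeOf 1 (φ (X 0)) := by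
  obtain ⟨f, hf⟩ : ∃ f, f = φ (X 0) := ⟨_, rfl⟩
  have hf0 : f ≠ 0 := by
    rw [hf]
    exact fun h => X_ne_zero (R := k) (0 : Fin 2) (φ.injective (by rw [h, map_zero]))
  rw [← hf] at h0 h1 ⊢
  obtain ⟨m, hm⟩ : ∃ m, degreeOf 0 f = m := ⟨_, rfl⟩
  obtain ⟨n, hn⟩ : ∃ n, degreeOf 1 f = n := ⟨_, rfl⟩
  rw [hm] at h0
  rw [hn] at h1
  have hfix : dfm φ f = inc k f := by rw [hf]; exact dfm_fix φ
  obtain ⟨hLE, -, -⟩ := newton (dfm_isDef φ) (dfm_ne φ) hf0 hfix hm hn h0 h1
  obtain ⟨u, v, g, c, hc, hu, hv, hmu, hnv, huv, hdvd⟩ :=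
    exists_factor (dfm_isDef φ) (dfm_ne φ) hf0 hfix hm hn h0 h1
  rw [hm, hn]
  obtain ⟨w, hw⟩ : ∃ w : Fin 2 → ℚ, w = ![(n : ℚ), (m : ℚ)] := ⟨_, rfl⟩
  have hw0 : w 0 = n := by rw [hw]; rfl
  have hw1 : w 1 = m := by rw [hw]; rfl
  rw [← hw] at hLE hdvd
  have hwt : ∀ d : Fin 2 →₀ ℕ, weight w d = d 0 * n + d 1 * m := fun d => by
    rw [hw, weight_two]
  -- the degrees of the result
  have hfin : ∀ ψ : Aut2 k, (∀ i, LEw w (w i) (ψ (X i))) →
      topHom w w (ψ : P2 k →ₐ[k] P2 k) = (ψ : P2 k →ₐ[k] P2 k) →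
      (X 0 ∣ ψ (X 0 ^ u - C c * X 1 ^ v) ∨ X 1 ∣ ψ (X 0 ^ u - C c * X 1 ^ v)) →
      degreeOf 0 (ψ f) + degreeOf 1 (ψ f) < m + n := by
    intro ψ hle htop hX
    have e1 : LEw w ((m * n : ℕ) : ℚ) (ψ f) := hom_le w w (ψ : P2 k →ₐ[k] P2 k) hle hLE
    have e2 : top w ((m * n : ℕ) : ℚ) (ψ f) = ψ (top w ((m * n : ℕ) : ℚ) f) := by
      have := hom_top w w (ψ : P2 k →ₐ[k] P2 k) hle hLE
      rw [htop] at this
      exact this
    have e3 : ψ (X 0 ^ u - C c * X 1 ^ v) ∣ top w ((m * n : ℕ) : ℚ) (ψ f) := by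
      rw [e2]
      exact map_dvd ψ hdvd
    have e4 : ∀ d, coeff d (ψ f) ≠ 0 → d 0 * n + d 1 * m ≤ m * n := by
      intro d hd
      have := e1 d hd
      rw [hwt] at this
      exact_mod_cast this
    have e5 : ∀ d, coeff d (ψ f) ≠ 0 → d 0 ≤ m ∧ d 1 ≤ n := by
      intro d hd
      have := e4 d hd
      constructor
      · by_contra h
        have : m + 1 ≤ d 0 := by omega
        nlinarith
      · by_contra h
        have : n + 1 ≤ d 1 := by omega
        nlinarith
    have e6 : degreeOf 0 (ψ f) ≤ m := degreeOf_le_of fun d hd => (e5 d hd).1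
    have e7 : degreeOf 1 (ψ f) ≤ n := degreeOf_le_of fun d hd => (e5 d hd).2
    have e8 : ∀ (i : Fin 2) (d : Fin 2 →₀ ℕ), X i ∣ ψ (X 0 ^ u - C c * X 1 ^ v) → d i = 0 →
        weight w d = ((m * n : ℕ) : ℚ) → coeff d (ψ f) = 0 := by
      intro i d hi hd hd2
      have := coeff_of_X_dvd (hi.trans e3) hd
      rwa [coeff_top, if_pos hd2] at this
    rcases hX with hX | hX
    · have e9 : degreeOf 1 (ψ f) ≤ n - 1 := by
        refine degreeOf_le_of fun d hd => ?_
        have i1 := (e5 d hd).2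
        have i2 := e4 d hd
        by_contra i3
        have i4 : d 1 = n := by omega
        have i5 : d 0 = 0 := by
          by_contra i6
          have : 1 ≤ d 0 := Nat.pos_of_ne_zero i6
          rw [i4] at i2
          nlinarith
        refine hd (e8 0 d hX i5 ?_)
        rw [hwt, i4, i5]
        push_cast
        ring
      omega
    · have e9 : degreeOf 0 (ψ f) ≤ m - 1 := by
        refine degreeOf_le_of fun d hd => ?_
        have i1 := (e5 d hd).1
        have i2 := e4 d hd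
        by_contra i3
        have i4 : d 0 = m := by omega
        have i5 : d 1 = 0 := by
          by_contra i6
          have : 1 ≤ d 1 := Nat.pos_of_ne_zero i6
          rw [i4] at i2
          nlinarith
        refine hd (e8 1 d hX i5 ?_)
        rw [hwt, i4, i5]
        push_cast
        ring
      omega
  rcases huv with h | h
  · -- `x ↦ x + c y ^ v`
    subst h
    rw [one_mul] at hmu
    subst hmu
    obtain ⟨ψ, hψ⟩ : ∃ ψ : Aut2 k, ψ = el0 (Polynomial.monomial v c) := ⟨_, rfl⟩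
    have g0 : ψ (X 0) = X 0 + C c * X 1 ^ v := by
      rw [hψ, el0_X0, Polynomial.aeval_monomial]
      rfl
    have g1 : ψ (X 1) = X 1 := by rw [hψ, el0_X1]
    have g2 : (C c * X 1 ^ v : P2 k) = monomial (Finsupp.single 1 v) c := by
      rw [C_mul_X_pow_eq_monomial]
    have g3 : weight w (Finsupp.single 1 v) = w 0 := by
      rw [hwt, hw0, hnv]
      simp
    refine ⟨ψ, mem_of_fix1 g1, hfin ψ ?_ ?_ ?_⟩
    · intro i
      fin_cases i
      · show LEw w (w 0) (ψ (X 0))
        rw [g0, g2]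
        refine (LEw_X w 0).add ?_
        rw [← g3]
        exact LEw_monomial w _ c
      · show LEw w (w 1) (ψ (X 1))
        rw [g1]
        exact LEw_X w 1
    · refine algHom2_ext ?_ ?_
      · rw [topHom, aeval_X]
        show top w (w 0) (ψ (X 0)) = ψ (X 0)
        rw [g0, top_add, top_X, g2]
        congr 1
        rw [← g3]
        exact top_monomial w _ c
      · rw [topHom, aeval_X]
        show top w (w 1) (ψ (X 1)) = ψ (X 1)
        rw [g1, top_X]
    · left
      have g4 : ψ (X 0 ^ 1 - C c * X 1 ^ v) = X 0 := by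
        have g5 : ψ (C c) = C c := ψ.commutes c
        rw [map_sub, map_mul, map_pow, map_pow, g0, g1, g5]
        ring
      rw [g4]
  · -- `y ↦ y + c⁻¹ x ^ u`
    subst h
    rw [one_mul] at hnv
    subst hnv
    obtain ⟨ψ, hψ⟩ : ∃ ψ : Aut2 k, ψ = el1 (Polynomial.monomial u c⁻¹) := ⟨_, rfl⟩
    have g0 : ψ (X 0) = X 0 := by rw [hψ, el1_X0]
    have g1 : ψ (X 1) = X 1 + C c⁻¹ * X 0 ^ u := by
      rw [hψ, el1_X1, Polynomial.aeval_monomial]
      rfl
    have g2 : (C c⁻¹ * X 0 ^ u : P2 k) = monomial (Finsupp.single 0 u) c⁻¹ := by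
      rw [C_mul_X_pow_eq_monomial]
    have g3 : weight w (Finsupp.single 0 u) = w 1 := by
      rw [hwt, hw1, hmu]
      simp
    refine ⟨ψ, mem_of_fix0 g0, hfin ψ ?_ ?_ ?_⟩
    · intro i
      fin_cases i
      · show LEw w (w 0) (ψ (X 0))
        rw [g0]
        exact LEw_X w 0
      · show LEw w (w 1) (ψ (X 1))
        rw [g1, g2]
        refine (LEw_X w 1).add ?_
        rw [← g3]
        exact LEw_monomial w _ _
    · refine algHom2_ext ?_ ?_
      · rw [topHom, aeval_X]
        show top w (w 0) (ψ (X 0)) = ψ (X 0)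
        rw [g0, top_X]
      · rw [topHom, aeval_X]
        show top w (w 1) (ψ (X 1)) = ψ (X 1)
        rw [g1, top_add, top_X, g2]
        congr 1
        rw [← g3]
        exact top_monomial w _ _
    · right
      have g4 : ψ (X 0 ^ u - C c * X 1 ^ 1) = X 1 * (- C c) := by
        have g5 : ψ (C c) = C c := ψ.commutes c
        have g6 : (C c * C c⁻¹ : P2 k) = 1 := by
          rw [← C_mul, mul_inv_cancel₀ hc, C_1]
        rw [map_sub, map_mul, map_pow, map_pow, g0, g1, g5]
        linear_combination (-(X 0 : P2 k) ^ u) * g6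
      rw [g4]
      exact Dvd.intro _ rfl

/-- A polynomial in `x`. -/
theorem exists_aeval {f : P2 k} (h : degreeOf 1 f = 0) :
    ∃ q : Polynomial k, f = Polynomial.aeval (X 0) q := by
  refine ⟨∑ d ∈ f.support, Polynomial.monomial (d 0) (coeff d f), ?_⟩
  rw [map_sum]
  conv_lhs => rw [f.as_sum]
  refine Finset.sum_congr rfl fun d hd => ?_
  have h1 : d 1 = 0 := by
    have := le_degreeOf (i := 1) (mem_support_iff.1 hd)
    omega
  rw [Polynomial.aeval_monomial, eq_single_zero (d := d) rfl h1]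
  rw [Finsupp.single_eq_same]
  exact (C_mul_X_pow_eq_monomial).symm

theorem eq_C_of_deg {φ : Aut2 k} {A : P2 k} (h : (φ A).totalDegree = 0) : ∃ c, A = C c := by
  rw [totalDegree_eq_zero_iff_eq_C] at h
  refine ⟨coeff 0 (φ A), φ.injective ?_⟩
  have h1 : φ (C (coeff 0 (φ A))) = C (coeff 0 (φ A)) := φ.commutes _
  rw [h1, ← h]

theorem one_le_deg (φ : Aut2 k) (i : Fin 2) : 1 ≤ (φ (X i)).totalDegree := by
  by_contra h
  obtain ⟨c, hc⟩ := eq_C_of_deg (φ := φ) (A := X i) (by omega)
  have := congrArg totalDegree hc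
  rw [totalDegree_X, totalDegree_C] at this
  exact one_ne_zero this

theorem deg_lt (φ : Aut2 k) (i : Fin 2) {p : Polynomial k} (hp : 2 ≤ p.natDegree) :
    (φ (X i)).totalDegree < (Polynomial.aeval (φ (X i)) p).totalDegree := by
  have h1 : Polynomial.aeval (φ (X i)) p =
      Polynomial.aeval (φ (X i)) p.divX * φ (X i) + C (p.coeff 0) := by
    conv_lhs => rw [← Polynomial.divX_mul_X_add p]
    rw [map_add, map_mul, Polynomial.aeval_X, Polynomial.aeval_C]
    rfl
  have h2 : 1 ≤ (Polynomial.aeval (φ (X i)) p.divX).totalDegree := by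
    by_contra h3
    have h4 : Polynomial.aeval (φ (X i)) p.divX = φ (Polynomial.aeval (X i) p.divX) :=
      Polynomial.aeval_algHom_apply φ (X i) p.divX
    obtain ⟨c, hc⟩ := eq_C_of_deg (φ := φ) (A := Polynomial.aeval (X i) p.divX) (by
      rw [← h4]; omega)
    have h5 := congrArg (aeval (R := k) fun _ : Fin 2 => (Polynomial.X : Polynomial k)) hc
    rw [← Polynomial.aeval_algHom_apply, aeval_X, aeval_C, Polynomial.aeval_X_left_apply] at h5
    have h7 : p.divX.natDegree = 0 := by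
      rw [h5]
      exact Polynomial.natDegree_C c
    rw [Polynomial.natDegree_divX_eq_natDegree_tsub_one] at h7
    omega
  have h3 : Polynomial.aeval (φ (X i)) p.divX ≠ 0 := by
    intro h
    rw [h, totalDegree_zero] at h2
    omega
  have h4 : φ (X i) ≠ 0 := by
    intro h
    have := one_le_deg φ i
    rw [h, totalDegree_zero] at this
    omega
  have h5 := totalDegree_mul_of_isDomain h3 h4
  rw [h1, totalDegree_add_eq_left_of_totalDegree_lt, h5]
  · omega
  · rw [totalDegree_C, h5]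
    omega

/-- An automorphism which maps `x` to a polynomial in `x`. -/
theorem linear_of_aut {χ : Aut2 k} (h : degreeOf 1 (χ (X 0)) = 0) :
    ∃ a b : k, a ≠ 0 ∧ χ (X 0) = C a * X 0 + C b := by
  obtain ⟨q, hq⟩ := exists_aeval h
  have hdeg : q.natDegree ≤ 1 := by
    by_contra h1
    have h2 := deg_lt χ⁻¹ 0 (p := q) (by omega)
    rw [Polynomial.aeval_algHom_apply, ← hq] at h2
    have h3 : χ⁻¹ (χ (X 0)) = X 0 := χ.symm_apply_apply _
    rw [h3, totalDegree_X] at h2
    have := one_le_deg χ⁻¹ 0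
    omega
  have hq1 := Polynomial.eq_X_add_C_of_natDegree_le_one hdeg
  have h1 : χ (X 0) = C (q.coeff 1) * X 0 + C (q.coeff 0) := by
    rw [hq]
    conv_lhs => rw [hq1]
    simp [algebraMap_eq]
  refine ⟨_, _, fun h2 => ?_, h1⟩
  have h3 := one_le_deg χ 0
  rw [h1, h2, C_0, zero_mul, zero_add, totalDegree_C] at h3
  omega

/-- `x ↦ a x + b`. -/
noncomputable def af (a b : k) (ha : a ≠ 0) : Aut2 k :=
  AlgEquiv.ofAlgHom (aeval ![C a * X 0 + C b, X 1]) (aeval ![C a⁻¹ * X 0 - C a⁻¹ * C b, X 1])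
    (algHom2_ext (by
      have h1 : ∀ c : k, aeval (R := k) ![C a * X 0 + C b, (X 1 : P2 k)] (C c) = C c :=
        fun c => by rw [← algebraMap_eq, AlgHom.commutes]
      have h2 : (C a⁻¹ * C a : P2 k) = 1 := by rw [← C_mul, inv_mul_cancel₀ ha, C_1]
      simp only [AlgHom.comp_apply, aeval_X, Matrix.cons_val_zero, map_sub, map_mul, h1,
        AlgHom.id_apply]
      linear_combination (X 0 : P2 k) * h2) (by simp))
    (algHom2_ext (by
      have h1 : ∀ c : k, aeval (R := k) ![C a⁻¹ * X 0 - C a⁻¹ * C b, (X 1 : P2 k)] (C c) = C c :=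
        fun c => by rw [← algebraMap_eq, AlgHom.commutes]
      have h2 : (C a * C a⁻¹ : P2 k) = 1 := by rw [← C_mul, mul_inv_cancel₀ ha, C_1]
      simp only [AlgHom.comp_apply, aeval_X, Matrix.cons_val_zero, map_add, map_mul, h1,
        AlgHom.id_apply]
      linear_combination (X 0 - C b : P2 k) * h2) (by simp))

theorem af_X0 (a b : k) (ha : a ≠ 0) : af a b ha (X 0) = C a * X 0 + C b := by simp [af]

theorem af_X1 (a b : k) (ha : a ≠ 0) : af a b ha (X 1) = X 1 := by simp [af]

/-- **Jung, van der Kulk.** -/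
theorem jung [PerfectField k] (φ : Aut2 k) : φ ∈ Tame k := by
  have key : ∀ (N : ℕ) (φ : Aut2 k), degreeOf 0 (φ (X 0)) + degreeOf 1 (φ (X 0)) = N →
      φ ∈ Tame k := by
    intro N
    induction N using Nat.strong_induction_on with
    | _ N ih =>
      intro φ hN
      -- the case of a polynomial in `x`
      have hcase : ∀ χ : Aut2 k, degreeOf 1 (χ (X 0)) = 0 → χ ∈ Tame k := by
        intro χ hχ
        obtain ⟨a, b, ha, hab⟩ := linear_of_aut hχ
        have h2 : (af a b ha)⁻¹ * χ ∈ Tame k := by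
          refine mem_of_fix0 ?_
          show (af a b ha).symm (χ (X 0)) = X 0
          rw [hab, ← af_X0 a b ha, AlgEquiv.symm_apply_apply]
        have h3 : χ = af a b ha * ((af a b ha)⁻¹ * χ) := by rw [mul_inv_cancel_left]
        rw [h3]
        exact mul_mem (mem_of_fix1 (af_X1 a b ha)) h2
      by_cases h1 : degreeOf 1 (φ (X 0)) = 0
      · exact hcase φ h1
      · by_cases h0 : degreeOf 0 (φ (X 0)) = 0
        · have h2 : sw * φ ∈ Tame k := by
            refine hcase _ ?_
            show degreeOf 1 (sw (φ (X 0))) = 0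
            have h3 : (sw : Aut2 k) (φ (X 0)) = rename (Equiv.swap 0 1) (φ (X 0)) := rfl
            rw [h3]
            have h4 := degreeOf_rename_of_injective (p := φ (X 0))
              (Equiv.swap (0 : Fin 2) 1).injective 0
            rw [Equiv.swap_apply_left] at h4
            rw [h4, h0]
          have h3 : φ = sw⁻¹ * (sw * φ) := by rw [inv_mul_cancel_left]
          rw [h3]
          exact mul_mem (inv_mem sw_mem) h2
        · obtain ⟨ψ, hψ, hlt⟩ := reduce φ (Nat.pos_of_ne_zero h0) (Nat.pos_of_ne_zero h1)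
          have h2 : ψ * φ ∈ Tame k := ih _ (by rw [← hN]; exact hlt) (ψ * φ) rfl
          have h3 : φ = ψ⁻¹ * (ψ * φ) := by rw [inv_mul_cancel_left]
          rw [h3]
          exact mul_mem (inv_mem hψ) h2
  exact key _ φ rfl

end Reduce

end Pool.Agent.Lib.MP_551055_al.JK
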