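import Mathlib
import Pool.Agent.Lib.MP_551055_al.Trim.JK.Inv
import Pool.Agent.Lib.MP_551055_al.Trim.JK.Jung

/-!
# Triangular automorphisms
-/

set_option autoImplicit false

namespace Pool.Agent.Lib.MP_551055_al.JK

open MvPolynomial

section Tri

variable {k : Type} [Field k]

/-- `k[x, y]` as polynomials in `x` over `k[y]`. -/
noncomputable def pxy : P2 k →ₐ[k] Polynomial (Polynomial k) :=
  aeval ![Polynomial.X, Polynomial.C Polynomial.X]

/-- The inverse of `pxy`. -/
noncomputable def bxy : Polynomial (Polynomial k) →+* P2 k :=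
  Polynomial.eval₂RingHom (Polynomial.aeval (X 1) : Polynomial k →ₐ[k] P2 k).toRingHom (X 0)

theorem pxy_C (c : k) : pxy (C c) = Polynomial.C (Polynomial.C c) := by
  rw [← algebraMap_eq, AlgHom.commutes]
  rfl

theorem bxy_pxy (A : P2 k) : bxy (pxy A) = A := by
  have h : (bxy).comp ((pxy : P2 k →ₐ[k] Polynomial (Polynomial k)) :
      P2 k →+* Polynomial (Polynomial k)) = RingHom.id (P2 k) := by
    refine MvPolynomial.ringHom_ext (fun c => ?_) fun i => ?_
    · show bxy (pxy (C c)) = C c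
      rw [pxy_C]
      simp [bxy]
    · fin_cases i <;> simp [pxy, bxy]
  exact DFunLike.congr_fun h A

/-- Automorphisms which fix `y`. -/
theorem tri_form {φ : Aut2 k} (h : φ (X 1) = X 1) :
    ∃ (a : k) (p : Polynomial k), a ≠ 0 ∧ φ (X 0) = C a * X 0 + Polynomial.aeval (X 1) p := by
  obtain ⟨F, hF⟩ : ∃ F, F = φ (X 0) := ⟨_, rfl⟩
  obtain ⟨B, hB⟩ : ∃ B, B = φ.symm (X 0) := ⟨_, rfl⟩
  have h0 : pxy (X 0 : P2 k) = Polynomial.X := by simp [pxy]
  have h1 : pxy (X 1 : P2 k) = Polynomial.C Polynomial.X := by simp [pxy]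
  have hcomp : ∀ A : P2 k, pxy (φ A) = (pxy A).comp (pxy F) := by
    intro A
    have h1 : ((pxy : P2 k →ₐ[k] Polynomial (Polynomial k)) :
        P2 k →+* Polynomial (Polynomial k)).comp ((φ : P2 k →ₐ[k] P2 k) : P2 k →+* P2 k) =
        (Polynomial.compRingHom (pxy F)).comp ((pxy : P2 k →ₐ[k] Polynomial (Polynomial k)) :
          P2 k →+* Polynomial (Polynomial k)) := by
      refine MvPolynomial.ringHom_ext (fun c => ?_) fun i => ?_
      · show pxy (φ (C c)) = (pxy (C c)).comp (pxy F)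
        have h2 : φ (C c) = C c := φ.commutes c
        rw [h2, pxy_C, Polynomial.C_comp]
      · fin_cases i
        · show pxy (φ (X 0)) = (pxy (X 0)).comp (pxy F)
          rw [← hF, h0, Polynomial.X_comp]
        · show pxy (φ (X 1)) = (pxy (X 1)).comp (pxy F)
          rw [h, h1, Polynomial.C_comp]
    exact DFunLike.congr_fun h1 A
  have h2 := hcomp B
  rw [hB, AlgEquiv.apply_symm_apply, ← hB, h0] at h2
  have h3 := congrArg Polynomial.natDegree h2
  rw [Polynomial.natDegree_X, Polynomial.natDegree_comp] at h3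
  have hdeg : (pxy F).natDegree = 1 := Nat.eq_one_of_mul_eq_one_left h3.symm
  have hdegB : (pxy B).natDegree = 1 := Nat.eq_one_of_mul_eq_one_right h3.symm
  have h4 := congrArg Polynomial.leadingCoeff h2
  rw [Polynomial.leadingCoeff_X, Polynomial.leadingCoeff_comp (by omega), hdegB, pow_one] at h4
  have h5 : IsUnit (pxy F).leadingCoeff := IsUnit.of_mul_eq_one _ ((mul_comm _ _).trans h4.symm)
  obtain ⟨a, ha, ha2⟩ := Polynomial.isUnit_iff.1 h5
  rw [Polynomial.leadingCoeff, hdeg] at ha2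
  refine ⟨a, (pxy F).coeff 0, ha.ne_zero, ?_⟩
  have h6 := Polynomial.eq_X_add_C_of_natDegree_le_one hdeg.le
  rw [← ha2] at h6
  rw [← hF]
  calc F = bxy (pxy F) := (bxy_pxy F).symm
    _ = bxy (Polynomial.C (Polynomial.C a) * Polynomial.X
          + Polynomial.C ((pxy F).coeff 0)) := congrArg bxy h6
    _ = C a * X 0 + Polynomial.aeval (X 1) ((pxy F).coeff 0) := by
      simp [bxy]

end Tri

end Pool.Agent.Lib.MP_551055_al.JK
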