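import Mathlib
import Pool.Agent.Lib.MP_551055_al.Trim.BT.HtCrit
import Pool.Agent.Lib.MP_551055_al.Trim.JK.Inv
import Pool.Agent.Lib.MP_551055_al.Trim.JK.Jung
import Pool.Agent.Lib.MP_551055_al.Trim.JK.Tri

/-!
# The tree of the automorphism group of the plane
-/

set_option autoImplicit false

namespace Pool.Agent.Lib.MP_551055_al.JK

open MvPolynomial Pointwise

section Crit

/-- Vertices which are reached from the root by going up. -/
inductive Up {V : Type} (T : SimpleGraph V) (h : V → ℕ) (r : V) : V → Prop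
  | root : Up T h r r
  | up {u v : V} : Up T h r u → T.Adj u v → h u < h v → Up T h r v

/-- A connected graph with a height function such that the root has no lower neighbour and every
vertex has at most one lower neighbour is a tree. -/
theorem isTree_of_height2 {V : Type} (T : SimpleGraph V) (h : V → ℕ) (r : V)
    (hne : ∀ x y, T.Adj x y → h x ≠ h y) (hr : ∀ y, T.Adj r y → h r ≤ h y)
    (huniq : ∀ x y z, T.Adj x y → T.Adj x z → h y < h x → h z < h x → y = z)
    (hc : ∀ x, T.Reachable r x) : T.IsTree := by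
  have key : ∀ u v, Up T h r u → T.Adj u v → Up T h r v := by
    intro u v hu huv
    rcases lt_or_gt_of_ne (hne u v huv) with h1 | h1
    · exact Up.up hu huv h1
    · cases hu with
      | root => exact absurd (hr v huv) (not_le.2 h1)
      | up hw hwu h2 =>
        rw [huniq u v _ huv hwu.symm h1 h2]
        exact hw
  have key2 : ∀ (a b : V), T.Walk a b → Up T h r a → Up T h r b := by
    intro a b w
    induction w with
    | nil => exact id
    | cons hab _ ih => exact fun ha => ih (key _ _ ha hab)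
  refine BT.isTree_of_height T h r hne (fun x hx => ?_) huniq
  obtain ⟨w⟩ := hc x
  cases key2 _ _ w Up.root with
  | root => exact absurd rfl hx
  | up hu hux h1 => exact ⟨_, hux.symm, h1⟩

end Crit

section Basic

variable {k : Type} [Field k]

theorem mem_smul_iff (φ : Aut2 k) (S : Submodule k (P2 k)) (A : P2 k) :
    A ∈ φ • S ↔ φ.symm A ∈ S := by
  rw [Submodule.mem_smul_pointwise_iff_exists]
  constructor
  · rintro ⟨B, hB, h⟩
    rw [← h]
    show φ.symm (φ B) ∈ S
    rwa [AlgEquiv.symm_apply_apply]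
  · intro h
    exact ⟨_, h, φ.apply_symm_apply A⟩

theorem mem_smul (φ : Aut2 k) {S : Submodule k (P2 k)} {A : P2 k} (h : A ∈ S) :
    φ A ∈ φ • S := by
  rw [mem_smul_iff, AlgEquiv.symm_apply_apply]
  exact h

theorem smul_mono (φ : Aut2 k) {S S' : Submodule k (P2 k)} (h : S ≤ S') : φ • S ≤ φ • S' := by
  intro A hA
  rw [mem_smul_iff] at hA ⊢
  exact h hA

theorem smul_lt (φ : Aut2 k) {S S' : Submodule k (P2 k)} (h : S < S') : φ • S < φ • S' := by
  refine lt_of_le_of_ne (smul_mono φ h.le) fun h1 => h.ne ?_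
  have := congrArg (fun Q => φ⁻¹ • Q) h1
  simpa only [inv_smul_smul] using this

theorem one_mem_W0 : (1 : P2 k) ∈ W0 k := Submodule.subset_span (by simp)

theorem X0_mem_W0 : (X 0 : P2 k) ∈ W0 k := Submodule.subset_span (by simp)

theorem X1_mem_W0 : (X 1 : P2 k) ∈ W0 k := Submodule.subset_span (by simp)

theorem one_mem_L0 : (1 : P2 k) ∈ L0 k := Submodule.subset_span (by simp)

theorem X1_mem_L0 : (X 1 : P2 k) ∈ L0 k := Submodule.subset_span (by simp)

theorem smul_W0_le {φ : Aut2 k} {S : Submodule k (P2 k)} (h : 1 ∈ S) (h0 : φ (X 0) ∈ S)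
    (h1 : φ (X 1) ∈ S) : φ • W0 k ≤ S := by
  have h2 : φ • W0 k = (W0 k).map (φ : P2 k →ₐ[k] P2 k).toLinearMap := rfl
  rw [h2, W0, Submodule.map_span, Submodule.span_le]
  rintro _ ⟨A, hA, rfl⟩
  rcases hA with rfl | rfl | rfl
  · show φ 1 ∈ S
    rwa [map_one]
  · exact h0
  · exact h1

theorem smul_L0_le {φ : Aut2 k} {S : Submodule k (P2 k)} (h : 1 ∈ S)
    (h1 : φ (X 1) ∈ S) : φ • L0 k ≤ S := by
  have h2 : φ • L0 k = (L0 k).map (φ : P2 k →ₐ[k] P2 k).toLinearMap := rfl
  rw [h2, L0, Submodule.map_span, Submodule.span_le]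
  rintro _ ⟨A, hA, rfl⟩
  rcases hA with rfl | rfl
  · show φ 1 ∈ S
    rwa [map_one]
  · exact h1

theorem one_mem_smul {φ : Aut2 k} {S : Submodule k (P2 k)} (h : 1 ∈ S) : 1 ∈ φ • S := by
  have := mem_smul φ h
  rwa [map_one] at this

theorem L0_le : L0 k ≤ W0 k := Submodule.span_mono (by
  intro x hx
  rcases hx with rfl | rfl
  · simp
  · simp)

theorem lin_zero {a b c : k} (h : a • (1 : P2 k) + b • X 0 + c • X 1 = 0) :
    a = 0 ∧ b = 0 ∧ c = 0 := by
  have h1 := congrArg (MvPolynomial.eval ![(0 : k), 0]) h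
  have h2 := congrArg (MvPolynomial.eval ![(1 : k), 0]) h
  have h3 := congrArg (MvPolynomial.eval ![(0 : k), 1]) h
  simp only [map_add, smul_eval, map_one, eval_X, Matrix.cons_val_zero, Matrix.cons_val_one,
    mul_one, mul_zero, add_zero, map_zero] at h1 h2 h3
  refine ⟨h1, ?_, ?_⟩
  · rw [h1, zero_add] at h2
    exact h2
  · rw [h1, zero_add] at h3
    exact h3

theorem finrank_W0 : Module.finrank k (W0 k) = 3 := by
  have h1 : LinearIndependent k ![(1 : P2 k), X 0, X 1] := by
    rw [Fintype.linearIndependent_iff]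
    intro g hg
    rw [Fin.sum_univ_three] at hg
    have := lin_zero hg
    intro i
    fin_cases i
    · exact this.1
    · exact this.2.1
    · exact this.2.2
  have h2 := finrank_span_eq_card h1
  have h3 : Set.range ![(1 : P2 k), X 0, X 1] = {1, X 0, X 1} := by
    ext A
    simp only [Set.mem_range, Fin.exists_fin_succ, Matrix.cons_val_zero, Matrix.cons_val_succ,
      Set.mem_insert_iff, Set.mem_singleton_iff, IsEmpty.exists_iff, or_false]
    tauto
  rw [h3] at h2
  exact h2

theorem finrank_L0 : Module.finrank k (L0 k) = 2 := by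
  have h1 : LinearIndependent k ![(1 : P2 k), X 1] := by
    rw [Fintype.linearIndependent_iff]
    intro g hg
    rw [Fin.sum_univ_two] at hg
    have := lin_zero (a := g 0) (b := 0) (c := g 1) (by
      rw [zero_smul, add_zero]
      exact hg)
    intro i
    fin_cases i
    · exact this.1
    · exact this.2.2
  have h2 := finrank_span_eq_card h1
  have h3 : Set.range ![(1 : P2 k), X 1] = {1, X 1} := by
    ext A
    simp only [Set.mem_range, Fin.exists_fin_succ, Matrix.cons_val_zero, Matrix.cons_val_succ,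
      Set.mem_insert_iff, Set.mem_singleton_iff, IsEmpty.exists_iff, or_false]
    tauto
  rw [h3] at h2
  exact h2

theorem finrank_smul (φ : Aut2 k) (S : Submodule k (P2 k)) :
    Module.finrank k (φ • S : Submodule k (P2 k)) = Module.finrank k S :=
  LinearEquiv.finrank_map_eq φ.toLinearEquiv S

theorem fin_of_finrank {S : Submodule k (P2 k)} {n : ℕ} (h : Module.finrank k S = n + 1) :
    FiniteDimensional k S :=
  FiniteDimensional.of_finrank_eq_succ h

theorem fin_W (φ : Aut2 k) : FiniteDimensional k (φ • W0 k : Submodule k (P2 k)) :=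
  fin_of_finrank (n := 2) (by rw [finrank_smul, finrank_W0])

theorem fin_L (φ : Aut2 k) : FiniteDimensional k (φ • L0 k : Submodule k (P2 k)) :=
  fin_of_finrank (n := 1) (by rw [finrank_smul, finrank_L0])

theorem W_eq_of_le {φ ψ : Aut2 k} (h : φ • W0 k ≤ ψ • W0 k) : φ • W0 k = ψ • W0 k := by
  have := fin_W ψ
  exact Submodule.eq_of_le_of_finrank_eq h (by rw [finrank_smul, finrank_smul])

theorem L_eq_of_le {φ ψ : Aut2 k} (h : φ • L0 k ≤ ψ • L0 k) : φ • L0 k = ψ • L0 k := by
  have := fin_L ψ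
  exact Submodule.eq_of_le_of_finrank_eq h (by rw [finrank_smul, finrank_smul])

theorem L_lt_W (φ : Aut2 k) : φ • L0 k < φ • W0 k := by
  refine lt_of_le_of_ne (smul_mono φ L0_le) fun h => ?_
  have := congrArg (fun S : Submodule k (P2 k) => Module.finrank k S) h
  simp only [finrank_smul, finrank_W0, finrank_L0] at this
  omega

/-- Affine automorphisms act transitively on lines. -/
theorem exists_aff {φ : Aut2 k} (h : φ • L0 k ≤ W0 k) :
    ∃ a : Aut2 k, a • W0 k = W0 k ∧ φ • L0 k = a • L0 k := by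
  have h1 : φ (X 1) ∈ W0 k := h (mem_smul φ X1_mem_L0)
  obtain ⟨c, α, β, h2⟩ := Submodule.mem_span_triple.1 h1
  have hW : ∀ a : Aut2 k, a • W0 k ≤ W0 k → a • W0 k = W0 k := by
    intro a ha
    have := W_eq_of_le (φ := a) (ψ := 1) (by rwa [one_smul])
    rwa [one_smul] at this
  by_cases hβ : β = 0
  · have hα : α ≠ 0 := by
      rintro rfl
      rw [hβ, zero_smul, zero_smul, add_zero, add_zero] at h2
      have h3 : φ (X 1) = φ (c • 1) := by rw [map_smul, map_one, h2]
      have h4 := φ.injective h3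
      have h5 := lin_zero (a := c) (b := (0 : k)) (c := -1) (by
        rw [← h4, zero_smul, add_zero, neg_smul, one_smul, add_neg_cancel])
      exact one_ne_zero (neg_eq_zero.1 h5.2.2)
    refine ⟨sw, hW _ (smul_W0_le one_mem_W0 ?_ ?_), L_eq_of_le (smul_L0_le (one_mem_smul one_mem_L0) ?_)⟩
    · rw [sw_X0]; exact X1_mem_W0
    · rw [sw_X1]; exact X0_mem_W0
    · rw [← h2, hβ, zero_smul, add_zero]
      refine add_mem (Submodule.smul_mem _ _ (one_mem_smul one_mem_L0)) (Submodule.smul_mem _ _ ?_)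
      rw [← sw_X1]
      exact mem_smul sw X1_mem_L0
  · have h3 : (el1 (Polynomial.monomial 1 (α / β)) : Aut2 k) (X 1) = X 1 + (α / β) • X 0 := by
      rw [el1_X1, Polynomial.aeval_monomial, pow_one, Algebra.smul_def]
    refine ⟨el1 (Polynomial.monomial 1 (α / β)), hW _ (smul_W0_le one_mem_W0 ?_ ?_),
      L_eq_of_le (smul_L0_le (one_mem_smul one_mem_L0) ?_)⟩
    · rw [el1_X0]; exact X0_mem_W0
    · rw [h3]
      exact add_mem X1_mem_W0 (Submodule.smul_mem _ _ X0_mem_W0)
    · have h4 : φ (X 1) = c • 1 + β • (X 1 + (α / β) • X 0) := by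
        rw [← h2, smul_add, smul_smul, mul_div_cancel₀ _ hβ]
        abel
      rw [h4]
      refine add_mem (Submodule.smul_mem _ _ (one_mem_smul one_mem_L0)) (Submodule.smul_mem _ _ ?_)
      rw [← h3]
      exact mem_smul _ X1_mem_L0

/-- Automorphisms which preserve `span (1, y)`. -/
theorem tri_form2 {τ : Aut2 k} (h : τ • L0 k = L0 k) :
    ∃ (a c d : k) (p : Polynomial k), a ≠ 0 ∧ c ≠ 0 ∧ τ (X 1) = C c * X 1 + C d ∧
      τ (X 0) = C a * X 0 + Polynomial.aeval (X 1) p := by
  have h1 : τ (X 1) ∈ L0 k := by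
    have := mem_smul τ (X1_mem_L0 (k := k))
    rwa [h] at this
  obtain ⟨d, c, h2⟩ := Submodule.mem_span_pair.1 h1
  have hc : c ≠ 0 := by
    rintro rfl
    rw [zero_smul, add_zero] at h2
    have h3 : τ (X 1) = τ (d • 1) := by rw [map_smul, map_one, h2]
    have h4 := τ.injective h3
    have h5 := lin_zero (a := d) (b := (0 : k)) (c := -1) (by
      rw [← h4, zero_smul, add_zero, neg_smul, one_smul, add_neg_cancel])
    exact one_ne_zero (neg_eq_zero.1 h5.2.2)
  have h3 : τ (X 1) = C c * X 1 + C d := by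
    rw [← h2, smul_eq_C_mul, smul_eq_C_mul, mul_one, add_comm]
  obtain ⟨χ, hχ⟩ : ∃ χ : Aut2 k, χ = sw * af c d hc * sw := ⟨_, rfl⟩
  have hC : ∀ (σ : Aut2 k) (e : k), σ (C e) = C e := fun σ e => σ.commutes e
  have g0 : χ (X 0) = X 0 := by
    rw [hχ]
    show sw (af c d hc (sw (X 0))) = X 0
    rw [sw_X0, af_X1, sw_X1]
  have g1 : χ (X 1) = C c * X 1 + C d := by
    rw [hχ]
    show sw (af c d hc (sw (X 1))) = _
    rw [sw_X1, af_X0, map_add, map_mul, hC, hC, sw_X0]
  obtain ⟨a, p, ha, hp⟩ := tri_form (φ := χ⁻¹ * τ) (by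
    show χ.symm (τ (X 1)) = X 1
    rw [h3, ← g1, AlgEquiv.symm_apply_apply])
  refine ⟨a, c, d, p.comp (Polynomial.C c * Polynomial.X + Polynomial.C d), ha, hc, h3, ?_⟩
  have h4 : τ (X 0) = χ ((χ⁻¹ * τ) (X 0)) := (χ.apply_symm_apply _).symm
  rw [h4, hp, map_add, map_mul, hC, g0, Polynomial.aeval_comp]
  congr 1
  rw [← Polynomial.aeval_algHom_apply χ (X 1) p, g1]
  simp [algebraMap_eq]

end Basic

section Degree

variable {k : Type} [Field k]

/-- The degree of a space of polynomials. -/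
noncomputable def D (S : Submodule k (P2 k)) : ℕ :=
  sInf {n | S ≤ restrictTotalDegree (Fin 2) k n}

theorem restrict_mono {m n : ℕ} (h : m ≤ n) :
    restrictTotalDegree (Fin 2) k m ≤ restrictTotalDegree (Fin 2) k n := by
  intro A hA
  rw [mem_restrictTotalDegree] at hA ⊢
  exact hA.trans h

theorem D_le_iff {S : Submodule k (P2 k)} (hS : ∃ n, S ≤ restrictTotalDegree (Fin 2) k n)
    {n : ℕ} : D S ≤ n ↔ S ≤ restrictTotalDegree (Fin 2) k n := by
  constructor
  · intro h
    have h1 : D S ∈ {n | S ≤ restrictTotalDegree (Fin 2) k n} := Nat.sInf_mem hS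
    exact le_trans h1 (restrict_mono h)
  · intro h
    exact Nat.sInf_le h

theorem bdd_W (φ : Aut2 k) : ∃ n, φ • W0 k ≤ restrictTotalDegree (Fin 2) k n := by
  refine ⟨max (φ (X 0)).totalDegree (φ (X 1)).totalDegree, smul_W0_le ?_ ?_ ?_⟩
  · rw [mem_restrictTotalDegree, totalDegree_one]
    exact Nat.zero_le _
  · rw [mem_restrictTotalDegree]
    exact le_max_left _ _
  · rw [mem_restrictTotalDegree]
    exact le_max_right _ _

theorem bdd_L (φ : Aut2 k) : ∃ n, φ • L0 k ≤ restrictTotalDegree (Fin 2) k n := by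
  obtain ⟨n, hn⟩ := bdd_W φ
  exact ⟨n, (smul_mono φ L0_le).trans hn⟩

theorem D_L (φ : Aut2 k) : D (φ • L0 k) = (φ (X 1)).totalDegree := by
  refine le_antisymm ((D_le_iff (bdd_L φ)).2 (smul_L0_le ?_ ?_)) ?_
  · rw [mem_restrictTotalDegree, totalDegree_one]
    exact Nat.zero_le _
  · rw [mem_restrictTotalDegree]
  · have h1 := (D_le_iff (bdd_L φ)).1 le_rfl
    have h2 := h1 (mem_smul φ X1_mem_L0)
    rwa [mem_restrictTotalDegree] at h2

theorem deg_le_D_W (φ : Aut2 k) {A : P2 k} (hA : A ∈ φ • W0 k) :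
    A.totalDegree ≤ D (φ • W0 k) := by
  have h1 := (D_le_iff (bdd_W φ)).1 le_rfl
  have h2 := h1 hA
  rwa [mem_restrictTotalDegree] at h2

theorem D_W0 : D (W0 k) = 1 := by
  have h0 : (1 : Aut2 k) • W0 k = W0 k := one_smul _ _
  refine le_antisymm ?_ ?_
  · rw [← h0]
    refine (D_le_iff (bdd_W 1)).2 (smul_W0_le ?_ ?_ ?_)
    · rw [mem_restrictTotalDegree, totalDegree_one]
      exact Nat.zero_le _
    · rw [mem_restrictTotalDegree]
      show (X 0 : P2 k).totalDegree ≤ 1
      rw [totalDegree_X]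
    · rw [mem_restrictTotalDegree]
      show (X 1 : P2 k).totalDegree ≤ 1
      rw [totalDegree_X]
  · have h1 := deg_le_D_W (1 : Aut2 k) (A := X 0) (by rw [h0]; exact X0_mem_W0)
    rwa [h0, totalDegree_X] at h1

/-- The upper vertex below a line is unique. -/
theorem uniq_W {φ ψ : Aut2 k} (h : φ • L0 k = ψ • L0 k)
    (h2 : D (φ • W0 k) ≤ D (φ • L0 k)) (h3 : D (ψ • W0 k) ≤ D (ψ • L0 k)) :
    φ • W0 k = ψ • W0 k := by
  obtain ⟨a, c, d, p, ha, hc, e1, e0⟩ := tri_form2 (τ := φ⁻¹ * ψ) (by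
    rw [mul_smul, ← h, inv_smul_smul])
  have hC : ∀ (σ : Aut2 k) (e : k), σ (C e) = C e := fun σ e => σ.commutes e
  have f0 : ψ (X 0) = C a * φ (X 0) + Polynomial.aeval (φ (X 1)) p := by
    have h4 : ψ (X 0) = φ ((φ⁻¹ * ψ) (X 0)) := (φ.apply_symm_apply _).symm
    rw [h4, e0, map_add, map_mul, hC, Polynomial.aeval_algHom_apply]
  have f1 : ψ (X 1) ∈ φ • L0 k := by
    rw [h]
    exact mem_smul ψ X1_mem_L0
  by_cases hp : 2 ≤ p.natDegree
  · exfalso
    have h4 := deg_lt φ 1 hp
    rw [D_L] at h2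
    rw [← h, D_L] at h3
    have h5 := (deg_le_D_W φ (mem_smul φ X0_mem_W0)).trans h2
    have h6 := (deg_le_D_W ψ (mem_smul ψ X0_mem_W0)).trans h3
    have h7 : Polynomial.aeval (φ (X 1)) p = ψ (X 0) - C a * φ (X 0) := by
      rw [f0]; ring
    have h8 : (Polynomial.aeval (φ (X 1)) p).totalDegree ≤ (φ (X 1)).totalDegree := by
      rw [h7]
      refine (totalDegree_sub _ _).trans (max_le h6 ?_)
      refine (totalDegree_mul _ _).trans ?_
      rw [totalDegree_C, zero_add]
      exact h5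
    omega
  · refine (W_eq_of_le (smul_W0_le (one_mem_smul one_mem_W0) ?_ (smul_mono φ L0_le f1))).symm
    rw [f0]
    have hp1 := Polynomial.eq_X_add_C_of_natDegree_le_one (show p.natDegree ≤ 1 by omega)
    rw [hp1]
    simp only [map_add, map_mul, Polynomial.aeval_C, Polynomial.aeval_X]
    rw [← smul_eq_C_mul, ← Algebra.smul_def, Algebra.algebraMap_eq_smul_one]
    exact add_mem (Submodule.smul_mem _ _ (mem_smul φ X0_mem_W0)) (add_mem
      (Submodule.smul_mem _ _ (mem_smul φ X1_mem_W0))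
      (Submodule.smul_mem _ _ (one_mem_smul one_mem_W0)))

/-- The lower line in a vertex is unique. -/
theorem uniq_L {φ ψ χ : Aut2 k} (h1 : ψ • L0 k ≤ φ • W0 k) (h2 : χ • L0 k ≤ φ • W0 k)
    (h3 : D (ψ • L0 k) < D (φ • W0 k)) (h4 : D (χ • L0 k) < D (φ • W0 k)) :
    ψ • L0 k = χ • L0 k := by
  by_contra hne
  have hW := fin_W φ
  have hlt : ψ • L0 k < ψ • L0 k ⊔ χ • L0 k := by
    refine lt_of_le_of_ne le_sup_left fun h => hne ?_
    exact (L_eq_of_le (le_trans le_sup_right h.symm.le)).symm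
  have hfin : FiniteDimensional k (ψ • L0 k ⊔ χ • L0 k : Submodule k (P2 k)) :=
    Submodule.finiteDimensional_of_le (sup_le h1 h2)
  have h5 := Submodule.finrank_lt_finrank_of_lt hlt
  rw [finrank_smul, finrank_L0] at h5
  have h6 := Submodule.finrank_mono (sup_le h1 h2)
  rw [finrank_smul, finrank_W0] at h6
  have h7 : ψ • L0 k ⊔ χ • L0 k = φ • W0 k :=
    Submodule.eq_of_le_of_finrank_eq (sup_le h1 h2) (by rw [finrank_smul, finrank_W0]; omega)
  have h8 : D (φ • W0 k) ≤ D (φ • W0 k) - 1 := by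
    rw [D_le_iff (bdd_W φ), ← h7]
    exact sup_le ((D_le_iff (bdd_L ψ)).1 (by rw [h7]; omega))
      ((D_le_iff (bdd_L χ)).1 (by rw [h7]; omega))
  omega

end Degree

end Pool.Agent.Lib.MP_551055_al.JK
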