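import Mathlib
import Pool.Agent.Lib.MP_551055_al.Trim.JK.Inv
import Pool.Agent.Lib.MP_551055_al.Trim.JK.Jung
import Pool.Agent.Lib.MP_551055_al.Trim.JK.Tree
import Pool.Agent.Lib.MP_551055_al.Trim.LS.Stmts

/-!
# The action of the automorphism group of the plane on its tree
-/

set_option autoImplicit false

namespace Pool.Agent.Lib.MP_551055_al.LS
end Pool.Agent.Lib.MP_551055_al.LS

namespace Pool.Agent.Lib.MP_551055_al.JK

open MvPolynomial Pointwise

open Pool.Agent.Lib.MP_551055_al.LS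

variable {k : Type} [Field k]

/-- The images of `span (1, x, y)` and of `span (1, y)`. -/
def Vert (k : Type) [Field k] : Type :=
  {x : Submodule k (P2 k) // (∃ φ : Aut2 k, φ • W0 k = x) ∨ ∃ φ : Aut2 k, φ • L0 k = x}

noncomputable instance : MulAction (Aut2 k) (Vert k) where
  smul φ x := ⟨φ • x.1, x.2.elim (fun ⟨ψ, h⟩ => Or.inl ⟨φ * ψ, by rw [mul_smul, h]⟩)
    fun ⟨ψ, h⟩ => Or.inr ⟨φ * ψ, by rw [mul_smul, h]⟩⟩
  one_smul x := Subtype.ext (one_smul _ x.1)
  mul_smul φ ψ x := Subtype.ext (mul_smul φ ψ x.1)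

/-- The vertex `φ(W0)`. -/
noncomputable def vW (φ : Aut2 k) : Vert k := ⟨φ • W0 k, Or.inl ⟨φ, rfl⟩⟩

/-- The vertex `φ(L0)`. -/
noncomputable def vL (φ : Aut2 k) : Vert k := ⟨φ • L0 k, Or.inr ⟨φ, rfl⟩⟩

theorem smul_vW (φ ψ : Aut2 k) : φ • vW ψ = vW (φ * ψ) := Subtype.ext (mul_smul φ ψ _).symm

theorem smul_vL (φ ψ : Aut2 k) : φ • vL ψ = vL (φ * ψ) := Subtype.ext (mul_smul φ ψ _).symm

theorem cases_vert (x : Vert k) : (∃ φ, x = vW φ) ∨ ∃ φ, x = vL φ := by
  rcases x.2 with ⟨φ, h⟩ | ⟨φ, h⟩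
  · exact Or.inl ⟨φ, Subtype.ext h.symm⟩
  · exact Or.inr ⟨φ, Subtype.ext h.symm⟩

/-- The graph. -/
def Gr (k : Type) [Field k] : SimpleGraph (Vert k) where
  Adj x y := x.1 < y.1 ∨ y.1 < x.1
  symm := ⟨fun _ _ h => h.symm⟩
  loopless := ⟨fun x h => h.elim (lt_irrefl x.1) (lt_irrefl x.1)⟩

theorem lt_cases {x y : Vert k} (h : x.1 < y.1) : ∃ φ, x = vL φ ∧ y = vW φ := by
  rcases cases_vert y with ⟨φ, rfl⟩ | ⟨φ, rfl⟩
  · have hfin := fin_W φ
    rcases cases_vert x with ⟨ψ, rfl⟩ | ⟨ψ, rfl⟩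
    · have h1 := Submodule.finrank_lt_finrank_of_lt (s := ψ • W0 k) (t := φ • W0 k) h
      rw [finrank_smul, finrank_smul] at h1
      omega
    · have h1 : (φ⁻¹ * ψ) • L0 k ≤ W0 k := by
        have h2 : ψ • L0 k ≤ φ • W0 k := h.le
        have := smul_mono φ⁻¹ h2
        rwa [inv_smul_smul, ← mul_smul] at this
      obtain ⟨a, ha, ha2⟩ := exists_aff h1
      refine ⟨φ * a, Subtype.ext ?_, Subtype.ext ?_⟩
      · show ψ • L0 k = (φ * a) • L0 k
        rw [mul_smul, ← ha2, ← mul_smul, mul_inv_cancel_left]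
      · show φ • W0 k = (φ * a) • W0 k
        rw [mul_smul, ha]
  · have hfin := fin_L φ
    have h1 := Submodule.finrank_lt_finrank_of_lt (s := x.1) (t := φ • L0 k) h
    rw [finrank_smul, finrank_L0] at h1
    rcases cases_vert x with ⟨ψ, rfl⟩ | ⟨ψ, rfl⟩
    · have h2 : Module.finrank k (ψ • W0 k : Submodule k (P2 k)) < 2 := h1
      rw [finrank_smul, finrank_W0] at h2
      omega
    · have h2 : Module.finrank k (ψ • L0 k : Submodule k (P2 k)) < 2 := h1
      rw [finrank_smul, finrank_L0] at h2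
      omega

theorem vL_ne_vW (φ ψ : Aut2 k) : vL φ ≠ vW ψ := by
  intro h
  have h1 : φ • L0 k = ψ • W0 k := congrArg Subtype.val h
  have := congrArg (fun S : Submodule k (P2 k) => Module.finrank k S) h1
  simp only [finrank_smul, finrank_W0, finrank_L0] at this
  omega

theorem adj_self (φ : Aut2 k) : (Gr k).Adj (vL φ) (vW φ) := Or.inl (L_lt_W φ)

open Classical in
/-- The height. -/
noncomputable def ht (x : Vert k) : ℕ :=
  2 * D x.1 + if ∃ φ, x = vL φ then 1 else 0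

theorem ht_vL (φ : Aut2 k) : ht (vL φ) = 2 * D (φ • L0 k) + 1 := by
  rw [ht, if_pos ⟨φ, rfl⟩]
  rfl

theorem ht_vW (φ : Aut2 k) : ht (vW φ) = 2 * D (φ • W0 k) := by
  rw [ht, if_neg, add_zero]
  · rfl
  · rintro ⟨ψ, h⟩
    exact vL_ne_vW ψ φ h.symm

theorem adj_smul (φ : Aut2 k) {x y : Vert k} (h : (Gr k).Adj x y) : (Gr k).Adj (φ • x) (φ • y) := by
  rcases h with h | h
  · exact Or.inl (smul_lt φ h)
  · exact Or.inr (smul_lt φ h)

theorem reach_smul (φ : Aut2 k) {x y : Vert k} (h : (Gr k).Reachable x y) :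
    (Gr k).Reachable (φ • x) (φ • y) :=
  h.map (⟨fun z => φ • z, fun h1 => adj_smul φ h1⟩ : Gr k →g Gr k)

theorem reach_W [PerfectField k] (φ : Aut2 k) : (Gr k).Reachable (vW 1) (vW φ) := by
  have hφ := jung φ
  rw [Tame] at hφ
  induction hφ using Subgroup.closure_induction with
  | mem ψ hψ =>
    rcases hψ with hψ | hψ
    · have h1 : vW ψ = vW 1 := Subtype.ext (by
        show ψ • W0 k = (1 : Aut2 k) • W0 k
        rw [one_smul]
        exact hψ)
      rw [h1]
    · have h1 : vL ψ = vL 1 := Subtype.ext (by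
        show ψ • L0 k = (1 : Aut2 k) • L0 k
        rw [one_smul]
        exact hψ)
      refine (SimpleGraph.Adj.reachable (adj_self (1 : Aut2 k)).symm).trans ?_
      rw [← h1]
      exact (adj_self ψ).reachable
  | one => exact SimpleGraph.Reachable.refl _
  | mul a b _ _ ha hb =>
    refine ha.trans ?_
    have := reach_smul a hb
    rwa [smul_vW, smul_vW, mul_one] at this
  | inv a _ ha =>
    have := reach_smul a⁻¹ ha
    rw [smul_vW, smul_vW, mul_one, inv_mul_cancel] at this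
    exact this.symm

theorem reach [PerfectField k] (x : Vert k) : (Gr k).Reachable (vW 1) x := by
  rcases cases_vert x with ⟨φ, rfl⟩ | ⟨φ, rfl⟩
  · exact reach_W φ
  · exact (reach_W φ).trans (adj_self φ).symm.reachable

/-- **The tree of the plane.** -/
theorem gr_isTree [PerfectField k] : (Gr k).IsTree := by
  have hlt : ∀ x y : Vert k, (Gr k).Adj x y → ht y < ht x →
      (∃ φ, x = vW φ ∧ y = vL φ ∧ D (φ • L0 k) < D (φ • W0 k)) ∨
        ∃ φ, x = vL φ ∧ y = vW φ ∧ D (φ • W0 k) ≤ D (φ • L0 k) := by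
    intro x y hxy h1
    rcases hxy with h | h
    · obtain ⟨φ, rfl, rfl⟩ := lt_cases h
      rw [ht_vL, ht_vW] at h1
      exact Or.inr ⟨φ, rfl, rfl, by omega⟩
    · obtain ⟨φ, rfl, rfl⟩ := lt_cases h
      rw [ht_vL, ht_vW] at h1
      exact Or.inl ⟨φ, rfl, rfl, by omega⟩
  refine isTree_of_height2 (Gr k) ht (vW 1) ?_ ?_ ?_ reach
  · intro x y hxy
    rcases hxy with h | h
    · obtain ⟨φ, rfl, rfl⟩ := lt_cases h
      rw [ht_vL, ht_vW]
      omega
    · obtain ⟨φ, rfl, rfl⟩ := lt_cases h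
      rw [ht_vL, ht_vW]
      omega
  · intro y hy
    by_contra h1
    rcases hlt _ _ hy (not_le.1 h1) with ⟨φ, h2, rfl, h3⟩ | ⟨φ, h2, -, -⟩
    · have h4 : W0 k = φ • W0 k := by
        have := congrArg Subtype.val h2
        change (1 : Aut2 k) • W0 k = φ • W0 k at this
        rwa [one_smul] at this
      rw [← h4, D_W0, D_L] at h3
      have := one_le_deg φ 1
      omega
    · exact vL_ne_vW φ 1 h2.symm
  · intro x y z hxy hxz h1 h2
    rcases hlt x y hxy h1 with ⟨φ, hx, rfl, h3⟩ | ⟨φ, hx, rfl, h3⟩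
    · rcases hlt x z hxz h2 with ⟨ψ, hx', rfl, h4⟩ | ⟨ψ, hx', -, -⟩
      · have h5 : φ • W0 k = ψ • W0 k := congrArg Subtype.val (hx.symm.trans hx')
        refine Subtype.ext (uniq_L (smul_mono φ L0_le) ?_ h3 ?_)
        · rw [h5]
          exact smul_mono ψ L0_le
        · rw [h5]
          exact h4
      · exact absurd (hx'.symm.trans hx) (vL_ne_vW ψ φ)
    · rcases hlt x z hxz h2 with ⟨ψ, hx', -, -⟩ | ⟨ψ, hx', rfl, h4⟩
      · exact absurd (hx.symm.trans hx') (vL_ne_vW φ ψ)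
      · have h5 : φ • L0 k = ψ • L0 k := congrArg Subtype.val (hx.symm.trans hx')
        exact Subtype.ext (uniq_W h5 h3 h4)

/-- The action on the tree. -/
theorem gr_treeAct [PerfectField k] : TreeAct (Aut2 k) (Vert k) (Gr k) where
  tree := gr_isTree
  adj φ _ _ h := adj_smul φ h
  inv φ u v h h1 _ := by
    rcases h with h | h
    · obtain ⟨ψ, rfl, rfl⟩ := lt_cases h
      rw [smul_vL] at h1
      exact vL_ne_vW _ _ h1
    · obtain ⟨ψ, rfl, rfl⟩ := lt_cases h
      rw [smul_vW] at h1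
      exact vL_ne_vW _ _ h1.symm

/-- The action of a group which maps to the automorphism group. -/
theorem gr_comp [PerfectField k] {G : Type} [Group G] (ρ : G →* Aut2 k) :
    @TreeAct G _ (Vert k) (MulAction.compHom (Vert k) ρ) (Gr k) := by
  let _ : MulAction G (Vert k) := MulAction.compHom (Vert k) ρ
  exact { tree := gr_treeAct.tree
          adj := fun γ u v h => gr_treeAct.adj (ρ γ) u v h
          inv := fun γ u v h h1 => gr_treeAct.inv (ρ γ) u v h h1 }

end Pool.Agent.Lib.MP_551055_al.JK
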