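import Mathlib
import Pool.Agent.Lib.MP_551055_al.Trim.JK.Graph
import Pool.Agent.Lib.MP_551055_al.Trim.JK.Inv
import Pool.Agent.Lib.MP_551055_al.Trim.JK.Jung
import Pool.Agent.Lib.MP_551055_al.Trim.JK.Tree

/-!
# The stabilisers of vertices and edges in positive characteristic
-/

set_option autoImplicit false

namespace Pool.Agent.Lib.MP_551055_al.LS
end Pool.Agent.Lib.MP_551055_al.LS

namespace Pool.Agent.Lib.MP_551055_al.JK

open MvPolynomial Pointwise

open Pool.Agent.Lib.MP_551055_al.LS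

section Forms

variable {k : Type} [Field k]

theorem aut_C (φ : Aut2 k) (c : k) : φ (C c) = C c := φ.commutes c

/-- The difference of the values at `v` and at the origin. -/
noncomputable def dv (v : Fin 2 → k) (A : P2 k) : k := eval v A - eval 0 A

/-- The linear part. -/
noncomputable def lin (φ : Aut2 k) : Matrix (Fin 2) (Fin 2) k :=
  Matrix.of fun j i => dv (Pi.single j 1) (φ (X i))

theorem aff_form {φ : Aut2 k} (h : φ • W0 k = W0 k) (i : Fin 2) :
    ∃ c : k, φ (X i) = C c + C (lin φ 0 i) * X 0 + C (lin φ 1 i) * X 1 := by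
  have h1 : φ (X i) ∈ W0 k := by
    rw [← h]
    refine mem_smul φ ?_
    fin_cases i
    · exact X0_mem_W0
    · exact X1_mem_W0
  obtain ⟨c, α, β, h2⟩ := Submodule.mem_span_triple.1 h1
  have h3 : φ (X i) = C c + C α * X 0 + C β * X 1 := by
    rw [← h2, smul_eq_C_mul, smul_eq_C_mul, smul_eq_C_mul, mul_one]
  refine ⟨c, ?_⟩
  have h4 : lin φ 0 i = α := by
    simp [lin, dv, h3]
  have h5 : lin φ 1 i = β := by
    simp [lin, dv, h3]
  rw [h4, h5, h3]

theorem lin_mul (φ : Aut2 k) {ψ : Aut2 k} (h : ψ • W0 k = W0 k) :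
    lin (φ * ψ) = lin φ * lin ψ := by
  ext1 j i
  obtain ⟨c, hc⟩ := aff_form h i
  have h1 : (φ * ψ) (X i) = C c + C (lin ψ 0 i) * φ (X 0) + C (lin ψ 1 i) * φ (X 1) := by
    show φ (ψ (X i)) = _
    rw [hc]
    simp only [map_add, map_mul, aut_C]
  rw [Matrix.mul_apply, Fin.sum_univ_two]
  show dv (Pi.single j 1) ((φ * ψ) (X i)) =
    dv (Pi.single j 1) (φ (X 0)) * lin ψ 0 i + dv (Pi.single j 1) (φ (X 1)) * lin ψ 1 i
  rw [h1]
  simp only [dv, map_add, map_mul, eval_C]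
  ring

theorem lin_one : lin (1 : Aut2 k) = 1 := by
  ext1 j i
  show dv (Pi.single j 1) (X i) = _
  rw [dv, eval_X, eval_X, Matrix.one_apply, Pi.single_apply, Pi.zero_apply, sub_zero]
  simp only [eq_comm]

/-- Triangular automorphisms with the diagonal entries `a`, `c`. -/
def HasDiag (φ : Aut2 k) (a c : k) : Prop :=
  ∃ (d : k) (p : Polynomial k), φ (X 1) = C c * X 1 + C d ∧
    φ (X 0) = C a * X 0 + Polynomial.aeval (X 1) p

theorem HasDiag.mul {φ ψ : Aut2 k} {a c a' c' : k} (h : HasDiag φ a c) (h' : HasDiag ψ a' c') :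
    HasDiag (φ * ψ) (a * a') (c * c') := by
  obtain ⟨d, p, h1, h0⟩ := h
  obtain ⟨d', p', h1', h0'⟩ := h'
  refine ⟨c' * d + d', Polynomial.C a' * p + p'.comp (Polynomial.C c * Polynomial.X +
    Polynomial.C d), ?_, ?_⟩
  · show φ (ψ (X 1)) = _
    rw [h1']
    simp only [map_add, map_mul, aut_C, h1]
    ring
  · show φ (ψ (X 0)) = _
    rw [h0']
    simp only [map_add, map_mul, aut_C, h0]
    rw [← Polynomial.aeval_algHom_apply φ (X 1) p', h1, Polynomial.aeval_comp]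
    simp only [map_add, map_mul, Polynomial.aeval_C, Polynomial.aeval_X, algebraMap_eq]
    ring

theorem hasDiag_of [IsAlgClosed k] {φ : Aut2 k} (h : φ • L0 k = L0 k) :
    HasDiag φ (dv (Pi.single 0 1) (φ (X 0))) (dv (Pi.single 1 1) (φ (X 1))) := by
  obtain ⟨a, c, d, p, -, -, h1, h0⟩ := tri_form2 h
  have e0 : dv (Pi.single 0 1) (φ (X 0)) = a := by
    rw [h0, dv, map_add, map_add, map_mul, map_mul, eval_C, eval_C, eval_X, eval_X]
    have e1 : ∀ v : Fin 2 → k, eval v (Polynomial.aeval (X 1) p) = p.eval (v 1) := by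
      intro v
      have e2 : eval v (Polynomial.aeval (X 1) p) = aeval v (Polynomial.aeval (X 1 : P2 k) p) :=
        (DFunLike.congr_fun (coe_aeval_eq_eval v) _).symm
      rw [e2, ← Polynomial.aeval_algHom_apply, aeval_X]
      exact Polynomial.aeval_def _ _
    rw [e1, e1]
    simp
  have e1 : dv (Pi.single 1 1) (φ (X 1)) = c := by
    rw [h1, dv]
    simp
  rw [e0, e1]
  exact ⟨d, p, h1, h0⟩

theorem dv_of_hasDiag {φ : Aut2 k} {a c : k} (h : HasDiag φ a c) :
    dv (Pi.single 0 1) (φ (X 0)) = a ∧ dv (Pi.single 1 1) (φ (X 1)) = c := by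
  obtain ⟨d, p, h1, h0⟩ := h
  constructor
  · rw [h0, dv, map_add, map_add, map_mul, map_mul, eval_C, eval_C, eval_X, eval_X]
    have e1 : ∀ v : Fin 2 → k, eval v (Polynomial.aeval (X 1) p) = p.eval (v 1) := by
      intro v
      have e2 : eval v (Polynomial.aeval (X 1) p) = aeval v (Polynomial.aeval (X 1 : P2 k) p) :=
        (DFunLike.congr_fun (coe_aeval_eq_eval v) _).symm
      rw [e2, ← Polynomial.aeval_algHom_apply, aeval_X]
      exact Polynomial.aeval_def _ _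
    rw [e1, e1]
    simp
  · rw [h1, dv]
    simp

theorem pow_shift {ψ : Aut2 k} {i : Fin 2} {A : P2 k} (h : ψ (X i) = X i + A) (hA : ψ A = A)
    (n : ℕ) : (ψ ^ n) (X i) = X i + (n : P2 k) * A := by
  induction n with
  | zero =>
    rw [pow_zero]
    show X i = _
    simp
  | succ n ih =>
    rw [pow_succ']
    show ψ ((ψ ^ n) (X i)) = _
    rw [ih, map_add, map_mul, hA, h, map_natCast]
    push_cast
    ring

/-- Unipotent triangular automorphisms have finite order in positive characteristic. -/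
theorem pow_of_uni {φ : Aut2 k} {n : ℕ} (hn : (n : k) = 0) (h : HasDiag φ 1 1) :
    φ ^ (n * n) = 1 := by
  have hn' : (n : P2 k) = 0 := by
    have := congrArg (C (σ := Fin 2)) hn
    rwa [map_natCast, map_zero] at this
  have key : ∀ m, ∃ q : Polynomial k, (φ ^ m) (X 0) = X 0 + Polynomial.aeval (X 1) q := by
    intro m
    have : HasDiag (φ ^ m) 1 1 := by
      induction m with
      | zero => exact ⟨0, 0, by simp, by simp⟩
      | succ m ih =>
        rw [pow_succ']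
        have := h.mul ih
        rwa [mul_one] at this
    obtain ⟨-, q, -, h0⟩ := this
    exact ⟨q, by rw [h0, C_1, one_mul]⟩
  obtain ⟨d, p, h1, h0⟩ := h
  rw [C_1, one_mul] at h1
  have h2 : (φ ^ n) (X 1) = X 1 := by
    rw [pow_shift h1 (aut_C φ d), hn', zero_mul, add_zero]
  obtain ⟨q, hq⟩ := key n
  have h3 : (φ ^ n) (Polynomial.aeval (X 1) q) = Polynomial.aeval (X 1) q := by
    rw [← Polynomial.aeval_algHom_apply, h2]
  rw [pow_mul]
  refine aut2_ext ?_ ?_
  · rw [pow_shift hq h3, hn', zero_mul, add_zero]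
    rfl
  · have h4 : (φ ^ n) (X 1) = X 1 + 0 := by rw [h2, add_zero]
    rw [pow_shift h4 (map_zero _), mul_zero, add_zero]
    rfl

end Forms

section Homs

variable {k : Type} [Field k] {E : Type} [Group E]

theorem isOfFinOrder_of_conj {G : Type} [Group G] {χ g : G}
    (h : IsOfFinOrder (χ⁻¹ * g * χ)) : IsOfFinOrder g := by
  have h1 := MonoidHom.isOfFinOrder (MulAut.conj χ).toMonoidHom h
  have h2 : (MulAut.conj χ).toMonoidHom (χ⁻¹ * g * χ) = g := by
    show χ * (χ⁻¹ * g * χ) * χ⁻¹ = g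
    group
  rwa [h2] at h1

/-- Conjugation. -/
def cj {G : Type} [Group G] (ρ : E →* G) (χ : G) : E →* G :=
  (MulAut.conj χ⁻¹).toMonoidHom.comp ρ

theorem cj_apply {G : Type} [Group G] (ρ : E →* G) (χ : G) (g : E) :
    cj ρ χ g = χ⁻¹ * ρ g * χ := by
  show χ⁻¹ * ρ g * χ⁻¹⁻¹ = _
  rw [inv_inv]

/-- The linear part of a group which preserves `span (1, x, y)`. -/
theorem exists_linW (ρ : E →* Aut2 k) (h : ∀ g, ρ g • W0 k = W0 k) {n : ℕ} (hn : n ≠ 0)
    (hk : (n : k) = 0) :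
    ∃ σ : E →* Matrix.GeneralLinearGroup (Fin 2) k, ∀ g, σ g = 1 → IsOfFinOrder (ρ g) := by
  let m : E →* Matrix (Fin 2) (Fin 2) k :=
    { toFun := fun g => lin (ρ g)
      map_one' := by rw [map_one, lin_one]
      map_mul' := fun a b => by rw [map_mul, lin_mul _ (h b)] }
  refine ⟨m.toHomUnits, fun g hg => ?_⟩
  have h1 : lin (ρ g) = 1 := congrArg Units.val hg
  refine isOfFinOrder_iff_pow_eq_one.2 ⟨n * n, Nat.pos_of_ne_zero (mul_ne_zero hn hn),
    pow_of_uni hk ?_⟩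
  obtain ⟨c0, e0⟩ := aff_form (h g) 0
  obtain ⟨c1, e1⟩ := aff_form (h g) 1
  rw [h1] at e0 e1
  refine ⟨c1, Polynomial.C c0, ?_, ?_⟩
  · rw [e1]
    simp [add_comm]
  · rw [e0, Polynomial.aeval_C, algebraMap_eq]
    simp [add_comm]

/-- The diagonal part of a group which preserves `span (1, y)`. -/
theorem exists_linL [IsAlgClosed k] (ρ : E →* Aut2 k) (h : ∀ g, ρ g • L0 k = L0 k) {n : ℕ}
    (hn : n ≠ 0) (hk : (n : k) = 0) :
    ∃ σ : E →* kˣ × kˣ, ∀ g, σ g = 1 → IsOfFinOrder (ρ g) := by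
  have hone : HasDiag (1 : Aut2 k) 1 1 := ⟨0, 0, by simp, by simp⟩
  let m0 : E →* k :=
    { toFun := fun g => dv (Pi.single 0 1) (ρ g (X 0))
      map_one' := by rw [map_one]; exact (dv_of_hasDiag hone).1
      map_mul' := fun a b => by
        rw [map_mul]
        exact (dv_of_hasDiag ((hasDiag_of (h a)).mul (hasDiag_of (h b)))).1 }
  let m1 : E →* k :=
    { toFun := fun g => dv (Pi.single 1 1) (ρ g (X 1))
      map_one' := by rw [map_one]; exact (dv_of_hasDiag hone).2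
      map_mul' := fun a b => by
        rw [map_mul]
        exact (dv_of_hasDiag ((hasDiag_of (h a)).mul (hasDiag_of (h b)))).2 }
  refine ⟨m0.toHomUnits.prod m1.toHomUnits, fun g hg => ?_⟩
  have h0 : dv (Pi.single 0 1) (ρ g (X 0)) = 1 := congrArg (fun z : kˣ × kˣ => (z.1 : k)) hg
  have h1 : dv (Pi.single 1 1) (ρ g (X 1)) = 1 := congrArg (fun z : kˣ × kˣ => (z.2 : k)) hg
  refine isOfFinOrder_iff_pow_eq_one.2 ⟨n * n, Nat.pos_of_ne_zero (mul_ne_zero hn hn),
    pow_of_uni hk ?_⟩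
  have := hasDiag_of (h g)
  rwa [h0, h1] at this

/-- **Vertex stabilisers.** -/
theorem vertex_lin [IsAlgClosed k] (x : Vert k) (ρ : E →* Aut2 k) (h : ∀ g, ρ g • x = x) {n : ℕ}
    (hn : n ≠ 0) (hk : (n : k) = 0) :
    (∃ σ : E →* Matrix.GeneralLinearGroup (Fin 2) k, ∀ g, σ g = 1 → IsOfFinOrder (ρ g)) ∨
      ∃ σ : E →* kˣ × kˣ, ∀ g, σ g = 1 → IsOfFinOrder (ρ g) := by
  rcases cases_vert x with ⟨χ, rfl⟩ | ⟨χ, rfl⟩
  · left
    obtain ⟨σ, hσ⟩ := exists_linW (cj ρ χ) (fun g => by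
      have h1 : ρ g • χ • W0 k = χ • W0 k := congrArg Subtype.val (h g)
      rw [cj_apply, mul_smul, mul_smul, h1, inv_smul_smul]) hn hk
    exact ⟨σ, fun g hg => isOfFinOrder_of_conj (χ := χ) (by rw [← cj_apply]; exact hσ g hg)⟩
  · right
    obtain ⟨σ, hσ⟩ := exists_linL (cj ρ χ) (fun g => by
      have h1 : ρ g • χ • L0 k = χ • L0 k := congrArg Subtype.val (h g)
      rw [cj_apply, mul_smul, mul_smul, h1, inv_smul_smul]) hn hk
    exact ⟨σ, fun g hg => isOfFinOrder_of_conj (χ := χ) (by rw [← cj_apply]; exact hσ g hg)⟩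

/-- **Edge stabilisers.** -/
theorem edge_comm [IsAlgClosed k] {x y : Vert k} (hxy : (Gr k).Adj x y) (ρ : E →* Aut2 k)
    (hx : ∀ g, ρ g • x = x) (hy : ∀ g, ρ g • y = y) {n : ℕ} (hn : n ≠ 0) (hk : (n : k) = 0) :
    ∃ σ : E →* kˣ × kˣ, ∀ g, σ g = 1 → IsOfFinOrder (ρ g) := by
  have key : ∀ χ : Aut2 k, (∀ g, ρ g • vL χ = vL χ) →
      ∃ σ : E →* kˣ × kˣ, ∀ g, σ g = 1 → IsOfFinOrder (ρ g) := by
    intro χ h
    obtain ⟨σ, hσ⟩ := exists_linL (cj ρ χ) (fun g => by
      have h1 : ρ g • χ • L0 k = χ • L0 k := congrArg Subtype.val (h g)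
      rw [cj_apply, mul_smul, mul_smul, h1, inv_smul_smul]) hn hk
    exact ⟨σ, fun g hg => isOfFinOrder_of_conj (χ := χ) (by rw [← cj_apply]; exact hσ g hg)⟩
  rcases hxy with h | h
  · obtain ⟨χ, rfl, -⟩ := lt_cases h
    exact key χ hx
  · obtain ⟨χ, rfl, -⟩ := lt_cases h
    exact key χ hy

end Homs

end Pool.Agent.Lib.MP_551055_al.JK
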