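import Mathlib
import Pool.Agent.Lib.MP_551055_al.Trim.BT.SL2Z
import Pool.Agent.Lib.MP_551055_al.Trim.BT.Stab
import Pool.Agent.Lib.MP_551055_al.Trim.BT.Tree
import Pool.Agent.Lib.MP_551055_al.Trim.JK.Inv
import Pool.Agent.Lib.MP_551055_al.Trim.JK.Jung
import Pool.Agent.Lib.MP_551055_al.Trim.JK.Stab
import Pool.Agent.Lib.MP_551055_al.Trim.JK.Tree
import Pool.Agent.Lib.MP_551055_al.Trim.MT.Flow2
import Pool.Agent.Lib.MP_551055_al.Trim.MT.K1

/-!
# Groups of affine automorphisms of the plane, characteristic zero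
-/

set_option autoImplicit false

namespace Pool.Agent.Lib.MP_551055_al
end Pool.Agent.Lib.MP_551055_al

namespace Pool.Agent.Lib.MP_551055_al.LS
end Pool.Agent.Lib.MP_551055_al.LS

namespace Pool.Agent.Lib.MP_551055_al.RI
end Pool.Agent.Lib.MP_551055_al.RI

namespace Pool.Agent.Lib.MP_551055_al.GL
end Pool.Agent.Lib.MP_551055_al.GL

namespace Pool.Agent.Lib.MP_551055_al.BT
end Pool.Agent.Lib.MP_551055_al.BT

namespace Pool.Agent.Lib.MP_551055_al.JK

open MvPolynomial Pointwise

open Pool.Agent.Lib.MP_551055_al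

open Pool.Agent.Lib.MP_551055_al.LS

open Pool.Agent.Lib.MP_551055_al.RI

open Pool.Agent.Lib.MP_551055_al.GL

open Pool.Agent.Lib.MP_551055_al.BT (GL2 SLZ treeAct_comp)

/-! ## Linear automorphisms -/

section Lin

variable {k : Type} [Field k]

/-- The linear substitution. -/
noncomputable def laHom (u : Matrix (Fin 2) (Fin 2) k) : P2 k →ₐ[k] P2 k :=
  aeval fun i => C (u 0 i) * X 0 + C (u 1 i) * X 1

theorem laHom_X (u : Matrix (Fin 2) (Fin 2) k) (i : Fin 2) :
    laHom u (X i) = C (u 0 i) * X 0 + C (u 1 i) * X 1 := by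
  rw [laHom, aeval_X]

theorem laHom_C (u : Matrix (Fin 2) (Fin 2) k) (c : k) : laHom u (C c) = C c := by
  rw [← algebraMap_eq, AlgHom.commutes]

theorem laHom_mul (u v : Matrix (Fin 2) (Fin 2) k) : (laHom u).comp (laHom v) = laHom (u * v) := by
  refine MvPolynomial.algHom_ext fun i => ?_
  rw [AlgHom.comp_apply, laHom_X, laHom_X, map_add, map_mul, map_mul, laHom_C, laHom_C, laHom_X,
    laHom_X, Matrix.mul_apply, Matrix.mul_apply, Fin.sum_univ_two, Fin.sum_univ_two]
  simp only [map_add, map_mul]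
  ring

theorem laHom_one : laHom (1 : Matrix (Fin 2) (Fin 2) k) = AlgHom.id k (P2 k) := by
  refine MvPolynomial.algHom_ext fun i => ?_
  rw [laHom_X, AlgHom.id_apply]
  revert i
  exact Fin.forall_fin_two.2 ⟨by simp, by simp⟩

/-- The linear automorphisms. -/
noncomputable def la : GL2 k →* Aut2 k where
  toFun u := AlgEquiv.ofAlgHom (laHom u.val) (laHom (u⁻¹ : GL2 k).val)
    (by rw [laHom_mul, ← Units.val_mul, mul_inv_cancel, Units.val_one, laHom_one])
    (by rw [laHom_mul, ← Units.val_mul, inv_mul_cancel, Units.val_one, laHom_one])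
  map_one' := by
    refine AlgEquiv.ext fun A => ?_
    show laHom (1 : Matrix (Fin 2) (Fin 2) k) A = A
    rw [laHom_one, AlgHom.id_apply]
  map_mul' u v := by
    refine AlgEquiv.ext fun A => ?_
    show laHom (u.val * v.val) A = laHom u.val (laHom v.val A)
    rw [← laHom_mul, AlgHom.comp_apply]

theorem la_X (u : GL2 k) (i : Fin 2) : la u (X i) = C (u.val 0 i) * X 0 + C (u.val 1 i) * X 1 :=
  laHom_X u.val i

theorem la_W0 (u : GL2 k) : la u • W0 k = W0 k := by
  have key : ∀ u : GL2 k, la u • W0 k ≤ W0 k := by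
    intro u
    have h1 : ∀ i, la u (X i) ∈ W0 k := by
      intro i
      rw [la_X]
      refine Submodule.add_mem _ ?_ ?_
      · rw [← smul_eq_C_mul]
        exact Submodule.smul_mem _ _ X0_mem_W0
      · rw [← smul_eq_C_mul]
        exact Submodule.smul_mem _ _ X1_mem_W0
    exact smul_W0_le one_mem_W0 (h1 0) (h1 1)
  refine le_antisymm (key u) ?_
  have h1 := smul_mono (la u) (key u⁻¹)
  rwa [← mul_smul, ← map_mul, mul_inv_cancel, map_one, one_smul] at h1

theorem lin_la (u : GL2 k) : lin (la u) = u.val := by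
  ext j i
  rw [lin, Matrix.of_apply, dv, la_X]
  fin_cases j <;> simp

/-- The translation part. -/
noncomputable def tt (φ : Aut2 k) : Fin 2 → k := fun i => eval 0 (φ (X i))

theorem aff_form2 {φ : Aut2 k} (h : φ • W0 k = W0 k) (i : Fin 2) :
    φ (X i) = C (tt φ i) + C (lin φ 0 i) * X 0 + C (lin φ 1 i) * X 1 := by
  obtain ⟨c, hc⟩ := aff_form h i
  have h1 : tt φ i = c := by
    rw [tt, hc]
    simp
  rw [h1]
  exact hc

theorem tt_mul (φ : Aut2 k) {ψ : Aut2 k} (h : ψ • W0 k = W0 k) :
    tt (φ * ψ) = tt ψ + Matrix.vecMul (tt φ) (lin ψ) := by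
  funext i
  rw [Pi.add_apply, Matrix.vecMul, dotProduct, Fin.sum_univ_two]
  show eval 0 (φ (ψ (X i))) = _
  rw [aff_form2 h i]
  simp only [map_add, map_mul, aut_C, eval_C]
  show _ = tt ψ i + (eval 0 (φ (X 0)) * lin ψ 0 i + eval 0 (φ (X 1)) * lin ψ 1 i)
  ring

theorem tt_one : tt (1 : Aut2 k) = 0 := by
  funext i
  show eval 0 (X i : P2 k) = 0
  rw [eval_X]
  rfl

theorem eq_one_of {φ : Aut2 k} (h : φ • W0 k = W0 k) (h1 : lin φ = 1) (h2 : tt φ = 0) :
    φ = 1 := by
  have h3 : ∀ i, φ (X i) = X i := by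
    intro i
    rw [aff_form2 h i, h1, h2]
    revert i
    exact Fin.forall_fin_two.2 ⟨by simp, by simp⟩
  exact aut2_ext (h3 0) (h3 1)

/-- The linear part as a homomorphism. -/
noncomputable def linH {E : Type} [Group E] (ρ : E →* Aut2 k) (h : ∀ g, ρ g • W0 k = W0 k) :
    E →* GL2 k :=
  MonoidHom.toHomUnits
    { toFun := fun g => lin (ρ g)
      map_one' := by rw [map_one, lin_one]
      map_mul' := fun a b => by rw [map_mul, lin_mul _ (h b)] }

end Lin

/-! ## Finite order -/

section Fin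

variable {k : Type} [Field k] [CharZero k]

theorem eq_one_or {M : Matrix (Fin 2) (Fin 2) k} (h : M.det = 1) {n : ℕ} (hn : n ≠ 0)
    (hM : M ^ n = 1) : M = 1 ∨ (M - 1).det ≠ 0 := by
  by_cases h0 : (M - 1).det = 0
  · left
    rw [Matrix.det_fin_two] at h h0
    simp only [Matrix.sub_apply, Matrix.one_apply_eq, Matrix.one_apply_ne (zero_ne_one (α := Fin 2)),
      Matrix.one_apply_ne (one_ne_zero (α := Fin 2)), sub_zero] at h0
    have htr : M 0 0 + M 1 1 = 2 := by linear_combination h - h0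
    obtain ⟨N, hN⟩ : ∃ N, N = M - 1 := ⟨_, rfl⟩
    have hN2 : N * N = 0 := by
      rw [hN]
      ext i j
      rw [Matrix.mul_apply, Fin.sum_univ_two]
      fin_cases i <;> fin_cases j <;>
        simp only [Fin.zero_eta, Fin.mk_one, Matrix.sub_apply, Matrix.one_apply_eq,
          Matrix.one_apply_ne (zero_ne_one (α := Fin 2)),
          Matrix.one_apply_ne (one_ne_zero (α := Fin 2)), sub_zero, Matrix.zero_apply]
      · linear_combination M 0 0 * htr - h
      · linear_combination M 0 1 * htr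
      · linear_combination M 1 0 * htr
      · linear_combination M 1 1 * htr - h
    have hpow : ∀ m : ℕ, M ^ m = 1 + m • N := by
      intro m
      induction m with
      | zero => rw [pow_zero, zero_smul, add_zero]
      | succ m ih =>
        have hM' : M = 1 + N := by rw [hN]; abel
        rw [pow_succ, ih]
        conv_lhs => rw [hM']
        rw [mul_add, mul_one, add_mul, one_mul, smul_mul_assoc, hN2, smul_zero, add_zero,
          succ_nsmul]
        abel
    have h1 := hpow n
    rw [hM] at h1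
    have h2 : n • N = 0 := by
      have h3 : (1 : Matrix (Fin 2) (Fin 2) k) + n • N = 1 + 0 := by rw [← h1, add_zero]
      exact add_left_cancel h3
    have h3 : N = 0 := by
      ext i j
      have h4 := congrFun (congrFun h2 i) j
      rw [Matrix.smul_apply, nsmul_eq_mul, Matrix.zero_apply] at h4
      exact (mul_eq_zero.1 h4).resolve_left (Nat.cast_ne_zero.2 hn)
    rw [hN] at h3
    exact sub_eq_zero.1 h3
  · exact Or.inr h0

omit [CharZero k] in
theorem aff_pow {φ : Aut2 k} (h : φ • W0 k = W0 k) (n : ℕ) : (φ ^ n) • W0 k = W0 k ∧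
    lin (φ ^ n) = lin φ ^ n := by
  induction n with
  | zero => exact ⟨by rw [pow_zero, one_smul], by rw [pow_zero, pow_zero, lin_one]⟩
  | succ n ih =>
    rw [pow_succ]
    exact ⟨by rw [mul_smul, h, ih.1], by rw [lin_mul _ h, ih.2, pow_succ]⟩

omit [CharZero k] in
/-- Affine automorphisms with a linear part of finite order without eigenvalue one. -/
theorem fin_of_lin {φ : Aut2 k} (h : φ • W0 k = W0 k) {n : ℕ} (hn : lin φ ^ n = 1)
    (hd : (lin φ - 1).det ≠ 0) : φ ^ n = 1 := by
  obtain ⟨h1, h2⟩ := aff_pow h n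
  refine eq_one_of h1 (by rw [h2, hn]) ?_
  have h3 : φ * φ ^ n = φ ^ n * φ := by rw [← pow_succ', ← pow_succ]
  have h4 := congrArg tt h3
  rw [tt_mul _ h1, tt_mul _ h, h2, hn, Matrix.vecMul_one] at h4
  refine Matrix.eq_zero_of_vecMul_eq_zero hd ?_
  rw [Matrix.vecMul_sub, Matrix.vecMul_one, sub_eq_zero]
  have h5 : tt φ + Matrix.vecMul (tt (φ ^ n)) (lin φ) = tt φ + tt (φ ^ n) := by
    rw [← h4, add_comm]
  exact add_left_cancel h5

end Fin

/-! ## Finitely generated modules -/

section Mod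

variable {k : Type} [Field k]

/-- Right multiplication by elements with integral relations preserves a finitely generated
module. -/
theorem exists_right (S : Finset (Matrix (Fin 2) (Fin 2) k))
    (h1 : ∀ x ∈ S, ∃ a b : ℤ, x * x = a • x + b • 1)
    (h2 : ∀ x ∈ S, ∀ y ∈ S, ∃ a b c : ℤ, x * y + y * x = a • x + b • y + c • 1) :
    ∃ P : Submodule ℤ (Matrix (Fin 2) (Fin 2) k), P.FG ∧ 1 ∈ P ∧
      ∀ x ∈ S, ∀ p ∈ P, p * x ∈ P := by
  classical
  induction S using Finset.induction_on with
  | empty =>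
    exact ⟨Submodule.span ℤ {1}, Submodule.fg_span_singleton _, Submodule.subset_span rfl,
      fun x hx => absurd hx (Finset.notMem_empty x)⟩
  | insert x S hx ih =>
    obtain ⟨P, hP, hP1, hPx⟩ := ih (fun y hy => h1 y (Finset.mem_insert_of_mem hy))
      fun y hy z hz => h2 y (Finset.mem_insert_of_mem hy) z (Finset.mem_insert_of_mem hz)
    let R : Matrix (Fin 2) (Fin 2) k →ₗ[ℤ] Matrix (Fin 2) (Fin 2) k :=
      LinearMap.mulRight ℤ x
    have hR : ∀ p, R p = p * x := fun p => rfl
    refine ⟨P ⊔ P.map R, hP.sup (hP.map R), Submodule.mem_sup_left hP1, fun y hy q hq => ?_⟩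
    obtain ⟨p, hp, _, ⟨p', hp', rfl⟩, rfl⟩ := Submodule.mem_sup.1 hq
    rw [hR, add_mul]
    rcases Finset.mem_insert.1 hy with rfl | hy
    · obtain ⟨a, b, e⟩ := h1 y (Finset.mem_insert_self _ _)
      refine Submodule.add_mem _ (Submodule.mem_sup_right ⟨p, hp, rfl⟩) ?_
      rw [mul_assoc, e, mul_add, mul_smul_comm, mul_smul_comm, mul_one]
      exact Submodule.add_mem _ (Submodule.smul_mem _ _ (Submodule.mem_sup_right ⟨p', hp', rfl⟩))
        (Submodule.smul_mem _ _ (Submodule.mem_sup_left hp'))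
    · obtain ⟨a, b, c, e⟩ := h2 x (Finset.mem_insert_self _ _) y (Finset.mem_insert_of_mem hy)
      refine Submodule.add_mem _ (Submodule.mem_sup_left (hPx y hy p hp)) ?_
      have h3 : p' * x * y = a • (p' * x) + b • (p' * y) + c • p' - p' * y * x := by
        rw [mul_assoc, mul_assoc, ← mul_smul_comm, ← mul_smul_comm]
        have h4 : x * y = a • x + b • y + c • 1 - y * x := by rw [← e]; abel
        rw [h4, mul_sub, mul_add, mul_add, mul_smul_comm c, mul_one]
      rw [h3]
      refine Submodule.sub_mem _ (Submodule.add_mem _ (Submodule.add_mem _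
        (Submodule.smul_mem _ _ (Submodule.mem_sup_right ⟨p', hp', rfl⟩))
        (Submodule.smul_mem _ _ (Submodule.mem_sup_left (hPx y hy p' hp'))))
        (Submodule.smul_mem _ _ (Submodule.mem_sup_left hp'))) ?_
      exact Submodule.mem_sup_right ⟨p' * y, hPx y hy p' hp', rfl⟩

/-- The translation parts lie in a finitely generated module. -/
theorem exists_modV {L : Type} [Group L] [hfg : Group.FG L] (ρ : L →* Aut2 k)
    (hW : ∀ g, ρ g • W0 k = W0 k) (htr : ∀ g, ∃ z : ℤ, (lin (ρ g)).trace = z)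
    (hdet : ∀ g, ∃ z : ℤ, (lin (ρ g)).det = z) :
    ∃ V : Submodule ℤ (Fin 2 → k), V.FG ∧ ∀ g, tt (ρ g) ∈ V := by
  classical
  have hm : Monoid.FG L := Group.fg_iff_monoid_fg.1 hfg
  obtain ⟨S, hS⟩ := hm.fg_top
  obtain ⟨P, hP, hP1, hPx⟩ := exists_right (S.image fun s => lin (ρ s)) (by
    intro x hx
    obtain ⟨s, -, rfl⟩ := Finset.mem_image.1 hx
    obtain ⟨a, ha⟩ := htr s
    obtain ⟨b, hb⟩ := hdet s
    refine ⟨a, -b, ?_⟩
    rw [Matrix.trace_fin_two] at ha
    rw [Matrix.det_fin_two] at hb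
    rw [← Int.cast_smul_eq_zsmul k, ← Int.cast_smul_eq_zsmul k, Int.cast_neg, ← ha, ← hb]
    ext i j
    rw [Matrix.mul_apply, Fin.sum_univ_two]
    fin_cases i <;> fin_cases j <;>
      simp only [Fin.zero_eta, Fin.mk_one, Matrix.add_apply, Matrix.smul_apply,
        Matrix.one_apply_eq, Matrix.one_apply_ne (zero_ne_one (α := Fin 2)),
        Matrix.one_apply_ne (one_ne_zero (α := Fin 2)), smul_eq_mul] <;> ring) (by
    intro x hx y hy
    obtain ⟨s, -, rfl⟩ := Finset.mem_image.1 hx
    obtain ⟨s', -, rfl⟩ := Finset.mem_image.1 hy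
    obtain ⟨a, ha⟩ := htr s
    obtain ⟨b, hb⟩ := htr s'
    obtain ⟨c, hc⟩ := htr (s * s')
    refine ⟨b, a, c - a * b, ?_⟩
    rw [map_mul, lin_mul _ (hW s'), Matrix.trace_fin_two, Matrix.mul_apply, Matrix.mul_apply,
      Fin.sum_univ_two, Fin.sum_univ_two] at hc
    rw [Matrix.trace_fin_two] at ha hb
    rw [← Int.cast_smul_eq_zsmul k, ← Int.cast_smul_eq_zsmul k, ← Int.cast_smul_eq_zsmul k,
      Int.cast_sub, Int.cast_mul, ← ha, ← hb, ← hc]
    ext i j
    rw [Matrix.add_apply, Matrix.mul_apply, Matrix.mul_apply, Fin.sum_univ_two, Fin.sum_univ_two]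
    fin_cases i <;> fin_cases j <;>
      simp only [Fin.zero_eta, Fin.mk_one, Matrix.add_apply, Matrix.smul_apply,
        Matrix.one_apply_eq, Matrix.one_apply_ne (zero_ne_one (α := Fin 2)),
        Matrix.one_apply_ne (one_ne_zero (α := Fin 2)), smul_eq_mul] <;> ring)
  -- the module
  let ev : (Fin 2 → k) → Matrix (Fin 2) (Fin 2) k →ₗ[ℤ] (Fin 2 → k) := fun v =>
    { toFun := fun m => Matrix.vecMul v m
      map_add' := fun a b => Matrix.vecMul_add a b v
      map_smul' := fun z a => by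
        rw [← Int.cast_smul_eq_zsmul k, Matrix.vecMul_smul, ← Int.cast_smul_eq_zsmul k]
        rfl }
  have hev : ∀ v m, ev v m = Matrix.vecMul v m := fun _ _ => rfl
  refine ⟨⨆ s ∈ S, P.map (ev (tt (ρ s))), Submodule.fg_biSup S _ fun s _ => hP.map _,
    fun g => ?_⟩
  have hV : ∀ s ∈ S, ∀ p ∈ P, Matrix.vecMul (tt (ρ s)) p ∈ ⨆ s ∈ S, P.map (ev (tt (ρ s))) := by
    intro s hs p hp
    exact Submodule.mem_iSup_of_mem s (Submodule.mem_iSup_of_mem hs ⟨p, hp, rfl⟩)
  have hstab : ∀ x ∈ S, ∀ v ∈ ⨆ s ∈ S, P.map (ev (tt (ρ s))),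
      Matrix.vecMul v (lin (ρ x)) ∈ ⨆ s ∈ S, P.map (ev (tt (ρ s))) := by
    intro x hx v hv
    induction hv using Submodule.iSup_induction' with
    | mem s v hv =>
      induction hv using Submodule.iSup_induction' with
      | mem hs v hv =>
        obtain ⟨p, hp, rfl⟩ := hv
        rw [hev, Matrix.vecMul_vecMul]
        exact hV s hs _ (hPx _ (Finset.mem_image_of_mem _ hx) p hp)
      | zero =>
        rw [Matrix.zero_vecMul]
        exact Submodule.zero_mem _
      | add a b _ _ ha hb =>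
        rw [Matrix.add_vecMul]
        exact Submodule.add_mem _ ha hb
    | zero =>
      rw [Matrix.zero_vecMul]
      exact Submodule.zero_mem _
    | add a b _ _ ha hb =>
      rw [Matrix.add_vecMul]
      exact Submodule.add_mem _ ha hb
  have hg : g ∈ Submonoid.closure (S : Set L) := by
    rw [hS]
    trivial
  induction hg using Submonoid.closure_induction_right with
  | one =>
    rw [map_one, tt_one]
    exact Submodule.zero_mem _
  | mul_right x _ y hy hx =>
    rw [map_mul, tt_mul _ (hW y)]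
    refine Submodule.add_mem _ ?_ (hstab y hy _ hx)
    have := hV y hy 1 hP1
    rwa [Matrix.vecMul_one] at this

end Mod

/-! ## Subgroups with finite linear parts -/

section Core

end Core

end Pool.Agent.Lib.MP_551055_al.JK
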