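import Mathlib
import Pool.Agent.Lib.MP_551055_al.Trim.JK.Inv
import Pool.Agent.Lib.MP_551055_al.Trim.JK.Jung

/-!
# Change of the ring
-/

set_option autoImplicit false

namespace Pool.Agent.Lib.MP_551055_al.JK

open MvPolynomial

section BaseChange

variable {R S : Type} [CommRing R] [CommRing S] (f : R →+* S)

/-- The endomorphism of `S[x, y]` given by an automorphism of `R[x, y]`. -/
noncomputable def bcHom (φ : Aut2 R) : P2 S →ₐ[S] P2 S :=
  aeval ![map f (φ (X 0)), map f (φ (X 1))]

theorem bcHom_X (φ : Aut2 R) (i : Fin 2) : bcHom f φ (X i) = map f (φ (X i)) := by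
  rw [bcHom, aeval_X]
  fin_cases i <;> rfl

theorem bcHom_map (φ : Aut2 R) (A : P2 R) : bcHom f φ (map f A) = map f (φ A) := by
  have h : ((bcHom f φ : P2 S →ₐ[S] P2 S) : P2 S →+* P2 S).comp (map f) =
      (map f).comp ((φ : P2 R →ₐ[R] P2 R) : P2 R →+* P2 R) := by
    refine MvPolynomial.ringHom_ext (fun c => ?_) fun i => ?_
    · show bcHom f φ (map f (C c)) = map f (φ (C c))
      have h1 : φ (C c) = C c := φ.commutes c
      rw [h1, map_C, ← algebraMap_eq, AlgHom.commutes]
    · show bcHom f φ (map f (X i)) = map f (φ (X i))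
      rw [map_X, bcHom_X]
  exact DFunLike.congr_fun h A

theorem bcHom_comp (φ ψ : Aut2 R) : (bcHom f φ).comp (bcHom f ψ) = bcHom f (φ * ψ) := by
  refine MvPolynomial.algHom_ext fun i => ?_
  rw [AlgHom.comp_apply, bcHom_X, bcHom_map, bcHom_X]
  rfl

theorem bcHom_one : bcHom f (1 : Aut2 R) = AlgHom.id S (P2 S) := by
  refine MvPolynomial.algHom_ext fun i => ?_
  rw [bcHom_X]
  show map f (X i) = X i
  rw [map_X]

/-- The change of the ring. -/
noncomputable def bc : Aut2 R →* Aut2 S where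
  toFun φ := AlgEquiv.ofAlgHom (bcHom f φ) (bcHom f φ⁻¹)
    (by rw [bcHom_comp, mul_inv_cancel, bcHom_one]) (by rw [bcHom_comp, inv_mul_cancel, bcHom_one])
  map_one' := AlgEquiv.ext fun A => DFunLike.congr_fun (bcHom_one f) A
  map_mul' φ ψ := AlgEquiv.ext fun A => (DFunLike.congr_fun (bcHom_comp f φ ψ) A).symm

theorem bc_X (φ : Aut2 R) (i : Fin 2) : bc f φ (X i) = map f (φ (X i)) := bcHom_X f φ i

/-- Homomorphisms to automorphisms which are defined over a smaller ring. -/
theorem exists_descent (hf : Function.Injective f) {G : Type} [Group G] (ρ : G →* Aut2 S)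
    (h : ∀ g i, ρ g (X i) ∈ Set.range (map f)) : ∃ ρ' : G →* Aut2 R, ∀ g, bc f (ρ' g) = ρ g := by
  choose q hq using h
  have hinj : Function.Injective (map (σ := Fin 2) f) := MvPolynomial.map_injective f hf
  let e : G → P2 R →ₐ[R] P2 R := fun g => aeval ![q g 0, q g 1]
  have heX : ∀ g i, e g (X i) = q g i := by
    intro g i
    show aeval ![q g 0, q g 1] (X i) = _
    rw [aeval_X]
    fin_cases i <;> rfl
  have he : ∀ g A, map f (e g A) = ρ g (map f A) := by
    intro g A
    have h : (map f).comp ((e g : P2 R →ₐ[R] P2 R) : P2 R →+* P2 R) =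
        ((ρ g : P2 S →ₐ[S] P2 S) : P2 S →+* P2 S).comp (map f) := by
      refine MvPolynomial.ringHom_ext (fun c => ?_) fun i => ?_
      · show map f (e g (C c)) = ρ g (map f (C c))
        have h1 : e g (C c) = C c := by rw [← algebraMap_eq, AlgHom.commutes]
        have h2 : ρ g (C (f c)) = C (f c) := (ρ g).commutes _
        rw [h1, map_C, h2]
      · show map f (e g (X i)) = ρ g (map f (X i))
        rw [heX, map_X, hq]
    exact DFunLike.congr_fun h A
  have hcomp : ∀ a b, (e a).comp (e b) = e (a * b) := by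
    intro a b
    refine MvPolynomial.algHom_ext fun i => hinj ?_
    rw [AlgHom.comp_apply, he, he, he, map_X, map_mul]
    rfl
  have hone : e 1 = AlgHom.id R (P2 R) := by
    refine MvPolynomial.algHom_ext fun i => hinj ?_
    rw [he, map_one, map_X]
    show X i = map f (X i)
    rw [map_X]
  refine ⟨{ toFun := fun g => AlgEquiv.ofAlgHom (e g) (e g⁻¹)
              (by rw [hcomp, mul_inv_cancel, hone]) (by rw [hcomp, inv_mul_cancel, hone])
            map_one' := AlgEquiv.ext fun A => DFunLike.congr_fun hone A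
            map_mul' := fun a b => AlgEquiv.ext fun A => (DFunLike.congr_fun (hcomp a b) A).symm },
    fun g => ?_⟩
  have h1 : ∀ i, bc f (AlgEquiv.ofAlgHom (e g) (e g⁻¹)
      (by rw [hcomp, mul_inv_cancel, hone]) (by rw [hcomp, inv_mul_cancel, hone])) (X i) =
        ρ g (X i) := by
    intro i
    rw [bc_X]
    show map f (e g (X i)) = ρ g (X i)
    rw [he, map_X]
  exact aut2_ext (h1 0) (h1 1)

end BaseChange

section FG

/-- Finitely generated groups of automorphisms are defined over a finitely generated ring. -/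
theorem exists_fg_ring {R : Type} [CommRing R] {G : Type} [Group G] [hG : Group.FG G]
    (ρ : G →* Aut2 R) : ∃ (A : Type) (_ : CommRing A) (_ : Algebra.FiniteType ℤ A) (ι : A →+* R)
      (ρ' : G →* Aut2 A), Function.Injective ι ∧ ∀ g, bc ι (ρ' g) = ρ g := by
  classical
  obtain ⟨X', hX, hXf⟩ := Group.fg_iff.1 hG
  obtain ⟨E, hEf, hE⟩ : ∃ E : Set R, E.Finite ∧ ∀ x ∈ X', ∀ i : Fin 2,
      (↑(ρ x (X i)).coeffs ⊆ E) ∧ ↑(ρ x⁻¹ (X i)).coeffs ⊆ E := by
    refine ⟨⋃ x ∈ X', ⋃ i : Fin 2, (↑(ρ x (X i)).coeffs ∪ ↑(ρ x⁻¹ (X i)).coeffs : Set R),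
      hXf.biUnion fun x _ => Set.finite_iUnion fun i =>
        (Finset.finite_toSet _).union (Finset.finite_toSet _), fun x hx i => ⟨?_, ?_⟩⟩
    · intro c hc
      exact Set.mem_biUnion hx (Set.mem_iUnion.2 ⟨i, Or.inl hc⟩)
    · intro c hc
      exact Set.mem_biUnion hx (Set.mem_iUnion.2 ⟨i, Or.inr hc⟩)
  have hpre : (((↑) : Subring.closure E → R) ⁻¹' E).Finite :=
    hEf.preimage (Subtype.val_injective.injOn)
  have hft : Algebra.FiniteType ℤ (Subring.closure E) := by
    refine ⟨⟨hpre.toFinset, ?_⟩⟩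
    rw [Set.Finite.coe_toFinset, eq_top_iff]
    rintro ⟨x, hx⟩ _
    rw [Algebra.adjoin_int]
    show (⟨x, hx⟩ : Subring.closure E) ∈ Subring.closure _
    induction hx using Subring.closure_induction with
    | mem x hx => exact Subring.subset_closure hx
    | zero => exact zero_mem _
    | one => exact one_mem _
    | add x y hx hy h1 h2 => exact add_mem (h1 trivial) (h2 trivial)
    | neg x hx h1 => exact neg_mem (h1 trivial)
    | mul x y hx hy h1 h2 => exact mul_mem (h1 trivial) (h2 trivial)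
  let ι : Subring.closure E →+* R := (Subring.closure E).subtype
  have hι : Function.Injective ι := Subtype.val_injective
  have hrange : ∀ A : P2 R, (↑A.coeffs : Set R) ⊆ E → A ∈ Set.range (map (σ := Fin 2) ι) := by
    intro A hA
    rw [mem_range_map_iff_coeffs_subset]
    intro c hc
    exact ⟨⟨c, Subring.subset_closure (hA hc)⟩, rfl⟩
  -- preservation of the subring
  have hpres : ∀ φ : Aut2 R, (∀ i, φ (X i) ∈ Set.range (map (σ := Fin 2) ι)) →
      ∀ A ∈ (map (σ := Fin 2) ι).range, φ A ∈ (map (σ := Fin 2) ι).range := by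
    rintro φ hφ _ ⟨A, rfl⟩
    induction A using MvPolynomial.induction_on with
    | C a =>
      rw [map_C]
      have h1 : φ (C (ι a)) = C (ι a) := φ.commutes _
      rw [h1]
      exact ⟨C a, map_C _ _⟩
    | add p q hp hq =>
      rw [map_add, map_add]
      exact add_mem hp hq
    | mul_X p i hp =>
      rw [map_mul, map_mul, map_X]
      exact mul_mem hp (hφ i)
  have key : ∀ g : G, g ∈ Subgroup.closure X' →
      (∀ A ∈ (map (σ := Fin 2) ι).range, ρ g A ∈ (map (σ := Fin 2) ι).range) ∧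
        ∀ A ∈ (map (σ := Fin 2) ι).range, ρ g⁻¹ A ∈ (map (σ := Fin 2) ι).range := by
    intro g hg
    induction hg using Subgroup.closure_induction with
    | mem x hx =>
      exact ⟨hpres _ fun i => hrange _ (hE x hx i).1, hpres _ fun i => hrange _ (hE x hx i).2⟩
    | one =>
      rw [inv_one, map_one]
      exact ⟨fun A hA => hA, fun A hA => hA⟩
    | mul a b _ _ ha hb =>
      rw [mul_inv_rev, map_mul, map_mul]
      exact ⟨fun A hA => ha.1 _ (hb.1 _ hA), fun A hA => hb.2 _ (ha.2 _ hA)⟩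
    | inv a _ ha =>
      rw [inv_inv]
      exact ⟨ha.2, ha.1⟩
  obtain ⟨ρ', hρ'⟩ := exists_descent ι hι ρ fun g i => by
    have hg : g ∈ Subgroup.closure X' := by rw [hX]; trivial
    exact (key g hg).1 (X i) ⟨X i, map_X _ _⟩
  exact ⟨_, inferInstance, hft, ι, ρ', hι, hρ'⟩

end FG

section Nilp

variable {A : Type} [CommRing A] {M : Type} [AddCommGroup M] [Module A M]

/-- The image of the endomorphism is in `I M`. -/
def EIn (I : Ideal A) (T : Module.End A M) : Prop := ∀ m, T m ∈ (I • ⊤ : Submodule A M)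

theorem EIn.mul {I J : Ideal A} {T S : Module.End A M} (hT : EIn I T) (hS : EIn J S) :
    EIn (I * J) (T * S) := by
  intro m
  have h1 : T (S m) ∈ Submodule.map T (J • ⊤ : Submodule A M) := ⟨_, hS m, rfl⟩
  rw [Submodule.map_smul''] at h1
  rw [mul_comm, Submodule.mul_smul]
  refine Submodule.smul_mono le_rfl ?_ h1
  rintro _ ⟨x, -, rfl⟩
  exact hT x

theorem EIn.mul_left {J : Ideal A} (T : Module.End A M) {S : Module.End A M} (hS : EIn J S) :
    EIn J (T * S) := by
  intro m
  have h1 : T (S m) ∈ Submodule.map T (J • ⊤ : Submodule A M) := ⟨_, hS m, rfl⟩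
  rw [Submodule.map_smul''] at h1
  exact Submodule.smul_mono le_rfl le_top h1

theorem EIn.mono {I J : Ideal A} (h : I ≤ J) {T : Module.End A M} (hT : EIn I T) : EIn J T :=
  fun m => Submodule.smul_mono_left h (hT m)

theorem EIn.sum {I : Ideal A} {ι : Type} (s : Finset ι) (T : ι → Module.End A M)
    (hT : ∀ k ∈ s, EIn I (T k)) : EIn I (∑ k ∈ s, T k) := by
  intro m
  rw [LinearMap.sum_apply]
  exact Submodule.sum_mem _ fun k hk => hT k hk m

theorem EIn.step {I J : Ideal A} (n : ℕ) (hA : (n : A) = 0) (hIJ : J ≤ I)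
    {h : Module.End A M} (hh : EIn J (h - 1)) : EIn (I * J) (h ^ n - 1) := by
  rw [← geom_sum_mul]
  refine EIn.mul ?_ hh
  have h1 : ∑ i ∈ Finset.range n, h ^ i = ∑ i ∈ Finset.range n, (h ^ i - 1) := by
    rw [Finset.sum_sub_distrib, Finset.sum_const, Finset.card_range]
    have h2 : n • (1 : Module.End A M) = 0 := by
      rw [← Nat.cast_smul_eq_nsmul A, hA, zero_smul]
    rw [h2, sub_zero]
  rw [h1]
  refine EIn.sum _ _ fun i _ => ?_
  rw [← geom_sum_mul]
  exact EIn.mul_left _ (hh.mono hIJ)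

theorem end_pow_eq_one (n : ℕ) (hA : (n : A) = 0) (N : Ideal A) (r : ℕ) (hN : N ^ r = ⊥)
    (g : Module.End A M) (hg : EIn N (g - 1)) : g ^ (n ^ r) = 1 := by
  have key : ∀ k : ℕ, EIn (N ^ (k + 1)) (g ^ (n ^ k) - 1) := by
    intro k
    induction k with
    | zero =>
      rw [pow_zero, pow_one, pow_one]
      exact hg
    | succ k ih =>
      have h1 := EIn.step (I := N) n hA (Ideal.pow_le_self (Nat.succ_ne_zero k)) ih
      rw [← pow_mul, ← pow_succ, ← pow_succ'] at h1
      exact h1
  have h2 := key r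
  have h3 : N ^ (r + 1) = ⊥ := by rw [pow_succ, hN, Ideal.bot_mul]
  rw [h3] at h2
  rw [← sub_eq_zero]
  ext m
  have := h2 m
  rw [Submodule.bot_smul, Submodule.mem_bot] at this
  exact this

end Nilp

section Reduction

/-- An automorphism which is trivial modulo a nilpotent ideal has finite order in positive
characteristic. -/
theorem finOrder_of_nil {A : Type} [CommRing A] (n : ℕ) (hn : n ≠ 0) (hA : (n : A) = 0)
    (N : Ideal A) (r : ℕ) (hN : N ^ r = ⊥) (φ : Aut2 A)
    (h : ∀ i, φ (X i) - X i ∈ Ideal.map C N) : IsOfFinOrder φ := by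
  have h1 : ∀ Q : P2 A, φ Q - Q ∈ Ideal.map C N := by
    intro Q
    have h2 : (Ideal.Quotient.mk (Ideal.map (C (σ := Fin 2)) N)).comp
        ((φ : P2 A →ₐ[A] P2 A) : P2 A →+* P2 A) =
        Ideal.Quotient.mk (Ideal.map (C (σ := Fin 2)) N) := by
      refine MvPolynomial.ringHom_ext (fun c => ?_) fun i => ?_
      · show Ideal.Quotient.mk _ (φ (C c)) = Ideal.Quotient.mk _ (C c)
        have h3 : φ (C c) = C c := φ.commutes c
        rw [h3]
      · exact (Ideal.Quotient.mk_eq_mk_iff_sub_mem _ _).2 (h i)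
    exact (Ideal.Quotient.mk_eq_mk_iff_sub_mem _ _).1 (DFunLike.congr_fun h2 Q)
  let T : Module.End A (P2 A) := (φ : P2 A →ₐ[A] P2 A).toLinearMap
  have hT : ∀ m Q, (T ^ m) Q = (φ ^ m) Q := by
    intro m
    induction m with
    | zero => intro Q; rfl
    | succ m ih =>
      intro Q
      rw [pow_succ', pow_succ']
      show T ((T ^ m) Q) = φ ((φ ^ m) Q)
      rw [ih]
      rfl
  have h2 : EIn N (T - 1) := by
    intro Q
    rw [Ideal.smul_top_eq_map]
    exact h1 Q
  have h3 := end_pow_eq_one n hA N r hN T h2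
  refine isOfFinOrder_iff_pow_eq_one.2 ⟨n ^ r, pow_pos (Nat.pos_of_ne_zero hn) r, ?_⟩
  refine AlgEquiv.ext fun Q => ?_
  rw [← hT, h3]
  rfl

/-- **Reduction to algebraically closed fields.** -/
theorem exists_fields (R : Type) [CommRing R] (n : ℕ) (hn : n ≠ 0) (hR : (n : R) = 0)
    {G : Type} [Group G] [Group.FG G] (ρ : G →* Aut2 R) :
    ∃ (m : ℕ) (k : Fin m → Type) (_ : ∀ j, Field (k j)) (_ : ∀ j, IsAlgClosed (k j))
      (_ : ∀ j, (n : k j) = 0) (ρ' : ∀ j, G →* Aut2 (k j)),
      ∀ g, (∀ j, ρ' j g = 1) → IsOfFinOrder (ρ g) := by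
  classical
  obtain ⟨A, i1, hft, ι, ρA, hι, hρA⟩ := exists_fg_ring ρ
  have hnoeth : IsNoetherianRing A := Algebra.FiniteType.isNoetherianRing ℤ A
  have hA : (n : A) = 0 := hι (by rw [map_natCast, map_zero, hR])
  have hmin : (minimalPrimes A).Finite := minimalPrimes.finite_of_isNoetherianRing A
  have hprime : ∀ P : minimalPrimes A, (P : Ideal A).IsPrime := fun P => P.2.1.1
  have hfin : Finite (minimalPrimes A) := hmin
  obtain ⟨m, ⟨e⟩⟩ := Finite.exists_equiv_fin (minimalPrimes A)
  let f : ∀ P : minimalPrimes A, A →+* AlgebraicClosure (FractionRing (A ⧸ (P : Ideal A))) :=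
    fun P => (algebraMap (FractionRing (A ⧸ (P : Ideal A))) _).comp
      ((algebraMap (A ⧸ (P : Ideal A)) (FractionRing (A ⧸ (P : Ideal A)))).comp
        (Ideal.Quotient.mk (P : Ideal A)))
  have hker : ∀ P a, f P a = 0 → a ∈ (P : Ideal A) := by
    intro P a ha
    have h1 := (map_eq_zero_iff _ (algebraMap (FractionRing (A ⧸ (P : Ideal A)))
      (AlgebraicClosure (FractionRing (A ⧸ (P : Ideal A))))).injective).1 ha
    have h2 := (map_eq_zero_iff _ (IsFractionRing.injective (A ⧸ (P : Ideal A))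
      (FractionRing (A ⧸ (P : Ideal A))))).1 h1
    exact Ideal.Quotient.eq_zero_iff_mem.1 h2
  refine ⟨m, fun j => AlgebraicClosure (FractionRing (A ⧸ ((e.symm j : minimalPrimes A) : Ideal A))),
    fun j => inferInstance, fun j => inferInstance, fun j => ?_,
    fun j => (bc (f (e.symm j))).comp ρA, fun g hg => ?_⟩
  · rw [← map_natCast (f (e.symm j)), hA, map_zero]
  · obtain ⟨r, hr⟩ := IsNoetherianRing.isNilpotent_nilradical A
    have h1 : ∀ P : minimalPrimes A, bc (f P) (ρA g) = 1 := by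
      intro P
      have := hg (e P)
      change bc (f (e.symm (e P))) (ρA g) = 1 at this
      rw [Equiv.symm_apply_apply] at this
      exact this
    have h2 : IsOfFinOrder (ρA g) := by
      refine finOrder_of_nil n hn hA (nilradical A) r hr (ρA g) fun i => ?_
      rw [mem_map_C_iff]
      intro d
      rw [nilradical, ← Ideal.sInf_minimalPrimes]
      refine Submodule.mem_sInf.2 fun P hP => hker ⟨P, hP⟩ _ ?_
      have h3 : map (f ⟨P, hP⟩) (ρA g (X i)) = X i := by
        rw [← bc_X, h1]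
        rfl
      rw [coeff_sub, map_sub, ← coeff_map, h3]
      have h4 : (X i : P2 A) = X i := rfl
      rw [← coeff_map, map_X, sub_self]
    rw [← hρA]
    exact MonoidHom.isOfFinOrder (bc ι) h2

end Reduction

end Pool.Agent.Lib.MP_551055_al.JK
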