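import Mathlib
import Pool.Agent.Lib.MP_551055_al.Trim.BT.Mixed
import Pool.Agent.Lib.MP_551055_al.Trim.JK.Graph
import Pool.Agent.Lib.MP_551055_al.Trim.JK.Inv
import Pool.Agent.Lib.MP_551055_al.Trim.JK.Jung
import Pool.Agent.Lib.MP_551055_al.Trim.LS.Stmts
import Pool.Agent.Lib.MP_551055_al.Trim.LS.Stmts3
import Pool.Agent.Lib.MP_551055_al.Trim.RI.Stmts
import Pool.Agent.Lib.MP_551055_al.Trim.W17.KT

/-!
# The induction on the number of planes
-/

set_option autoImplicit false

namespace Pool.Agent.Lib.MP_551055_al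
end Pool.Agent.Lib.MP_551055_al

namespace Pool.Agent.Lib.MP_551055_al.LS
end Pool.Agent.Lib.MP_551055_al.LS

namespace Pool.Agent.Lib.MP_551055_al.RI
end Pool.Agent.Lib.MP_551055_al.RI

namespace Pool.Agent.Lib.MP_551055_al.BT
end Pool.Agent.Lib.MP_551055_al.BT

namespace Pool.Agent.Lib.MP_551055_al.JK

open Pool.Agent.Lib.MP_551055_al

open Pool.Agent.Lib.MP_551055_al.LS

open Pool.Agent.Lib.MP_551055_al.RI

open Pool.Agent.Lib.MP_551055_al.BT (HasTrees)

variable {X : Cls}

/-- Finitely generated subgroups suffice. -/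
theorem cl_of_fg (l : ℕ) (G : Type) [Group G] (F : Subgroup G → Prop)
    (h : ∀ K : Subgroup G, Group.FG K → X.Cl l K fun E => F (E.map K.subtype)) : X.Cl l G F := by
  classical
  refine Cls.Cl.colim l G F (fun s => Subgroup.closure (s : Set G)) (fun s => Subgroup.subtype _)
    (fun s a => if ha : a ∈ Subgroup.closure (s : Set G) then ⟨a, ha⟩ else 1) (fun s => ?_)
    fun s => h _ ((Group.fg_iff_subgroup_fg _).2 ⟨s, rfl⟩)
  have h1 : ∀ a ∈ s, a ∈ Subgroup.closure (s : Set G) := fun a ha => Subgroup.subset_closure ha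
  refine ⟨fun a ha => ?_, fun a ha b hb hab => ?_⟩
  · rw [dif_pos (h1 a ha)]
    rfl
  · rw [dif_pos (h1 a ha), dif_pos (h1 b hb), dif_pos (h1 _ hab)]
    rfl

/-- The tree of the plane, all segments are long. -/
noncomputable def planeTree {k : Type} [Field k] [IsAlgClosed k] {G : Type} [Group G]
    (ρ : G →* Aut2 k) : TreeOn G where
  V := Vert k
  act := MulAction.compHom (Vert k) ρ
  T := Gr k
  tree := gr_comp ρ
  S u v := u ≠ v
  inv g u v h h1 := h (by
    have : ρ g • u = ρ g • v := h1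
    exact smul_left_cancel _ this)
  bar :=
    { pro := fun u v w h _ hd hw => by
        subst hw
        rw [SimpleGraph.dist_self] at hd
        omega
      ray := fun x hx _ => ⟨1, le_rfl, (hx 0).ne⟩ }

end Pool.Agent.Lib.MP_551055_al.JK
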