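import Mathlib
import Pool.Agent.Lib.MP_551055_al.Trim.BT.Poly
import Pool.Agent.Lib.MP_551055_al.Trim.JK.Inv
import Pool.Agent.Lib.MP_551055_al.Trim.JK.Jung
import Pool.Agent.Lib.MP_551055_al.Trim.JK.Stab
import Pool.Agent.Lib.MP_551055_al.Trim.LS.PStmts

/-!
# Groups of triangular automorphisms with diagonal entries `± 1`, characteristic zero
-/

set_option autoImplicit false

namespace Pool.Agent.Lib.MP_551055_al
end Pool.Agent.Lib.MP_551055_al

namespace Pool.Agent.Lib.MP_551055_al.LS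
end Pool.Agent.Lib.MP_551055_al.LS

namespace Pool.Agent.Lib.MP_551055_al.RI
end Pool.Agent.Lib.MP_551055_al.RI

namespace Pool.Agent.Lib.MP_551055_al.JK

open MvPolynomial Pointwise

open Pool.Agent.Lib.MP_551055_al

open Pool.Agent.Lib.MP_551055_al.LS

open Pool.Agent.Lib.MP_551055_al.RI

section Data

variable {k : Type} [Field k]

/-- The substitution `x = 0`. -/
noncomputable def thh : P2 k →ₐ[k] Polynomial k := aeval ![0, Polynomial.X]

theorem thh_X0 : thh (X 0 : P2 k) = 0 := by simp [thh]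

theorem thh_X1 : thh (X 1 : P2 k) = Polynomial.X := by simp [thh]

/-- The translation part. -/
noncomputable def dd (φ : Aut2 k) : k := eval 0 (φ (X 1))

/-- The polynomial part. -/
noncomputable def pp (φ : Aut2 k) : Polynomial k := thh (φ (X 0))

theorem data_eq {φ : Aut2 k} {a c d : k} {p : Polynomial k} (h1 : φ (X 1) = C c * X 1 + C d)
    (h0 : φ (X 0) = C a * X 0 + Polynomial.aeval (X 1) p) : dd φ = d ∧ pp φ = p := by
  constructor
  · rw [dd, h1]
    simp
  · rw [pp, h0, map_add, map_mul, thh_X0, mul_zero, zero_add, ← Polynomial.aeval_algHom_apply,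
      thh_X1, Polynomial.aeval_X_left_apply]

theorem HasDiag.form {φ : Aut2 k} {a c : k} (h : HasDiag φ a c) :
    φ (X 1) = C c * X 1 + C (dd φ) ∧ φ (X 0) = C a * X 0 + Polynomial.aeval (X 1) (pp φ) := by
  obtain ⟨d, p, h1, h0⟩ := h
  obtain ⟨e1, e0⟩ := data_eq h1 h0
  rw [e1, e0]
  exact ⟨h1, h0⟩

theorem data_mul {φ ψ : Aut2 k} {a c a' c' : k} (h : HasDiag φ a c) (h' : HasDiag ψ a' c') :
    dd (φ * ψ) = c' * dd φ + dd ψ ∧ pp (φ * ψ) = Polynomial.C a' * pp φ +
      (pp ψ).comp (Polynomial.C c * Polynomial.X + Polynomial.C (dd φ)) := by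
  obtain ⟨h1, h0⟩ := h.form
  obtain ⟨h1', h0'⟩ := h'.form
  refine data_eq (a := a * a') (c := c * c') ?_ ?_
  · show φ (ψ (X 1)) = _
    rw [h1']
    simp only [map_add, map_mul, aut_C, h1]
    ring
  · show φ (ψ (X 0)) = _
    rw [h0']
    simp only [map_add, map_mul, aut_C, h0]
    rw [← Polynomial.aeval_algHom_apply φ (X 1) (pp ψ), h1, Polynomial.aeval_comp]
    simp only [map_add, map_mul, Polynomial.aeval_C, Polynomial.aeval_X, algebraMap_eq]
    ring

theorem hasDiag_one : HasDiag (1 : Aut2 k) 1 1 := ⟨0, 0, by simp, by simp⟩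

theorem data_one : dd (1 : Aut2 k) = 0 ∧ pp (1 : Aut2 k) = 0 :=
  data_eq (a := 1) (c := 1) (by simp) (by simp)

end Data

/-! ## Finitely generated modules -/

/-- Groups which embed in finitely generated submodules. -/
theorem polyZ_of_module {K M : Type} [Group K] [AddCommGroup M] [Module.IsTorsionFree ℤ M]
    (P : Submodule ℤ M) (hP : P.FG) (p : K →* Multiplicative M)
    (hp : ∀ g, (p g).toAdd ∈ P) (hinj : ∀ g, p g = 1 → g = 1) : PolyZ K := by
  have : Module.Finite ℤ P := Module.Finite.iff_fg.2 hP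
  let b := Module.finBasis ℤ P
  refine BT.polyZ_of_finite K (J := Fin (Module.finrank ℤ P)) (fun i =>
    { toFun := fun g => Multiplicative.ofAdd (b.repr ⟨(p g).toAdd, hp g⟩ i)
      map_one' := by
        have h1 : (⟨(p 1).toAdd, hp 1⟩ : P) = 0 := Subtype.ext (by
          show (p 1).toAdd = 0
          rw [map_one]
          rfl)
        rw [h1, map_zero]
        rfl
      map_mul' := fun g h => by
        have h1 : (⟨(p (g * h)).toAdd, hp (g * h)⟩ : P) =
            ⟨(p g).toAdd, hp g⟩ + ⟨(p h).toAdd, hp h⟩ := Subtype.ext (by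
          show (p (g * h)).toAdd = (p g).toAdd + (p h).toAdd
          rw [map_mul]
          rfl)
        rw [h1, map_add]
        rfl }) fun g hg => hinj g ?_
  have h1 : (⟨(p g).toAdd, hp g⟩ : P) = 0 := by
    refine b.repr.injective (Finsupp.ext fun i => ?_)
    rw [map_zero]
    exact hg i
  exact congrArg Subtype.val h1

section Mod

variable {k : Type} [Field k] {L : Type} [Group L] (ρ : L →* Aut2 k)

/-- The translation parts and the polynomial parts are in finitely generated modules. -/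
theorem exists_mod [hfg : Group.FG L] (a c : L → k) (ha : ∀ g, a g = 1 ∨ a g = -1)
    (hc : ∀ g, c g = 1 ∨ c g = -1) (hd : ∀ g, HasDiag (ρ g) (a g) (c g)) :
    ∃ (D : Submodule ℤ k) (P : Submodule ℤ (Polynomial k)), D.FG ∧ P.FG ∧
      ∀ g, dd (ρ g) ∈ D ∧ pp (ρ g) ∈ P := by
  classical
  have hm : Monoid.FG L := Group.fg_iff_monoid_fg.1 hfg
  obtain ⟨S, hS⟩ := hm.fg_top
  obtain ⟨D, hD⟩ : ∃ D : Submodule ℤ k,
      D = Submodule.span ℤ ((insert 1 (S.image fun s => dd (ρ s)) : Finset k) : Set k) := ⟨_, rfl⟩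
  have hD1 : (1 : k) ∈ D := by
    rw [hD]
    exact Submodule.subset_span (Finset.mem_coe.2 (Finset.mem_insert_self _ _))
  have hDs : ∀ s ∈ S, dd (ρ s) ∈ D := by
    intro s hs
    rw [hD]
    exact Submodule.subset_span (Finset.mem_coe.2 (Finset.mem_insert_of_mem
      (Finset.mem_image_of_mem _ hs)))
  obtain ⟨Q, hQ⟩ : ∃ Q : Submodule ℤ k, Q = Submodule.span ℤ
      ((S.biUnion fun s => (pp (ρ s)).support.image fun i => (pp (ρ s)).coeff i : Finset k) :
        Set k) := ⟨_, rfl⟩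
  have hQs : ∀ s ∈ S, ∀ i ∈ (pp (ρ s)).support, (pp (ρ s)).coeff i ∈ Q := by
    intro s hs i hi
    rw [hQ]
    exact Submodule.subset_span (Finset.mem_coe.2 (Finset.mem_biUnion.2 ⟨s, hs,
      Finset.mem_image_of_mem _ hi⟩))
  obtain ⟨N, hN⟩ : ∃ N, N = S.sup fun s => (pp (ρ s)).natDegree := ⟨_, rfl⟩
  let cz : k →ₐ[ℤ] Polynomial k := (Polynomial.C : k →+* Polynomial k).toIntAlgHom
  obtain ⟨𝒟, h𝒟⟩ : ∃ 𝒟 : Submodule ℤ (Polynomial k),
      𝒟 = D.map cz.toLinearMap ⊔ Submodule.span ℤ {Polynomial.X} := ⟨_, rfl⟩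
  obtain ⟨P, hP⟩ : ∃ P : Submodule ℤ (Polynomial k), P = 𝒟 ^ N * Q.map cz.toLinearMap := ⟨_, rfl⟩
  have hDfg : D.FG := by
    rw [hD]
    exact ⟨_, rfl⟩
  have hQfg : Q.FG := by
    rw [hQ]
    exact ⟨_, rfl⟩
  have h𝒟fg : 𝒟.FG := by
    rw [h𝒟]
    exact (hDfg.map _).sup (Submodule.fg_span_singleton _)
  have hPfg : P.FG := by
    rw [hP]
    exact (h𝒟fg.pow N).mul (hQfg.map _)
  have hC𝒟 : ∀ x ∈ D, Polynomial.C x ∈ 𝒟 := by
    intro x hx
    rw [h𝒟]
    exact Submodule.mem_sup_left ⟨x, hx, rfl⟩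
  have hX𝒟 : Polynomial.X ∈ 𝒟 := by
    rw [h𝒟]
    exact Submodule.mem_sup_right (Submodule.subset_span rfl)
  have hstab : ∀ (e c' : k), e ∈ D → (c' = 1 ∨ c' = -1) → ∀ q ∈ P,
      q.comp (Polynomial.C c' * Polynomial.X + Polynomial.C e) ∈ P := by
    intro e c' he hc' q hq
    let τ : Polynomial k →ₐ[ℤ] Polynomial k :=
      (Polynomial.compRingHom (Polynomial.C c' * Polynomial.X + Polynomial.C e)).toIntAlgHom
    have hτ : ∀ q, τ q = q.comp (Polynomial.C c' * Polynomial.X + Polynomial.C e) := fun _ => rfl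
    have h1 : 𝒟.map τ.toLinearMap ≤ 𝒟 := by
      conv_lhs => rw [h𝒟]
      rw [Submodule.map_sup]
      refine sup_le ?_ ?_
      · rintro _ ⟨_, ⟨x, hx, rfl⟩, rfl⟩
        have h2 : τ.toLinearMap (cz.toLinearMap x) = Polynomial.C x := by
          show (Polynomial.C x).comp _ = _
          rw [Polynomial.C_comp]
        rw [h2]
        exact hC𝒟 x hx
      · rw [Submodule.map_span_le]
        rintro _ rfl
        have h2 : τ.toLinearMap (Polynomial.X : Polynomial k) =
            Polynomial.C c' * Polynomial.X + Polynomial.C e := by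
          show (Polynomial.X : Polynomial k).comp _ = _
          rw [Polynomial.X_comp]
        rw [h2]
        refine 𝒟.add_mem ?_ (hC𝒟 e he)
        rcases hc' with rfl | rfl
        · rw [map_one, one_mul]
          exact hX𝒟
        · rw [map_neg, map_one, neg_mul, one_mul]
          exact 𝒟.neg_mem hX𝒟
    have h3 : (Q.map cz.toLinearMap).map τ.toLinearMap ≤ Q.map cz.toLinearMap := by
      rintro _ ⟨_, ⟨x, hx, rfl⟩, rfl⟩
      refine ⟨x, hx, ?_⟩
      show Polynomial.C x = (Polynomial.C x).comp _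
      rw [Polynomial.C_comp]
    have h4 : P.map τ.toLinearMap ≤ P := by
      conv_lhs => rw [hP]
      rw [Submodule.map_mul, Submodule.map_pow, hP]
      exact mul_le_mul' (pow_le_pow_left' h1 N) h3
    exact h4 ⟨q, hq, rfl⟩
  have hunit : ∀ (x : k) (q : Polynomial k), (x = 1 ∨ x = -1) → q ∈ P → Polynomial.C x * q ∈ P := by
    intro x q hx hq
    rcases hx with rfl | rfl
    · rwa [map_one, one_mul]
    · rw [map_neg, map_one, neg_mul, one_mul]
      exact P.neg_mem hq
  refine ⟨D, P, hDfg, hPfg, fun g => ?_⟩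
  have hg : g ∈ Submonoid.closure (S : Set L) := by
    rw [hS]
    trivial
  induction hg using Submonoid.closure_induction with
  | mem s hs =>
    refine ⟨hDs s hs, ?_⟩
    rw [(pp (ρ s)).as_sum_support_C_mul_X_pow]
    refine Submodule.sum_mem _ fun i hi => ?_
    rw [mul_comm, hP]
    refine Submodule.mul_mem_mul ?_ ⟨_, hQs s hs i hi, rfl⟩
    have hi' : i ≤ N := by
      rw [hN]
      exact (Polynomial.le_natDegree_of_mem_supp i hi).trans
        (Finset.le_sup (f := fun s => (pp (ρ s)).natDegree) hs)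
    have h1 : (Polynomial.X : Polynomial k) ^ i = Polynomial.X ^ i * 1 ^ (N - i) := by
      rw [one_pow, mul_one]
    have h2 : 𝒟 ^ N = 𝒟 ^ i * 𝒟 ^ (N - i) := by
      rw [← pow_add]
      congr 1
      omega
    rw [h1, h2]
    refine Submodule.mul_mem_mul (Submodule.pow_mem_pow _ hX𝒟 i) (Submodule.pow_mem_pow _ ?_ _)
    have := hC𝒟 1 hD1
    rwa [map_one] at this
  | one =>
    rw [map_one, data_one.1, data_one.2]
    exact ⟨D.zero_mem, P.zero_mem⟩
  | mul x y _ _ hx hy =>
    rw [map_mul, (data_mul (hd x) (hd y)).1, (data_mul (hd x) (hd y)).2]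
    refine ⟨D.add_mem ?_ hy.1, P.add_mem (hunit _ _ (ha y) hx.2) (hstab _ _ hx.1 (hc x) _ hy.2)⟩
    rcases hc y with h | h <;> rw [h]
    · rw [one_mul]
      exact hx.1
    · rw [neg_mul, one_mul]
      exact D.neg_mem hx.1

end Mod

section Main

end Main

end Pool.Agent.Lib.MP_551055_al.JK
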