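import Mathlib
import Pool.Agent.Lib.MP_551055_al.Trim.BT.Mixed
import Pool.Agent.Lib.MP_551055_al.Trim.BT.SL2Z
import Pool.Agent.Lib.MP_551055_al.Trim.BT.Stab
import Pool.Agent.Lib.MP_551055_al.Trim.BT.Tree
import Pool.Agent.Lib.MP_551055_al.Trim.BT.Unip
import Pool.Agent.Lib.MP_551055_al.Trim.GL.GLZ
import Pool.Agent.Lib.MP_551055_al.Trim.JK.Inv
import Pool.Agent.Lib.MP_551055_al.Trim.JK.Jung
import Pool.Agent.Lib.MP_551055_al.Trim.JK.Stab
import Pool.Agent.Lib.MP_551055_al.Trim.JK.Tree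
import Pool.Agent.Lib.MP_551055_al.Trim.JK.Tri0
import Pool.Agent.Lib.MP_551055_al.Trim.MT.K1
import Pool.Agent.Lib.MP_551055_al.Trim.T4.Ind0

/-!
# Local structure of the vertex stabilisers, characteristic zero
-/

set_option autoImplicit false

namespace Pool.Agent.Lib.MP_551055_al
end Pool.Agent.Lib.MP_551055_al

namespace Pool.Agent.Lib.MP_551055_al.LS
end Pool.Agent.Lib.MP_551055_al.LS

namespace Pool.Agent.Lib.MP_551055_al.RI
end Pool.Agent.Lib.MP_551055_al.RI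

namespace Pool.Agent.Lib.MP_551055_al.GL
end Pool.Agent.Lib.MP_551055_al.GL

namespace Pool.Agent.Lib.MP_551055_al.BT
end Pool.Agent.Lib.MP_551055_al.BT

namespace Pool.Agent.Lib.MP_551055_al.JK

open MvPolynomial Pointwise

open Pool.Agent.Lib.MP_551055_al

open Pool.Agent.Lib.MP_551055_al.LS

open Pool.Agent.Lib.MP_551055_al.RI

open Pool.Agent.Lib.MP_551055_al.GL

open Pool.Agent.Lib.MP_551055_al.BT (GL2 SLZ exists_conj treeAct_comp HasTrees)

/-! ## Roots of unity -/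

theorem unit_root {F : Type} [Field F] [Algebra ℚ F]
    (hF : ∀ A : Subalgebra ℚ F, A.FG → Nonempty (A →ₐ[ℚ] ℚ)) {u : F} {n : ℕ} (hn : n ≠ 0)
    (h : u ^ n = 1) : u = 1 ∨ u = -1 := by
  obtain ⟨s⟩ := hF (Algebra.adjoin ℚ {u}) ⟨{u}, by rw [Finset.coe_singleton]⟩
  have hu : u ∈ Algebra.adjoin ℚ {u} := Algebra.subset_adjoin rfl
  obtain ⟨w, hw⟩ : ∃ w : Algebra.adjoin ℚ {u}, (w : F) = u := ⟨⟨u, hu⟩, rfl⟩
  have hwn : w ^ n = 1 := Subtype.ext (by
    rw [SubmonoidClass.coe_pow, hw, h]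
    rfl)
  have hs : s w ^ n = 1 := by rw [← map_pow, hwn, map_one]
  have hs2 : s w ^ 2 = 1 := by
    have h1 : |s w| ^ n = 1 := by rw [← abs_pow, hs, abs_one]
    have h2 : |s w| = 1 := (pow_eq_one_iff_of_nonneg (abs_nonneg _) hn).1 h1
    rw [← sq_abs, h2, one_pow]
  by_contra hcon
  push Not at hcon
  have h3 : u ^ 2 ≠ 1 := by
    intro h3
    rcases mul_self_eq_one_iff.1 ((pow_two u).symm.trans h3) with h4 | h4
    · exact hcon.1 h4
    · exact hcon.2 h4
  have h4 : (∑ i ∈ Finset.range n, (w ^ 2) ^ i) * (w ^ 2 - 1) = 0 := by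
    rw [geom_sum_mul, ← pow_mul, mul_comm 2 n, pow_mul, hwn, one_pow, sub_self]
  have h5 : w ^ 2 - 1 ≠ 0 := by
    intro h5
    refine h3 ?_
    have h6 := congrArg (fun z : Algebra.adjoin ℚ {u} => (z : F)) (sub_eq_zero.1 h5)
    change ((w ^ 2 : Algebra.adjoin ℚ {u}) : F) = 1 at h6
    rwa [SubmonoidClass.coe_pow, hw] at h6
  have h6 := (mul_eq_zero.1 h4).resolve_right h5
  have h7 := congrArg s h6
  rw [map_sum, map_zero] at h7
  have h8 : ∀ i ∈ Finset.range n, s ((w ^ 2) ^ i) = 1 := by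
    intro i _
    rw [map_pow, map_pow, hs2, one_pow]
  rw [Finset.sum_congr rfl h8, Finset.sum_const, Finset.card_range, nsmul_eq_mul, mul_one] at h7
  exact hn (by exact_mod_cast h7)

/-! ## The stabiliser of the line -/

section Line

variable {k : Type} [Field k]

theorem hasDiag_of' {φ : Aut2 k} (h : φ • L0 k = L0 k) :
    HasDiag φ (dv (Pi.single 0 1) (φ (X 0))) (dv (Pi.single 1 1) (φ (X 1))) := by
  obtain ⟨a, c, d, p, -, -, h1, h0⟩ := tri_form2 h
  have h2 : HasDiag φ a c := ⟨d, p, h1, h0⟩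
  have h3 := dv_of_hasDiag h2
  rw [h3.1, h3.2]
  exact h2

/-- The diagonal entries as characters. -/
theorem exists_diagL {E : Type} [Group E] (ρ : E →* Aut2 k) (h : ∀ g, ρ g • L0 k = L0 k) :
    ∃ σ : E →* kˣ × kˣ, ∀ g, HasDiag (ρ g) ((σ g).1 : k) ((σ g).2 : k) := by
  let m0 : E →* k :=
    { toFun := fun g => dv (Pi.single 0 1) (ρ g (X 0))
      map_one' := by rw [map_one]; exact (dv_of_hasDiag hasDiag_one).1
      map_mul' := fun a b => by
        rw [map_mul]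
        exact (dv_of_hasDiag ((hasDiag_of' (h a)).mul (hasDiag_of' (h b)))).1 }
  let m1 : E →* k :=
    { toFun := fun g => dv (Pi.single 1 1) (ρ g (X 1))
      map_one' := by rw [map_one]; exact (dv_of_hasDiag hasDiag_one).2
      map_mul' := fun a b => by
        rw [map_mul]
        exact (dv_of_hasDiag ((hasDiag_of' (h a)).mul (hasDiag_of' (h b)))).2 }
  exact ⟨m0.toHomUnits.prod m1.toHomUnits, fun g => hasDiag_of' (h g)⟩

end Line

/-! ## Finite stabilisers -/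

theorem finite_stab (x : SLZ.Vx) : Finite (MulAction.stabilizer GLZ x) := by
  have key : ∀ (s : SLZ) (hs : GLZ.cw s = s⁻¹) (h12 : s ^ 12 = 1) (a : SLZ) (P : GLZ → Prop)
      (_ : ∀ g : GLZ, P g → a⁻¹ * GLZ.toS g a ∈ Subgroup.zpowers s), Finite {g // P g} := by
    intro s hs h12 a P hP
    have hfin : Finite (Subgroup.zpowers s) :=
      (isOfFinOrder_iff_pow_eq_one.2 ⟨12, by norm_num, h12⟩).finite_zpowers
    refine Finite.of_injective (fun g : {g // P g} =>
      ((⟨a⁻¹ * GLZ.toS g a, hP g g.2⟩ : Subgroup.zpowers s),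
        Matrix.GeneralLinearGroup.det (g : GLZ))) ?_
    rintro ⟨g, hg⟩ ⟨g', hg'⟩ h
    have h1 : a⁻¹ * GLZ.toS g a = a⁻¹ * GLZ.toS g' a := congrArg (fun z => (z.1 : SLZ)) h
    have h2 : g.val.det = g'.val.det := congrArg (fun z => (z.2 : ℤ)) h
    have h3 : GLZ.toS g a = GLZ.toS g' a := mul_left_cancel h1
    have h4 : g.val * a.1 * GLZ.r g = g'.val * a.1 * GLZ.r g' := congrArg Subtype.val h3
    have h5 : GLZ.r g = GLZ.r g' := by
      unfold GLZ.r
      rw [h2]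
    have h6 : GLZ.r g' * GLZ.r g' = 1 := by
      unfold GLZ.r
      split_ifs
      · rw [mul_one]
      · exact GLZ.w_mul_w
    have h7 : a.1 * (a⁻¹).1 = 1 := congrArg Subtype.val (mul_inv_cancel a)
    refine Subtype.ext (Units.ext ?_)
    rw [h5] at h4
    have h8 := congrArg (fun m => m * GLZ.r g' * (a⁻¹).1) h4
    change g.val * a.1 * GLZ.r g' * GLZ.r g' * (a⁻¹).1 =
      g'.val * a.1 * GLZ.r g' * GLZ.r g' * (a⁻¹).1 at h8
    rw [mul_assoc (g.val * a.1), h6, mul_one, mul_assoc g.val, h7, mul_one,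
      mul_assoc (g'.val * a.1), h6, mul_one, mul_assoc g'.val, h7, mul_one] at h8
    exact h8
  have hS : SLZ.S ^ 12 = 1 := by
    rw [show (12 : ℕ) = 2 * 6 from rfl, pow_mul, SLZ.S2]
    rw [show (6 : ℕ) = 2 * 3 from rfl, pow_mul, neg_one_sq, one_pow]
  have hR : SLZ.R ^ 12 = 1 := by
    rw [show (12 : ℕ) = 3 * 4 from rfl, pow_mul, SLZ.R3]
    rw [show (4 : ℕ) = 2 * 2 from rfl, pow_mul, neg_one_sq, one_pow]
  rcases x with x | x
  · induction x using QuotientGroup.induction_on with | H a => ?_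
    refine key SLZ.S GLZ.cw_S hS a (fun g => g ∈ MulAction.stabilizer GLZ _) fun g hg => ?_
    have h1 : (((GLZ.toS g a : SLZ)) : SLZ ⧸ Subgroup.zpowers SLZ.S) = (a : SLZ ⧸ _) :=
      Sum.inl.inj hg
    exact QuotientGroup.eq.1 h1.symm
  · induction x using QuotientGroup.induction_on with | H a => ?_
    refine key SLZ.R GLZ.cw_R hR a (fun g => g ∈ MulAction.stabilizer GLZ _) fun g hg => ?_
    have h1 : (((GLZ.toS g a : SLZ)) : SLZ ⧸ Subgroup.zpowers SLZ.R) = (a : SLZ ⧸ _) :=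
      Sum.inr.inj hg
    exact QuotientGroup.eq.1 h1.symm

end Pool.Agent.Lib.MP_551055_al.JK
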