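import Mathlib
import Pool.Agent.Lib.MP_551055_al.Trim.BT.Main
import Pool.Agent.Lib.MP_551055_al.Trim.BT.Mixed
import Pool.Agent.Lib.MP_551055_al.Trim.GL.Chars
import Pool.Agent.Lib.MP_551055_al.Trim.LS.Stmts
import Pool.Agent.Lib.MP_551055_al.Trim.LS.TreeB
import Pool.Agent.Lib.MP_551055_al.Trim.RI.Linear

/-!
# Groups with finitely many homomorphisms to automorphism groups of planes
-/

set_option autoImplicit false

namespace Pool.Agent.Lib.MP_551055_al
end Pool.Agent.Lib.MP_551055_al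

namespace Pool.Agent.Lib.MP_551055_al.LS
end Pool.Agent.Lib.MP_551055_al.LS

namespace Pool.Agent.Lib.MP_551055_al.RI
end Pool.Agent.Lib.MP_551055_al.RI

namespace Pool.Agent.Lib.MP_551055_al.BT
end Pool.Agent.Lib.MP_551055_al.BT

namespace Pool.Agent.Lib.MP_551055_al.GL
end Pool.Agent.Lib.MP_551055_al.GL

namespace Pool.Agent.Lib.MP_551055_al.JK

open Pool.Agent.Lib.MP_551055_al

open Pool.Agent.Lib.MP_551055_al.LS

open Pool.Agent.Lib.MP_551055_al.RI

open Pool.Agent.Lib.MP_551055_al.BT (HasTrees)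

open Pool.Agent.Lib.MP_551055_al.GL (HasTC)

/-- A subgroup which fixes two vertices fixes a neighbour of the second one. -/
theorem exists_edge {Γ V : Type} [Group Γ] [MulAction Γ V] {T : SimpleGraph V}
    (hA : TreeAct Γ V T) {u v : V} (huv : u ≠ v) (E : Subgroup Γ)
    (hE : ∀ e ∈ E, e • u = u ∧ e • v = v) : ∃ w, T.Adj w v ∧ ∀ e ∈ E, e • w = w := by
  obtain ⟨n, hn⟩ : ∃ n, T.dist u v = n + 1 := by
    have h1 : T.dist u v ≠ 0 := fun h => huv (hA.tree.connected.dist_eq_zero_iff.1 h)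
    exact ⟨T.dist u v - 1, by omega⟩
  obtain ⟨w, hw, hd⟩ := tree_exists_pred hA.tree hn
  refine ⟨w, hw, fun e he => ?_⟩
  have h1 : T.Adj (e • w) v := by
    have := hA.adj e w v hw
    rwa [(hE e he).2] at this
  have h2 : T.dist u (e • w) = n := by
    have := dist_smul_smul hA e u w
    rw [(hE e he).1] at this
    rw [this, hd]
  have h3 : T.dist w v = 1 := T.dist_eq_one_iff_adj.2 hw
  have h4 : T.dist (e • w) v = 1 := T.dist_eq_one_iff_adj.2 h1
  exact tree_eq_of_dist hA.tree (x := u) (z := v) (by rw [hn, h2, h4]) (by rw [hn, hd, h3])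
    (by rw [h2, hd])

/-! ## Linear data -/

/-- For every finitely generated group `K` over `G` there are finitely many trees such that the
images in `Q` of the elements of the subgroups fixing a tuple of vertices are controlled by finitely
many characters of `K`. -/
def LinC {G Q : Type} [Group G] [Group Q] (τ : G →* Q) : Prop :=
  ∀ (K : Type) [Group K] [Group.FG K] (f : K →* G), HasTrees K fun E =>
    ∃ (I : Type) (_ : Finite I) (δ : I → K →* Multiplicative ℤ),
      ∀ γ ∈ E, (∀ i, δ i γ = 1) → IsOfFinOrder (τ (f γ))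

theorem LinC.comp {G Q G' : Type} [Group G] [Group Q] [Group G'] {τ : G →* Q} (h : LinC τ)
    (i : G' →* G) : LinC (τ.comp i) := fun K _ _ f => h K (i.comp f)

theorem LinC.prod {G Q Q' : Type} [Group G] [Group Q] [Group Q'] {τ : G →* Q} {τ' : G →* Q'}
    (h : LinC τ) (h' : LinC τ') : LinC (τ.prod τ') := by
  intro K _ _ f
  refine ((h K f).and (h' K f)).mono fun E ⟨⟨I, hI, δ, h1⟩, ⟨I', hI', δ', h2⟩⟩ => ?_
  refine ⟨I ⊕ I', inferInstance, Sum.elim δ δ', fun γ hγ h3 => ?_⟩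
  obtain ⟨m, hm, e⟩ := isOfFinOrder_iff_pow_eq_one.1 (h1 γ hγ fun i => h3 (Sum.inl i))
  obtain ⟨m', hm', e'⟩ := isOfFinOrder_iff_pow_eq_one.1 (h2 γ hγ fun i => h3 (Sum.inr i))
  refine isOfFinOrder_iff_pow_eq_one.2 ⟨m * m', Nat.mul_pos hm hm', ?_⟩
  refine Prod.ext ?_ ?_
  · show (τ (f γ)) ^ (m * m') = 1
    rw [pow_mul, e, one_pow]
  · show (τ' (f γ)) ^ (m * m') = 1
    rw [mul_comm, pow_mul, e', one_pow]

/-- No trees. -/
theorem hasTrees_of_all {G : Type} [Group G] {P : Subgroup G → Prop} (h : ∀ H, P H) :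
    HasTrees G P :=
  ⟨Empty, inferInstance, fun j => j.elim, fun j => j.elim, fun j => j.elim, fun j => j.elim,
    fun _ H _ => h H⟩

theorem linC_comm {G Q : Type} [Group G] [CommGroup Q] (τ : G →* Q) : LinC τ := by
  intro K _ _ f
  obtain ⟨J, hJ, χ, h⟩ := Lin.exists_chars (τ.comp f) fun a b => mul_comm _ _
  exact hasTrees_of_all fun E => ⟨J, hJ, χ, fun γ _ hγ => h γ hγ⟩

theorem linC_gl {G : Type} [Group G] (R : Type) [CommRing R] (n : ℕ) (hn : n ≠ 0)
    (hR : (n : R) = 0) (τ : G →* Matrix.GeneralLinearGroup (Fin 2) R) : LinC τ := by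
  intro K _ _ f
  obtain ⟨J, hJ, V, act, T, δ, hT, h⟩ := BT.trees_of_ring_fin R n hn hR K (τ.comp f)
  exact ⟨J, hJ, V, act, T, hT, fun v E hE => ⟨J, hJ, δ, fun γ hγ => h γ v (hE γ hγ)⟩⟩

/-! ## Bases -/

theorem tf_sub {G : Type} [Group G] (htf : ∀ g : G, IsOfFinOrder g → g = 1) (E : Subgroup G) :
    ∀ g : E, IsOfFinOrder g → g = 1 := fun _ hg => Subtype.ext (htf _ (Lin.isOfFinOrder_of_coe hg))

end Pool.Agent.Lib.MP_551055_al.JK
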