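import Mathlib
import Pool.Agent.Lib.MP_551055_al.Trim.BT.Mixed
import Pool.Agent.Lib.MP_551055_al.Trim.GL.Chars
import Pool.Agent.Lib.MP_551055_al.Trim.GL.Line
import Pool.Agent.Lib.MP_551055_al.Trim.JK.BC
import Pool.Agent.Lib.MP_551055_al.Trim.JK.Graph
import Pool.Agent.Lib.MP_551055_al.Trim.JK.Induct
import Pool.Agent.Lib.MP_551055_al.Trim.JK.Inv
import Pool.Agent.Lib.MP_551055_al.Trim.JK.Jung
import Pool.Agent.Lib.MP_551055_al.Trim.JK.Planes
import Pool.Agent.Lib.MP_551055_al.Trim.JK.Stab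
import Pool.Agent.Lib.MP_551055_al.Trim.LD.NG
import Pool.Agent.Lib.MP_551055_al.Trim.LS.PStmts
import Pool.Agent.Lib.MP_551055_al.Trim.LS.Stmts
import Pool.Agent.Lib.MP_551055_al.Trim.MT.Flow2
import Pool.Agent.Lib.MP_551055_al.Trim.MT.K1
import Pool.Agent.Lib.MP_551055_al.Trim.MT.RCU
import Pool.Agent.Lib.MP_551055_al.Trim.RI.Linear
import Pool.Agent.Lib.MP_551055_al.Trim.RI.Stmts
import Pool.Agent.Lib.MP_551055_al.Trim.T4.Perf
import Pool.Agent.Lib.MP_551055_al.Trim.T6.GenF
import Pool.Agent.Lib.MP_551055_al.Trim.W17.KT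

/-!
# Planes, the relative version

The homomorphisms of the subgroups to commutative groups are replaced by homomorphisms to subgroups
of products of commutative groups and locally poly-`ℤ` groups.
-/

set_option autoImplicit false

namespace Pool.Agent.Lib.MP_551055_al
end Pool.Agent.Lib.MP_551055_al

namespace Pool.Agent.Lib.MP_551055_al.LS
end Pool.Agent.Lib.MP_551055_al.LS

namespace Pool.Agent.Lib.MP_551055_al.RI
end Pool.Agent.Lib.MP_551055_al.RI

namespace Pool.Agent.Lib.MP_551055_al.BT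
end Pool.Agent.Lib.MP_551055_al.BT

namespace Pool.Agent.Lib.MP_551055_al.GL
end Pool.Agent.Lib.MP_551055_al.GL

namespace Pool.Agent.Lib.MP_551055_al.JK

open Pool.Agent.Lib.MP_551055_al

open Pool.Agent.Lib.MP_551055_al.LS

open Pool.Agent.Lib.MP_551055_al.RI

open Pool.Agent.Lib.MP_551055_al.BT (HasTrees)

open Pool.Agent.Lib.MP_551055_al.GL (HasTC)

variable {X : Cls}

/-! ## Subgroups of products of commutative groups and locally poly-`ℤ` groups -/

/-- Subgroups of products of commutative groups and locally poly-`ℤ` groups. -/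
def CL (N : Type) [Group N] : Prop :=
  ∃ (M : Type) (_ : CommGroup M) (P : Type) (_ : Group P) (σ : N →* M) (π : N →* P),
    LPZ P ∧ ∀ x, σ x = 1 → π x = 1 → x = 1

theorem CL.prod {N M : Type} [Group N] [CommGroup M] (h : CL N) : CL (N × M) := by
  obtain ⟨M', iM', P, iP, σ, π, hP, h⟩ := h
  refine ⟨M' × M, inferInstance, P, iP, (σ.comp (MonoidHom.fst N M)).prod (MonoidHom.snd N M),
    π.comp (MonoidHom.fst N M), hP, fun x h1 h2 => Prod.ext ?_ ?_⟩
  · exact h _ (congrArg (fun z : M' × M => z.1) h1) h2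
  · exact congrArg (fun z : M' × M => z.2) h1

/-- Finitely generated groups. -/
theorem exists_polyZ {L P : Type} [Group L] [hL : Group.FG L] [Group P] (hP : LPZ P) (π : L →* P) :
    ∃ (P' : Type) (_ : Group P') (π' : L →* P'), PolyZ P' ∧ ∀ x, π' x = 1 → π x = 1 := by
  classical
  obtain ⟨s, hs⟩ := hL.out
  obtain ⟨K, hsK, hK⟩ := hP (s.image π)
  have h1 : ∀ x : L, π x ∈ K := by
    intro x
    have h2 : Subgroup.closure (s : Set L) ≤ K.comap π := by
      rw [Subgroup.closure_le]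
      intro y hy
      exact hsK (by
        rw [Finset.coe_image]
        exact ⟨y, hy, rfl⟩)
    exact h2 (by rw [hs]; trivial)
  exact ⟨K, inferInstance, π.codRestrict K h1, hK, fun x hx => congrArg Subtype.val hx⟩

theorem CL.chars {L N : Type} [Group L] [Group.FG L] [Group N] (h : CL N) (σ : L →* N) :
    ∃ (J : Type) (_ : Finite J) (χ : J → L →* Multiplicative ℤ) (P : Type) (_ : Group P)
      (π : L →* P), PolyZ P ∧ ∀ g, (∀ j, χ j g = 1) → π g = 1 → IsOfFinOrder (σ g) := by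
  obtain ⟨M, iM, P, iP, σ', π', hP, h⟩ := h
  obtain ⟨J, hJ, χ, hχ⟩ := Lin.exists_chars (σ'.comp σ) fun a b => mul_comm _ _
  obtain ⟨P', iP', π'', hP', h'⟩ := exists_polyZ hP (π'.comp σ)
  refine ⟨J, hJ, χ, P', iP', π'', hP', fun g h1 h2 => ?_⟩
  obtain ⟨m, hm, e⟩ := isOfFinOrder_iff_pow_eq_one.1 (hχ g h1)
  refine isOfFinOrder_iff_pow_eq_one.2 ⟨m, hm, h _ ?_ ?_⟩
  · rw [map_pow]
    exact e
  · rw [map_pow]
    have h3 : π' (σ g) = 1 := h' g h2
    rw [h3, one_pow]

/-! ## Torsion-free subgroups -/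

/-- Torsion-free subgroups. -/
def TF {G : Type} [Group G] (E : Subgroup G) : Prop := ∀ g : E, IsOfFinOrder g → g = 1

theorem TF.of_tf {G : Type} [Group G] (htf : ∀ g : G, IsOfFinOrder g → g = 1) (E : Subgroup G) :
    TF E := tf_sub htf E

theorem TF.of_map {K : Type} [Group K] {S : Subgroup K} {E : Subgroup S}
    (h : TF (E.map S.subtype)) : TF E := by
  intro g hg
  have h1 := h (S.subtype.subgroupMap E g) (MonoidHom.isOfFinOrder _ hg)
  have h2 : ((g : S) : K) = 1 := congrArg Subtype.val h1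
  exact Subtype.ext (Subtype.ext h2)

/-- The elements of the subgroup of a subgroup. -/
theorem eq_one_of_map {K : Type} [Group K] {S : Subgroup K} {E : Subgroup S} {g : E}
    (h : S.subtype.subgroupMap E g = 1) : g = 1 := by
  have h2 : ((g : S) : K) = 1 := congrArg Subtype.val h
  exact Subtype.ext (Subtype.ext h2)

/-! ## Bases -/

/-- For every finitely generated group `K` over `G` and all linear data `K → Q'` there are finitely
many characters and finitely many trees such that the torsion-free subgroups `E` on which the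
characters vanish and which fix a tuple of vertices are base groups of level `l`, if they have a
homomorphism to a group in `CL` such that the elements which are trivial there and in `Q` and `Q'`
are trivial. -/
def TBL (X : Cls) (l : ℕ) {G Q : Type} [Group G] [Group Q] (κ : G →* Q) : Prop :=
  ∀ (K : Type) [Group K] [Group.FG K] (f : K →* G) (Q' : Type) [Group Q'] (τ : K →* Q'),
    LinC τ → HasTC K fun E => TF E → ∀ (N : Type) [Group N] (_ : CL N) (σ : E →* N),
        (∀ g : E, κ (f g) = 1 → τ g = 1 → σ g = 1 → g = 1) → X.Bs l E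

theorem TBL.comp {l : ℕ} {G Q G' : Type} [Group G] [Group Q] [Group G'] {κ : G →* Q}
    (h : TBL X l κ) (i : G' →* G) : TBL X l (κ.comp i) := fun K _ _ f => h K (i.comp f)

theorem TBL.congr {l : ℕ} {G Q Q' : Type} [Group G] [Group Q] [Group Q'] {κ : G →* Q}
    {κ' : G →* Q'} (h : TBL X l κ') (hk : ∀ g, κ' g = 1 → κ g = 1) : TBL X l κ := by
  intro K _ _ f M _ τ hτ
  exact (h K f M τ hτ).mono fun E hE htf N _ hN σ hσ =>
    hE htf N hN σ fun g h1 h2 h3 => hσ g (hk _ h1) h2 h3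

/-! ## The induction -/

/-- The base. -/
theorem cl_baseL (l : ℕ) (hl : l ≤ 2) (G : Type) [Group G]
    {Q Q' : Type} [Group Q] [Group Q'] (κ : G →* Q) (hκ : TBL X l κ) (τ : G →* Q') (hτ : LinC τ)
    (F : Subgroup G → Prop) (hF : ∀ E, F E → TF E ∧ ∃ (N : Type) (_ : Group N) (_ : CL N)
      (σ : E →* N), ∀ g : E, κ g = 1 → τ g = 1 → σ g = 1 → g = 1) : X.Cl l G F := by
  refine cl_of_fg l G F fun K hK => ?_
  obtain ⟨I, hI, χ, J, hJ, V, act, T, hT, h⟩ := hκ K K.subtype Q' (τ.comp K.subtype)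
    (hτ.comp K.subtype)
  refine GL.cl_lines hl χ _ (Cls.Cl.base l K _ J (fun j => ⟨V j, act j, T j, hT j⟩)
    fun E hE hfix => ?_)
  have h1 : ∀ j, ∃ v : V j, ∀ e ∈ E, e • v = v := hfix
  choose v hv using h1
  obtain ⟨htf, N, iN, hN, σ, hσ⟩ := hF _ hE.1
  exact h v E (fun γ hγ j => hv j γ hγ) (fun γ hγ i => hE.2 γ hγ i) htf.of_map N hN
    (σ.comp (K.subtype.subgroupMap E)) fun g hg1 hg2 hg3 =>
      eq_one_of_map (hσ (K.subtype.subgroupMap E g) hg1 hg2 hg3)

/-- **The induction.** -/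
theorem cl_planesL (l : ℕ) (hl : l ≤ 2) (m : ℕ) : ∀ (G : Type) [Group G]
    {Q Q' : Type} [Group Q] [Group Q'] (κ : G →* Q) (_ : TBL X l κ) (τ : G →* Q') (_ : LinC τ)
    (k : Fin m → Type) [∀ j, Field (k j)] [∀ j, IsAlgClosed (k j)] (n : Fin m → ℕ)
    (_ : ∀ j, n j ≠ 0) (_ : ∀ j, (n j : k j) = 0) (ρ : ∀ j, G →* Aut2 (k j))
    (F : Subgroup G → Prop) (_ : ∀ E, F E → TF E ∧ ∃ (N : Type) (_ : Group N) (_ : CL N)
      (σ : E →* N), ∀ g : E, κ g = 1 → τ g = 1 → σ g = 1 → (∀ j, ρ j g = 1) → g = 1),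
    X.Cl l G F := by
  induction m with
  | zero =>
    intro G _ Q Q' _ _ κ hκ τ hτ k _ _ n _ _ ρ F hF
    refine cl_baseL l hl G κ hκ τ hτ F fun E hE => ?_
    obtain ⟨htf, N, iN, hN, σ, hσ⟩ := hF E hE
    exact ⟨htf, N, iN, hN, σ, fun g h1 h2 h3 => hσ g h1 h2 h3 fun j => j.elim0⟩
  | succ m ih =>
    intro G _ Q Q' _ _ κ hκ τ hτ k _ _ n hn hk ρ F hF
    refine Cls.Cl.tree l G F (planeTree (ρ 0)) (fun v => ?_) ?_
    · -- vertex stabilisers
      obtain ⟨S, hS⟩ : ∃ S : Subgroup G,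
          S = MulAction.stabilizer G (show (planeTree (ρ 0)).V from v) := ⟨_, rfl⟩
      have hfix : ∀ g : S, ρ 0 g • (show Vert (k 0) from v) = v := by
        rw [hS]
        exact fun g => g.2
      show X.Cl l (MulAction.stabilizer G (show (planeTree (ρ 0)).V from v)) _
      rw [← hS]
      have key : ∀ {M : Type} [Group M] (σ₀ : S →* M), LinC σ₀ →
          (∀ g, σ₀ g = 1 → IsOfFinOrder (ρ 0 g)) → X.Cl l S fun E => F (E.map S.subtype) := by
        intro M _ σ₀ hlin hσ₀
        refine ih S (κ.comp S.subtype) (hκ.comp _)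
          ((τ.comp S.subtype).prod σ₀) ((hτ.comp _).prod hlin) (fun j => k j.succ)
          (fun j => n j.succ) (fun j => hn _) (fun j => hk _) (fun j => (ρ j.succ).comp S.subtype)
          _ fun E hE => ?_
        obtain ⟨htf, N, iN, hN, σ, hσ⟩ := hF _ hE
        refine ⟨htf.of_map, N, iN, hN, σ.comp (S.subtype.subgroupMap E),
          fun g h1 h2 h3 h4 => ?_⟩
        have e1 : τ ((g : S) : G) = 1 := congrArg Prod.fst h2
        have e2 : σ₀ g = 1 := congrArg Prod.snd h2
        obtain ⟨r, hr, hr1⟩ := isOfFinOrder_iff_pow_eq_one.1 (hσ₀ g e2)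
        have e3 := hσ ((S.subtype.subgroupMap E g) ^ r) (by
            rw [Subgroup.coe_pow, map_pow]
            have : κ ((g : S) : G) = 1 := h1
            show κ ((g : S) : G) ^ r = 1
            rw [this, one_pow]) (by
            rw [Subgroup.coe_pow, map_pow]
            show τ ((g : S) : G) ^ r = 1
            rw [e1, one_pow]) (by
            rw [map_pow]
            have : σ (S.subtype.subgroupMap E g) = 1 := h3
            rw [this, one_pow]) (by
            intro j
            rw [Subgroup.coe_pow, map_pow]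
            show ρ j ((g : S) : G) ^ r = 1
            refine Fin.cases ?_ (fun i => ?_) j
            · exact hr1
            · have : ρ i.succ ((g : S) : G) = 1 := h4 i
              rw [this, one_pow])
        exact eq_one_of_map (htf _ (isOfFinOrder_iff_pow_eq_one.2 ⟨r, hr, e3⟩))
      rcases vertex_lin v ((ρ 0).comp S.subtype) hfix (hn 0) (hk 0) with ⟨σ₀, hσ₀⟩ | ⟨σ₀, hσ₀⟩
      · exact key σ₀ (linC_gl (k 0) (n 0) (hn 0) (hk 0) σ₀) hσ₀
      · exact key σ₀ (linC_comm σ₀) hσ₀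
    · -- long segments
      rw [Nat.min_eq_left hl]
      refine ih G κ hκ τ hτ (fun j => k j.succ) (fun j => n j.succ) (fun j => hn _)
        (fun j => hk _) (fun j => ρ j.succ) _ fun E hE => ?_
      obtain ⟨hE1, u, v, -, huv, hfix⟩ := hE
      obtain ⟨htf, N, iN, hN, σ, hσ⟩ := hF E hE1
      let _ : MulAction G (Vert (k 0)) := MulAction.compHom (Vert (k 0)) (ρ 0)
      obtain ⟨w, hw, hw2⟩ := exists_edge (gr_comp (ρ 0)) (u := u) (v := v) huv E hfix
      obtain ⟨σ₀, hσ₀⟩ := edge_comm hw ((ρ 0).comp E.subtype) (fun g => hw2 _ g.2)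
        (fun g => (hfix _ g.2).2) (hn 0) (hk 0)
      refine ⟨htf, N × ((k 0)ˣ × (k 0)ˣ), inferInstance, hN.prod, σ.prod σ₀,
        fun g h1 h2 h3 h4 => ?_⟩
      have e1 : σ g = 1 := congrArg Prod.fst h3
      have e2 : σ₀ g = 1 := congrArg Prod.snd h3
      obtain ⟨r, hr, hr1⟩ := isOfFinOrder_iff_pow_eq_one.1 (hσ₀ g e2)
      refine htf g (isOfFinOrder_iff_pow_eq_one.2 ⟨r, hr, hσ (g ^ r) ?_ ?_ ?_ ?_⟩)
      · rw [Subgroup.coe_pow, map_pow, h1, one_pow]
      · rw [Subgroup.coe_pow, map_pow, h2, one_pow]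
      · rw [map_pow, e1, one_pow]
      · intro j
        rw [Subgroup.coe_pow, map_pow]
        refine Fin.cases ?_ (fun i => ?_) j
        · exact hr1
        · rw [h4 i, one_pow]

/-- The class of a group with a base of level `l`, linear data and a homomorphism to the
automorphism group of a plane. -/
theorem cl_of_linL (l : ℕ) (hl : l ≤ 2) {G : Type} [Group G] {Q : Type} [Group Q] (κ : G →* Q)
    (hκ : TBL X l κ)
    {Q' : Type} [Group Q'] (τ : G →* Q') (hτ : LinC τ) (R : Type) [CommRing R] (n : ℕ)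
    (hn : n ≠ 0) (hR : (n : R) = 0) (ρ : G →* Aut2 R)
    (F : Subgroup G → Prop) (hF : ∀ E, F E → TF E ∧ ∃ (N : Type) (_ : Group N) (_ : CL N)
      (σ : E →* N), ∀ g : E, κ g = 1 → τ g = 1 → ρ g = 1 → σ g = 1 → g = 1) : X.Cl l G F := by
  refine cl_of_fg l G _ fun K hK => ?_
  obtain ⟨m, k, i1, i2, hk, ρ', hρ'⟩ := exists_fields R n hn hR (ρ.comp K.subtype)
  refine cl_planesL l hl m K (κ.comp K.subtype) (hκ.comp _)
    (τ.comp K.subtype) (hτ.comp _) k (fun _ => n) (fun _ => hn) hk ρ' _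
    fun E hE => ?_
  obtain ⟨htf, N, iN, hN, σ, hσ⟩ := hF _ hE
  refine ⟨htf.of_map, N, iN, hN, σ.comp (K.subtype.subgroupMap E), fun g h1 h2 h3 h4 => ?_⟩
  obtain ⟨r, hr, hr1⟩ := isOfFinOrder_iff_pow_eq_one.1 (hρ' g h4)
  have e3 := hσ ((K.subtype.subgroupMap E g) ^ r) (by
      rw [Subgroup.coe_pow, map_pow]
      have : κ ((g : K) : G) = 1 := h1
      show κ ((g : K) : G) ^ r = 1
      rw [this, one_pow]) (by
      rw [Subgroup.coe_pow, map_pow]
      have : τ ((g : K) : G) = 1 := h2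
      show τ ((g : K) : G) ^ r = 1
      rw [this, one_pow]) (by
      rw [Subgroup.coe_pow, map_pow]
      exact hr1) (by
      rw [map_pow]
      have : σ (K.subtype.subgroupMap E g) = 1 := h3
      rw [this, one_pow])
  exact eq_one_of_map (htf _ (isOfFinOrder_iff_pow_eq_one.2 ⟨r, hr, e3⟩))

end Pool.Agent.Lib.MP_551055_al.JK
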