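import Mathlib
import Pool.Agent.Lib.MP_551055_al.Trim.BT.HtCrit
import Pool.Agent.Lib.MP_551055_al.Trim.BT.Poly
import Pool.Agent.Lib.MP_551055_al.Trim.LS.Ind
import Pool.Agent.Lib.MP_551055_al.Trim.LS.PStmts
import Pool.Agent.Lib.MP_551055_al.Trim.LS.Stmts
import Pool.Agent.Lib.MP_551055_al.Trim.PT.PSub
import Pool.Agent.Lib.MP_551055_al.Trim.RI.Basic
import Pool.Agent.Lib.MP_551055_al.Trim.RI.Stmts

/-!
# Dihedral actions on lines, subgroups of index two
-/

set_option autoImplicit false

namespace Pool.Agent.Lib.MP_551055_al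
end Pool.Agent.Lib.MP_551055_al

namespace Pool.Agent.Lib.MP_551055_al.LS
end Pool.Agent.Lib.MP_551055_al.LS

namespace Pool.Agent.Lib.MP_551055_al.RI
end Pool.Agent.Lib.MP_551055_al.RI

namespace Pool.Agent.Lib.MP_551055_al.JK

open Pool.Agent.Lib.MP_551055_al

open Pool.Agent.Lib.MP_551055_al.LS

open Pool.Agent.Lib.MP_551055_al.RI

/-! ## Commutative subgroups of index two -/

section

variable {H : Type} [Group H]

/-- Torsion-free groups with a commutative poly-`ℤ` subgroup of index at most two. -/
theorem polyZ_of_two (htf : ∀ g : H, IsOfFinOrder g → g = 1) (A : Subgroup H)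
    (hc : ∀ a ∈ A, ∀ b ∈ A, a * b = b * a) (hA : PolyZ A)
    (h2 : ∀ x y, x ∉ A → y ∉ A → x * y ∈ A) : PolyZ H := by
  classical
  by_cases h : ∀ x, x ∈ A
  · exact PT.PSub.of_injective A hA H ((MonoidHom.id H).codRestrict A h)
      fun x y hxy => congrArg Subtype.val hxy
  push Not at h
  obtain ⟨t, ht⟩ := h
  have hinv : ∀ x, x ∉ A → x⁻¹ ∉ A := fun x hx h => hx (by
    have := A.inv_mem h
    rwa [inv_inv] at this)
  have hmul : ∀ x a, x ∉ A → a ∈ A → x * a ∉ A := fun x a hx ha h => hx (by
    have := A.mul_mem h (A.inv_mem ha)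
    rwa [mul_inv_cancel_right] at this)
  have hmul' : ∀ x a, x ∉ A → a ∈ A → a * x ∉ A := fun x a hx ha h => hx (by
    have := A.mul_mem (A.inv_mem ha) h
    rwa [inv_mul_cancel_left] at this)
  have hconj : ∀ x a, x ∉ A → a ∈ A → x * a * x⁻¹ ∈ A := fun x a hx ha =>
    h2 _ _ (hmul x a hx ha) (hinv x hx)
  have hsq : ∀ x, x ∉ A → x * x ∈ A := fun x hx => h2 x x hx hx
  have hct : ∀ x a, x ∉ A → a ∈ A → x * a * x⁻¹ = t * a * t⁻¹ := by
    intro x a hx ha
    have h1 := hc _ (h2 _ _ hx (hinv t ht)) _ (hconj t a ht ha)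
    calc x * a * x⁻¹ = (x * t⁻¹ * (t * a * t⁻¹)) * (x * t⁻¹)⁻¹ := by group
      _ = (t * a * t⁻¹ * (x * t⁻¹)) * (x * t⁻¹)⁻¹ := by rw [h1]
      _ = t * a * t⁻¹ := by group
  -- conjugation by elements outside of `A`
  have hx1 : ∀ x a, x ∉ A → a ∈ A → x * a = t * a * t⁻¹ * x := by
    intro x a hx ha
    rw [← hct x a hx ha]
    group
  have htt : ∀ a, a ∈ A → t * (t * a * t⁻¹) * t⁻¹ = a := by
    intro a ha
    have h1 := hc _ (hsq t ht) _ ha
    calc t * (t * a * t⁻¹) * t⁻¹ = (t * t * a) * (t * t)⁻¹ := by group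
      _ = (a * (t * t)) * (t * t)⁻¹ := by rw [h1]
      _ = a := by group
  have htx : ∀ x, x ∉ A → t * (x * x) * t⁻¹ = x * x := by
    intro x hx
    rw [← hct x _ hx (hsq x hx)]
    group
  let T : H →* A :=
    { toFun := fun x => if hx : x ∈ A then ⟨x * (t * x * t⁻¹), A.mul_mem hx (hconj t x ht hx)⟩
        else ⟨x * x, hsq x hx⟩
      map_one' := by
        rw [dif_pos A.one_mem]
        apply Subtype.ext
        show (1 : H) * (t * 1 * t⁻¹) = 1
        group
      map_mul' := by
        intro x y
        by_cases hx : x ∈ A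
        · by_cases hy : y ∈ A
          · rw [dif_pos hx, dif_pos hy, dif_pos (A.mul_mem hx hy)]
            apply Subtype.ext
            show x * y * (t * (x * y) * t⁻¹) = x * (t * x * t⁻¹) * (y * (t * y * t⁻¹))
            have h1 := hc _ hy _ (hconj t x ht hx)
            calc x * y * (t * (x * y) * t⁻¹) = x * (y * (t * x * t⁻¹)) * (t * y * t⁻¹) := by group
              _ = x * (t * x * t⁻¹ * y) * (t * y * t⁻¹) := by rw [h1]
              _ = _ := by group
          · rw [dif_pos hx, dif_neg hy, dif_neg (hmul' y x hy hx)]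
            apply Subtype.ext
            show x * y * (x * y) = x * (t * x * t⁻¹) * (y * y)
            calc x * y * (x * y) = x * (y * x) * y := by group
              _ = x * (t * x * t⁻¹ * y) * y := by rw [hx1 y x hy hx]
              _ = _ := by group
        · by_cases hy : y ∈ A
          · rw [dif_neg hx, dif_pos hy, dif_neg (hmul x y hx hy)]
            apply Subtype.ext
            show x * y * (x * y) = x * x * (y * (t * y * t⁻¹))
            have h1 := hc _ (hsq x hx) _ (A.mul_mem hy (hconj t y ht hy))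
            have h3 := hc _ hy _ (hconj t y ht hy)
            calc x * y * (x * y) = x * y * x * y := by group
              _ = t * y * t⁻¹ * x * x * y := by rw [hx1 x y hx hy]
              _ = t * y * t⁻¹ * (x * x * y) := by group
              _ = t * y * t⁻¹ * (y * (x * x)) := by rw [hc _ (hsq x hx) _ hy]
              _ = (t * y * t⁻¹ * y) * (x * x) := by group
              _ = (y * (t * y * t⁻¹)) * (x * x) := by rw [h3]
              _ = _ := h1.symm
          · rw [dif_neg hx, dif_neg hy, dif_pos (h2 x y hx hy)]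
            apply Subtype.ext
            show x * y * (t * (x * y) * t⁻¹) = x * x * (y * y)
            have h0 := h2 x y hx hy
            have h1 := hc _ (hsq x hx) _ (hsq y hy)
            rw [← hct x _ hx h0]
            calc x * y * (x * (x * y) * x⁻¹) = x * (y * (x * x)) * y * x⁻¹ := by group
              _ = x * (t * (x * x) * t⁻¹ * y) * y * x⁻¹ := by rw [hx1 y _ hy (hsq x hx)]
              _ = x * (x * x * (y * y)) * x⁻¹ := by
                rw [htx x hx]
                group
              _ = t * (x * x * (y * y)) * t⁻¹ := hct x _ hx (A.mul_mem (hsq x hx) (hsq y hy))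
              _ = (t * (x * x) * t⁻¹) * (t * (y * y) * t⁻¹) := by group
              _ = _ := by rw [htx x hx, htx y hy] }
  have hker : ∀ x : T.ker, (x : H) ∈ A := by
    intro x
    by_contra hx
    have h1 : T x = 1 := x.2
    have h3 : T x = ⟨(x : H) * x, hsq x hx⟩ := dif_neg hx
    rw [h3] at h1
    have h4 : (x : H) * x = 1 := congrArg Subtype.val h1
    refine hx ?_
    rw [htf (x : H) (isOfFinOrder_iff_pow_eq_one.2 ⟨2, by norm_num, by rw [pow_two, h4]⟩)]
    exact A.one_mem
  refine polyZ_ext A hA H T (PT.PSub.of_injective A hA T.ker (T.ker.subtype.codRestrict A hker) ?_)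
  intro x y hxy
  exact Subtype.ext (congrArg (fun z : A => (z : H)) hxy)

/-- Finitely many characters. -/
theorem polyZ_of_ker {J : Type} [Finite J] (δ : J → H →* Multiplicative ℤ)
    (h : ∀ K : Subgroup H, (∀ g ∈ K, ∀ j, δ j g = 1) → PolyZ K) : PolyZ H := by
  have h1 : PolyZ (J → Multiplicative ℤ) :=
    BT.polyZ_of_finite _ (fun j => Pi.evalMonoidHom _ j) fun γ hγ => funext hγ
  let f : H →* (J → Multiplicative ℤ) := MonoidHom.pi δ
  refine polyZ_ext _ h1 H f (h f.ker fun g hg j => ?_)
  exact congrFun (show f g = 1 from hg) j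

end

/-! ## The line -/

/-- The line. -/
def lineG : SimpleGraph ℤ where
  Adj x y := y = x + 1 ∨ x = y + 1
  symm := ⟨fun _ _ h => h.symm⟩
  loopless := ⟨fun x h => by rcases h with h | h <;> omega⟩

theorem lineG_isTree : lineG.IsTree := by
  refine BT.isTree_of_height lineG Int.natAbs 0 ?_ ?_ ?_
  · intro x y h
    rcases h with h | h <;> omega
  · intro x hx
    rcases lt_or_gt_of_ne hx with h | h
    · exact ⟨x + 1, Or.inl rfl, by omega⟩
    · exact ⟨x - 1, Or.inr (by omega), by omega⟩
  · intro x y z h h' h1 h2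
    rcases h with h | h <;> rcases h' with h' | h' <;> omega

section

variable {E : Type} [Group E] (ε : E →* ℤˣ) (μ : E → ℤ)
  (hμ : ∀ g h, μ (g * h) = μ g + ε g * μ h)

/-- The action on the line. -/
@[reducible] def dihAct : MulAction E ℤ where
  smul g n := ε g * n + 2 * μ g
  one_smul n := by
    have h1 := hμ 1 1
    rw [mul_one, map_one, Units.val_one, one_mul] at h1
    show ((ε 1 : ℤˣ) : ℤ) * n + 2 * μ 1 = n
    rw [map_one, Units.val_one]
    omega
  mul_smul g h n := by
    show ((ε (g * h) : ℤˣ) : ℤ) * n + 2 * μ (g * h) = ε g * (ε h * n + 2 * μ h) + 2 * μ g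
    rw [hμ, map_mul, Units.val_mul]
    ring

theorem dih_treeAct : @TreeAct E _ ℤ (dihAct ε μ hμ) lineG := by
  let _ : MulAction E ℤ := dihAct ε μ hμ
  refine { tree := lineG_isTree, adj := fun g u v h => ?_, inv := fun g u v h h1 => ?_ }
  · show (ε g : ℤ) * v + 2 * μ g = ε g * u + 2 * μ g + 1 ∨
      (ε g : ℤ) * u + 2 * μ g = ε g * v + 2 * μ g + 1
    rcases Int.units_eq_one_or (ε g) with e | e <;> rw [e] <;> rcases h with h | h <;> rw [h]
    · left
      push_cast
      ring
    · right
      push_cast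
      ring
    · right
      push_cast
      ring
    · left
      push_cast
      ring
  · exfalso
    have h2 : (ε g : ℤ) * u + 2 * μ g = v := h1
    rcases Int.units_eq_one_or (ε g) with e | e <;> rw [e] at h2 <;> push_cast at h2 <;>
      rcases h with h | h <;> omega

end

end Pool.Agent.Lib.MP_551055_al.JK
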