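import Mathlib
import Pool.Agent.Lib.MP_551055_al.Trim.BT.SL2Z
import Pool.Agent.Lib.MP_551055_al.Trim.BT.Stab
import Pool.Agent.Lib.MP_551055_al.Trim.BT.Tree
import Pool.Agent.Lib.MP_551055_al.Trim.GL.Dih
import Pool.Agent.Lib.MP_551055_al.Trim.JK.Aff0
import Pool.Agent.Lib.MP_551055_al.Trim.JK.Inv
import Pool.Agent.Lib.MP_551055_al.Trim.JK.Jung
import Pool.Agent.Lib.MP_551055_al.Trim.JK.Line
import Pool.Agent.Lib.MP_551055_al.Trim.JK.Stab
import Pool.Agent.Lib.MP_551055_al.Trim.JK.TameN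
import Pool.Agent.Lib.MP_551055_al.Trim.JK.Tri0
import Pool.Agent.Lib.MP_551055_al.Trim.LS.PStmts
import Pool.Agent.Lib.MP_551055_al.Trim.LS.Stmts
import Pool.Agent.Lib.MP_551055_al.Trim.MT.K1
import Pool.Agent.Lib.MP_551055_al.Trim.PT.PSub
import Pool.Agent.Lib.MP_551055_al.Trim.T4.Ind0

/-!
# Two types of homomorphisms to the automorphism group of the plane, characteristic zero
-/

set_option autoImplicit false

namespace Pool.Agent.Lib.MP_551055_al
end Pool.Agent.Lib.MP_551055_al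

namespace Pool.Agent.Lib.MP_551055_al.LS
end Pool.Agent.Lib.MP_551055_al.LS

namespace Pool.Agent.Lib.MP_551055_al.RI
end Pool.Agent.Lib.MP_551055_al.RI

namespace Pool.Agent.Lib.MP_551055_al.GL
end Pool.Agent.Lib.MP_551055_al.GL

namespace Pool.Agent.Lib.MP_551055_al.BT
end Pool.Agent.Lib.MP_551055_al.BT

namespace Pool.Agent.Lib.MP_551055_al.JK

open MvPolynomial Pointwise

open Pool.Agent.Lib.MP_551055_al

open Pool.Agent.Lib.MP_551055_al.LS

open Pool.Agent.Lib.MP_551055_al.RI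

open Pool.Agent.Lib.MP_551055_al.GL

open Pool.Agent.Lib.MP_551055_al.BT (GL2 SLZ treeAct_comp)

/-! ## Translations -/

section Shift

variable {k : Type} [Field k]

/-- The translation `y ↦ y + h`. -/
noncomputable def sh (h : k) : Aut2 k := sw * af 1 h one_ne_zero * sw

theorem sh_X0 (h : k) : sh h (X 0) = X 0 := by
  show sw (af 1 h one_ne_zero (sw (X 0))) = X 0
  rw [sw_X0, af_X1, sw_X1]

theorem sh_X1 (h : k) : sh h (X 1) = X 1 + C h := by
  show sw (af 1 h one_ne_zero (sw (X 1))) = _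
  rw [sw_X1, af_X0, map_add, map_mul, aut_C, aut_C, sw_X0, C_1, one_mul]

theorem sh_inv (h : k) : (sh h)⁻¹ = sh (-h) := by
  refine inv_eq_of_mul_eq_one_left (aut2_ext ?_ ?_)
  · show sh (-h) (sh h (X 0)) = X 0
    rw [sh_X0, sh_X0]
  · show sh (-h) (sh h (X 1)) = X 1
    rw [sh_X1, map_add, sh_X1, aut_C, C_neg]
    ring

end Shift

/-! ## Modules -/

/-- A homomorphism to a torsion-free module with values in a finitely generated submodule. -/
theorem polyZ_of_hom {K M : Type} [Group K] [AddCommGroup M] [Module.IsTorsionFree ℤ M]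
    (P : Submodule ℤ M) (hP : P.FG) (m : K → M) (hm : ∀ g, m g ∈ P)
    (hmul : ∀ g h, m (g * h) = m g + m h)
    (H : ∀ K₀ : Subgroup K, (∀ g ∈ K₀, m g = 0) → PolyZ K₀) : PolyZ K := by
  have : Module.Finite ℤ P := Module.Finite.iff_fg.2 hP
  let b := Module.finBasis ℤ P
  have h1 : m 1 = 0 := by
    have := hmul 1 1
    rw [mul_one] at this
    exact left_eq_add.1 this
  refine polyZ_of_ker (J := Fin (Module.finrank ℤ P)) (fun i =>
    { toFun := fun g => Multiplicative.ofAdd (b.repr ⟨m g, hm g⟩ i)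
      map_one' := by
        have h2 : (⟨m 1, hm 1⟩ : P) = 0 := Subtype.ext h1
        rw [h2, map_zero]
        rfl
      map_mul' := fun g h => by
        have h2 : (⟨m (g * h), hm (g * h)⟩ : P) = ⟨m g, hm g⟩ + ⟨m h, hm h⟩ :=
          Subtype.ext (hmul g h)
        rw [h2, map_add]
        rfl }) fun K₀ hK₀ => H K₀ fun g hg => ?_
  have h2 : (⟨m g, hm g⟩ : P) = 0 := by
    refine b.repr.injective (Finsupp.ext fun i => ?_)
    rw [map_zero]
    exact hK₀ g hg i
  exact congrArg Subtype.val h2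

/-! ## Triangular homomorphisms -/

section Tri

variable {k : Type} [Field k] [CharZero k] {K : Type} [Group K]

/-- Triangular automorphisms with diagonal entries `± 1` and data in finitely generated modules. -/
def TriT (ρ : K →* Aut2 k) : Prop :=
  (∀ g, ∃ a c : k, (a = 1 ∨ a = -1) ∧ (c = 1 ∨ c = -1) ∧ HasDiag (ρ g) a c) ∧
  ∃ (D : Submodule ℤ k) (P : Submodule ℤ (Polynomial k)), D.FG ∧ P.FG ∧
    ∀ g, dd (ρ g) ∈ D ∧ pp (ρ g) ∈ P

omit [CharZero k] in
theorem TriT.comp {ρ : K →* Aut2 k} (h : TriT ρ) {H : Type} [Group H] (i : H →* K) :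
    TriT (ρ.comp i) := by
  obtain ⟨h1, D, P, hD, hP, h2⟩ := h
  exact ⟨fun g => h1 (i g), D, P, hD, hP, fun g => h2 (i g)⟩

/-- The same up to conjugation. -/
def TriC (ρ : K →* Aut2 k) : Prop := ∃ α : Aut2 k, TriT (cj ρ α)

omit [CharZero k] in
theorem TriC.comp {ρ : K →* Aut2 k} (h : TriC ρ) {H : Type} [Group H] (i : H →* K) :
    TriC (ρ.comp i) := by
  obtain ⟨α, h⟩ := h
  exact ⟨α, h.comp i⟩

theorem unit_inj {u v : ℤˣ} (h : ((u : ℤ) : k) = ((v : ℤ) : k)) : u = v :=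
  Units.ext (Int.cast_injective h)

/-- The signs. -/
theorem TriT.signs {ρ : K →* Aut2 k} (h : TriT ρ) :
    ∃ ε η : K →* ℤˣ, ∀ g, HasDiag (ρ g) (((ε g : ℤˣ) : ℤ) : k) (((η g : ℤˣ) : ℤ) : k) := by
  classical
  obtain ⟨hac, -⟩ := h
  choose a c ha hc hd using hac
  have hmulc : ∀ g h, c (g * h) = c g * c h := by
    intro g h
    have h1 := (dv_of_hasDiag (hd (g * h))).2
    rw [map_mul] at h1
    exact h1.symm.trans (dv_of_hasDiag ((hd g).mul (hd h))).2
  have hmula : ∀ g h, a (g * h) = a g * a h := by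
    intro g h
    have h1 := (dv_of_hasDiag (hd (g * h))).1
    rw [map_mul] at h1
    exact h1.symm.trans (dv_of_hasDiag ((hd g).mul (hd h))).1
  have hone : a 1 = 1 ∧ c 1 = 1 := by
    have h1 := hd 1
    rw [map_one] at h1
    exact ⟨(dv_of_hasDiag h1).1.symm.trans (dv_of_hasDiag hasDiag_one).1,
      (dv_of_hasDiag h1).2.symm.trans (dv_of_hasDiag hasDiag_one).2⟩
  have key : ∀ x : K → k, (∀ g, x g = 1 ∨ x g = -1) → x 1 = 1 → (∀ g h, x (g * h) = x g * x h) →
      ∃ ε : K →* ℤˣ, ∀ g, (((ε g : ℤˣ) : ℤ) : k) = x g := by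
    intro x hx h1 hmul
    let e : K → ℤˣ := fun g => if x g = 1 then 1 else -1
    have he : ∀ g, (((e g : ℤˣ) : ℤ) : k) = x g := by
      intro g
      by_cases h : x g = 1
      · have : e g = 1 := if_pos h
        rw [this, h]
        simp
      · have h2 : e g = -1 := if_neg h
        rw [h2, (hx g).resolve_left h]
        simp
    exact ⟨{ toFun := e
             map_one' := unit_inj (k := k) (by rw [he, h1]; simp)
             map_mul' := fun g h => unit_inj (k := k) (by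
               rw [he, hmul, Units.val_mul, Int.cast_mul, he, he]) }, he⟩
  obtain ⟨ε, hε⟩ := key a ha hone.1 hmula
  obtain ⟨η, hη⟩ := key c hc hone.2 hmulc
  exact ⟨ε, η, fun g => by rw [hε, hη]; exact hd g⟩

/-- Twice the even part. -/
noncomputable def evp : Polynomial k →ₗ[ℤ] Polynomial k :=
  LinearMap.id + (Polynomial.compRingHom (-Polynomial.X)).toIntAlgHom.toLinearMap

/-- Twice the odd part. -/
noncomputable def odp : Polynomial k →ₗ[ℤ] Polynomial k :=
  LinearMap.id - (Polynomial.compRingHom (-Polynomial.X)).toIntAlgHom.toLinearMap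

omit [CharZero k] in
theorem evp_apply (q : Polynomial k) : evp q = q + q.comp (-Polynomial.X) := rfl

omit [CharZero k] in
theorem odp_apply (q : Polynomial k) : odp q = q - q.comp (-Polynomial.X) := rfl

omit [CharZero k] in
theorem comp_neg_neg (q : Polynomial k) : (q.comp (-Polynomial.X)).comp (-Polynomial.X) = q := by
  rw [Polynomial.comp_assoc, Polynomial.neg_comp, Polynomial.X_comp, neg_neg, Polynomial.comp_X]

omit [CharZero k] in
theorem evp_unit (q : Polynomial k) (u : ℤˣ) :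
    evp (q.comp (Polynomial.C (((u : ℤˣ) : ℤ) : k) * Polynomial.X + Polynomial.C 0)) = evp q := by
  rcases Int.units_eq_one_or u with h | h <;> rw [h]
  · have h1 : Polynomial.C ((((1 : ℤˣ) : ℤ) : k)) * Polynomial.X + Polynomial.C 0 =
        (Polynomial.X : Polynomial k) := by simp
    rw [h1, Polynomial.comp_X]
  · have h1 : Polynomial.C ((((-1 : ℤˣ) : ℤ) : k)) * Polynomial.X + Polynomial.C 0 =
        -(Polynomial.X : Polynomial k) := by simp
    rw [h1, evp_apply, comp_neg_neg, evp_apply, add_comm]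

omit [CharZero k] in
theorem odp_unit (q : Polynomial k) (u : ℤˣ) :
    odp (q.comp (Polynomial.C (((u : ℤˣ) : ℤ) : k) * Polynomial.X + Polynomial.C 0)) =
      ((u : ℤˣ) : ℤ) • odp q := by
  rcases Int.units_eq_one_or u with h | h <;> rw [h]
  · have h1 : Polynomial.C ((((1 : ℤˣ) : ℤ) : k)) * Polynomial.X + Polynomial.C 0 =
        (Polynomial.X : Polynomial k) := by simp
    rw [h1, Polynomial.comp_X, Units.val_one, one_zsmul]
  · have h1 : Polynomial.C ((((-1 : ℤˣ) : ℤ) : k)) * Polynomial.X + Polynomial.C 0 =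
        -(Polynomial.X : Polynomial k) := by simp
    rw [h1, odp_apply, comp_neg_neg, odp_apply, Units.val_neg, Units.val_one, neg_one_zsmul,
      neg_sub]

omit [CharZero k] in
theorem C_unit_mul (u : ℤˣ) (q : Polynomial k) :
    Polynomial.C (((u : ℤˣ) : ℤ) : k) * q = ((u : ℤˣ) : ℤ) • q := by
  rw [zsmul_eq_mul, map_intCast]

theorem tri_fin {φ : Aut2 k} {u v : ℤˣ} (h : HasDiag φ (((u : ℤˣ) : ℤ) : k) (((v : ℤˣ) : ℤ) : k))
    (hd : dd φ = 0) (he : u = 1 → evp (pp φ) = 0) (ho : u * v = 1 → odp (pp φ) = 0) :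
    IsOfFinOrder φ := by
  obtain ⟨h1, h0⟩ := h.form
  rw [hd, C_0, add_zero] at h1
  have hC : ∀ u : ℤˣ, (C (((u : ℤˣ) : ℤ) : k) * C (((u : ℤˣ) : ℤ) : k) : P2 k) = 1 := by
    intro u
    rcases Int.units_eq_one_or u with h | h <;> rw [h] <;> simp
  have key : Polynomial.C (((u : ℤˣ) : ℤ) : k) * pp φ +
      (pp φ).comp (Polynomial.C (((v : ℤˣ) : ℤ) : k) * Polynomial.X) = 0 := by
    rcases Int.units_eq_one_or u with hu | hu <;> rcases Int.units_eq_one_or v with hv | hv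
    · have h2 := he hu
      have h3 := ho (by rw [hu, hv]; rfl)
      rw [evp_apply] at h2
      rw [odp_apply] at h3
      have h4 : pp φ = 0 := by
        have h5 : (2 : Polynomial k) * pp φ = 0 := by linear_combination h2 + h3
        exact (mul_eq_zero.1 h5).resolve_left two_ne_zero
      rw [h4]
      simp
    · have h2 := he hu
      rw [evp_apply] at h2
      rw [hu, hv]
      have e1 : Polynomial.C (((((1 : ℤˣ) : ℤ)) : k)) = (1 : Polynomial k) := by simp
      have e2 : Polynomial.C (((((-1 : ℤˣ) : ℤ)) : k)) * Polynomial.X =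
        -(Polynomial.X : Polynomial k) := by simp
      rw [e1, e2, one_mul]
      exact h2
    · rw [hu, hv]
      have e1 : Polynomial.C (((((-1 : ℤˣ) : ℤ)) : k)) = (-1 : Polynomial k) := by simp
      have e2 : Polynomial.C (((((1 : ℤˣ) : ℤ)) : k)) * Polynomial.X =
        (Polynomial.X : Polynomial k) := by simp
      rw [e1, e2, Polynomial.comp_X]
      ring
    · have h3 := ho (by rw [hu, hv]; rfl)
      rw [odp_apply] at h3
      rw [hu, hv]
      have e1 : Polynomial.C (((((-1 : ℤˣ) : ℤ)) : k)) = (-1 : Polynomial k) := by simp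
      have e2 : Polynomial.C (((((-1 : ℤˣ) : ℤ)) : k)) * Polynomial.X =
        -(Polynomial.X : Polynomial k) := by simp
      rw [e2, e1]
      linear_combination -h3
  refine isOfFinOrder_iff_pow_eq_one.2 ⟨2, by norm_num, ?_⟩
  rw [pow_two]
  refine aut2_ext ?_ ?_
  · show φ (φ (X 0)) = X 0
    rw [h0, map_add, map_mul, aut_C, h0, ← Polynomial.aeval_algHom_apply, h1]
    have h5 := congrArg (Polynomial.aeval (X 1 : P2 k)) key
    rw [map_add, map_mul, map_zero, Polynomial.aeval_C, algebraMap_eq, Polynomial.aeval_comp,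
      map_mul, Polynomial.aeval_C, algebraMap_eq, Polynomial.aeval_X] at h5
    linear_combination (X 0 : P2 k) * hC u + h5
  · show φ (φ (X 1)) = X 1
    rw [h1, map_mul, aut_C, h1]
    linear_combination (X 1 : P2 k) * hC v

/-- The case without translations. -/
theorem tri_red1 (hV : VPZ K) (ρ : K →* Aut2 k) (ε η : K →* ℤˣ)
    (hd : ∀ g, HasDiag (ρ g) (((ε g : ℤˣ) : ℤ) : k) (((η g : ℤˣ) : ℤ) : k))
    (h0 : ∀ g, dd (ρ g) = 0) (P : Submodule ℤ (Polynomial k)) (hP : P.FG)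
    (hp : ∀ g, pp (ρ g) ∈ P)
    (H : ∀ K₀ : Subgroup K, (∀ g ∈ K₀, IsOfFinOrder (ρ g)) → TN K₀) : TN K := by
  have hpp : ∀ g h, pp (ρ (g * h)) = ((ε h : ℤˣ) : ℤ) • pp (ρ g) + (pp (ρ h)).comp
      (Polynomial.C (((η g : ℤˣ) : ℤ) : k) * Polynomial.X + Polynomial.C 0) := by
    intro g h
    rw [map_mul, (data_mul (hd g) (hd h)).2, h0, C_unit_mul]
  refine dihM hV (P.map evp) (hP.map _) ε (fun g => evp (pp (ρ g))) (fun g => ⟨_, hp g, rfl⟩)
    (fun g h => ?_) fun K₀ hK₀ => ?_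
  · show evp (pp (ρ (g * h))) = _
    rw [hpp, map_add, evp_unit, map_zsmul]
  · refine dihM (hV.sub K₀) (P.map odp) (hP.map _) ((ε * η).comp K₀.subtype)
      (fun g => ((η (g : K) : ℤˣ) : ℤ) • odp (pp (ρ (g : K))))
      (fun g => Submodule.smul_mem _ _ ⟨_, hp _, rfl⟩) (fun g h => ?_) fun K₁ hK₁ => ?_
    · show ((η ((g : K) * h) : ℤˣ) : ℤ) • odp (pp (ρ ((g : K) * h))) =
        (((ε h * η h : ℤˣ)) : ℤ) • (((η (g : K) : ℤˣ) : ℤ) • odp (pp (ρ (g : K)))) +
          ((η (h : K) : ℤˣ) : ℤ) • odp (pp (ρ (h : K)))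
      rw [hpp, map_add, odp_unit, map_zsmul, smul_add, smul_smul, smul_smul, smul_smul,
        map_mul, Units.val_mul, Units.val_mul]
      congr 1
      · congr 1
        ring
      · congr 1
        have h1 : ((η (g : K) : ℤˣ) : ℤ) * ((η (g : K) : ℤˣ) : ℤ) = 1 :=
          Int.units_coe_mul_self (η (g : K))
        linear_combination ((η (h : K) : ℤˣ) : ℤ) * h1
    · have h1 : TN (K₁.map K₀.subtype) := by
        refine H _ ?_
        rintro _ ⟨g, hg, rfl⟩
        refine tri_fin (hd _) (h0 _) (fun h => hK₀ _ g.2 h) fun h => ?_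
        have h2 : ((η (g : K) : ℤˣ) : ℤ) • odp (pp (ρ (g : K))) = 0 := hK₁ g hg h
        have h3 := congrArg (fun x => ((η (g : K) : ℤˣ) : ℤ) • x) h2
        rw [smul_zero, smul_smul, Int.units_coe_mul_self, one_smul] at h3
        exact h3
      refine h1.of_injective K₁
        ((K₀.subtype.comp K₁.subtype).codRestrict _ fun x => ⟨x, x.2, rfl⟩) fun x y hxy => ?_
      exact Subtype.ext (Subtype.ext (congrArg (fun z : K₁.map K₀.subtype => (z : K)) hxy))

/-- **Reduction to subgroups with images of finite order.** -/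
theorem TriT.red (hV : VPZ K) {ρ : K →* Aut2 k} (h : TriT ρ)
    (H : ∀ K₀ : Subgroup K, (∀ g ∈ K₀, IsOfFinOrder (ρ g)) → TN K₀) : TN K := by
  obtain ⟨ε, η, hd⟩ := h.signs
  obtain ⟨-, D, P, hD, hP, hDP⟩ := h
  have hdd : ∀ g h, dd (ρ (g * h)) = ((η h : ℤˣ) : ℤ) • dd (ρ g) + dd (ρ h) := by
    intro g h
    rw [map_mul, (data_mul (hd g) (hd h)).1, zsmul_eq_mul]
  refine dihM hV D hD η (fun g => dd (ρ g)) (fun g => (hDP g).1) hdd fun K₀ hK₀ => ?_
  -- the centre
  obtain ⟨z, hz⟩ : ∃ z : k, ∀ g ∈ K₀, dd (ρ g) = z * (1 - (((η g : ℤˣ) : ℤ) : k)) := by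
    by_cases hex : ∃ g₀ ∈ K₀, η g₀ = -1
    · obtain ⟨g₀, hg₀, hη₀⟩ := hex
      refine ⟨dd (ρ g₀) / 2, fun g hg => ?_⟩
      rcases Int.units_eq_one_or (η g) with h1 | h1
      · rw [hK₀ g hg h1, h1]
        simp
      · have h2 := hK₀ (g * g₀) (K₀.mul_mem hg hg₀) (by rw [map_mul, h1, hη₀]; rfl)
        rw [hdd, hη₀, Units.val_neg, Units.val_one, neg_one_zsmul] at h2
        have h3 : dd (ρ g) = dd (ρ g₀) := by linear_combination -h2
        rw [h3, h1, Units.val_neg, Units.val_one, Int.cast_neg, Int.cast_one]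
        ring
    · push Not at hex
      refine ⟨0, fun g hg => ?_⟩
      rw [zero_mul]
      exact hK₀ g hg ((Int.units_eq_one_or (η g)).resolve_right (hex g hg))
  -- the new data
  let ρ' : K₀ →* Aut2 k := cj (ρ.comp K₀.subtype) (sh (-z))
  have hρ' : ∀ g : K₀, ρ' g = sh z * ρ g * sh (-z) := by
    intro g
    show cj (ρ.comp K₀.subtype) (sh (-z)) g = _
    rw [cj_apply, sh_inv, neg_neg]
    rfl
  have h1 : ∀ g : K₀, ρ' g (X 1) = C (((η (g : K) : ℤˣ) : ℤ) : k) * X 1 + C 0 := by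
    intro g
    rw [hρ']
    show sh z (ρ g (sh (-z) (X 1))) = _
    rw [sh_X1, map_add, aut_C, (hd g).form.1, hz g g.2]
    simp only [map_add, map_mul, aut_C, sh_X1, map_sub, map_neg, map_one, map_zero]
    ring
  have h0 : ∀ g : K₀, ρ' g (X 0) = C (((ε (g : K) : ℤˣ) : ℤ) : k) * X 0 +
      Polynomial.aeval (X 1) ((pp (ρ (g : K))).comp (Polynomial.X + Polynomial.C z)) := by
    intro g
    rw [hρ']
    show sh z (ρ g (sh (-z) (X 0))) = _
    rw [sh_X0, (hd g).form.2, map_add, map_mul, aut_C, sh_X0, ← Polynomial.aeval_algHom_apply,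
      sh_X1, Polynomial.aeval_comp]
    simp [algebraMap_eq]
  refine tri_red1 (hV.sub K₀) ρ' (ε.comp K₀.subtype) (η.comp K₀.subtype)
    (fun g => ⟨0, _, h1 g, h0 g⟩) (fun g => (data_eq (h1 g) (h0 g)).1)
    (P.map (Polynomial.compRingHom (Polynomial.X + Polynomial.C z)).toIntAlgHom.toLinearMap)
    (hP.map _) (fun g => ?_) fun K₁ hK₁ => ?_
  · rw [(data_eq (h1 g) (h0 g)).2]
    exact ⟨_, (hDP _).2, rfl⟩
  · have h2 : TN (K₁.map K₀.subtype) := by
      refine H _ ?_
      rintro _ ⟨g, hg, rfl⟩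
      refine isOfFinOrder_of_conj (χ := sh (-z)) ?_
      have h3 := hK₁ g hg
      have h4 : ρ' g = (sh (-z))⁻¹ * ρ (g : K) * sh (-z) := cj_apply _ _ _
      rwa [h4] at h3
    refine h2.of_injective K₁
      ((K₀.subtype.comp K₁.subtype).codRestrict _ fun x => ⟨x, x.2, rfl⟩) fun x y hxy => ?_
    exact Subtype.ext (Subtype.ext (congrArg (fun z : K₁.map K₀.subtype => (z : K)) hxy))

omit [CharZero k] in
theorem cj_fin {ρ : K →* Aut2 k} {α : Aut2 k} {g : K} (h : IsOfFinOrder (cj ρ α g)) :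
    IsOfFinOrder (ρ g) := by
  rw [cj_apply] at h
  exact isOfFinOrder_of_conj h

theorem TriC.red (hV : VPZ K) {ρ : K →* Aut2 k} (h : TriC ρ)
    (H : ∀ K₀ : Subgroup K, (∀ g ∈ K₀, IsOfFinOrder (ρ g)) → TN K₀) : TN K := by
  obtain ⟨α, h⟩ := h
  exact h.red hV fun K₀ hK₀ => H K₀ fun g hg => cj_fin (hK₀ g hg)

/-- The case of trivial signs. -/
theorem TriT.pc {ρ : K →* Aut2 k} (h : TriT ρ) (h1 : ∀ g, HasDiag (ρ g) 1 1)
    (H : ∀ K₀ : Subgroup K, (∀ g ∈ K₀, IsOfFinOrder (ρ g)) → PolyZ K₀) : PolyZ K := by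
  obtain ⟨-, D, P, hD, hP, hDP⟩ := h
  refine polyZ_of_hom D hD (fun g => dd (ρ g)) (fun g => (hDP g).1) (fun g h => by
    rw [map_mul, (data_mul (h1 g) (h1 h)).1, one_mul]) fun K₀ hK₀ => ?_
  refine polyZ_of_hom P hP (fun g : K₀ => pp (ρ g)) (fun g => (hDP _).2) (fun g h => by
    rw [Subgroup.coe_mul, map_mul, (data_mul (h1 g) (h1 h)).2, hK₀ g g.2, map_one, map_zero,
      one_mul, one_mul, add_zero, Polynomial.comp_X]) fun K₁ hK₁ => ?_
  have h2 : PolyZ (K₁.map K₀.subtype) := by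
    refine H _ ?_
    rintro _ ⟨g, hg, rfl⟩
    obtain ⟨e1, e0⟩ := (h1 (g : K)).form
    have h3 : ρ (g : K) = 1 := by
      refine aut2_ext ?_ ?_
      · show ρ (g : K) (X 0) = X 0
        rw [e0, hK₁ g hg]
        simp
      · show ρ (g : K) (X 1) = X 1
        rw [e1, hK₀ _ g.2]
        simp
    show IsOfFinOrder (ρ (g : K))
    rw [h3]
    exact IsOfFinOrder.one
  refine PT.PSub.of_injective _ h2 K₁
    ((K₀.subtype.comp K₁.subtype).codRestrict _ fun x => ⟨x, x.2, rfl⟩) fun x y hxy => ?_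
  exact Subtype.ext (Subtype.ext (congrArg (fun z : K₁.map K₀.subtype => (z : K)) hxy))

end Tri

/-! ## Affine homomorphisms -/

section Aff

variable {k : Type} [Field k] [CharZero k] {K : Type} [Group K]

/-- Affine automorphisms with linear parts in a finite group and translations in a finitely
generated module. -/
def AffT (ρ : K →* Aut2 k) : Prop :=
  (∀ g, ρ g • W0 k = W0 k) ∧ (∀ g, (lin (ρ g)).det = 1 ∨ (lin (ρ g)).det = -1) ∧
  (∃ V : Submodule ℤ (Fin 2 → k), V.FG ∧ ∀ g, tt (ρ g) ∈ V) ∧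
  (∃ n : ℕ, n ≠ 0 ∧ ∀ g, lin (ρ g) ^ n = 1) ∧
  ∃ S : Subgroup K, S.FiniteIndex ∧ ∀ g ∈ S, lin (ρ g) = 1

omit [CharZero k] in
theorem AffT.comp {ρ : K →* Aut2 k} (h : AffT ρ) {H : Type} [Group H] (i : H →* K) :
    AffT (ρ.comp i) := by
  obtain ⟨h1, h2, ⟨V, hV, h3⟩, ⟨n, hn, h4⟩, ⟨S, hS, h5⟩⟩ := h
  exact ⟨fun g => h1 (i g), fun g => h2 (i g), ⟨V, hV, fun g => h3 (i g)⟩,
    ⟨n, hn, fun g => h4 (i g)⟩, S.comap i, finiteIndex_comap S i, fun g hg => h5 _ hg⟩

/-- **Torsion-free affine groups.** -/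
theorem AffT.core {ρ : K →* Aut2 k} (h : AffT ρ) (hfin : ∀ g, IsOfFinOrder (ρ g) → g = 1) :
    PolyZ K := by
  obtain ⟨hW, hdet, ⟨V, hV, hVt⟩, ⟨n, hn, hpow⟩, -⟩ := h
  have htf : ∀ g : K, IsOfFinOrder g → g = 1 := fun g hg => hfin g (MonoidHom.isOfFinOrder ρ hg)
  let A : Subgroup K := (linH ρ hW).ker
  have hA : ∀ g : K, g ∈ A ↔ lin (ρ g) = 1 := fun g => Units.ext_iff
  let p : A →* Multiplicative (Fin 2 → k) :=
    { toFun := fun g => Multiplicative.ofAdd (tt (ρ (g : K)))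
      map_one' := by
        show Multiplicative.ofAdd (tt (ρ ((1 : A) : K))) = 1
        rw [OneMemClass.coe_one, map_one, tt_one]
        rfl
      map_mul' := fun g h => by
        show Multiplicative.ofAdd (tt (ρ ((g * h : A) : K))) = _
        rw [Subgroup.coe_mul, map_mul, tt_mul _ (hW _), (hA h).1 h.2,
          Matrix.vecMul_one, add_comm]
        rfl }
  have hpinj : ∀ g, p g = 1 → g = 1 := by
    intro g hg
    have h1 : tt (ρ (g : K)) = 0 := hg
    have h2 : ρ (g : K) = 1 := eq_one_of (hW _) ((hA g).1 g.2) h1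
    exact Subtype.ext (hfin _ (by rw [h2]; exact IsOfFinOrder.one))
  have hdich : ∀ x : K, (lin (ρ x)).det = 1 → x ∈ A := by
    intro x hx
    rcases eq_one_or hx hn (hpow x) with h2 | h2
    · exact (hA x).2 h2
    · have h3 : ρ x ^ n = 1 := fin_of_lin (hW x) (hpow x) h2
      rw [hfin x (isOfFinOrder_iff_pow_eq_one.2 ⟨n, Nat.pos_of_ne_zero hn, h3⟩)]
      exact A.one_mem
  refine polyZ_of_two htf A (fun x hx y hy => ?_) (polyZ_of_module V hV p (fun g => hVt _) hpinj)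
    fun x y hx hy => ?_
  · have h1 : p ((⟨x, hx⟩ * ⟨y, hy⟩ : A) * (⟨y, hy⟩ * ⟨x, hx⟩ : A)⁻¹) = 1 := by
      rw [map_mul, map_inv, map_mul, map_mul, mul_comm (p ⟨x, hx⟩), mul_inv_cancel]
    have h2 := mul_inv_eq_one.1 (hpinj _ h1)
    exact congrArg Subtype.val h2
  · have h1 : (lin (ρ x)).det = -1 := (hdet x).resolve_left fun h => hx (hdich x h)
    have h2 : (lin (ρ y)).det = -1 := (hdet y).resolve_left fun h => hy (hdich y h)
    refine hdich _ ?_
    rw [map_mul, lin_mul _ (hW y), Matrix.det_mul, h1, h2]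
    ring

omit [CharZero k] in
/-- Affine automorphisms which preserve the second axis. -/
theorem aff_diag {φ : Aut2 k} (hW : φ • W0 k = W0 k) (h : lin φ 0 1 = 0) :
    HasDiag φ (lin φ 0 0) (lin φ 1 1) ∧ dd φ = tt φ 1 ∧
      pp φ = Polynomial.C (lin φ 1 0) * Polynomial.X + Polynomial.C (tt φ 0) := by
  have h1 : φ (X 1) = C (lin φ 1 1) * X 1 + C (tt φ 1) := by
    rw [aff_form2 hW 1, h, C_0]
    ring
  have h0 : φ (X 0) = C (lin φ 0 0) * X 0 + Polynomial.aeval (X 1)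
      (Polynomial.C (lin φ 1 0) * Polynomial.X + Polynomial.C (tt φ 0)) := by
    rw [aff_form2 hW 0, map_add, map_mul, Polynomial.aeval_C, Polynomial.aeval_C,
      Polynomial.aeval_X, algebraMap_eq]
    ring
  exact ⟨⟨_, _, h1, h0⟩, data_eq h1 h0⟩

omit [CharZero k] in
theorem cj_la {ρ : K →* Aut2 k} (hW : ∀ g, ρ g • W0 k = W0 k) (u : GL2 k) (g : K) :
    cj ρ (la u) g • W0 k = W0 k ∧
      lin (cj ρ (la u) g) = (u⁻¹ : GL2 k).val * lin (ρ g) * u.val ∧
      tt (cj ρ (la u) g) = Matrix.vecMul (tt (ρ g)) u.val := by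
  rw [cj_apply, ← map_inv]
  refine ⟨?_, ?_, ?_⟩
  · rw [mul_smul, mul_smul, la_W0, hW, la_W0]
  · rw [lin_mul _ (la_W0 u), lin_mul _ (hW g), lin_la, lin_la]
  · rw [tt_mul _ (la_W0 u), tt_mul _ (hW g), lin_la]
    have h1 : ∀ v : GL2 k, tt (la v) = 0 := by
      intro v
      funext i
      show eval 0 (la v (X i)) = 0
      rw [la_X]
      simp
    rw [h1, h1, Matrix.zero_vecMul, add_zero, zero_add]

/-- Commuting involutions are diagonal in a suitable basis. -/
theorem exists_diag (m : K →* GL2 k) (h : ∀ g, m g * m g = 1) :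
    ∃ u : GL2 k, ∀ g, (u⁻¹ * m g * u).val 0 1 = 0 ∧ (u⁻¹ * m g * u).val 1 0 = 0 := by
  have hcomm : ∀ g h', m g * m h' = m h' * m g := by
    intro g h'
    have h1 := h (g * h')
    rw [map_mul] at h1
    have h2 : m g * m h' = (m g * m h')⁻¹ := eq_inv_of_mul_eq_one_left h1
    rw [mul_inv_rev] at h2
    have h3 : (m g)⁻¹ = m g := inv_eq_of_mul_eq_one_left (h g)
    have h4 : (m h')⁻¹ = m h' := inv_eq_of_mul_eq_one_left (h h')
    rwa [h3, h4] at h2
  by_cases hsc : ∀ g, (m g).val 0 1 = 0 ∧ (m g).val 1 0 = 0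
  · exact ⟨1, fun g => by rw [inv_one, one_mul, mul_one]; exact hsc g⟩
  push Not at hsc
  obtain ⟨g₀, hg₀⟩ := hsc
  obtain ⟨M, hM⟩ : ∃ M, M = (m g₀).val := ⟨_, rfl⟩
  have hM2 : M * M = 1 := by
    rw [hM, ← Units.val_mul, h, Units.val_one]
  rw [← hM] at hg₀
  have e00 := congrFun (congrFun hM2 0) 0
  have e01 := congrFun (congrFun hM2 0) 1
  have e10 := congrFun (congrFun hM2 1) 0
  have e11 := congrFun (congrFun hM2 1) 1
  rw [Matrix.mul_apply, Fin.sum_univ_two, Matrix.one_apply_eq] at e00 e11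
  rw [Matrix.mul_apply, Fin.sum_univ_two, Matrix.one_apply_ne (by decide)] at e01 e10
  have htr : M 0 0 + M 1 1 = 0 := by
    by_contra hne
    have h1 : M 0 1 = 0 := by
      have : M 0 1 * (M 0 0 + M 1 1) = 0 := by linear_combination e01
      exact (mul_eq_zero.1 this).resolve_right hne
    have h2 : M 1 0 = 0 := by
      have : M 1 0 * (M 0 0 + M 1 1) = 0 := by linear_combination e10
      exact (mul_eq_zero.1 this).resolve_right hne
    exact hg₀ h1 h2
  -- a matrix with eigenvectors as columns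
  obtain ⟨u, x, hx, hu⟩ : ∃ (u : GL2 k) (x : k), x ≠ 0 ∧
      M * u.val = u.val * !![x, 0; 0, -x] := by
    by_cases hb : M 0 1 = 0
    · have ha : M 0 0 ≠ 0 := by
        intro ha
        rw [ha, hb] at e00
        simp at e00
      refine ⟨Matrix.GeneralLinearGroup.mkOfDetNeZero !![2 * M 0 0, 0; M 1 0, 1] ?_, M 0 0, ha, ?_⟩
      · rw [Matrix.det_fin_two_of]
        have : 2 * M 0 0 ≠ 0 := mul_ne_zero two_ne_zero ha
        simpa using this
      · show M * !![2 * M 0 0, 0; M 1 0, 1] = !![2 * M 0 0, 0; M 1 0, 1] * !![M 0 0, 0; 0, -M 0 0]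
        ext i j
        fin_cases i <;> fin_cases j <;>
          simp only [Fin.zero_eta, Fin.mk_one, Matrix.mul_apply, Fin.sum_univ_two, Matrix.of_apply,
            Matrix.cons_val', Matrix.cons_val_zero, Matrix.cons_val_one, Matrix.cons_val_fin_one]
        · rw [hb]
          ring
        · rw [hb]
          ring
        · linear_combination M 1 0 * htr
        · linear_combination htr
    · refine ⟨Matrix.GeneralLinearGroup.mkOfDetNeZero
        !![M 0 1, M 0 1; 1 - M 0 0, -1 - M 0 0] ?_, 1, one_ne_zero, ?_⟩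
      · rw [Matrix.det_fin_two_of]
        have : M 0 1 * (-1 - M 0 0) - M 0 1 * (1 - M 0 0) = -2 * M 0 1 := by ring
        rw [this]
        exact mul_ne_zero (neg_ne_zero.2 two_ne_zero) hb
      · show M * !![M 0 1, M 0 1; 1 - M 0 0, -1 - M 0 0] =
          !![M 0 1, M 0 1; 1 - M 0 0, -1 - M 0 0] * !![1, 0; 0, -1]
        ext i j
        fin_cases i <;> fin_cases j <;>
          simp only [Fin.zero_eta, Fin.mk_one, Matrix.mul_apply, Fin.sum_univ_two, Matrix.of_apply,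
            Matrix.cons_val', Matrix.cons_val_zero, Matrix.cons_val_one, Matrix.cons_val_fin_one]
        · ring
        · ring
        · linear_combination e11 + (1 - M 1 1) * htr
        · linear_combination e11 - M 1 1 * htr - htr
  refine ⟨u, fun g => ?_⟩
  obtain ⟨N, hN⟩ : ∃ N, N = (u⁻¹ * m g * u).val := ⟨_, rfl⟩
  have hMu : (u⁻¹ * m g₀ * u).val = !![x, 0; 0, -x] := by
    rw [mul_assoc, Units.val_mul, Units.val_mul, ← hM, hu, ← mul_assoc, ← Units.val_mul,
      inv_mul_cancel, Units.val_one, one_mul]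
  have hc : N * !![x, 0; 0, -x] = !![x, 0; 0, -x] * N := by
    rw [hN, ← hMu, ← Units.val_mul, ← Units.val_mul]
    congr 1
    have h1 : u⁻¹ * m g * u * (u⁻¹ * m g₀ * u) = u⁻¹ * (m g * m g₀) * u := by group
    have h2 : u⁻¹ * m g₀ * u * (u⁻¹ * m g * u) = u⁻¹ * (m g₀ * m g) * u := by group
    rw [h1, h2, hcomm]
  have c01 := congrFun (congrFun hc 0) 1
  have c10 := congrFun (congrFun hc 1) 0
  simp only [Matrix.mul_apply, Fin.sum_univ_two, Matrix.of_apply, Matrix.cons_val',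
    Matrix.cons_val_zero, Matrix.cons_val_one, Matrix.cons_val_fin_one] at c01 c10
  rw [← hN]
  constructor
  · have h1 : N 0 1 * (2 * x) = 0 := by linear_combination -c01
    exact (mul_eq_zero.1 h1).resolve_right (mul_ne_zero two_ne_zero hx)
  · have h1 : N 1 0 * (2 * x) = 0 := by linear_combination c10
    exact (mul_eq_zero.1 h1).resolve_right (mul_ne_zero two_ne_zero hx)

/-- Affine groups with linear parts of order two are triangular. -/
theorem AffT.triC {ρ : K →* Aut2 k} (h : AffT ρ) (h2 : ∀ g, lin (ρ g) * lin (ρ g) = 1) :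
    TriC ρ := by
  obtain ⟨hW, -, ⟨V, hV, hVt⟩, -, -⟩ := h
  obtain ⟨u, hu⟩ := exists_diag (linH ρ hW) fun g => Units.ext (h2 g)
  have hval : ∀ g, (u⁻¹ * linH ρ hW g * u).val = lin (cj ρ (la u) g) := by
    intro g
    rw [(cj_la hW u g).2.1]
    rfl
  have h3 : ∀ g, lin (cj ρ (la u) g) 0 1 = 0 ∧ lin (cj ρ (la u) g) 1 0 = 0 := by
    intro g
    rw [← hval]
    exact hu g
  have hd := fun g => aff_diag (cj_la hW u g).1 (h3 g).1
  have hsq : ∀ g, lin (cj ρ (la u) g) * lin (cj ρ (la u) g) = 1 := by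
    intro g
    rw [← hval, ← Units.val_mul]
    have h4 : u⁻¹ * linH ρ hW g * u * (u⁻¹ * linH ρ hW g * u) =
        u⁻¹ * (linH ρ hW g * linH ρ hW g) * u := by group
    have h5 : linH ρ hW g * linH ρ hW g = 1 := Units.ext (h2 g)
    rw [h4, h5, mul_one, inv_mul_cancel, Units.val_one]
  let ev : Fin 2 → (Fin 2 → k) →ₗ[ℤ] k := fun i =>
    { toFun := fun v => Matrix.vecMul v u.val i
      map_add' := fun v w => by rw [Matrix.add_vecMul]; rfl
      map_smul' := fun z v => by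
        rw [← Int.cast_smul_eq_zsmul k, Matrix.smul_vecMul, Pi.smul_apply,
          ← Int.cast_smul_eq_zsmul k]
        rfl }
  refine ⟨la u, fun g => ⟨_, _, ?_, ?_, (hd g).1⟩, V.map (ev 1),
    (V.map (ev 0)).map (Polynomial.C : k →+* Polynomial k).toIntAlgHom.toLinearMap, hV.map _,
    (hV.map _).map _, fun g => ⟨?_, ?_⟩⟩
  · have h4 := congrFun (congrFun (hsq g) 0) 0
    rw [Matrix.mul_apply, Fin.sum_univ_two, (h3 g).1, zero_mul, add_zero,
      Matrix.one_apply_eq] at h4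
    exact mul_self_eq_one_iff.1 h4
  · have h4 := congrFun (congrFun (hsq g) 1) 1
    rw [Matrix.mul_apply, Fin.sum_univ_two, (h3 g).2, zero_mul, zero_add,
      Matrix.one_apply_eq] at h4
    exact mul_self_eq_one_iff.1 h4
  · rw [(hd g).2.1, (cj_la hW u g).2.2]
    exact ⟨_, hVt g, rfl⟩
  · rw [(hd g).2.2, (h3 g).2, (cj_la hW u g).2.2, map_zero, zero_mul, zero_add]
    exact ⟨_, ⟨_, hVt g, rfl⟩, rfl⟩

/-- Two affine homomorphisms. -/
theorem aff_two {k' : Type} [Field k'] [CharZero k'] {ρ : K →* Aut2 k} {ρ' : K →* Aut2 k'}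
    (h : AffT ρ) (h' : AffT ρ')
    (hj : ∀ g, IsOfFinOrder (ρ g) → IsOfFinOrder (ρ' g) → g = 1) : TriC ρ ∨ TriC ρ' := by
  have hcopy := h
  have hcopy' := h'
  obtain ⟨hW, hdet, -, ⟨n, hn, hpow⟩, -⟩ := hcopy
  obtain ⟨hW', hdet', -, ⟨n', hn', hpow'⟩, -⟩ := hcopy'
  let dt : K →* kˣ := Matrix.GeneralLinearGroup.det.comp (linH ρ hW)
  let dt' : K →* k'ˣ := Matrix.GeneralLinearGroup.det.comp (linH ρ' hW')
  have hdt : ∀ g, dt g = 1 ↔ (lin (ρ g)).det = 1 := fun g => Units.ext_iff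
  have hdt' : ∀ g, dt' g = 1 ↔ (lin (ρ' g)).det = 1 := fun g => Units.ext_iff
  have key : ∀ g ∈ dt.ker ⊓ dt'.ker, g ∈ (linH ρ hW).ker ∨ g ∈ (linH ρ' hW').ker := by
    rintro g ⟨h1, h2⟩
    by_contra hcon
    push Not at hcon
    have h3 : lin (ρ g) ≠ 1 := fun h => hcon.1 (Units.ext h)
    have h4 : lin (ρ' g) ≠ 1 := fun h => hcon.2 (Units.ext h)
    have h5 := (eq_one_or ((hdt g).1 h1) hn (hpow g)).resolve_left h3
    have h6 := (eq_one_or ((hdt' g).1 h2) hn' (hpow' g)).resolve_left h4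
    have h7 := fin_of_lin (hW g) (hpow g) h5
    have h8 := fin_of_lin (hW' g) (hpow' g) h6
    have h9 : g = 1 := hj g
      (isOfFinOrder_iff_pow_eq_one.2 ⟨n, Nat.pos_of_ne_zero hn, h7⟩)
      (isOfFinOrder_iff_pow_eq_one.2 ⟨n', Nat.pos_of_ne_zero hn', h8⟩)
    exact h3 (by rw [h9, map_one, lin_one])
  have hsq : ∀ g, g * g ∈ dt.ker ⊓ dt'.ker := by
    intro g
    refine ⟨(hdt _).2 ?_, (hdt' _).2 ?_⟩
    · rw [map_mul, lin_mul _ (hW g), Matrix.det_mul]
      rcases hdet g with h1 | h1 <;> rw [h1] <;> ring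
    · rw [map_mul, lin_mul _ (hW' g), Matrix.det_mul]
      rcases hdet' g with h1 | h1 <;> rw [h1] <;> ring
  rcases le_or_le _ _ _ key with hle | hle
  · left
    refine h.triC fun g => ?_
    have h1 : lin (ρ (g * g)) = 1 := congrArg Units.val (hle (hsq g))
    rwa [map_mul, lin_mul _ (hW g)] at h1
  · right
    refine h'.triC fun g => ?_
    have h1 : lin (ρ' (g * g)) = 1 := congrArg Units.val (hle (hsq g))
    rwa [map_mul, lin_mul _ (hW' g)] at h1

end Aff

end Pool.Agent.Lib.MP_551055_al.JK
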