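import Mathlib
import Pool.Agent.Lib.MP_551055_al.Trim.LS.FFR
import Pool.Agent.Lib.MP_551055_al.Trim.LS.PFree
import Pool.Agent.Lib.MP_551055_al.Trim.LS.PStmts2
import Pool.Agent.Lib.MP_551055_al.Trim.LS.RegSub
import Pool.Agent.Lib.MP_551055_al.Trim.LS.Stmts
import Pool.Agent.Lib.MP_551055_al.Trim.MT.Flow2
import Pool.Agent.Lib.MP_551055_al.Trim.MT.StA
import Pool.Agent.Lib.MP_551055_al.Trim.OneRelation

/-!
# Locally tame groups are base groups

Tame groups are obtained from poly-`ℤ` groups by actions on trees with poly-`ℤ` edge stabilisers.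
The kernels of matrices over their group rings have finite free resolutions.
-/

set_option autoImplicit false

namespace Pool.Agent.Lib.MP_551055_al
end Pool.Agent.Lib.MP_551055_al

namespace Pool.Agent.Lib.MP_551055_al.LS
end Pool.Agent.Lib.MP_551055_al.LS

namespace Pool.Agent.Lib.MP_551055_al.RI

open Pool.Agent.Lib.MP_551055_al

open Pool.Agent.Lib.MP_551055_al.LS

/-! ## Rings -/

theorem fff_of_ffr {R : Type} [Ring R]
    (hP : ∀ (Q : Type) [AddCommGroup Q] [Module R Q], Module.Finite R Q → Module.Projective R Q →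
      StFree R Q) (d : ℕ) : ∀ {M : Type} [AddCommGroup M] [Module R M], FFR R d M →
      FFF R (d + 1) M := by
  induction d with
  | zero => exact fun {M} _ _ h => (stPFreeProj R M).2 (hP M h.1 h.2)
  | succ d ih =>
    rintro M _ _ ⟨n, f, hf, h⟩
    exact ⟨n, f, hf, ih h⟩

/-- Regular coherent rings all of whose projectives are stably free. -/
theorem rc_of_regCoh {R : Type} [Ring R] (h : RegCoh R)
    (hP : ∀ (Q : Type) [AddCommGroup Q] [Module R Q], Module.Finite R Q → Module.Projective R Q →
      StFree R Q) : MT.RC R := by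
  intro n m f
  have hfp : Module.FinitePresentation R ((Fin m → R) ⧸ LinearMap.range f) := by
    refine Module.finitePresentation_of_surjective (LinearMap.range f).mkQ
      (Submodule.mkQ_surjective _) ?_
    rw [Submodule.ker_mkQ]
    exact Module.Finite.iff_fg.1 (Module.Finite.range f)
  obtain ⟨d, hd⟩ := h _ hfp
  have h1 : FFR R (d + 1) (LinearMap.ker (LinearMap.range f).mkQ) :=
    RegSubAux.ker_ffr (hd.succ).succ _ (Submodule.mkQ_surjective _)
  rw [Submodule.ker_mkQ] at h1
  have h2 : FFR R d (LinearMap.ker f.rangeRestrict) :=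
    RegSubAux.ker_ffr h1 _ f.surjective_rangeRestrict
  rw [LinearMap.ker_rangeRestrict] at h2
  exact ⟨d + 1, fff_of_ffr hP d h2⟩

/-! ## Tame groups -/

/-! ## Locally tame groups -/

end Pool.Agent.Lib.MP_551055_al.RI
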