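import Mathlib
import Pool.Agent.Lib.MP_551055_al.Trim.BT.Poly
import Pool.Agent.Lib.MP_551055_al.Trim.JK.Line
import Pool.Agent.Lib.MP_551055_al.Trim.JK.LocTame
import Pool.Agent.Lib.MP_551055_al.Trim.LD.NG
import Pool.Agent.Lib.MP_551055_al.Trim.LS.Clo
import Pool.Agent.Lib.MP_551055_al.Trim.LS.Final
import Pool.Agent.Lib.MP_551055_al.Trim.LS.Main
import Pool.Agent.Lib.MP_551055_al.Trim.LS.PFin
import Pool.Agent.Lib.MP_551055_al.Trim.LS.PPoly
import Pool.Agent.Lib.MP_551055_al.Trim.LS.PStmts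
import Pool.Agent.Lib.MP_551055_al.Trim.LS.Stmts
import Pool.Agent.Lib.MP_551055_al.Trim.MT.Defs
import Pool.Agent.Lib.MP_551055_al.Trim.MT.Flow2
import Pool.Agent.Lib.MP_551055_al.Trim.MT.K1
import Pool.Agent.Lib.MP_551055_al.Trim.MT.RCU
import Pool.Agent.Lib.MP_551055_al.Trim.MT.Small
import Pool.Agent.Lib.MP_551055_al.Trim.MT.StA
import Pool.Agent.Lib.MP_551055_al.Trim.PT.Clo
import Pool.Agent.Lib.MP_551055_al.Trim.PT.Main
import Pool.Agent.Lib.MP_551055_al.Trim.PT.PSub
import Pool.Agent.Lib.MP_551055_al.Trim.RI.Basic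
import Pool.Agent.Lib.MP_551055_al.Trim.RI.Main
import Pool.Agent.Lib.MP_551055_al.Trim.RI.Stmts
import Pool.Agent.Lib.MP_551055_al.Trim.T4.Ind0
import Pool.Agent.Lib.MP_551055_al.Trim.T4.Perf
import Pool.Agent.Lib.MP_551055_al.Trim.T6.GenF
import Pool.Agent.Lib.MP_551055_al.Trim.VNDefs

/-!
# Groups obtained from poly-`ℤ` groups by trees with virtually poly-`ℤ` edge groups
-/

set_option autoImplicit false

namespace Pool.Agent.Lib.MP_551055_al
end Pool.Agent.Lib.MP_551055_al

namespace Pool.Agent.Lib.MP_551055_al.LS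
end Pool.Agent.Lib.MP_551055_al.LS

namespace Pool.Agent.Lib.MP_551055_al.RI
end Pool.Agent.Lib.MP_551055_al.RI

namespace Pool.Agent.Lib.MP_551055_al.JK

open Pool.Agent.Lib.MP_551055_al

open Pool.Agent.Lib.MP_551055_al.LS

open Pool.Agent.Lib.MP_551055_al.RI

/-! ## Virtually poly-`ℤ` groups -/

/-- Virtually poly-`ℤ` groups. -/
def VPZ (D : Type) [Group D] : Prop := ∃ P : Subgroup D, P.FiniteIndex ∧ PolyZ P

theorem finiteIndex_comap {D H : Type} [Group D] [Group H] (P : Subgroup D) [P.FiniteIndex]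
    (f : H →* D) : (P.comap f).FiniteIndex := ⟨by
  rw [Subgroup.index_comap]
  exact (Subgroup.instFiniteIndex_subgroupOf P f.range).index_ne_zero⟩

theorem VPZ.of_injective {D H : Type} [Group D] [Group H] (h : VPZ D) (i : H →* D)
    (hi : Function.Injective i) : VPZ H := by
  obtain ⟨P, hP, hP'⟩ := h
  refine ⟨P.comap i, finiteIndex_comap P i, PT.PSub.of_injective P hP' _
    ((i.comp (P.comap i).subtype).codRestrict P fun x => x.2) fun x y hxy => ?_⟩
  exact Subtype.ext (hi (congrArg (fun z : P => (z : D)) hxy))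

theorem VPZ.sub {D : Type} [Group D] (h : VPZ D) (H : Subgroup D) : VPZ H :=
  h.of_injective H.subtype Subtype.val_injective

theorem VPZ.ext {R Q : Type} [Group R] [Group Q] (h : VPZ Q) (f : R →* Q) (hf : PolyZ f.ker) :
    VPZ R := by
  obtain ⟨P, hP, hP'⟩ := h
  refine ⟨P.comap f, finiteIndex_comap P f, polyZ_ext P hP' _
    ((f.comp (P.comap f).subtype).codRestrict P fun x => x.2) ?_⟩
  refine PT.PSub.of_injective _ hf _
    (((P.comap f).subtype.comp (Subgroup.subtype _)).codRestrict f.ker fun x => ?_) ?_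
  · exact congrArg Subtype.val x.2
  · intro x y hxy
    exact Subtype.ext (Subtype.ext (congrArg (fun z : f.ker => (z : R)) hxy))

theorem polyZ_zn (m : ℕ) : PolyZ (ZN m) := by
  refine BT.polyZ_of_finite _ (J := Fin m) (fun i =>
    { toFun := fun x => Multiplicative.ofAdd (x.toAdd i)
      map_one' := rfl
      map_mul' := fun _ _ => rfl }) fun x hx => ?_
  have h1 : x.toAdd = 0 := funext fun i => hx i
  exact h1

theorem VPZ.prod {D A : Type} [Group D] [Group A] (h : VPZ D) (hA : PolyZ A) : VPZ (D × A) := by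
  refine h.ext (MonoidHom.fst D A) (PT.PSub.of_injective A hA _
    ((MonoidHom.snd D A).comp (Subgroup.subtype _)) ?_)
  intro x y hxy
  have h1 : (x : D × A).1 = 1 := x.2
  have h2 : (y : D × A).1 = 1 := y.2
  exact Subtype.ext (Prod.ext (h1.trans h2.symm) hxy)

theorem noeth_of_finiteIndex {D : Type} [Group D] (P : Subgroup D) [P.FiniteIndex]
    (h : IsNoetherianRing (MonoidAlgebra ℤ P)) : IsNoetherianRing (MonoidAlgebra ℤ D) := by
  classical
  let f : MonoidAlgebra ℤ P →+* MonoidAlgebra ℤ D := MonoidAlgebra.mapDomainRingHom ℤ P.subtype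
  let _ : Module (MonoidAlgebra ℤ P) (MonoidAlgebra ℤ D) := Module.compHom _ f
  have hsmul : ∀ (r : MonoidAlgebra ℤ P) (s : MonoidAlgebra ℤ D), r • s = f r * s := fun _ _ => rfl
  have _ : IsScalarTower (MonoidAlgebra ℤ P) (MonoidAlgebra ℤ D) (MonoidAlgebra ℤ D) :=
    ⟨fun r s t => by rw [hsmul, hsmul, smul_eq_mul, smul_eq_mul, mul_assoc]⟩
  have hfin : Finite (D ⧸ P) := Subgroup.finite_quotient_of_finiteIndex
  have _ : Module.Finite (MonoidAlgebra ℤ P) (MonoidAlgebra ℤ D) := by
    refine ⟨(Submodule.fg_def.2 ⟨Set.range fun q : D ⧸ P =>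
      (MonoidAlgebra.single (q.out)⁻¹ (1 : ℤ) : MonoidAlgebra ℤ D), Set.finite_range _, ?_⟩)⟩
    rw [eq_top_iff]
    rintro x -
    induction x using MonoidAlgebra.induction_on with
    | of d =>
      obtain ⟨q, hq⟩ : ∃ q : D ⧸ P, q = ((d⁻¹ : D) : D ⧸ P) := ⟨_, rfl⟩
      have h1 : (q.out)⁻¹ * d⁻¹ ∈ P := by
        rw [← QuotientGroup.eq, QuotientGroup.out_eq', hq]
      have h2 : d * q.out ∈ P := by
        have := P.inv_mem h1
        rwa [mul_inv_rev, inv_inv, inv_inv] at this
      have h3 : MonoidAlgebra.of ℤ D d =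
          (MonoidAlgebra.single (⟨d * q.out, h2⟩ : P) (1 : ℤ) : MonoidAlgebra ℤ P) •
            (MonoidAlgebra.single (q.out)⁻¹ (1 : ℤ) : MonoidAlgebra ℤ D) := by
        rw [hsmul]
        have h4 : f (MonoidAlgebra.single (⟨d * q.out, h2⟩ : P) (1 : ℤ)) =
            MonoidAlgebra.single (d * q.out) (1 : ℤ) := by
          show MonoidAlgebra.mapDomain _ (MonoidAlgebra.single _ _) = _
          rw [MonoidAlgebra.mapDomain_single]
          rfl
        rw [h4, MonoidAlgebra.single_mul_single, mul_inv_cancel_right, mul_one]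
        rfl
      rw [h3]
      exact Submodule.smul_mem _ _ (Submodule.subset_span ⟨q, rfl⟩)
    | add a b ha hb => exact Submodule.add_mem _ ha hb
    | smul r a ha => exact zsmul_mem ha r
  exact IsNoetherianRing.of_finite (MonoidAlgebra ℤ P) (MonoidAlgebra ℤ D)

theorem VPZ.noeth {D : Type} [Group D] (h : VPZ D) (m : ℕ) :
    IsNoetherianRing (MonoidAlgebra ℤ (D × ZN m)) := by
  obtain ⟨P, hP, hP'⟩ := h.prod (polyZ_zn m)
  refine noeth_of_finiteIndex P ?_
  exact (regNoeth_mulEquiv (prodZeroEquiv P).symm (lsPFin P hP' 0)).1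

/-! ## The class -/

/-- The groups obtained from poly-`ℤ` groups by actions on trees with virtually poly-`ℤ` edge
stabilisers in the class. -/
inductive TN : ∀ (G : Type) [Group G], Prop
  | poly (G : Type) [Group G] : PolyZ G → TN G
  | tree (G : Type) [Group G] (V : Type) [MulAction G V] (T : SimpleGraph V) : TreeAct G V T →
      (∀ v : V, TN (MulAction.stabilizer G v)) →
      (∀ u v : V, T.Adj u v → TN (MulAction.stabilizer G (u, v))) →
      (∀ u v : V, T.Adj u v → VPZ (MulAction.stabilizer G (u, v))) → TN G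

theorem TN.regCoh {D : Type} [Group D] (h : TN D) :
    ∀ m : ℕ, RegCoh (MonoidAlgebra ℤ (D × ZN m)) := by
  induction h with
  | poly D hD =>
    intro m M _ _ hM
    exact (lsPFin D hD m).2 M inferInstance
  | tree D V T hT hv he hp ihv ihe =>
    intro m
    let _ : MulAction (D × ZN m) V := MulAction.compHom V (MonoidHom.fst D (ZN m))
    have hA : TreeAct (D × ZN m) V T :=
      { tree := hT.tree
        adj := fun γ a b hab => hT.adj γ.1 a b hab
        inv := fun γ a b hab h => hT.inv γ.1 a b hab h }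
    refine PT.ptTreeCoh2 (D × ZN m) V T hA (fun v => ?_) (fun u v huv => ?_)
    · exact RegCoh.congr (MonoidAlgebra.mapDomainRingEquiv ℤ
        { toFun := fun γ => ⟨(γ.1.1, γ.2), γ.1.2⟩
          invFun := fun γ => (⟨γ.1.1, γ.2⟩, γ.1.2)
          left_inv := fun _ => rfl
          right_inv := fun _ => rfl
          map_mul' := fun _ _ => rfl }) (ihv v m)
    · refine regNoeth_mulEquiv
        { toFun := fun γ => ⟨(γ.1.1, γ.2), γ.1.2⟩
          invFun := fun γ => (⟨γ.1.1, γ.2⟩, γ.1.2)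
          left_inv := fun _ => rfl
          right_inv := fun _ => rfl
          map_mul' := fun _ _ => rfl } ⟨(hp u v huv).noeth m, fun M _ _ hM => ?_⟩
      have := (hp u v huv).noeth m
      exact ihe u v huv m M (Module.finitePresentation_of_finite _ M)

theorem TN.projStFree {D : Type} [Group D] (h : TN D) : ∀ n : ℕ, VN.ProjStFree (D × ZN n) := by
  induction h with
  | poly D hD => exact fun n => lsPPoly D hD n
  | tree D V T hT hv he hp ihv ihe =>
    intro n
    exact closure_trees PT.ptFinalR lsPFin n D V T hT (fun v => ihv v n)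
      (fun u v huv => ihe u v huv (n + 1))
      (fun x hx _ => ⟨1, le_rfl, Or.inr fun m => (he _ _ (hx 0)).regCoh m⟩)

/-- Extensions. -/
theorem TN.ext {Q : Type} [Group Q] (hQ : TN Q) : ∀ (G : Type) [Group G] (f : G →* Q),
    PolyZ f.ker → TN G := by
  induction hQ with
  | poly Q hQ => exact fun G _ f hf => TN.poly G (polyZ_ext Q hQ G f hf)
  | tree Q V T hT hv he hp ihv ihe =>
    intro G _ f hf
    let _ : MulAction G V := MulAction.compHom V f
    have key : ∀ {S : Subgroup G} {S' : Subgroup Q} (g : S →* S'), (∀ x, (g x : Q) = f x) →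
        PolyZ g.ker := by
      intro S S' g hg
      refine PT.PSub.of_injective _ hf _ ((S.subtype.comp g.ker.subtype).codRestrict f.ker
        fun x => ?_) ?_
      · have h1 : g x = 1 := x.2
        show f _ = 1
        have h2 := hg x
        rw [h1] at h2
        exact h2.symm
      · intro x y hxy
        exact Subtype.ext (Subtype.ext (congrArg (fun z : f.ker => (z : G)) hxy))
    have hst : ∀ v : V, ∃ g : MulAction.stabilizer G v →* MulAction.stabilizer Q v,
        ∀ x, (g x : Q) = f x := fun v =>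
      ⟨(f.comp (MulAction.stabilizer G v).subtype).codRestrict _ fun x => x.2, fun _ => rfl⟩
    have hst2 : ∀ a : V × V, ∃ g : MulAction.stabilizer G a →* MulAction.stabilizer Q a,
        ∀ x, (g x : Q) = f x := fun a =>
      ⟨(f.comp (MulAction.stabilizer G a).subtype).codRestrict _ fun x => x.2, fun _ => rfl⟩
    refine TN.tree G V T (PT.tcomp hT f fun _ _ => rfl) (fun v => ?_) (fun u v huv => ?_)
      (fun u v huv => ?_)
    · obtain ⟨g, hg⟩ := hst v
      exact ihv v _ g (key g hg)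
    · obtain ⟨g, hg⟩ := hst2 (u, v)
      exact ihe u v huv _ g (key g hg)
    · obtain ⟨g, hg⟩ := hst2 (u, v)
      exact (hp u v huv).ext g (key g hg)

theorem TN.of_injective {G : Type} [Group G] (h : TN G) (H : Type) [Group H] (f : H →* G)
    (hf : Function.Injective f) : TN H := by
  refine h.ext H f (PolyZ.triv _ ⟨fun x y => Subtype.ext (hf ?_)⟩)
  have h1 : f x = 1 := x.2
  have h2 : f y = 1 := y.2
  rw [h1, h2]

theorem TN.prod {G A : Type} [Group G] [Group A] (hG : TN G) (hA : PolyZ A) : TN (G × A) := by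
  refine hG.ext _ (MonoidHom.fst G A) (PT.PSub.of_injective A hA _
    ((MonoidHom.snd G A).comp (Subgroup.subtype _)) ?_)
  intro x y hxy
  have h1 : (x : G × A).1 = 1 := x.2
  have h2 : (y : G × A).1 = 1 := y.2
  exact Subtype.ext (Prod.ext (h1.trans h2.symm) hxy)

theorem TN.rcs {D : Type} [Group D] (h : TN D) : MT.RCs D :=
  MT.rcs_of_rc fun m => rc_of_regCoh (h.regCoh m) (h.projStFree m)

/-! ## Local membership -/

/-- Groups which are locally in `TN`. -/
def LTN (P : Type) [Group P] : Prop :=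
  ∀ s : Finset P, ∃ K : Subgroup P, (s : Set P) ⊆ K ∧ TN K

theorem LTN.rcs {P : Type} [Group P] (h : LTN P) : MT.RCs P :=
  MT.stRCU P fun s => by
    obtain ⟨K, hsK, hK⟩ := h s
    exact ⟨K, hsK, hK.rcs⟩

theorem LTN.ext {R Q : Type} [Group R] [Group Q] (hQ : LTN Q) (g : R →* Q) (hk : PolyZ g.ker) :
    LTN R := by
  classical
  intro s
  obtain ⟨K, hsK, hK⟩ := hQ (s.image g)
  let g' : K.comap g →* K := (g.comp (K.comap g).subtype).codRestrict K fun x => x.2
  refine ⟨K.comap g, fun x hx => hsK (by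
    rw [Finset.coe_image]
    exact ⟨x, hx, rfl⟩), hK.ext _ g' ?_⟩
  refine PT.PSub.of_injective _ hk _
    (((K.comap g).subtype.comp g'.ker.subtype).codRestrict g.ker fun x => ?_) ?_
  · have h1 : g' x = 1 := x.2
    exact congrArg Subtype.val h1
  · intro x y hxy
    exact Subtype.ext (Subtype.ext (congrArg (fun z : g.ker => (z : R)) hxy))

theorem LTN.prod {P Q : Type} [Group P] [Group Q] (hP : LTN P) (hQ : LPZ Q) : LTN (P × Q) := by
  classical
  intro s
  obtain ⟨K, hsK, hK⟩ := hP (s.image Prod.fst)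
  obtain ⟨L, hsL, hL⟩ := hQ (s.image Prod.snd)
  refine ⟨K.prod L, fun x hx => ⟨hsK (by
    rw [Finset.coe_image]
    exact ⟨x, hx, rfl⟩), hsL (by
    rw [Finset.coe_image]
    exact ⟨x, hx, rfl⟩)⟩, ?_⟩
  refine (hK.prod hL).of_injective _
    ((((MonoidHom.fst P Q).comp (K.prod L).subtype).codRestrict K fun x => x.2.1).prod
      (((MonoidHom.snd P Q).comp (K.prod L).subtype).codRestrict L fun x => x.2.2)) ?_
  intro x y hxy
  have h1 : (x.1.1 : P) = y.1.1 := congrArg (fun z => (z.1 : P)) hxy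
  have h2 : (x.1.2 : Q) = y.1.2 := congrArg (fun z => (z.2 : Q)) hxy
  exact Subtype.ext (Prod.ext h1 h2)

/-- These groups are base groups of level one. -/
theorem LTN.b1 {P : Type} [Group P] (h : LTN P) : XP.B1 P := fun _ _ _ _ g hA hN =>
  ((h.prod hA).ext g hN).rcs

/-! ## Dihedral actions -/

/-- **Dihedral actions on lines.** It is enough to treat the subgroups on which the translation
parts of the translations are zero. -/
theorem dihN (r : ℕ) : ∀ (K : Type) [Group K] (_ : VPZ K) (ε : K →* ℤˣ) (μ : Fin r → K → ℤ)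
    (_ : ∀ i g h, μ i (g * h) = μ i g + ε g * μ i h)
    (_ : ∀ K₀ : Subgroup K, (∀ g ∈ K₀, ε g = 1 → ∀ i, μ i g = 0) → TN K₀), TN K := by
  induction r with
  | zero =>
    intro K _ hV ε μ hμ h
    refine (h ⊤ fun g _ _ i => i.elim0).of_injective K
      ((MonoidHom.id K).codRestrict ⊤ fun _ => trivial) fun x y hxy => congrArg Subtype.val hxy
  | succ r ih =>
    intro K _ hV ε μ hμ h
    let _ : MulAction K ℤ := dihAct ε (μ 0) (hμ 0)
    have key : ∀ v : ℤ, TN (MulAction.stabilizer K v) := by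
      intro v
      obtain ⟨S, hS⟩ : ∃ S : Subgroup K, S = MulAction.stabilizer K v := ⟨_, rfl⟩
      have hS' : ∀ x : S, (ε x : ℤ) * v + 2 * μ 0 x = v := by
        rw [hS]
        exact fun x => x.2
      rw [← hS]
      refine ih S (hV.sub S) (ε.comp S.subtype) (fun i g => μ i.succ g)
        (fun i g h => hμ i.succ g h) fun K₀ hK₀ => ?_
      have h1 : TN (K₀.map S.subtype) := by
        refine h _ ?_
        rintro _ ⟨g, hg, rfl⟩ h2 i
        refine Fin.cases ?_ (fun i => hK₀ g hg h2 i) i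
        have h3 := hS' g
        have h4 : ε (g : K) = 1 := h2
        rw [h4, Units.val_one] at h3
        show μ 0 (g : K) = 0
        omega
      refine h1.of_injective K₀
        ((S.subtype.comp K₀.subtype).codRestrict _ fun x => ⟨x, x.2, rfl⟩) fun x y hxy => ?_
      exact Subtype.ext (Subtype.ext (congrArg (fun z : K₀.map S.subtype => (z : K)) hxy))
    refine TN.tree K ℤ lineG (dih_treeAct ε (μ 0) (hμ 0)) key (fun u v huv => ?_)
      fun u v huv => hV.sub _
    refine (key u).of_injective _ ((MulAction.stabilizer K (u, v)).subtype.codRestrict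
      (MulAction.stabilizer K u) fun γ => congrArg Prod.fst (γ.2 : (γ : K) • (u, v) = (u, v)))
      fun x y hxy => ?_
    exact Subtype.ext (congrArg (fun z : MulAction.stabilizer K u => (z : K)) hxy)

/-- The same for a crossed homomorphism with values in a finitely generated module. -/
theorem dihM {K M : Type} [Group K] [AddCommGroup M] [Module.IsTorsionFree ℤ M] (hV : VPZ K)
    (B : Submodule ℤ M) (hB : B.FG) (ε : K →* ℤˣ) (m : K → M) (hm : ∀ g, m g ∈ B)
    (hmul : ∀ g h, m (g * h) = ((ε h : ℤˣ) : ℤ) • m g + m h)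
    (h : ∀ K₀ : Subgroup K, (∀ g ∈ K₀, ε g = 1 → m g = 0) → TN K₀) : TN K := by
  have hfin : Module.Finite ℤ B := Module.Finite.iff_fg.2 hB
  let b := Module.finBasis ℤ B
  have hεinv : ∀ g, ε g⁻¹ = ε g := fun g => by
    rw [map_inv]
    exact Int.units_inv_eq_self _
  refine dihN (Module.finrank ℤ B) K hV ε (fun i g => b.repr ⟨m g⁻¹, hm g⁻¹⟩ i)
    (fun i g h => ?_) fun K₀ hK₀ => h K₀ fun g hg hε => ?_
  · have h1 : (⟨m (g * h)⁻¹, hm (g * h)⁻¹⟩ : B) = ⟨m g⁻¹, hm g⁻¹⟩ +
        ((ε g : ℤˣ) : ℤ) • ⟨m h⁻¹, hm h⁻¹⟩ := by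
      apply Subtype.ext
      show m (g * h)⁻¹ = m g⁻¹ + ((ε g : ℤˣ) : ℤ) • m h⁻¹
      rw [mul_inv_rev, hmul, hεinv, add_comm]
    show b.repr _ i = b.repr _ i + _ * b.repr _ i
    rw [h1, map_add, map_smul, Finsupp.add_apply, Finsupp.smul_apply, smul_eq_mul]
  · have h1 := hK₀ g⁻¹ (K₀.inv_mem hg) (by rw [hεinv]; exact hε)
    have h2 : (⟨m g⁻¹⁻¹, hm g⁻¹⁻¹⟩ : B) = 0 := by
      refine b.repr.injective (Finsupp.ext fun i => ?_)
      rw [map_zero]
      exact h1 i
    have h3 : m g⁻¹⁻¹ = 0 := congrArg Subtype.val h2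
    rwa [inv_inv] at h3

/-- Characters. -/
theorem dihC {K J : Type} [Group K] [Finite J] (hV : VPZ K) (δ : J → K →* Multiplicative ℤ)
    (h : ∀ K₀ : Subgroup K, (∀ g ∈ K₀, ∀ j, δ j g = 1) → TN K₀) : TN K := by
  obtain ⟨r, ⟨e⟩⟩ := Finite.exists_equiv_fin J
  refine dihN r K hV 1 (fun i g => (δ (e.symm i) g).toAdd) (fun i g h => ?_)
    fun K₀ hK₀ => h K₀ fun g hg j => ?_
  · rw [map_mul, toAdd_mul, MonoidHom.one_apply, Units.val_one, one_mul]
  · have h1 := hK₀ g hg rfl (e j)
    rw [e.symm_apply_apply] at h1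
    exact h1

end Pool.Agent.Lib.MP_551055_al.JK
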