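import Mathlib
import Pool.Agent.Lib.MP_551055_al.Trim.BT.Poly
import Pool.Agent.Lib.MP_551055_al.Trim.JK.Aff0
import Pool.Agent.Lib.MP_551055_al.Trim.JK.Inv
import Pool.Agent.Lib.MP_551055_al.Trim.JK.Jung
import Pool.Agent.Lib.MP_551055_al.Trim.JK.Stab
import Pool.Agent.Lib.MP_551055_al.Trim.JK.TameN
import Pool.Agent.Lib.MP_551055_al.Trim.JK.Types0
import Pool.Agent.Lib.MP_551055_al.Trim.LD.NG
import Pool.Agent.Lib.MP_551055_al.Trim.LS.PStmts
import Pool.Agent.Lib.MP_551055_al.Trim.LS.Stmts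
import Pool.Agent.Lib.MP_551055_al.Trim.MT.K1
import Pool.Agent.Lib.MP_551055_al.Trim.MT.RCU
import Pool.Agent.Lib.MP_551055_al.Trim.PT.PSub
import Pool.Agent.Lib.MP_551055_al.Trim.RI.Basic
import Pool.Agent.Lib.MP_551055_al.Trim.RI.Main
import Pool.Agent.Lib.MP_551055_al.Trim.RI.Stmts
import Pool.Agent.Lib.MP_551055_al.Trim.RI.T2B
import Pool.Agent.Lib.MP_551055_al.Trim.T4.Perf
import Pool.Agent.Lib.MP_551055_al.Trim.T6.GenF

/-!
# Groups with two homomorphisms of small type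
-/

set_option autoImplicit false

namespace Pool.Agent.Lib.MP_551055_al
end Pool.Agent.Lib.MP_551055_al

namespace Pool.Agent.Lib.MP_551055_al.LS
end Pool.Agent.Lib.MP_551055_al.LS

namespace Pool.Agent.Lib.MP_551055_al.RI
end Pool.Agent.Lib.MP_551055_al.RI

namespace Pool.Agent.Lib.MP_551055_al.JK

open Pool.Agent.Lib.MP_551055_al

open Pool.Agent.Lib.MP_551055_al.LS

open Pool.Agent.Lib.MP_551055_al.RI

/-! ## Virtual control -/

/-- There is a subgroup of finite index such that a subgroup of it is poly-`ℤ` if its subgroups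
with images of finite order are. -/
def VC {K M : Type} [Group K] [Group M] (ρ : K →* M) : Prop :=
  ∃ S : Subgroup K, S.FiniteIndex ∧ ∀ K₀ : Subgroup K, K₀ ≤ S →
    (∀ K₁ : Subgroup K, K₁ ≤ K₀ → (∀ g ∈ K₁, IsOfFinOrder (ρ g)) → PolyZ K₁) → PolyZ K₀

/-- A subgroup of a subgroup. -/
theorem polyZ_of_map {K : Type} [Group K] {K₀ : Subgroup K} (K₁ : Subgroup K₀)
    (h : PolyZ (K₁.map K₀.subtype)) : PolyZ K₁ := by
  refine PT.PSub.of_injective _ h K₁
    ((K₀.subtype.comp K₁.subtype).codRestrict _ fun x => ⟨x, x.2, rfl⟩) fun x y hxy => ?_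
  exact Subtype.ext (Subtype.ext (congrArg (fun z : K₁.map K₀.subtype => (z : K)) hxy))

theorem map_le {K : Type} [Group K] {K₀ : Subgroup K} (K₁ : Subgroup K₀) :
    K₁.map K₀.subtype ≤ K₀ := by
  rintro _ ⟨x, -, rfl⟩
  exact x.2

section

variable {k : Type} [Field k] [CharZero k] {K : Type} [Group K]

theorem TriC.vc {ρ : K →* Aut2 k} (h : TriC ρ) : VC ρ := by
  obtain ⟨α, h⟩ := h
  obtain ⟨ε, η, hd⟩ := h.signs
  refine ⟨ε.ker ⊓ η.ker, ?_, fun K₀ hK₀ H => ?_⟩
  · have h1 : ε.ker.FiniteIndex := Subgroup.finiteIndex_ker ε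
    have h2 : η.ker.FiniteIndex := Subgroup.finiteIndex_ker η
    infer_instance
  · refine (h.comp K₀.subtype).pc (fun g => ?_) fun K₁ hK₁ => polyZ_of_map K₁ (H _ (map_le K₁) ?_)
    · have h1 := hd g
      rw [(hK₀ g.2).1, (hK₀ g.2).2, Units.val_one, Int.cast_one] at h1
      exact h1
    · rintro _ ⟨g, hg, rfl⟩
      exact cj_fin (hK₁ g hg)

theorem AffT.vc {ρ : K →* Aut2 k} (h : AffT ρ) : VC ρ := by
  obtain ⟨hW, -, ⟨V, hV, hVt⟩, -, ⟨S, hS, hS1⟩⟩ := h
  refine ⟨S, hS, fun K₀ hK₀ H => ?_⟩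
  refine polyZ_of_hom V hV (fun g : K₀ => tt (ρ g)) (fun g => hVt _) (fun g h => ?_)
    fun K₁ hK₁ => polyZ_of_map K₁ (H _ (map_le K₁) ?_)
  · rw [Subgroup.coe_mul, map_mul, tt_mul _ (hW _), hS1 _ (hK₀ h.2), Matrix.vecMul_one,
      add_comm]
  · rintro _ ⟨g, hg, rfl⟩
    have h1 : ρ (g : K) = 1 := eq_one_of (hW _) (hS1 _ (hK₀ g.2)) (hK₁ g hg)
    show IsOfFinOrder (ρ (g : K))
    rw [h1]
    exact IsOfFinOrder.one

/-- The two types. -/
def Ty (ρ : K →* Aut2 k) : Prop := TriC ρ ∨ AffT ρ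

omit [CharZero k] in
theorem Ty.comp {ρ : K →* Aut2 k} (h : Ty ρ) {H : Type} [Group H] (i : H →* K) :
    Ty (ρ.comp i) := h.imp (fun h => h.comp i) fun h => h.comp i

theorem Ty.vc {ρ : K →* Aut2 k} (h : Ty ρ) : VC ρ := h.elim (fun h => h.vc) fun h => h.vc

end

/-! ## Two homomorphisms -/

/-- Two homomorphisms and a homomorphism to a poly-`ℤ` group are jointly injective up to finite
order. -/
def J2 {K M M' : Type} [Group K] [Group M] [Group M'] (ρ : K →* M) (ρ' : K →* M') : Prop :=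
  ∃ (P : Type) (_ : Group P) (π : K →* P), PolyZ P ∧
    ∀ g, IsOfFinOrder (ρ g) → IsOfFinOrder (ρ' g) → π g = 1 → g = 1

theorem J2.comp {K M M' : Type} [Group K] [Group M] [Group M'] {ρ : K →* M} {ρ' : K →* M'}
    (h : J2 ρ ρ') {H : Type} [Group H] (i : H →* K) (hi : Function.Injective i) :
    J2 (ρ.comp i) (ρ'.comp i) := by
  obtain ⟨P, iP, π, hP, h⟩ := h
  refine ⟨P, iP, π.comp i, hP, fun g h1 h2 h3 => hi ?_⟩
  rw [map_one]
  exact h _ h1 h2 h3

/-- Characters and a homomorphism to a poly-`ℤ` group. -/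
theorem J2.of_chars {K M M' J P : Type} [Group K] [Group M] [Group M'] [Finite J] [Group P]
    {ρ : K →* M} {ρ' : K →* M'} (hP : PolyZ P) (δ : J → K →* Multiplicative ℤ) (π : K →* P)
    (h : ∀ g, IsOfFinOrder (ρ g) → IsOfFinOrder (ρ' g) → (∀ j, δ j g = 1) → π g = 1 → g = 1) :
    J2 ρ ρ' := by
  refine ⟨(J → Multiplicative ℤ) × P, inferInstance, (MonoidHom.pi δ).prod π,
    polyZ_prod _ (BT.polyZ_of_finite _ (fun j => Pi.evalMonoidHom _ j) fun x hx => funext hx) _ hP,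
    fun g h1 h2 h3 => h g h1 h2 (fun j => ?_) (congrArg Prod.snd h3)⟩
  exact congrFun (congrArg Prod.fst h3) j

/-- Groups with two controlled homomorphisms are virtually poly-`ℤ`. -/
theorem vpz_of_vc {K M M' : Type} [Group K] [Group M] [Group M'] {ρ : K →* M} {ρ' : K →* M'}
    (h1 : VC ρ) (h2 : VC ρ') (hj : J2 ρ ρ') : VPZ K := by
  obtain ⟨S, hS, H⟩ := h1
  obtain ⟨S', hS', H'⟩ := h2
  obtain ⟨P, iP, π, hP, hj⟩ := hj
  refine ⟨S ⊓ S', inferInstance, H _ inf_le_left fun K₁ hK₁ h3 =>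
    H' _ (hK₁.trans inf_le_right) fun K₂ hK₂ h4 => ?_⟩
  refine PT.PSub.of_injective P hP K₂ (π.comp K₂.subtype) ?_
  refine (injective_iff_map_eq_one _).2 fun x hx => Subtype.ext ?_
  exact hj _ (h3 _ (hK₂ x.2)) (h4 _ x.2) hx

/-- **Homomorphisms to poly-`ℤ` groups.** -/
theorem dihP : ∀ (P : Type) [Group P] (_ : PolyZ P) (K : Type) [Group K] (_ : VPZ K) (π : K →* P)
    (_ : ∀ K₀ : Subgroup K, (∀ g ∈ K₀, π g = 1) → TN K₀), TN K := by
  intro P _ hP
  induction hP with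
  | triv P hP =>
    intro K _ hV π h
    refine (h ⊤ fun g _ => Subsingleton.elim _ _).of_injective K
      ((MonoidHom.id K).codRestrict ⊤ fun _ => trivial) fun x y hxy => congrArg Subtype.val hxy
  | ext P f hf hk ih =>
    intro K _ hV π h
    refine dihC (J := Unit) hV (fun _ => f.comp π) fun K₀ hK₀ => ?_
    have h1 : ∀ x : K₀, π x ∈ f.ker := fun x => hK₀ x x.2 ()
    refine ih K₀ (hV.sub K₀) ((π.comp K₀.subtype).codRestrict f.ker h1) fun K₁ hK₁ => ?_
    have h2 : TN (K₁.map K₀.subtype) := by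
      refine h _ ?_
      rintro _ ⟨g, hg, rfl⟩
      exact congrArg Subtype.val (hK₁ g hg)
    refine h2.of_injective K₁
      ((K₀.subtype.comp K₁.subtype).codRestrict _ fun x => ⟨x, x.2, rfl⟩) fun x y hxy => ?_
    exact Subtype.ext (Subtype.ext (congrArg (fun z : K₁.map K₀.subtype => (z : K)) hxy))

section

variable {k : Type} [Field k] [CharZero k] {k' : Type} [Field k'] [CharZero k'] {K : Type}
  [Group K]

theorem Ty.vpz {ρ : K →* Aut2 k} {ρ' : K →* Aut2 k'} (h : Ty ρ) (h' : Ty ρ') (hj : J2 ρ ρ') :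
    VPZ K := vpz_of_vc h.vc h'.vc hj

/-- One homomorphism. -/
theorem Ty.tn1 (hV : VPZ K) {ρ : K →* Aut2 k} (h : Ty ρ)
    (hfin : ∀ g, IsOfFinOrder (ρ g) → g = 1) : TN K := by
  rcases h with h | h
  · refine h.red hV fun K₀ hK₀ => TN.poly _ (PolyZ.triv _ ⟨fun x y => ?_⟩)
    have key : ∀ x : K₀, x = 1 := fun x => Subtype.ext (hfin _ (hK₀ _ x.2))
    rw [key x, key y]
  · exact TN.poly _ (h.core hfin)

/-- One of the homomorphisms is triangular. -/
theorem TriC.tn2 (hV : VPZ K) {ρ : K →* Aut2 k} {ρ' : K →* Aut2 k'} (h : TriC ρ) (h' : Ty ρ')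
    (hfin : ∀ g, IsOfFinOrder (ρ g) → IsOfFinOrder (ρ' g) → g = 1) : TN K :=
  h.red hV fun K₀ hK₀ => (h'.comp K₀.subtype).tn1 (hV.sub K₀) fun g hg =>
    Subtype.ext (hfin _ (hK₀ _ g.2) hg)

/-- **Two homomorphisms of small type.** -/
theorem Ty.tn {ρ : K →* Aut2 k} {ρ' : K →* Aut2 k'} (h : Ty ρ) (h' : Ty ρ') (hj : J2 ρ ρ') :
    TN K := by
  have hV := h.vpz h' hj
  obtain ⟨P, iP, π, hP, hj⟩ := hj
  refine dihP P hP K hV π fun K₀ hK₀ => ?_
  have hfin : ∀ g : K₀, IsOfFinOrder ((ρ.comp K₀.subtype) g) →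
      IsOfFinOrder ((ρ'.comp K₀.subtype) g) → g = 1 := fun g h1 h2 =>
    Subtype.ext (hj _ h1 h2 (hK₀ _ g.2))
  have hV₀ := hV.sub K₀
  rcases h with h | h
  · exact (h.comp K₀.subtype).tn2 hV₀ (h'.comp K₀.subtype) hfin
  rcases h' with h' | h'
  · exact (h'.comp K₀.subtype).tn2 hV₀ (Or.inr (h.comp K₀.subtype)) fun g h1 h2 => hfin g h2 h1
  rcases aff_two (h.comp K₀.subtype) (h'.comp K₀.subtype) hfin with h1 | h1
  · exact h1.tn2 hV₀ (Or.inr (h'.comp K₀.subtype)) hfin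
  · exact h1.tn2 hV₀ (Or.inr (h.comp K₀.subtype)) fun g h1 h2 => hfin g h2 h1

/-! ## One of the homomorphisms acts on a tree -/

/-- The homomorphism is triangular, or there is a tree such that the restrictions to the vertex
stabilisers are affine. -/
def PT0 {L : Type} [Group L] (ρ : L →* Aut2 k) : Prop :=
  TriC ρ ∨ ∃ t : BTree L, ∀ v : t.V, AffT (ρ.comp (MulAction.stabilizer L v).subtype)

/-- **The first homomorphism is of small type, the second one may act on a tree.** -/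
theorem PT0.tn {ρ : K →* Aut2 k} {ρ' : K →* Aut2 k'} (h : Ty ρ) (h' : PT0 ρ') (hj : J2 ρ ρ') :
    TN K := by
  rcases h' with h' | ⟨t, ht⟩
  · exact h.tn (Or.inl h') hj
  · have key : ∀ v : t.V, TN (MulAction.stabilizer K v) ∧ VPZ (MulAction.stabilizer K v) := by
      intro v
      have h1 := h.comp (MulAction.stabilizer K v).subtype
      have h2 := hj.comp (MulAction.stabilizer K v).subtype Subtype.val_injective
      exact ⟨h1.tn (Or.inr (ht v)) h2, h1.vpz (Or.inr (ht v)) h2⟩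
    let i : ∀ u v : t.V, MulAction.stabilizer K (u, v) →* MulAction.stabilizer K u := fun u v =>
      (MulAction.stabilizer K (u, v)).subtype.codRestrict (MulAction.stabilizer K u)
        fun γ => congrArg Prod.fst (γ.2 : (γ : K) • (u, v) = (u, v))
    have hi : ∀ u v, Function.Injective (i u v) := fun u v x y hxy =>
      Subtype.ext (congrArg (fun z : MulAction.stabilizer K u => (z : K)) hxy)
    exact TN.tree K t.V t.T t.tree (fun v => (key v).1)
      (fun u v _ => (key u).1.of_injective _ (i u v) (hi u v))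
      fun u v _ => (key u).2.of_injective (i u v) (hi u v)

/-- Local structure. -/
def LocP {E : Type} [Group E] (ρ : E →* Aut2 k) : Prop :=
  ∀ (L : Type) [Group L] [Group.FG L] (g : L →* E), PT0 (ρ.comp g)

omit [CharZero k] in
theorem LocP.comp {E : Type} [Group E] {ρ : E →* Aut2 k} (h : LocP ρ) {H : Type} [Group H]
    (i : H →* E) : LocP (ρ.comp i) := fun L _ _ g => h L (i.comp g)

/-- The same locally. -/
theorem ltn_of_loc {ρ : K →* Aut2 k} {ρ' : K →* Aut2 k'} (h : Ty ρ) (h' : LocP ρ')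
    (hj : ∀ (L : Type) [Group L] [Group.FG L] (g : L →* K), Function.Injective g →
      J2 (ρ.comp g) (ρ'.comp g)) : LTN K := by
  intro s
  have hfg : Group.FG (Subgroup.closure (s : Set K)) :=
    (Group.fg_iff_subgroup_fg _).2 ⟨s, rfl⟩
  exact ⟨Subgroup.closure (s : Set K), Subgroup.subset_closure,
    PT0.tn (h.comp (Subgroup.closure (s : Set K)).subtype)
      (h' _ (Subgroup.closure (s : Set K)).subtype) (hj _ _ Subtype.val_injective)⟩

/-- **Two homomorphisms with local structure.** -/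
theorem t2b_of_loc {E : Type} [Group E] {ρ : E →* Aut2 k} {ρ' : E →* Aut2 k'} (h : LocP ρ)
    (h' : LocP ρ') (hj : ∀ (L : Type) [Group L] [Group.FG L] (g : L →* E), Function.Injective g →
      J2 (ρ.comp g) (ρ'.comp g)) : T2B E := by
  intro s
  obtain ⟨L, hL⟩ : ∃ L : Subgroup E, L = Subgroup.closure (s : Set E) := ⟨_, rfl⟩
  have hfg : Group.FG L := (Group.fg_iff_subgroup_fg _).2 ⟨s, hL.symm⟩
  have hsL : (s : Set E) ⊆ L := by
    rw [hL]
    exact Subgroup.subset_closure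
  have hj' : ∀ (H : Type) [Group H] [Group.FG H] (g : H →* L), Function.Injective g →
      J2 ((ρ.comp L.subtype).comp g) ((ρ'.comp L.subtype).comp g) := fun H _ _ g hg =>
    hj H (L.subtype.comp g) (Subtype.val_injective.comp hg)
  rcases h L L.subtype with h1 | ⟨t, ht⟩
  · have h2 : LTN L := ltn_of_loc (Or.inl h1) (h'.comp L.subtype) hj'
    exact ⟨L, BTree.pt L, hsL, fun v => h2.b1.of_injective xp_ok
      (MulAction.stabilizer L v).subtype Subtype.val_injective⟩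
  · refine ⟨L, t, hsL, fun v => LTN.b1 ?_⟩
    exact ltn_of_loc (Or.inr (ht v)) ((h'.comp L.subtype).comp (MulAction.stabilizer L v).subtype)
      fun H _ _ g hg => hj' H ((MulAction.stabilizer L v).subtype.comp g)
        (Subtype.val_injective.comp hg)

end

end Pool.Agent.Lib.MP_551055_al.JK
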