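import Mathlib
import Pool.Agent.Lib.MP_551055_al.Trim.BT.Mixed
import Pool.Agent.Lib.MP_551055_al.Trim.BT.SL2Z
import Pool.Agent.Lib.MP_551055_al.Trim.BT.Stab
import Pool.Agent.Lib.MP_551055_al.Trim.BT.Tree
import Pool.Agent.Lib.MP_551055_al.Trim.BT.Unip
import Pool.Agent.Lib.MP_551055_al.Trim.GL.Chars
import Pool.Agent.Lib.MP_551055_al.Trim.GL.Dich
import Pool.Agent.Lib.MP_551055_al.Trim.GL.GLZ
import Pool.Agent.Lib.MP_551055_al.Trim.GL.TreesF
import Pool.Agent.Lib.MP_551055_al.Trim.JK.Aff0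
import Pool.Agent.Lib.MP_551055_al.Trim.JK.Inv
import Pool.Agent.Lib.MP_551055_al.Trim.JK.Jung
import Pool.Agent.Lib.MP_551055_al.Trim.JK.Loc0
import Pool.Agent.Lib.MP_551055_al.Trim.JK.Planes
import Pool.Agent.Lib.MP_551055_al.Trim.JK.Rel
import Pool.Agent.Lib.MP_551055_al.Trim.JK.Stab
import Pool.Agent.Lib.MP_551055_al.Trim.JK.Tri0
import Pool.Agent.Lib.MP_551055_al.Trim.JK.Types0
import Pool.Agent.Lib.MP_551055_al.Trim.JK.Types1
import Pool.Agent.Lib.MP_551055_al.Trim.LS.PStmts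
import Pool.Agent.Lib.MP_551055_al.Trim.LS.Pos
import Pool.Agent.Lib.MP_551055_al.Trim.MT.K1
import Pool.Agent.Lib.MP_551055_al.Trim.RI.Linear
import Pool.Agent.Lib.MP_551055_al.Trim.RI.Stmts
import Pool.Agent.Lib.MP_551055_al.Trim.RI.T2B

/-!
# Local structure of the stabilisers of the affine plane, bases
-/

set_option autoImplicit false

namespace Pool.Agent.Lib.MP_551055_al
end Pool.Agent.Lib.MP_551055_al

namespace Pool.Agent.Lib.MP_551055_al.LS
end Pool.Agent.Lib.MP_551055_al.LS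

namespace Pool.Agent.Lib.MP_551055_al.RI
end Pool.Agent.Lib.MP_551055_al.RI

namespace Pool.Agent.Lib.MP_551055_al.GL
end Pool.Agent.Lib.MP_551055_al.GL

namespace Pool.Agent.Lib.MP_551055_al.BT
end Pool.Agent.Lib.MP_551055_al.BT

namespace Pool.Agent.Lib.MP_551055_al.JK

open MvPolynomial Pointwise

open Pool.Agent.Lib.MP_551055_al

open Pool.Agent.Lib.MP_551055_al.LS

open Pool.Agent.Lib.MP_551055_al.RI

open Pool.Agent.Lib.MP_551055_al.GL

open Pool.Agent.Lib.MP_551055_al.BT (GL2 SLZ exists_conj treeAct_comp HasTrees)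

section Upper

variable {F : Type} [Field F] [Algebra ℚ F]

theorem upper_entries (hF : ∀ A : Subalgebra ℚ F, A.FG → Nonempty (A →ₐ[ℚ] ℚ)) {E : Type}
    [Group E] (ρ : E →* GL2 F) (φ : E →* GLZ)
    (htr : ∀ γ, (ρ γ).val.trace = algebraMap ℚ F (((φ γ).val.trace : ℤ) : ℚ))
    (hdet : ∀ γ, (ρ γ).val.det = algebraMap ℚ F (((φ γ).val.det : ℤ) : ℚ)) (n : E)
    (hn : φ n = 1) (b : F) (hb : b ≠ 0) (hρ : (ρ n).val = !![1, b; 0, 1]) (γ : E) :
    (ρ γ).val 1 0 = 0 ∧ ((ρ γ).val 0 0 = 1 ∨ (ρ γ).val 0 0 = -1) ∧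
      ((ρ γ).val 1 1 = 1 ∨ (ρ γ).val 1 1 = -1) := by
  have h10 : (ρ γ).val 1 0 = 0 := by
    have h1 : (ρ (n * (γ * n * γ⁻¹))).val.trace = 2 := by
      have h2 : φ (n * (γ * n * γ⁻¹)) = 1 := by
        rw [map_mul, map_mul, map_mul, hn, map_inv, one_mul, mul_one, mul_inv_cancel]
      rw [htr, h2, Units.val_one, Matrix.trace_one, Fintype.card_fin]
      simp
    obtain ⟨W, hW⟩ : ∃ W, W = (ρ γ⁻¹).val := ⟨_, rfl⟩
    obtain ⟨M, hM⟩ : ∃ M, M = (ρ γ).val := ⟨_, rfl⟩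
    have h3 : M * W = 1 := by
      rw [hM, hW, ← Units.val_mul, ← map_mul, mul_inv_cancel, map_one, Units.val_one]
    have h4 : W * M = 1 := by
      rw [hM, hW, ← Units.val_mul, ← map_mul, inv_mul_cancel, map_one, Units.val_one]
    rw [map_mul, map_mul, map_mul, Units.val_mul, Units.val_mul, Units.val_mul, ← hW, ← hM,
      hρ, Matrix.trace_fin_two] at h1
    have a00 := congrFun (congrFun h3 0) 0
    have a10 := congrFun (congrFun h3 1) 0
    have a11 := congrFun (congrFun h3 1) 1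
    have b10 := congrFun (congrFun h4 1) 0
    have b11 := congrFun (congrFun h4 1) 1
    rw [Matrix.mul_apply, Fin.sum_univ_two, Matrix.one_apply_eq] at a00 a11 b11
    rw [Matrix.mul_apply, Fin.sum_univ_two, Matrix.one_apply_ne (by decide)] at a10 b10
    simp only [Matrix.mul_apply, Fin.sum_univ_two, Matrix.of_apply, Matrix.cons_val',
      Matrix.cons_val_zero, Matrix.cons_val_one, Matrix.cons_val_fin_one] at h1
    rw [← hM]
    have h5 : b ^ 2 * (M 1 0 * W 1 0) = 0 := by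
      linear_combination h1 - a00 - a11 - b * a10 - b * b10
    have h6 : M 1 0 * W 1 0 = 0 := (mul_eq_zero.1 h5).resolve_left (pow_ne_zero 2 hb)
    rcases mul_eq_zero.1 h6 with h7 | h7
    · exact h7
    · rw [h7] at b10 b11
      have h8 : W 1 1 ≠ 0 := by
        intro h0
        rw [h0] at b11
        simp at b11
      rw [zero_mul, zero_add] at b10
      exact (mul_eq_zero.1 b10).resolve_left h8
  have hd : (ρ γ).val 0 0 * (ρ γ).val 1 1 = algebraMap ℚ F (((φ γ).val.det : ℤ) : ℚ) := by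
    rw [← hdet, Matrix.det_fin_two, h10, mul_zero, sub_zero]
  refine ⟨h10, ?_, ?_⟩
  · refine root_int hF _ (φ γ).val.trace (φ γ).val.det (GLZ.det_cases (φ γ)) ?_
    rw [← htr, ← hd, Matrix.trace_fin_two]
    ring
  · refine root_int hF _ (φ γ).val.trace (φ γ).val.det (GLZ.det_cases (φ γ)) ?_
    rw [← htr, ← hd, Matrix.trace_fin_two]
    ring

/-- A nontrivial element of the kernel. -/
theorem exists_upper (hF : ∀ A : Subalgebra ℚ F, A.FG → Nonempty (A →ₐ[ℚ] ℚ)) {E : Type}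
    [Group E] (ρ : E →* GL2 F) (φ : E →* GLZ)
    (htr : ∀ γ, (ρ γ).val.trace = algebraMap ℚ F (((φ γ).val.trace : ℤ) : ℚ))
    (hdet : ∀ γ, (ρ γ).val.det = algebraMap ℚ F (((φ γ).val.det : ℤ) : ℚ)) (n : E)
    (hn : φ n = 1) (hn1 : ρ n ≠ 1) : ∃ U : GL2 F, ∀ γ,
      (U⁻¹ * ρ γ * U).val 0 1 = 0 ∧ ((U⁻¹ * ρ γ * U).val 0 0 = 1 ∨ (U⁻¹ * ρ γ * U).val 0 0 = -1) ∧
        ((U⁻¹ * ρ γ * U).val 1 1 = 1 ∨ (U⁻¹ * ρ γ * U).val 1 1 = -1) := by
  have hdn : (ρ n).val.det = 1 := by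
    rw [hdet, hn, Units.val_one, Matrix.det_one]
    simp
  have htn : (ρ n).val.trace = 2 := by
    rw [htr, hn, Units.val_one, Matrix.trace_one, Fintype.card_fin]
    simp
  obtain ⟨u, h00, h10, h11⟩ := exists_conj (⟨(ρ n).val, hdn⟩ : BT.SL2 F) (by
    rw [Matrix.trace_fin_two] at htn
    exact htn)
  obtain ⟨U, hU⟩ : ∃ U : GL2 F, U = Matrix.SpecialLinearGroup.toGL u := ⟨_, rfl⟩
  have hval : ∀ γ, ((MulAut.conj U⁻¹).toMonoidHom.comp ρ γ) = U⁻¹ * ρ γ * U := by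
    intro γ
    change U⁻¹ * ρ γ * U⁻¹⁻¹ = _
    rw [inv_inv]
  have hx : (U⁻¹ * ρ n * U).val = (u⁻¹ * ⟨(ρ n).val, hdn⟩ * u).1 := by
    rw [hU]
    rfl
  have key := upper_entries hF ((MulAut.conj U⁻¹).toMonoidHom.comp ρ) φ (fun γ => by
      rw [hval, Units.val_mul, Matrix.trace_mul_comm, ← Units.val_mul, mul_inv_cancel_left, htr])
    (fun γ => by
      rw [hval, Units.val_mul, Units.val_mul, Matrix.det_mul_right_comm, ← Units.val_mul,
        inv_mul_cancel, Units.val_one, one_mul, hdet]) n hn ((U⁻¹ * ρ n * U).val 0 1) (by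
      intro h0
      refine hn1 ?_
      have h1 : U⁻¹ * ρ n * U = 1 := by
        refine Units.ext ?_
        rw [Units.val_one]
        ext i j
        fin_cases i <;> fin_cases j
        · rw [hx]
          exact h00
        · exact h0
        · rw [hx]
          exact h10
        · rw [hx]
          exact h11
      have h2 : ρ n = U * (U⁻¹ * ρ n * U) * U⁻¹ := by group
      rw [h2, h1, mul_one, mul_inv_cancel]) (by
      rw [hval]
      ext i j
      fin_cases i <;> fin_cases j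
      · rw [hx]
        exact h00
      · rfl
      · rw [hx]
        exact h10
      · rw [hx]
        exact h11)
  obtain ⟨w, hw⟩ : ∃ w : GL2 F, w.val = !![0, 1; 1, 0] :=
    ⟨Matrix.GeneralLinearGroup.mkOfDetNeZero !![0, 1; 1, 0] (by
      rw [Matrix.det_fin_two_of]
      norm_num), rfl⟩
  refine ⟨U * w, fun γ => ?_⟩
  obtain ⟨k1, k2, k3⟩ := key γ
  rw [hval] at k1 k2 k3
  obtain ⟨M, hM⟩ : ∃ M : GL2 F, M = U⁻¹ * ρ γ * U := ⟨_, rfl⟩
  rw [← hM] at k1 k2 k3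
  obtain ⟨N, hN⟩ : ∃ N : GL2 F, N = (U * w)⁻¹ * ρ γ * (U * w) := ⟨_, rfl⟩
  rw [← hN]
  have h1 : w * N = M * w := by
    rw [hN, hM]
    group
  have h2 : w.val * N.val = M.val * w.val := by rw [← Units.val_mul, h1, Units.val_mul]
  rw [hw] at h2
  have e10 := congrFun (congrFun h2 1) 0
  have e11 := congrFun (congrFun h2 1) 1
  have e01 := congrFun (congrFun h2 0) 1
  simp only [Matrix.mul_apply, Fin.sum_univ_two, Matrix.of_apply, Matrix.cons_val',
    Matrix.cons_val_zero, Matrix.cons_val_one, Matrix.cons_val_fin_one, one_mul, zero_mul,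
    mul_one, mul_zero, zero_add, add_zero] at e10 e11 e01
  rw [e10, e11, e01]
  exact ⟨k1, k3, k2⟩

end Upper

section Loc

variable {F : Type} [Field F] [Algebra ℚ F]

/-- **The stabiliser of the affine plane.** -/
theorem loc_W [CharZero F] (hF : ∀ A : Subalgebra ℚ F, A.FG → Nonempty (A →ₐ[ℚ] ℚ)) {L : Type}
    [Group L] [Group.FG L] (ρ : L →* Aut2 F) (hW : ∀ g, ρ g • W0 F = W0 F) (φ : L →* GLZ)
    (htr : ∀ γ, (linH ρ hW γ).val.trace = algebraMap ℚ F (((φ γ).val.trace : ℤ) : ℚ))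
    (hdet : ∀ γ, (linH ρ hW γ).val.det = algebraMap ℚ F (((φ γ).val.det : ℤ) : ℚ)) : PT0 ρ := by
  by_cases hN : ∀ γ, φ γ = 1 → linH ρ hW γ = 1
  · right
    have hint : ∀ z : ℤ, algebraMap ℚ F (z : ℚ) = (z : F) := fun z => by simp
    obtain ⟨V, hV, hVt⟩ := exists_modV ρ hW (fun g => ⟨_, (htr g).trans (hint _)⟩)
      fun g => ⟨_, (hdet g).trans (hint _)⟩
    refine ⟨⟨SLZ.Vx, MulAction.compHom _ φ, SLZ.T, treeAct_comp GLZ.treeAct φ⟩, fun v => ?_⟩
    obtain ⟨S, hS⟩ : ∃ S : Subgroup L, S = @MulAction.stabilizer L SLZ.Vx _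
      (MulAction.compHom _ φ) v := ⟨_, rfl⟩
    have hS' : ∀ g : S, φ g • (show SLZ.Vx from v) = v := by
      rw [hS]
      exact fun g => g.2
    show AffT (ρ.comp (@MulAction.stabilizer L SLZ.Vx _ (MulAction.compHom _ φ) v).subtype)
    rw [← hS]
    let ψ : S →* MulAction.stabilizer GLZ (show SLZ.Vx from v) := (φ.comp S.subtype).codRestrict _ hS'
    have hfin : Finite (MulAction.stabilizer GLZ (show SLZ.Vx from v)) := finite_stab _
    refine ⟨fun g => hW g, fun g => ?_, ⟨V, hV, fun g => hVt g⟩, ⟨24, by norm_num, fun g => ?_⟩,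
      ⟨ψ.ker, Subgroup.finiteIndex_ker ψ, fun g hg => ?_⟩⟩
    · have h1 : (lin (ρ (g : L))).det = algebraMap ℚ F (((φ g).val.det : ℤ) : ℚ) := hdet g
      rcases GLZ.det_cases (φ (g : L)) with h | h
      · left
        show (lin (ρ (g : L))).det = 1
        rw [h1, h]
        simp
      · right
        show (lin (ρ (g : L))).det = -1
        rw [h1, h]
        simp
    · have h1 : φ ((g : L) ^ 24) = 1 := by
        rw [map_pow]
        exact GLZ.pow_eq_one (φ g) v (hS' g)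
      have h2 := hN _ h1
      rw [map_pow] at h2
      exact congrArg Units.val h2
    · have h1 : φ (g : L) = 1 := congrArg Subtype.val hg
      exact congrArg Units.val (hN _ h1)
  · left
    push Not at hN
    obtain ⟨n, hn, hn1⟩ := hN
    obtain ⟨U, hU⟩ := exists_upper hF (linH ρ hW) φ htr hdet n hn hn1
    have hval : ∀ g, (U⁻¹ * linH ρ hW g * U).val = lin (cj ρ (la U) g) := by
      intro g
      rw [(cj_la hW U g).2.1]
      rfl
    have hd : ∀ g, HasDiag (cj ρ (la U) g) ((U⁻¹ * linH ρ hW g * U).val 0 0)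
        ((U⁻¹ * linH ρ hW g * U).val 1 1) := by
      intro g
      have h1 := (hU g).1
      rw [hval] at h1 ⊢
      exact (aff_diag (cj_la hW U g).1 h1).1
    exact ⟨la U, fun g => ⟨_, _, (hU g).2.1, (hU g).2.2, hd g⟩,
      exists_mod (cj ρ (la U)) (fun g => (U⁻¹ * linH ρ hW g * U).val 0 0)
        (fun g => (U⁻¹ * linH ρ hW g * U).val 1 1) (fun g => (hU g).2.1) (fun g => (hU g).2.2) hd⟩

/-- Normalised vertex stabilisers. -/
def Fix0 {K : Type} [Group K] (ρ : K →* Aut2 F) : Prop :=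
  (∀ g, ρ g • W0 F = W0 F) ∨ ∀ g, ρ g • L0 F = L0 F

omit [Algebra ℚ F] in
theorem Fix0.comp {K : Type} [Group K] {ρ : K →* Aut2 F} (h : Fix0 ρ) {H : Type} [Group H]
    (i : H →* K) : Fix0 (ρ.comp i) := h.imp (fun h g => h (i g)) fun h g => h (i g)

/-- **Vertex stabilisers.** -/
theorem hasTC_fix [CharZero F] (hF : ∀ A : Subalgebra ℚ F, A.FG → Nonempty (A →ₐ[ℚ] ℚ))
    {K : Type} [Group K] [Group.FG K] (ρ : K →* Aut2 F) (h : Fix0 ρ) :
    HasTC K fun H => LocP (ρ.comp H.subtype) := by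
  rcases h with hW | hL
  · refine (hasTC_int F hF (linH ρ hW)).mono fun H ⟨φ, h1, h2⟩ L _ _ g => ?_
    exact loc_W hF ((ρ.comp H.subtype).comp g) (fun x => hW _) (φ.comp g) (fun x => h1 (g x))
      fun x => h2 (g x)
  · obtain ⟨σ, hσ⟩ := exists_diagL ρ hL
    obtain ⟨J, hJ, χ, hχ⟩ := Lin.exists_chars σ fun a b => mul_comm _ _
    refine ⟨J, hJ, χ, hasTrees_of_all fun H hH L _ _ g => Or.inl ?_⟩
    have h1 : ∀ x : L, ((σ (g x : K)).1 : F) = 1 ∨ ((σ (g x : K)).1 : F) = -1 := by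
      intro x
      obtain ⟨n, hn, e⟩ := isOfFinOrder_iff_pow_eq_one.1 (hχ _ (hH _ (g x).2))
      refine unit_root hF hn.ne' (?_ : ((σ (g x : K)).1 : F) ^ n = 1)
      exact congrArg (fun z : Fˣ × Fˣ => (z.1 : F)) e
    have h2 : ∀ x : L, ((σ (g x : K)).2 : F) = 1 ∨ ((σ (g x : K)).2 : F) = -1 := by
      intro x
      obtain ⟨n, hn, e⟩ := isOfFinOrder_iff_pow_eq_one.1 (hχ _ (hH _ (g x).2))
      refine unit_root hF hn.ne' (?_ : ((σ (g x : K)).2 : F) ^ n = 1)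
      exact congrArg (fun z : Fˣ × Fˣ => (z.2 : F)) e
    have h3 : ∀ x : L, HasDiag (((ρ.comp H.subtype).comp g) x) ((σ (g x : K)).1 : F)
        ((σ (g x : K)).2 : F) := fun x => hσ _
    refine ⟨1, fun x => ⟨_, _, h1 x, h2 x, ?_⟩, ?_⟩
    · rw [cj_apply, inv_one, one_mul, mul_one]
      exact h3 x
    · obtain ⟨D, P, hD, hP, h4⟩ := exists_mod _ _ _ h1 h2 h3
      refine ⟨D, P, hD, hP, fun x => ?_⟩
      rw [cj_apply, inv_one, one_mul, mul_one]
      exact h4 x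

end Loc

/-! ## Bases -/

/-- **Two planes in characteristic zero.** -/
theorem tb_fix {X : Cls} (h2 : ∀ (P : Type) [Group P], T2B P → X.B1 P) {F F' : Type} [Field F]
    [Algebra ℚ F] (hF : ∀ A : Subalgebra ℚ F, A.FG → Nonempty (A →ₐ[ℚ] ℚ)) [Field F']
    [Algebra ℚ F'] (hF' : ∀ A : Subalgebra ℚ F', A.FG → Nonempty (A →ₐ[ℚ] ℚ)) {G : Type} [Group G]
    (ρ : G →* Aut2 F) (h : Fix0 ρ) (ρ' : G →* Aut2 F') (h' : Fix0 ρ') : TBL X 1 (ρ.prod ρ') := by
  have i1 : CharZero F := charZero_of_injective_algebraMap (algebraMap ℚ F).injective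
  have i2 : CharZero F' := charZero_of_injective_algebraMap (algebraMap ℚ F').injective
  intro K _ _ f Q' _ τ hτ
  refine (((hasTC_fix hF (ρ.comp f) (h.comp f)).and (hasTC_fix hF' (ρ'.comp f) (h'.comp f))).and
    (HasTC.of_hasTrees (hτ K (MonoidHom.id K)))).mono fun E ⟨⟨k1, k2⟩, ⟨I, hI, δ, k3⟩⟩ htf N _ hN σ hσ =>
      h2 _ ?_
  refine t2b_of_loc k1 k2 fun L _ _ g hg => ?_
  obtain ⟨J, hJ, χ, P, iP, π, hP, hχ⟩ := hN.chars (σ.comp g)
  refine J2.of_chars (J := I ⊕ J) hP (Sum.elim (fun i => ((δ i).comp E.subtype).comp g) χ) π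
    fun x h3 h4 h5 h6 => hg ?_
  rw [map_one]
  refine htf _ ?_
  obtain ⟨a, ha, e1⟩ := isOfFinOrder_iff_pow_eq_one.1 h3
  obtain ⟨b, hb, e2⟩ := isOfFinOrder_iff_pow_eq_one.1 h4
  obtain ⟨c, hc, e3⟩ := isOfFinOrder_iff_pow_eq_one.1 (k3 (g x) (g x).2 fun i => h5 (Sum.inl i))
  obtain ⟨d, hd, e4⟩ := isOfFinOrder_iff_pow_eq_one.1 (hχ x (fun j => h5 (Sum.inr j)) h6)
  have e1' : ρ (f (g x)) ^ a = 1 := e1
  have e2' : ρ' (f (g x)) ^ b = 1 := e2
  have e3' : τ (g x) ^ c = 1 := e3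
  have e4' : σ (g x) ^ d = 1 := e4
  have h7 : (g x) ^ (a * b * c * d) = 1 := by
    refine hσ _ ?_ ?_ ?_
    · rw [Subgroup.coe_pow, map_pow]
      refine Prod.ext ?_ ?_
      · rw [map_pow]
        change ρ (f (g x)) ^ (a * b * c * d) = 1
        rw [mul_assoc, mul_assoc, pow_mul, e1', one_pow]
      · rw [map_pow]
        change ρ' (f (g x)) ^ (a * b * c * d) = 1
        rw [mul_comm a b, mul_assoc, mul_assoc, pow_mul, e2', one_pow]
    · rw [Subgroup.coe_pow, map_pow, mul_comm (a * b) c, mul_assoc, pow_mul, e3', one_pow]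
    · rw [map_pow, mul_comm _ d, pow_mul, e4', one_pow]
  exact isOfFinOrder_iff_pow_eq_one.2
    ⟨_, Nat.mul_pos (Nat.mul_pos (Nat.mul_pos ha hb) hc) hd, h7⟩

end Pool.Agent.Lib.MP_551055_al.JK
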