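import Mathlib
import Pool.Agent.Lib.MP_551055_al.Trim.JK.Inv
import Pool.Agent.Lib.MP_551055_al.Trim.JK.Jung
import Pool.Agent.Lib.MP_551055_al.Trim.JK.Stab
import Pool.Agent.Lib.MP_551055_al.Trim.JK.Tree

/-!
# The stabilisers of long segments in characteristic zero
-/

set_option autoImplicit false

namespace Pool.Agent.Lib.MP_551055_al.JK

open MvPolynomial Pointwise

section Poly

variable {k : Type} [Field k]

/-- A polynomial which is periodic up to a constant. -/
theorem shift_zero [CharZero k] {p : Polynomial k} (hp : 2 ≤ p.natDegree) {d e : k}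
    (h : p.comp (Polynomial.X + Polynomial.C d) = p + Polynomial.C e) : d = 0 := by
  by_contra hd
  have h1 : (Polynomial.derivative p).comp (Polynomial.X + Polynomial.C d) =
      Polynomial.derivative p := by
    have := congrArg Polynomial.derivative h
    rw [Polynomial.derivative_comp, Polynomial.derivative_add, Polynomial.derivative_X,
      Polynomial.derivative_C, add_zero, one_mul, Polynomial.derivative_add,
      Polynomial.derivative_C, add_zero] at this
    exact this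
  have h2 : ∀ m : ℕ, (Polynomial.derivative p).eval ((m : k) * d) =
      (Polynomial.derivative p).eval 0 := by
    intro m
    induction m with
    | zero => simp
    | succ m ih =>
      have h3 := congrArg (Polynomial.eval ((m : k) * d)) h1
      rw [Polynomial.eval_comp] at h3
      simp only [Polynomial.eval_add, Polynomial.eval_X, Polynomial.eval_C] at h3
      rw [← ih, ← h3]
      congr 1
      push_cast
      ring
  have h3 : Polynomial.derivative p = Polynomial.C ((Polynomial.derivative p).eval 0) := by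
    refine Polynomial.eq_of_infinite_eval_eq _ _ ?_
    refine Set.Infinite.mono (s := Set.range fun m : ℕ => (m : k) * d) ?_ ?_
    · rintro _ ⟨m, rfl⟩
      show (Polynomial.derivative p).eval ((m : k) * d) = Polynomial.eval _ (Polynomial.C _)
      rw [Polynomial.eval_C, h2]
    · refine Set.infinite_range_of_injective fun a b hab => ?_
      exact Nat.cast_injective (mul_right_cancel₀ hd hab)
  have h4 := congrArg Polynomial.natDegree h3
  rw [Polynomial.natDegree_C] at h4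
  have h5 := Polynomial.degree_derivative (p := p) (by omega)
  have h6 : (Polynomial.derivative p).natDegree = p.natDegree - 1 :=
    Polynomial.natDegree_eq_of_degree_eq_some h5
  omega

/-- The leading coefficients. -/
theorem lead_eq {p : Polynomial k} (hp : 1 ≤ p.natDegree) {a c d e : k} (hc : c ≠ 0)
    (h : p.comp (Polynomial.C c * Polynomial.X + Polynomial.C d) =
      Polynomial.C a * p + Polynomial.C e) : c ^ p.natDegree = a := by
  have hq : (Polynomial.C c * Polynomial.X + Polynomial.C d).natDegree = 1 :=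
    Polynomial.natDegree_linear hc
  have hl : (Polynomial.C c * Polynomial.X + Polynomial.C d).leadingCoeff = c :=
    Polynomial.leadingCoeff_linear hc
  have hp0 : p ≠ 0 := by
    rintro rfl
    simp at hp
  have h1 := congrArg (fun r : Polynomial k => r.coeff p.natDegree) h
  have h2 : (p.comp (Polynomial.C c * Polynomial.X + Polynomial.C d)).coeff p.natDegree =
      p.leadingCoeff * c ^ p.natDegree := by
    have h3 := Polynomial.leadingCoeff_comp (p := p)
      (q := Polynomial.C c * Polynomial.X + Polynomial.C d) (by omega)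
    rw [Polynomial.leadingCoeff, Polynomial.natDegree_comp, hq, mul_one, hl] at h3
    exact h3
  rw [h2, Polynomial.coeff_add, Polynomial.coeff_C_mul, Polynomial.coeff_C,
    if_neg (by omega), add_zero] at h1
  have h4 : p.leadingCoeff ≠ 0 := Polynomial.leadingCoeff_ne_zero.2 hp0
  have h5 : p.leadingCoeff * c ^ p.natDegree = p.leadingCoeff * a := by
    rw [h1, Polynomial.leadingCoeff]
    ring
  exact mul_left_cancel₀ h4 h5

end Poly

section Lines

variable {k : Type} [Field k]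

theorem mem_smul_L0 {η : Aut2 k} {A : P2 k} :
    A ∈ η • L0 k ↔ ∃ u v : k, A = C u + C v * η (X 1) := by
  have h1 : η • L0 k = (L0 k).map (η : P2 k →ₐ[k] P2 k).toLinearMap := rfl
  rw [h1, Submodule.mem_map]
  constructor
  · rintro ⟨B, hB, rfl⟩
    obtain ⟨u, v, rfl⟩ := Submodule.mem_span_pair.1 hB
    refine ⟨u, v, ?_⟩
    show η (u • 1 + v • X 1) = _
    rw [map_add, map_smul, map_smul, map_one, smul_eq_C_mul, smul_eq_C_mul, mul_one]
  · rintro ⟨u, v, rfl⟩
    refine ⟨u • 1 + v • X 1, Submodule.mem_span_pair.2 ⟨u, v, rfl⟩, ?_⟩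
    show η (u • 1 + v • X 1) = _
    rw [map_add, map_smul, map_smul, map_one, smul_eq_C_mul, smul_eq_C_mul, mul_one]

/-- The multiplier on a line. -/
theorem exists_mult {ψ η : Aut2 k} (h : ψ • η • L0 k = η • L0 k) :
    ∃ e a : k, a ≠ 0 ∧ ψ (η (X 1)) = C e + C a * η (X 1) := by
  have h1 : ψ (η (X 1)) ∈ η • L0 k := by
    rw [← h]
    exact mem_smul ψ (mem_smul η X1_mem_L0)
  obtain ⟨e, a, h2⟩ := mem_smul_L0.1 h1
  refine ⟨e, a, ?_, h2⟩
  rintro rfl
  rw [C_0, zero_mul, add_zero] at h2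
  have h3 := one_le_deg (ψ * η) 1
  have h4 : (ψ * η) (X 1) = C e := h2
  rw [h4, totalDegree_C] at h3
  omega

theorem el0_sw_X1 (p : Polynomial k) :
    (el0 p * sw : Aut2 k) (X 1) = X 0 + Polynomial.aeval (X 1) p := by
  show el0 p (sw (X 1)) = _
  rw [sw_X1, el0_X0]

theorem el0_sw_X0 (p : Polynomial k) : (el0 p * sw : Aut2 k) (X 0) = X 1 := by
  show el0 p (sw (X 0)) = _
  rw [sw_X0, el0_X1]

/-- One step along a segment. -/
theorem step_seg {χ φ ω : Aut2 k} (h1 : φ • L0 k = χ • L0 k) (h2 : φ • W0 k ≠ χ • W0 k)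
    (h3 : ω • L0 k ≤ φ • W0 k) (h4 : ω • L0 k ≠ χ • L0 k) :
    ∃ p : Polynomial k, 2 ≤ p.natDegree ∧ ω • L0 k = (χ * (el0 p * sw)) • L0 k ∧
      φ • W0 k = (χ * (el0 p * sw)) • W0 k := by
  obtain ⟨τ, hτ⟩ : ∃ τ, τ = χ⁻¹ * φ := ⟨_, rfl⟩
  obtain ⟨ω', hω⟩ : ∃ ω', ω' = χ⁻¹ * ω := ⟨_, rfl⟩
  have hφ : φ = χ * τ := by rw [hτ, mul_inv_cancel_left]
  have hω2 : ω = χ * ω' := by rw [hω, mul_inv_cancel_left]
  have e1 : τ • L0 k = L0 k := by rw [hτ, mul_smul, h1, inv_smul_smul]
  have e2 : τ • W0 k ≠ W0 k := by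
    intro h
    rw [hφ, mul_smul, h] at h2
    exact h2 rfl
  have e3 : ω' • L0 k ≤ τ • W0 k := by
    have := smul_mono χ⁻¹ h3
    rwa [← mul_smul, ← mul_smul, ← hω, ← hτ] at this
  have e4 : ω' • L0 k ≠ L0 k := by
    intro h
    rw [hω2, mul_smul, h] at h4
    exact h4 rfl
  obtain ⟨α, c, d, p0, hα, hc, f1, f0⟩ := tri_form2 e1
  have hg : ω' (X 1) ∈ τ • W0 k := e3 (mem_smul ω' X1_mem_L0)
  have hg2 : τ.symm (ω' (X 1)) ∈ W0 k := (mem_smul_iff _ _ _).1 hg
  obtain ⟨u, v, w, huvw⟩ := Submodule.mem_span_triple.1 hg2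
  have hC : ∀ (σ : Aut2 k) (e : k), σ (C e) = C e := fun σ e => σ.commutes e
  have hg3 : ω' (X 1) = C u + C v * τ (X 0) + C w * τ (X 1) := by
    rw [← τ.apply_symm_apply (ω' (X 1)), ← huvw]
    simp only [map_add, map_mul, hC, smul_eq_C_mul, mul_one]
  have hv : v ≠ 0 := by
    rintro rfl
    apply e4
    have h5 : ω' • L0 k ≤ (1 : Aut2 k) • L0 k := by
      refine smul_L0_le (one_mem_smul one_mem_L0) ?_
      rw [mem_smul_L0]
      refine ⟨u + w * d, w * c, ?_⟩
      rw [hg3, f1]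
      simp only [C_0, zero_mul, add_zero, C_add, C_mul, AlgEquiv.one_apply]
      ring
    have := L_eq_of_le h5
    rwa [one_smul] at this
  obtain ⟨p, hp⟩ : ∃ p : Polynomial k, p = Polynomial.C (v * α)⁻¹ *
      (Polynomial.C (u + w * d) + Polynomial.C v * p0 + Polynomial.C (w * c) * Polynomial.X) :=
    ⟨_, rfl⟩
  have hva : v * α ≠ 0 := mul_ne_zero hv hα
  have hcc : (C v * C α * C (v * α)⁻¹ : P2 k) = 1 := by
    rw [← C_mul, ← C_mul, mul_inv_cancel₀ hva, C_1]
  have hg4 : ω' (X 1) = C (v * α) * (el0 p * sw : Aut2 k) (X 1) := by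
    rw [el0_sw_X1, hg3, f1, f0, hp]
    simp only [map_add, map_mul, Polynomial.aeval_C, Polynomial.aeval_X, algebraMap_eq]
    linear_combination (-(C u + C w * C d + C v * Polynomial.aeval (X 1) p0 +
      C w * C c * X 1 : P2 k)) * hcc
  have hL : ω' • L0 k = (el0 p * sw : Aut2 k) • L0 k := by
    refine L_eq_of_le (smul_L0_le (one_mem_smul one_mem_L0) ?_)
    rw [mem_smul_L0]
    exact ⟨0, v * α, by rw [hg4, C_0, zero_add]⟩
  have hW : (el0 p * sw : Aut2 k) • W0 k = τ • W0 k := by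
    refine W_eq_of_le (smul_W0_le (one_mem_smul one_mem_W0) ?_ ?_)
    · rw [el0_sw_X0]
      have h5 : (X 1 : P2 k) ∈ τ • L0 k := by
        rw [e1]
        exact X1_mem_L0
      exact smul_mono τ L0_le h5
    · have h5 : (el0 p * sw : Aut2 k) (X 1) = (v * α)⁻¹ • ω' (X 1) := by
        rw [hg4, smul_eq_C_mul, ← mul_assoc, ← C_mul, inv_mul_cancel₀ hva, C_1, one_mul]
      rw [h5]
      exact Submodule.smul_mem _ _ hg
  refine ⟨p, ?_, ?_, ?_⟩
  · by_contra h5
    apply e2
    rw [← hW]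
    have hp1 := Polynomial.eq_X_add_C_of_natDegree_le_one (show p.natDegree ≤ 1 by omega)
    have h6 : (el0 p * sw : Aut2 k) • W0 k ≤ (1 : Aut2 k) • W0 k := by
      rw [one_smul]
      refine smul_W0_le one_mem_W0 ?_ ?_
      · rw [el0_sw_X0]
        exact X1_mem_W0
      · have h7 : (X 0 : P2 k) + Polynomial.aeval (X 1) (Polynomial.C (p.coeff 1) *
            Polynomial.X + Polynomial.C (p.coeff 0)) =
            X 0 + (p.coeff 1 • X 1 + p.coeff 0 • 1) := by
          simp [smul_eq_C_mul, algebraMap_eq]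
        rw [el0_sw_X1, hp1, h7]
        exact add_mem X0_mem_W0 (add_mem (Submodule.smul_mem _ _ X1_mem_W0)
          (Submodule.smul_mem _ _ one_mem_W0))
    have := W_eq_of_le h6
    rwa [one_smul] at this
  · rw [hω2, mul_smul, hL, ← mul_smul]
  · rw [hφ, mul_smul, ← hW, ← mul_smul]

end Lines

section Four

variable {k : Type} [Field k]

theorem pow_line {ψ : Aut2 k} {A : P2 k} {e a : k} (h : ψ A = C e + C a * A) (n : ℕ) :
    ∃ e' : k, (ψ ^ n) A = C e' + C (a ^ n) * A := by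
  induction n with
  | zero => exact ⟨0, by rw [pow_zero, pow_zero, C_0, C_1, one_mul, zero_add]; rfl⟩
  | succ n ih =>
    obtain ⟨e', h'⟩ := ih
    refine ⟨e' + a ^ n * e, ?_⟩
    have hC : ∀ (σ : Aut2 k) (e : k), σ (C e) = C e := fun σ e => σ.commutes e
    rw [pow_succ']
    show ψ ((ψ ^ n) A) = _
    rw [h', map_add, map_mul, hC, hC, h]
    simp only [C_add, C_mul, pow_succ]
    ring

/-- The relations for an automorphism which preserves four lines. -/
theorem rel_four {ψ : Aut2 k} {p q : Polynomial k} {e a d c e3 a3 e4 a4 : k}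
    (h1 : ψ (X 0) = C e + C a * X 0) (h2 : ψ (X 1) = C d + C c * X 1)
    (h3 : ψ (X 0 + Polynomial.aeval (X 1) p) = C e3 + C a3 * (X 0 + Polynomial.aeval (X 1) p))
    (h4 : ψ (X 1 + Polynomial.aeval (X 0 + Polynomial.aeval (X 1) p) q) =
      C e4 + C a4 * (X 1 + Polynomial.aeval (X 0 + Polynomial.aeval (X 1) p) q)) :
    p.comp (Polynomial.C c * Polynomial.X + Polynomial.C d) =
        Polynomial.C a * p + Polynomial.C (e3 - e) ∧
      q.comp (Polynomial.C a * Polynomial.X + Polynomial.C e3) =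
        Polynomial.C c * q + Polynomial.C (e4 - d) := by
  have e1 := h3
  rw [map_add, ← Polynomial.aeval_algHom_apply, h1, h2] at e1
  -- values at `x = s`, `y = t`
  have v0 := fun s : k => congrArg (aeval (R := k) ![Polynomial.C s, (Polynomial.X : Polynomial k)]) e1
  simp only [map_add, map_mul, ← Polynomial.aeval_algHom_apply, aeval_X, aeval_C,
    Matrix.cons_val_zero, Matrix.cons_val_one, Polynomial.algebraMap_eq] at v0
  have ha3 : a = a3 := by
    have w0 := v0 0
    have w1 := v0 1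
    simp only [Polynomial.C_0, mul_zero, add_zero, zero_add, Polynomial.C_1, mul_one] at w0 w1
    have w2 : Polynomial.C a = Polynomial.C a3 := by linear_combination w1 - w0
    exact Polynomial.C_injective w2
  have r1 : p.comp (Polynomial.C c * Polynomial.X + Polynomial.C d) =
      Polynomial.C a * p + Polynomial.C (e3 - e) := by
    have w0 := v0 0
    simp only [Polynomial.C_0, mul_zero, add_zero, zero_add, Polynomial.aeval_X_left_apply] at w0
    rw [Polynomial.comp, ← Polynomial.algebraMap_eq, ← Polynomial.aeval_def, add_comm]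
    rw [← ha3] at w0
    rw [Polynomial.algebraMap_eq, Polynomial.C_sub]
    linear_combination w0
  have e2 := h4
  rw [map_add, ← Polynomial.aeval_algHom_apply, h2, h3] at e2
  have u0 := fun s : k => congrArg (aeval (R := k)
    ![Polynomial.X - Polynomial.C (p.eval s), (Polynomial.C s : Polynomial k)]) e2
  have hev : ∀ s : k, Polynomial.aeval (Polynomial.C s : Polynomial k) p =
      Polynomial.C (p.eval s) := by
    intro s
    rw [← Polynomial.algebraMap_eq, Polynomial.aeval_algebraMap_apply]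
    rfl
  simp only [map_add, map_mul, ← Polynomial.aeval_algHom_apply, aeval_X, aeval_C,
    Matrix.cons_val_zero, Matrix.cons_val_one, Polynomial.algebraMap_eq, hev,
    sub_add_cancel] at u0
  have ha4 : c = a4 := by
    have w0 := u0 0
    have w1 := u0 1
    simp only [Polynomial.C_0, mul_zero, add_zero, zero_add, Polynomial.C_1, mul_one] at w0 w1
    have w2 : Polynomial.C c = Polynomial.C a4 := by linear_combination w1 - w0
    exact Polynomial.C_injective w2
  refine ⟨r1, ?_⟩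
  have w0 := u0 0
  simp only [Polynomial.C_0, mul_zero, add_zero, zero_add, Polynomial.aeval_X_left_apply] at w0
  rw [Polynomial.comp, ← Polynomial.algebraMap_eq, ← Polynomial.aeval_def, add_comm]
  rw [← ha3, ← ha4] at w0
  rw [Polynomial.algebraMap_eq, Polynomial.C_sub]
  linear_combination w0

theorem X0_of_h {ψ : Aut2 k} {p : Polynomial k} (h2 : ψ (X 1) = X 1)
    (h3 : ψ (X 0 + Polynomial.aeval (X 1) p) = X 0 + Polynomial.aeval (X 1) p) :
    ψ (X 0) = X 0 := by
  rw [map_add, ← Polynomial.aeval_algHom_apply, h2] at h3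
  exact add_right_cancel h3

/-- **Four lines.** -/
theorem fin_of_four [CharZero k] {ψ : Aut2 k} {p q : Polynomial k} (hp : 2 ≤ p.natDegree)
    (hq : 2 ≤ q.natDegree) {e a d c e3 a3 e4 a4 : k} (ha0 : a ≠ 0) (hc0 : c ≠ 0)
    (h1 : ψ (X 0) = C e + C a * X 0) (h2 : ψ (X 1) = C d + C c * X 1)
    (h3 : ψ (X 0 + Polynomial.aeval (X 1) p) = C e3 + C a3 * (X 0 + Polynomial.aeval (X 1) p))
    (h4 : ψ (X 1 + Polynomial.aeval (X 0 + Polynomial.aeval (X 1) p) q) =
      C e4 + C a4 * (X 1 + Polynomial.aeval (X 0 + Polynomial.aeval (X 1) p) q)) :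
    IsOfFinOrder ψ := by
  obtain ⟨r1, r2⟩ := rel_four h1 h2 h3 h4
  have l1 := lead_eq (by omega) hc0 r1
  have l2 := lead_eq (by omega) ha0 r2
  obtain ⟨n, hn⟩ : ∃ n, n = p.natDegree := ⟨_, rfl⟩
  obtain ⟨m, hm⟩ : ∃ m, m = q.natDegree := ⟨_, rfl⟩
  rw [← hn] at l1 hp
  rw [← hm] at l2 hq
  have hnm : 4 ≤ n * m := Nat.mul_le_mul hp hq
  have hc1 : c ^ (n * m - 1) = 1 := by
    have h5 : c ^ (n * m) = c := by rw [pow_mul, l1, l2]
    have h6 : c ^ (n * m - 1) * c = 1 * c := by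
      rw [← pow_succ, Nat.sub_add_cancel (by omega), h5, one_mul]
    exact mul_right_cancel₀ hc0 h6
  have ha1 : a ^ (n * m - 1) = 1 := by
    rw [← l1, ← pow_mul, mul_comm, pow_mul, hc1, one_pow]
  obtain ⟨N, hN⟩ : ∃ N, N = n * m - 1 := ⟨_, rfl⟩
  rw [← hN] at hc1 ha1
  obtain ⟨e', g1⟩ := pow_line h1 N
  obtain ⟨d', g2⟩ := pow_line h2 N
  obtain ⟨e3', g3⟩ := pow_line h3 N
  obtain ⟨e4', g4⟩ := pow_line h4 N
  obtain ⟨s1, s2⟩ := rel_four g1 g2 g3 g4
  rw [ha1, hc1, Polynomial.C_1, one_mul, one_mul] at s1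
  rw [ha1, hc1, Polynomial.C_1, one_mul, one_mul] at s2
  have hd' := shift_zero (by omega) s1
  have he3' := shift_zero (by omega) s2
  -- the multiplier of the third line
  have ha3 : a3 ^ N = 1 := by
    have e1 := g3
    rw [map_add, ← Polynomial.aeval_algHom_apply, g1, g2] at e1
    have v0 := fun s : k =>
      congrArg (aeval (R := k) ![Polynomial.C s, (Polynomial.X : Polynomial k)]) e1
    simp only [map_add, map_mul, ← Polynomial.aeval_algHom_apply, aeval_X, aeval_C,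
      Matrix.cons_val_zero, Matrix.cons_val_one, Polynomial.algebraMap_eq] at v0
    have w0 := v0 0
    have w1 := v0 1
    simp only [Polynomial.C_0, mul_zero, add_zero, zero_add, Polynomial.C_1, mul_one] at w0 w1
    have w2 : Polynomial.C (a3 ^ N) = Polynomial.C (a ^ N) := by linear_combination w0 - w1
    rw [← ha1]
    exact Polynomial.C_injective w2
  rw [hd', hc1, C_0, C_1, zero_add, one_mul] at g2
  rw [he3', ha3, C_0, C_1, zero_add, one_mul] at g3
  refine isOfFinOrder_iff_pow_eq_one.2 ⟨N, by omega, aut2_ext ?_ ?_⟩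
  · exact X0_of_h g2 g3
  · exact g2

end Four

section Segment

variable {k : Type} [Field k]

/-- Coordinates for two lines in a vertex. -/
theorem first_norm {φ ω : Aut2 k} (h1 : ω • L0 k ≤ φ • W0 k) (h2 : ω • L0 k ≠ φ • L0 k) :
    ∃ χ : Aut2 k, χ • W0 k = φ • W0 k ∧ χ • L0 k = φ • L0 k ∧ (χ * sw) • L0 k = ω • L0 k := by
  obtain ⟨ω', hω⟩ : ∃ ω', ω' = φ⁻¹ * ω := ⟨_, rfl⟩
  have hω2 : ω = φ * ω' := by rw [hω, mul_inv_cancel_left]
  have e3 : ω' • L0 k ≤ W0 k := by
    have := smul_mono φ⁻¹ h1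
    rwa [← mul_smul, ← hω, inv_smul_smul] at this
  have hg : ω' (X 1) ∈ W0 k := e3 (mem_smul ω' X1_mem_L0)
  obtain ⟨u, v, w, huvw⟩ := Submodule.mem_span_triple.1 hg
  have hg3 : ω' (X 1) = C u + C v * X 0 + C w * X 1 := by
    rw [← huvw]
    simp only [smul_eq_C_mul, mul_one]
  have hv : v ≠ 0 := by
    rintro rfl
    apply h2
    have h5 : ω' • L0 k ≤ (1 : Aut2 k) • L0 k := by
      refine smul_L0_le (one_mem_smul one_mem_L0) ?_
      rw [mem_smul_L0]
      refine ⟨u, w, ?_⟩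
      rw [hg3]
      simp only [C_0, zero_mul, add_zero, AlgEquiv.one_apply]
    have h6 := L_eq_of_le h5
    rw [one_smul] at h6
    rw [hω2, mul_smul, h6]
  obtain ⟨η, hη⟩ : ∃ η : Aut2 k, η = el0 (Polynomial.C (w / v) * Polynomial.X) := ⟨_, rfl⟩
  have g0 : η (X 0) = X 0 + C (w / v) * X 1 := by
    rw [hη, el0_X0]
    simp [algebraMap_eq]
  have g1 : η (X 1) = X 1 := by rw [hη, el0_X1]
  have hL : η • L0 k = L0 k := by
    have h5 : η • L0 k ≤ (1 : Aut2 k) • L0 k := by
      rw [one_smul]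
      exact smul_L0_le one_mem_L0 (by rw [g1]; exact X1_mem_L0)
    have h6 := L_eq_of_le h5
    rwa [one_smul] at h6
  have hW : η • W0 k = W0 k := by
    have h5 : η • W0 k ≤ (1 : Aut2 k) • W0 k := by
      rw [one_smul]
      refine smul_W0_le one_mem_W0 ?_ (by rw [g1]; exact X1_mem_W0)
      rw [g0, ← smul_eq_C_mul]
      exact add_mem X0_mem_W0 (Submodule.smul_mem _ _ X1_mem_W0)
    have h6 := W_eq_of_le h5
    rwa [one_smul] at h6
  refine ⟨φ * η, by rw [mul_smul, hW], by rw [mul_smul, hL], ?_⟩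
  have h7 : ω' • L0 k = (η * sw) • L0 k := by
    refine L_eq_of_le (smul_L0_le (one_mem_smul one_mem_L0) ?_)
    rw [mem_smul_L0]
    refine ⟨u, v, ?_⟩
    have h8 : (η * sw : Aut2 k) (X 1) = X 0 + C (w / v) * X 1 := by
      show η (sw (X 1)) = _
      rw [sw_X1, g0]
    have h9 : (C v * C (w / v) : P2 k) = C w := by
      rw [← C_mul, mul_div_cancel₀ _ hv]
    rw [h8, hg3]
    linear_combination (-(X 1 : P2 k)) * h9
  rw [mul_assoc, mul_smul, ← h7, ← mul_smul, ← hω2]

theorem step_seg2 {χ φ ω : Aut2 k} (h1 : χ • L0 k ≤ φ • W0 k) (h2 : φ • W0 k ≠ χ • W0 k)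
    (h3 : ω • L0 k ≤ φ • W0 k) (h4 : ω • L0 k ≠ χ • L0 k) :
    ∃ p : Polynomial k, 2 ≤ p.natDegree ∧ ω • L0 k = (χ * (el0 p * sw)) • L0 k ∧
      φ • W0 k = (χ * (el0 p * sw)) • W0 k := by
  have e1 : (φ⁻¹ * χ) • L0 k ≤ W0 k := by
    have := smul_mono φ⁻¹ h1
    rwa [← mul_smul, inv_smul_smul] at this
  obtain ⟨a, ha, ha2⟩ := exists_aff e1
  have e2 : (φ * a) • L0 k = χ • L0 k := by
    rw [mul_smul, ← ha2, ← mul_smul, mul_inv_cancel_left]
  have e3 : (φ * a) • W0 k = φ • W0 k := by rw [mul_smul, ha]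
  have := step_seg (χ := χ) (φ := φ * a) (ω := ω) e2 (by rwa [e3]) (by rwa [e3]) h4
  rwa [e3] at this

/-- An automorphism which preserves four consecutive lines has finite order. -/
theorem fin_of_lines [CharZero k] {ψ φ₁ φ₂ φ₃ ω₁ ω₄ : Aut2 k}
    (a1 : ω₁ • L0 k ≤ φ₁ • W0 k) (a2 : ω₁ • L0 k ≠ φ₁ • L0 k)
    (b1 : φ₁ • L0 k ≤ φ₂ • W0 k) (b2 : φ₂ • L0 k ≠ φ₁ • L0 k) (b3 : φ₂ • W0 k ≠ φ₁ • W0 k)
    (c1 : φ₂ • L0 k ≤ φ₃ • W0 k) (c2 : ω₄ • L0 k ≤ φ₃ • W0 k) (c3 : ω₄ • L0 k ≠ φ₂ • L0 k)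
    (c4 : φ₃ • W0 k ≠ φ₂ • W0 k) (h1 : ψ • ω₁ • L0 k = ω₁ • L0 k)
    (h2 : ψ • φ₁ • L0 k = φ₁ • L0 k) (h3 : ψ • φ₂ • L0 k = φ₂ • L0 k)
    (h4 : ψ • ω₄ • L0 k = ω₄ • L0 k) : IsOfFinOrder ψ := by
  obtain ⟨χ, x1, x2, x3⟩ := first_norm a1 a2
  obtain ⟨p, hp, y1, y2⟩ := step_seg2 (χ := χ) (φ := φ₂) (ω := φ₂) (by rwa [x2])
    (by rwa [x1]) (smul_mono φ₂ L0_le) (by rwa [x2])
  obtain ⟨q, hq, z1, -⟩ := step_seg2 (χ := χ * (el0 p * sw)) (φ := φ₃) (ω := ω₄)
    (by rwa [← y1]) (by rwa [← y2]) c2 (by rwa [← y1])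
  have key : ∀ η : Aut2 k, ψ • (χ * η) • L0 k = (χ * η) • L0 k →
      (χ⁻¹ * ψ * χ) • η • L0 k = η • L0 k := by
    intro η h
    rw [mul_smul, mul_smul, ← mul_smul χ η, h, mul_smul χ η, inv_smul_smul]
  have k1 := key sw (by rw [x3]; exact h1)
  have k2 := key 1 (by rw [mul_one, x2]; exact h2)
  have k3 := key (el0 p * sw) (by rw [← y1]; exact h3)
  have k4 := key ((el0 p * sw) * (el0 q * sw)) (by rw [← mul_assoc, ← z1]; exact h4)
  obtain ⟨e, a, ha, r1⟩ := exists_mult k1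
  obtain ⟨d, c, hc, r2⟩ := exists_mult k2
  obtain ⟨e3, a3, -, r3⟩ := exists_mult k3
  obtain ⟨e4, a4, -, r4⟩ := exists_mult k4
  rw [sw_X1] at r1
  rw [AlgEquiv.one_apply] at r2
  rw [el0_sw_X1] at r3
  have hX : ((el0 p * sw) * (el0 q * sw) : Aut2 k) (X 1) =
      X 1 + Polynomial.aeval (X 0 + Polynomial.aeval (X 1) p) q := by
    show (el0 p * sw : Aut2 k) ((el0 q * sw : Aut2 k) (X 1)) = _
    rw [el0_sw_X1 q, map_add, el0_sw_X0, ← Polynomial.aeval_algHom_apply, el0_sw_X1]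
  rw [hX] at r4
  exact isOfFinOrder_of_conj (fin_of_four hp hq ha hc r1 r2 r3 r4)

end Segment

end Pool.Agent.Lib.MP_551055_al.JK
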