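import Mathlib
import Pool.Agent.Lib.MP_551055_al.Trim.BT.SL2Z
import Pool.Agent.Lib.MP_551055_al.Trim.BT.Tree
import Pool.Agent.Lib.MP_551055_al.Trim.JK.Graph
import Pool.Agent.Lib.MP_551055_al.Trim.JK.Inv
import Pool.Agent.Lib.MP_551055_al.Trim.JK.Jung
import Pool.Agent.Lib.MP_551055_al.Trim.JK.Long
import Pool.Agent.Lib.MP_551055_al.Trim.JK.Tree
import Pool.Agent.Lib.MP_551055_al.Trim.LS.BassProj
import Pool.Agent.Lib.MP_551055_al.Trim.LS.Stmts
import Pool.Agent.Lib.MP_551055_al.Trim.LS.Stmts3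
import Pool.Agent.Lib.MP_551055_al.Trim.LS.TreeB
import Pool.Agent.Lib.MP_551055_al.Trim.MT.Defs
import Pool.Agent.Lib.MP_551055_al.Trim.MT.Flow2
import Pool.Agent.Lib.MP_551055_al.Trim.MT.K1
import Pool.Agent.Lib.MP_551055_al.Trim.RI.Stmts

/-!
# Long segments in the tree of the plane, characteristic zero
-/

set_option autoImplicit false

namespace Pool.Agent.Lib.MP_551055_al
end Pool.Agent.Lib.MP_551055_al

namespace Pool.Agent.Lib.MP_551055_al.LS
end Pool.Agent.Lib.MP_551055_al.LS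

namespace Pool.Agent.Lib.MP_551055_al.RI
end Pool.Agent.Lib.MP_551055_al.RI

namespace Pool.Agent.Lib.MP_551055_al.JK

open MvPolynomial Pointwise

open Pool.Agent.Lib.MP_551055_al

open Pool.Agent.Lib.MP_551055_al.LS

open Pool.Agent.Lib.MP_551055_al.RI

section

variable {V : Type} {T : SimpleGraph V}

/-- Reduced rays are geodesic. -/
theorem ray_dist (hT : T.IsTree) {x : ℕ → V} (h1 : ∀ n, T.Adj (x n) (x (n + 1)))
    (h2 : ∀ n, x n ≠ x (n + 2)) (n : ℕ) : T.dist (x 0) (x n) = n := by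
  have key : ∀ n, T.dist (x 0) (x n) = n ∧ T.dist (x 0) (x (n + 1)) = n + 1 := by
    intro n
    induction n with
    | zero => exact ⟨T.dist_self, T.dist_eq_one_iff_adj.2 (h1 0)⟩
    | succ n ih =>
      refine ⟨ih.2, ?_⟩
      have e1 : T.dist (x n) (x (n + 1)) = 1 := T.dist_eq_one_iff_adj.2 (h1 n)
      have e2 : T.dist (x (n + 2)) (x (n + 1)) = 1 := T.dist_eq_one_iff_adj.2 (h1 (n + 1)).symm
      rcases hT.dist_eq_dist_add_one_of_adj (x 0) (h1 (n + 1)) with h | h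
      · exfalso
        have h3 : T.dist (x 0) (x (n + 2)) = n := by
          show T.dist (x 0) (x (n + 1 + 1)) = n
          omega
        exact h2 n (tree_eq_of_dist hT (x := x 0) (z := x (n + 1)) (by omega) (by omega)
          (by omega))
      · omega
  exact (key n).1

end

section

variable {k : Type} [Field k] [PerfectField k]

/-- One step back. -/
theorem exists_step {ψ : Aut2 k} {u v : Vert k} {n : ℕ} (h : (Gr k).dist u v = n + 1)
    (hu : ψ • u = u) (hv : ψ • v = v) :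
    ∃ w, (Gr k).Adj w v ∧ (Gr k).dist u w = n ∧ ψ • w = w := by
  have hA : TreeAct (Aut2 k) (Vert k) (Gr k) := gr_treeAct
  obtain ⟨w, hw, hd⟩ := tree_exists_pred hA.tree h
  refine ⟨w, hw, hd, ?_⟩
  have h1 : (Gr k).Adj (ψ • w) v := by
    have := hA.adj ψ w v hw
    rwa [hv] at this
  have h2 : (Gr k).dist u (ψ • w) = n := by
    have := dist_smul_smul hA ψ u w
    rw [hu] at this
    rw [this, hd]
  have h3 : (Gr k).dist w v = 1 := (Gr k).dist_eq_one_iff_adj.2 hw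
  have h4 : (Gr k).dist (ψ • w) v = 1 := (Gr k).dist_eq_one_iff_adj.2 h1
  exact tree_eq_of_dist hA.tree (x := u) (z := v) (by rw [h, h2, h4]) (by rw [h, hd, h3])
    (by rw [h2, hd])

omit [PerfectField k] in
theorem lt_of_adj_L {φ : Aut2 k} {w : Vert k} (h : (Gr k).Adj w (vL φ)) : (vL φ).1 < w.1 := by
  rcases h with h | h
  · obtain ⟨χ, -, h2⟩ := lt_cases h
    exact absurd h2 (vL_ne_vW _ _)
  · exact h

omit [PerfectField k] in
theorem lt_of_adj_W {φ : Aut2 k} {w : Vert k} (h : (Gr k).Adj w (vW φ)) : w.1 < (vW φ).1 := by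
  rcases h with h | h
  · exact h
  · obtain ⟨χ, h1, -⟩ := lt_cases h
    exact absurd h1.symm (vL_ne_vW _ _)

omit [PerfectField k] in
theorem exists_of_adj_L {v w : Vert k} (hv : ∃ φ, v = vL φ) (h : (Gr k).Adj w v) :
    ∃ φ, v = vL φ ∧ w = vW φ := by
  obtain ⟨φ, rfl⟩ := hv
  exact lt_cases (lt_of_adj_L h)

omit [PerfectField k] in
theorem exists_of_adj_W {v w : Vert k} (hv : ∃ φ, v = vW φ) (h : (Gr k).Adj w v) :
    ∃ φ, w = vL φ ∧ v = vW φ := by
  obtain ⟨φ, rfl⟩ := hv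
  exact lt_cases (lt_of_adj_W h)

omit [PerfectField k] in
theorem L_le_W_of {φ χ : Aut2 k} (h : (Gr k).Adj (vW χ) (vL φ)) : φ • L0 k ≤ χ • W0 k :=
  (lt_of_adj_L h).le

/-- **Long segments.** Automorphisms fixing two vertices at distance at least `7` have finite
order. -/
theorem fin_of_dist [CharZero k] {ψ : Aut2 k} {u v : Vert k} (hd : 7 ≤ (Gr k).dist u v)
    (hu : ψ • u = u) (hv : ψ • v = v) : IsOfFinOrder ψ := by
  -- reduction to the case where `v` is a line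
  obtain ⟨w0, hL, hw0, hd0⟩ : ∃ w0 : Vert k, (∃ φ, w0 = vL φ) ∧ ψ • w0 = w0 ∧
      6 ≤ (Gr k).dist u w0 := by
    rcases cases_vert v with hW | hL
    · obtain ⟨n, hn⟩ : ∃ n, (Gr k).dist u v = n + 1 := ⟨(Gr k).dist u v - 1, by omega⟩
      obtain ⟨w, hw, hdw, hfw⟩ := exists_step hn hu hv
      obtain ⟨φ, h1, -⟩ := exists_of_adj_W hW hw
      exact ⟨w, ⟨φ, h1⟩, hfw, by omega⟩
    · exact ⟨v, hL, hv, by omega⟩
  obtain ⟨n, hn⟩ : ∃ n, (Gr k).dist u w0 = n + 6 := ⟨(Gr k).dist u w0 - 6, by omega⟩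
  obtain ⟨w1, a1, d1, f1⟩ := exists_step (n := n + 5) hn hu hw0
  obtain ⟨w2, a2, d2, f2⟩ := exists_step (n := n + 4) d1 hu f1
  obtain ⟨w3, a3, d3, f3⟩ := exists_step (n := n + 3) d2 hu f2
  obtain ⟨w4, a4, d4, f4⟩ := exists_step (n := n + 2) d3 hu f3
  obtain ⟨w5, a5, d5, f5⟩ := exists_step (n := n + 1) d4 hu f4
  obtain ⟨w6, a6, d6, f6⟩ := exists_step (n := n) d5 hu f5
  obtain ⟨ω₁, e0, -⟩ := exists_of_adj_L hL a1
  have t1 : ∃ φ, w1 = vW φ := by
    obtain ⟨φ, -, h⟩ := exists_of_adj_L hL a1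
    exact ⟨φ, h⟩
  obtain ⟨φ₁, e2, e1⟩ := exists_of_adj_W t1 a2
  have t3 : ∃ φ, w3 = vW φ := by
    obtain ⟨φ, -, h⟩ := exists_of_adj_L ⟨φ₁, e2⟩ a3
    exact ⟨φ, h⟩
  obtain ⟨φ₂, e4, e3⟩ := exists_of_adj_W t3 a4
  have t5 : ∃ φ, w5 = vW φ := by
    obtain ⟨φ, -, h⟩ := exists_of_adj_L ⟨φ₂, e4⟩ a5
    exact ⟨φ, h⟩
  obtain ⟨φ₃, e6, e5⟩ := exists_of_adj_W t5 a6
  have hne : ∀ {x y : Vert k} {a b : ℕ}, (Gr k).dist u x = a → (Gr k).dist u y = b → a ≠ b →
      x.1 ≠ y.1 := by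
    intro x y a b hx hy hab hxy
    have h1 : x = y := Subtype.ext hxy
    rw [h1] at hx
    exact hab (hx.symm.trans hy)
  have hval : ∀ {x : Vert k}, ψ • x = x → ψ • x.1 = x.1 := fun h => congrArg Subtype.val h
  subst e0 e1 e2 e3 e4 e5 e6
  exact fin_of_lines (φ₁ := φ₁) (φ₂ := φ₂) (φ₃ := φ₃) (ω₁ := ω₁) (ω₄ := φ₃)
    (L_le_W_of a1) (hne hn d2 (by omega)) (L_le_W_of a3) (hne d4 d2 (by omega))
    (hne d3 d1 (by omega)) (L_le_W_of a5) (L_lt_W φ₃).le (hne d6 d4 (by omega))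
    (hne d5 d3 (by omega)) (hval hw0) (hval f2) (hval f4) (hval f6)

/-- The tree of the plane, segments of length at least `7` are long. -/
noncomputable def longTree {G : Type} [Group G] (ρ : G →* Aut2 k) : TreeOn G where
  V := Vert k
  act := MulAction.compHom (Vert k) ρ
  T := Gr k
  tree := gr_comp ρ
  S u v := 7 ≤ (Gr k).dist u v
  inv g u v h := by
    have h1 : (Gr k).dist (ρ g • u) (ρ g • v) = (Gr k).dist u v :=
      dist_smul_smul gr_treeAct (ρ g) u v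
    show 7 ≤ (Gr k).dist (ρ g • u) (ρ g • v)
    rw [h1]
    exact h
  bar :=
    { pro := fun u v w h _ hd => by
        rw [hd]
        exact le_trans h (Nat.le_succ _)
      ray := fun x hx hx2 => ⟨7, by norm_num, (ray_dist gr_isTree hx hx2 7).ge⟩ }

end

end Pool.Agent.Lib.MP_551055_al.JK
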