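import Mathlib
import Pool.Agent.Lib.MP_551055_al.Trim.BT.SL2Z
import Pool.Agent.Lib.MP_551055_al.Trim.JK.Graph
import Pool.Agent.Lib.MP_551055_al.Trim.JK.Inv
import Pool.Agent.Lib.MP_551055_al.Trim.JK.Jung
import Pool.Agent.Lib.MP_551055_al.Trim.JK.Loc1
import Pool.Agent.Lib.MP_551055_al.Trim.JK.Path
import Pool.Agent.Lib.MP_551055_al.Trim.JK.Planes
import Pool.Agent.Lib.MP_551055_al.Trim.JK.Rel
import Pool.Agent.Lib.MP_551055_al.Trim.JK.Stab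
import Pool.Agent.Lib.MP_551055_al.Trim.LS.Pos
import Pool.Agent.Lib.MP_551055_al.Trim.LS.Stmts
import Pool.Agent.Lib.MP_551055_al.Trim.MT.K1
import Pool.Agent.Lib.MP_551055_al.Trim.RI.Main
import Pool.Agent.Lib.MP_551055_al.Trim.RI.Stmts
import Pool.Agent.Lib.MP_551055_al.Trim.RI.T2B
import Pool.Agent.Lib.MP_551055_al.Trim.W17.KT

/-!
# Torsion-free groups of automorphisms of two planes in characteristic zero
-/

set_option autoImplicit false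

namespace Pool.Agent.Lib.MP_551055_al
end Pool.Agent.Lib.MP_551055_al

namespace Pool.Agent.Lib.MP_551055_al.LS
end Pool.Agent.Lib.MP_551055_al.LS

namespace Pool.Agent.Lib.MP_551055_al.RI
end Pool.Agent.Lib.MP_551055_al.RI

namespace Pool.Agent.Lib.MP_551055_al.JK

open MvPolynomial Pointwise

open Pool.Agent.Lib.MP_551055_al

open Pool.Agent.Lib.MP_551055_al.LS

open Pool.Agent.Lib.MP_551055_al.RI

variable {X : Cls}

/-- Vertex stabilisers are conjugate to the normalised ones. -/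
theorem exists_fix0 {F : Type} [Field F] {K : Type} [Group K] (ρ : K →* Aut2 F) (v : Vert F)
    (h : ∀ g, ρ g • v = v) : ∃ χ, Fix0 (cj ρ χ) := by
  rcases cases_vert v with ⟨χ, rfl⟩ | ⟨χ, rfl⟩
  · refine ⟨χ, Or.inl fun g => ?_⟩
    have h1 : ρ g • χ • W0 F = χ • W0 F := congrArg Subtype.val (h g)
    rw [cj_apply, mul_smul, mul_smul, h1, inv_smul_smul]
  · refine ⟨χ, Or.inr fun g => ?_⟩
    have h1 : ρ g • χ • L0 F = χ • L0 F := congrArg Subtype.val (h g)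
    rw [cj_apply, mul_smul, mul_smul, h1, inv_smul_smul]

theorem cj_eq_one {E G : Type} [Group E] [Group G] {ρ : E →* G} {χ : G} {g : E}
    (h : cj ρ χ g = 1) : ρ g = 1 := by
  rw [cj_apply] at h
  have h1 : ρ g = χ * (χ⁻¹ * ρ g * χ) * χ⁻¹ := by group
  rw [h1, h, mul_one, mul_inv_cancel]

/-- **Bases: two homomorphisms which fix vertices.** -/
theorem tb_vert (h2 : ∀ (P : Type) [Group P], T2B P → X.B1 P) {F F' : Type} [Field F]
    [Algebra ℚ F] (hF : ∀ A : Subalgebra ℚ F, A.FG → Nonempty (A →ₐ[ℚ] ℚ)) [Field F']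
    [Algebra ℚ F'] (hF' : ∀ A : Subalgebra ℚ F', A.FG → Nonempty (A →ₐ[ℚ] ℚ)) {G : Type} [Group G]
    (ρ : G →* Aut2 F) (v : Vert F) (h : ∀ g, ρ g • v = v) (ρ' : G →* Aut2 F') (v' : Vert F')
    (h' : ∀ g, ρ' g • v' = v') : TBL X 1 (ρ.prod ρ') := by
  obtain ⟨χ, hχ⟩ := exists_fix0 ρ v h
  obtain ⟨χ', hχ'⟩ := exists_fix0 ρ' v' h'
  refine (tb_fix h2 hF hF' (cj ρ χ) hχ (cj ρ' χ') hχ').congr fun g hg => ?_
  exact Prod.ext (cj_eq_one (congrArg Prod.fst hg)) (cj_eq_one (congrArg Prod.snd hg))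

/-- One plane. -/
theorem cl_step {F : Type} [Field F] [CharZero F] {l : ℕ} (hl : l ≤ 2) {G : Type} [Group G]
    (ρ : G →* Aut2 F) (P : Subgroup G → Prop)
    (hv : ∀ (v : Vert F) (S : Subgroup G), (∀ g : S, ρ g • v = v) →
      X.Cl l S fun E => P (E.map S.subtype))
    (hs : X.Cl l G fun E => P E ∧ ∀ g ∈ E, IsOfFinOrder (ρ g)) : X.Cl l G P := by
  refine Cls.Cl.tree l G P (longTree ρ) (fun v => ?_) ?_
  · exact hv v (MulAction.stabilizer G (show (longTree ρ).V from v)) fun g => g.2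
  · rw [Nat.min_eq_left hl]
    refine hs.pull (MonoidHom.id G) (fun _ _ h => h) fun E hE => ?_
    obtain ⟨h1, u, v, huv, -, h2⟩ := hE
    rw [Subgroup.map_id]
    exact ⟨h1, fun g hg => fin_of_dist (u := u) (v := v) huv (h2 g hg).1 (h2 g hg).2⟩

section Two

variable {F F' : Type} [Field F] [Algebra ℚ F] [Field F'] [Algebra ℚ F'] {R : Type} [CommRing R]
  {G Q : Type} [Group G] [Group Q]

/-- The torsion-free subgroups for which the homomorphisms are jointly injective, up to a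
homomorphism to a group in `CL`. -/
def Jt (ρ₁ : G →* Aut2 F) (ρ₂ : G →* Aut2 F') (τ : G →* Q) (ρ₃ : G →* Aut2 R) (E : Subgroup G) :
    Prop :=
  TF E ∧ ∃ (N : Type) (_ : Group N) (_ : CL N) (σ : E →* N), ∀ g : E, IsOfFinOrder (ρ₁ g) →
    IsOfFinOrder (ρ₂ g) → IsOfFinOrder (τ g) → IsOfFinOrder (ρ₃ g) → IsOfFinOrder (σ g) → g = 1

omit [Algebra ℚ F] [Algebra ℚ F'] in
theorem Jt.sub {ρ₁ : G →* Aut2 F} {ρ₂ : G →* Aut2 F'} {τ : G →* Q} {ρ₃ : G →* Aut2 R}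
    {S : Subgroup G} {E : Subgroup S} (h : Jt ρ₁ ρ₂ τ ρ₃ (E.map S.subtype)) :
    Jt (ρ₁.comp S.subtype) (ρ₂.comp S.subtype) (τ.comp S.subtype) (ρ₃.comp S.subtype) E := by
  obtain ⟨htf, N, iN, hN, σ, hσ⟩ := h
  exact ⟨htf.of_map, N, iN, hN, σ.comp (S.subtype.subgroupMap E), fun g h1 h2 h3 h4 h5 =>
    eq_one_of_map (hσ (S.subtype.subgroupMap E g) h1 h2 h3 h4 h5)⟩

omit [Algebra ℚ F] [Algebra ℚ F'] in
/-- Jointly injective homomorphisms. -/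
theorem jt_of {ρ₁ : G →* Aut2 F} {ρ₂ : G →* Aut2 F'}
    {τ : G →* Q} {ρ₃ : G →* Aut2 R} {E : Subgroup G} (htf : TF E)
    (h : ∃ (N : Type) (_ : Group N) (_ : CL N) (σ : E →* N), ∀ g : E, ρ₁ g = 1 → ρ₂ g = 1 →
      τ g = 1 → ρ₃ g = 1 → σ g = 1 → g = 1) : Jt ρ₁ ρ₂ τ ρ₃ E := by
  obtain ⟨N, iN, hN, σ, hσ⟩ := h
  refine ⟨htf, N, iN, hN, σ, fun g h1 h2 h3 h4 h5 => ?_⟩
  obtain ⟨a, ha, e1⟩ := isOfFinOrder_iff_pow_eq_one.1 h1
  obtain ⟨b, hb, e2⟩ := isOfFinOrder_iff_pow_eq_one.1 h2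
  obtain ⟨c, hc, e3⟩ := isOfFinOrder_iff_pow_eq_one.1 h3
  obtain ⟨d, hd, e4⟩ := isOfFinOrder_iff_pow_eq_one.1 h4
  obtain ⟨e, he, e5⟩ := isOfFinOrder_iff_pow_eq_one.1 h5
  have key : g ^ (a * b * c * d * e) = 1 := by
    refine hσ _ ?_ ?_ ?_ ?_ ?_
    · rw [Subgroup.coe_pow, map_pow, mul_assoc, mul_assoc, mul_assoc, pow_mul, e1, one_pow]
    · rw [Subgroup.coe_pow, map_pow, mul_comm a b, mul_assoc, mul_assoc, mul_assoc, pow_mul, e2,
        one_pow]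
    · rw [Subgroup.coe_pow, map_pow, mul_comm (a * b) c, mul_assoc, mul_assoc, pow_mul, e3,
        one_pow]
    · rw [Subgroup.coe_pow, map_pow, mul_comm (a * b * c) d, mul_assoc, pow_mul, e4, one_pow]
    · rw [map_pow, mul_comm _ e, pow_mul, e5, one_pow]
  exact htf g (isOfFinOrder_iff_pow_eq_one.2
    ⟨_, Nat.mul_pos (Nat.mul_pos (Nat.mul_pos (Nat.mul_pos ha hb) hc) hd) he, key⟩)

/-- The leaves. -/
theorem cl_leaf (h2 : ∀ (P : Type) [Group P], T2B P → X.B1 P)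
    (hF : ∀ A : Subalgebra ℚ F, A.FG → Nonempty (A →ₐ[ℚ] ℚ))
    (hF' : ∀ A : Subalgebra ℚ F', A.FG → Nonempty (A →ₐ[ℚ] ℚ)) (n : ℕ) (hn : n ≠ 0)
    (hR : (n : R) = 0) (κ₁ : G →* Aut2 F) (v : Vert F)
    (hv : ∀ g, κ₁ g • v = v) (κ₂ : G →* Aut2 F') (v' : Vert F') (hv' : ∀ g, κ₂ g • v' = v')
    (τ : G →* Q) (hτ : LinC τ) (ρ₃ : G →* Aut2 R) (P : Subgroup G → Prop)
    (hP : ∀ E, P E → Jt κ₁ κ₂ τ ρ₃ E) : X.Cl 1 G P := by
  refine cl_of_linL 1 (by norm_num) (κ₁.prod κ₂) (tb_vert h2 hF hF' κ₁ v hv κ₂ v' hv') τ hτ R n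
    hn hR ρ₃ P fun E hE => ?_
  obtain ⟨htf, N, iN, hN, σ, hσ⟩ := hP E hE
  refine ⟨htf, N, iN, hN, σ, fun g h1 h2 h3 h4 => ?_⟩
  have e1 : κ₁ g = 1 := congrArg Prod.fst h1
  have e2 : κ₂ g = 1 := congrArg Prod.snd h1
  exact hσ g (by rw [e1]; exact IsOfFinOrder.one)
    (by rw [e2]; exact IsOfFinOrder.one) (by rw [h2]; exact IsOfFinOrder.one)
    (by rw [h3]; exact IsOfFinOrder.one) (by rw [h4]; exact IsOfFinOrder.one)

/-- **Two planes in characteristic zero, linear data, and a plane in positive characteristic.** -/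
theorem cl_planes0 (h2 : ∀ (P : Type) [Group P], T2B P → X.B1 P)
    (hF : ∀ A : Subalgebra ℚ F, A.FG → Nonempty (A →ₐ[ℚ] ℚ))
    (hF' : ∀ A : Subalgebra ℚ F', A.FG → Nonempty (A →ₐ[ℚ] ℚ)) (n : ℕ) (hn : n ≠ 0)
    (hR : (n : R) = 0) (ρ₁ : G →* Aut2 F)
    (ρ₂ : G →* Aut2 F') (τ : G →* Q) (hτ : LinC τ) (ρ₃ : G →* Aut2 R) (P : Subgroup G → Prop)
    (hP : ∀ E, P E → Jt ρ₁ ρ₂ τ ρ₃ E) : X.Cl 1 G P := by
  have i1 : CharZero F := charZero_of_injective_algebraMap (algebraMap ℚ F).injective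
  have i2 : CharZero F' := charZero_of_injective_algebraMap (algebraMap ℚ F').injective
  refine cl_step (by norm_num) ρ₁ P (fun v S hS => ?_) ?_
  · refine cl_step (by norm_num) (ρ₂.comp S.subtype) _ (fun w S' hS' => ?_) ?_
    · refine cl_leaf h2 hF hF' n hn hR
        ((ρ₁.comp S.subtype).comp S'.subtype) v (fun g => hS g)
        ((ρ₂.comp S.subtype).comp S'.subtype) w hS'
        ((τ.comp S.subtype).comp S'.subtype) ((hτ.comp _).comp _)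
        ((ρ₃.comp S.subtype).comp S'.subtype) _ fun E hE => (hP _ hE).sub.sub
    · refine cl_leaf h2 hF hF' n hn hR (ρ₁.comp S.subtype) v hS 1 (vW 1)
        (fun g => one_smul _ _) (τ.comp S.subtype) (hτ.comp _) (ρ₃.comp S.subtype) _ fun E hE => ?_
      obtain ⟨htf, N, iN, hN, σ, hσ⟩ := (hP _ hE.1).sub
      exact ⟨htf, N, iN, hN, σ, fun g h1 _ => hσ g h1 (hE.2 _ g.2)⟩
  · refine cl_step (by norm_num) ρ₂ _ (fun w S' hS' => ?_) ?_
    · refine cl_leaf h2 hF hF' n hn hR 1 (vW 1) (fun g => one_smul _ _)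
        (ρ₂.comp S'.subtype) w hS' (τ.comp S'.subtype) (hτ.comp _) (ρ₃.comp S'.subtype) _
        fun E hE => ?_
      obtain ⟨htf, N, iN, hN, σ, hσ⟩ := (hP _ hE.1).sub
      exact ⟨htf, N, iN, hN, σ, fun g _ => hσ g (hE.2 _ ⟨g, g.2, rfl⟩)⟩
    · refine cl_leaf h2 hF hF' n hn hR 1 (vW 1) (fun g => one_smul _ _) 1 (vW 1)
        (fun g => one_smul _ _) τ hτ ρ₃ _ fun E hE => ?_
      obtain ⟨htf, N, iN, hN, σ, hσ⟩ := hP _ hE.1.1
      exact ⟨htf, N, iN, hN, σ, fun g _ _ => hσ g (hE.1.2 _ g.2) (hE.2 _ g.2)⟩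

end Two

end Pool.Agent.Lib.MP_551055_al.JK
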