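import Mathlib
import Pool.Agent.Lib.MP_551055_al.Trim.BT.SL2Z
import Pool.Agent.Lib.MP_551055_al.Trim.JK.Induct
import Pool.Agent.Lib.MP_551055_al.Trim.JK.Inv
import Pool.Agent.Lib.MP_551055_al.Trim.JK.Jung
import Pool.Agent.Lib.MP_551055_al.Trim.JK.Main0
import Pool.Agent.Lib.MP_551055_al.Trim.JK.Planes
import Pool.Agent.Lib.MP_551055_al.Trim.JK.Rel
import Pool.Agent.Lib.MP_551055_al.Trim.LS.PStmts
import Pool.Agent.Lib.MP_551055_al.Trim.LS.Pos
import Pool.Agent.Lib.MP_551055_al.Trim.LS.Stmts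
import Pool.Agent.Lib.MP_551055_al.Trim.MT.Flow2
import Pool.Agent.Lib.MP_551055_al.Trim.MT.K1
import Pool.Agent.Lib.MP_551055_al.Trim.RI.Main
import Pool.Agent.Lib.MP_551055_al.Trim.RI.Stmts
import Pool.Agent.Lib.MP_551055_al.Trim.RI.T2
import Pool.Agent.Lib.MP_551055_al.Trim.RI.T2B
import Pool.Agent.Lib.MP_551055_al.Trim.VNDefs
import Pool.Agent.Lib.MP_551055_al.Trim.W17.FT
import Pool.Agent.Lib.MP_551055_al.Trim.W17.KT

/-!
# Planes and finitely many trees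
-/

set_option autoImplicit false

namespace Pool.Agent.Lib.MP_551055_al
end Pool.Agent.Lib.MP_551055_al

namespace Pool.Agent.Lib.MP_551055_al.LS
end Pool.Agent.Lib.MP_551055_al.LS

namespace Pool.Agent.Lib.MP_551055_al.RI
end Pool.Agent.Lib.MP_551055_al.RI

namespace Pool.Agent.Lib.MP_551055_al.JK

open Pool.Agent.Lib.MP_551055_al

open Pool.Agent.Lib.MP_551055_al.LS

open Pool.Agent.Lib.MP_551055_al.RI

variable {X : Cls}

/-- **One tree.** -/
theorem cl_fixV {G : Type} [Group G] {l : ℕ} (hl : l ≤ 2) (t : BTree G) (F : Subgroup G → Prop)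
    (h : X.Cl l G fun E => F E ∧ t.FixV E) : X.Cl l G F := by
  refine Cls.Cl.tree l G F t.all (fun v => ?_) ?_
  · refine h.pull (MulAction.stabilizer G v).subtype Subtype.val_injective fun E hE => ⟨hE, v, ?_⟩
    rintro _ ⟨e, -, rfl⟩
    exact e.2
  · rw [Nat.min_eq_left hl]
    refine h.pull (MonoidHom.id G) (fun _ _ h => h) fun E hE => ?_
    obtain ⟨h1, u, v, -, -, h2⟩ := hE
    rw [Subgroup.map_id]
    exact ⟨h1, u, fun e he => (h2 e he).1⟩

/-- **Finitely many trees.** -/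
theorem cl_fixVs {G : Type} [Group G] {l : ℕ} (hl : l ≤ 2) {J : Type} [Finite J]
    (t : J → BTree G) (F : Subgroup G → Prop)
    (h : X.Cl l G fun E => F E ∧ ∀ j, (t j).FixV E) : X.Cl l G F := by
  have key : ∀ (n : ℕ) (t : Fin n → BTree G) (F : Subgroup G → Prop),
      (X.Cl l G fun E => F E ∧ ∀ j, (t j).FixV E) → X.Cl l G F := by
    intro n
    induction n with
    | zero =>
      intro t F h
      refine h.pull (MonoidHom.id G) (fun _ _ h => h) fun E hE => ?_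
      rw [Subgroup.map_id]
      exact ⟨hE, fun i => i.elim0⟩
    | succ n ih =>
      intro t F h
      refine ih (fun i => t i.succ) F (cl_fixV hl (t 0) _ ?_)
      refine h.pull (MonoidHom.id G) (fun _ _ h => h) fun E hE => ?_
      rw [Subgroup.map_id]
      exact ⟨hE.1.1, fun i => Fin.cases hE.2 (fun i => hE.1.2 i) i⟩
  obtain ⟨n, ⟨e⟩⟩ := Finite.exists_equiv_fin J
  refine key n (fun i => t (e.symm i)) F ?_
  refine h.pull (MonoidHom.id G) (fun _ _ h => h) fun E hE => ?_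
  rw [Subgroup.map_id]
  refine ⟨hE.1, fun i => ?_⟩
  have h1 := hE.2 (e i)
  rwa [e.symm_apply_apply] at h1

section

variable {F F' : Type} [Field F] [Algebra ℚ F] [Field F'] [Algebra ℚ F'] {R : Type} [CommRing R]
  {G Q : Type} [Group G] [Group Q]

/-- **Two planes in characteristic zero, linear data, a plane in positive characteristic, and
finitely many trees.** -/
theorem cl_final (h2 : ∀ (P : Type) [Group P], T2B P → X.B1 P)
    (hF : ∀ A : Subalgebra ℚ F, A.FG → Nonempty (A →ₐ[ℚ] ℚ))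
    (hF' : ∀ A : Subalgebra ℚ F', A.FG → Nonempty (A →ₐ[ℚ] ℚ)) (n : ℕ) (hn : n ≠ 0)
    (hR : (n : R) = 0) (htf : ∀ g : G, IsOfFinOrder g → g = 1) (ρ₁ : G →* Aut2 F)
    (ρ₂ : G →* Aut2 F') (τ : G →* Q) (hτ : LinC τ) (ρ₃ : G →* Aut2 R)
    (hK : ∀ K : Subgroup G, K.FG → ∃ (J : Type) (_ : Finite J) (t : J → BTree K),
      ∀ E : Subgroup K, (∀ j, (t j).FixV E) → ∃ (N : Type) (_ : Group N) (_ : CL N) (σ : E →* N),
        ∀ g : E, ρ₁ g = 1 → ρ₂ g = 1 → τ g = 1 → ρ₃ g = 1 → σ g = 1 → g = 1) :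
    X.Cl 1 G fun _ => True := by
  refine cl_of_fg 1 G _ fun K hKfg => ?_
  obtain ⟨J, hJ, t, ht⟩ := hK K ((Group.fg_iff_subgroup_fg K).1 hKfg)
  refine cl_fixVs (by norm_num) t _ ?_
  exact cl_planes0 h2 hF hF' n hn hR (ρ₁.comp K.subtype) (ρ₂.comp K.subtype) (τ.comp K.subtype)
    (hτ.comp _) (ρ₃.comp K.subtype) _ fun E hE =>
      jt_of (TF.of_tf (tf_sub htf K) E) (ht E hE.2)

theorem projStFree_final (hT : W17.StT) (hF : ∀ A : Subalgebra ℚ F, A.FG → Nonempty (A →ₐ[ℚ] ℚ))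
    (hF' : ∀ A : Subalgebra ℚ F', A.FG → Nonempty (A →ₐ[ℚ] ℚ)) (n : ℕ) (hn : n ≠ 0)
    (hR : (n : R) = 0) (htf : ∀ g : G, IsOfFinOrder g → g = 1) (ρ₁ : G →* Aut2 F)
    (ρ₂ : G →* Aut2 F') (τ : G →* Q) (hτ : LinC τ) (ρ₃ : G →* Aut2 R)
    (hK : ∀ K : Subgroup G, K.FG → ∃ (J : Type) (_ : Finite J) (t : J → BTree K),
      ∀ E : Subgroup K, (∀ j, (t j).FixV E) → ∃ (N : Type) (_ : Group N) (_ : CL N) (σ : E →* N),
        ∀ g : E, ρ₁ g = 1 → ρ₂ g = 1 → τ g = 1 → ρ₃ g = 1 → σ g = 1 → g = 1) (m : ℕ) :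
    VN.ProjStFree (G × ZN m) :=
  cl_good (xt_ok hT) (cl_final (fun _ _ h => h.b1) hF hF' n hn hR htf ρ₁ ρ₂ τ hτ ρ₃ hK) m

end

end Pool.Agent.Lib.MP_551055_al.JK
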